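import Mathlib

/-!
Derivations: extension to the field of fractions, quotients, coefficients of polynomials in several
variables.
-/

set_option autoImplicit false
set_option linter.unusedSectionVars false

noncomputable section

namespace Pool.Agent.Lef3

open MvPolynomial TrivSqZeroExt

universe u v

section dual

variable {B : Type u} [CommRing B]

/-- the derivation given by a section of the dual numbers -/
private def derOf_Der (φ : B →+* DualNumber B) (h : ∀ b, (φ b).fst = b) : Derivation ℤ B B :=
  Derivation.mk' (AddMonoidHom.toIntLinearMap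
    { toFun := fun b => (φ b).snd
      map_zero' := by simp
      map_add' := fun a b => by simp }) fun a b => by
    simp only [AddMonoidHom.coe_toIntLinearMap, AddMonoidHom.coe_mk, ZeroHom.coe_mk, map_mul,
      snd_mul, h, smul_eq_mul, MulOpposite.smul_eq_mul_unop, MulOpposite.unop_op]
    ring

private lemma derOf_apply_Der (φ : B →+* DualNumber B) (h : ∀ b, (φ b).fst = b) (b : B) :
    derOf_Der φ h b = (φ b).snd := rfl

/-- the homomorphism to the dual numbers given by a homomorphism and a derivation -/
private def homOf_Der {A : Type v} [CommRing A] (f : A →+* B) (D : Derivation ℤ A A) :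
    A →+* DualNumber B where
  toFun a := inl (f a) + inr (f (D a))
  map_one' := by
    simp
  map_mul' a b := by
    ext
    · simp
    · simp only [Derivation.leibniz, smul_eq_mul, map_add, map_mul, snd_add, snd_inl, snd_inr,
        zero_add, snd_mul, fst_add, fst_inl, fst_inr, add_zero, MulOpposite.smul_eq_mul_unop,
        MulOpposite.unop_op]
      ring
  map_zero' := by simp
  map_add' a b := by
    ext
    · simp
    · simp

private lemma fst_homOf_Der {A : Type v} [CommRing A] (f : A →+* B) (D : Derivation ℤ A A)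
    (a : A) : (homOf_Der f D a).fst = f a := by
  change (inl (f a) + inr (f (D a)) : DualNumber B).fst = f a
  rw [fst_add, fst_inl, fst_inr, add_zero]

private lemma snd_homOf_Der {A : Type v} [CommRing A] (f : A →+* B) (D : Derivation ℤ A A)
    (a : A) : (homOf_Der f D a).snd = f (D a) := by
  change (inl (f a) + inr (f (D a)) : DualNumber B).snd = f (D a)
  rw [snd_add, snd_inl, snd_inr, zero_add]

end dual

/-- Extension of a derivation to the field of fractions. -/
theorem exists_fd {A L : Type u} [CommRing A] [IsDomain A] [Field L] [Algebra A L]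
    [IsFractionRing A L] (D : Derivation ℤ A A) :
    ∃ D' : Derivation ℤ L L, ∀ a, D' (algebraMap A L a) = algebraMap A L (D a) := by
  let g := homOf_Der (algebraMap A L) D
  have hg : ∀ y : nonZeroDivisors A, IsUnit (g y) := by
    intro y
    rw [isUnit_iff_isUnit_fst]
    rw [fst_homOf_Der, isUnit_iff_ne_zero]
    exact IsFractionRing.to_map_ne_zero_of_mem_nonZeroDivisors y.2
  let φ : L →+* DualNumber L := IsLocalization.lift hg
  have hφ : ∀ a, φ (algebraMap A L a) = g a := IsLocalization.lift_eq hg
  have hfst : ∀ b, (φ b).fst = b := by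
    intro b
    have h1 : (fstHom L L L : DualNumber L →+* L).comp φ = RingHom.id L := by
      apply IsLocalization.ringHom_ext (nonZeroDivisors A)
      ext a
      simp only [RingHom.comp_apply, hφ, RingHom.id_apply]
      exact fst_homOf_Der _ _ _
    exact congrArg (fun f : L →+* L => f b) h1
  refine ⟨derOf_Der φ hfst, fun a => ?_⟩
  rw [derOf_apply_Der, hφ, snd_homOf_Der]

/-- a derivation of a field which vanishes on a subring with this field of fractions is zero -/
lemma der_eq_zero {A L : Type u} [CommRing A] [IsDomain A] [Field L] [Algebra A L]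
    [IsFractionRing A L] (D : Derivation ℤ L L) (h : ∀ a, D (algebraMap A L a) = 0) (x : L) :
    D x = 0 := by
  obtain ⟨a, b, -, rfl⟩ := IsFractionRing.div_surjective (A := A) x
  rw [Derivation.leibniz_div, h, h]
  simp

/-- the extensions of commuting derivations commute -/
lemma comm_of_comm {A L : Type u} [CommRing A] [IsDomain A] [Field L] [Algebra A L]
    [IsFractionRing A L] {D₁ D₂ : Derivation ℤ A A} (hc : ∀ a, D₁ (D₂ a) = D₂ (D₁ a))
    {E₁ E₂ : Derivation ℤ L L} (h1 : ∀ a, E₁ (algebraMap A L a) = algebraMap A L (D₁ a))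
    (h2 : ∀ a, E₂ (algebraMap A L a) = algebraMap A L (D₂ a)) (x : L) :
    E₁ (E₂ x) = E₂ (E₁ x) := by
  have := der_eq_zero (A := A) ⁅E₁, E₂⁆ (fun a => by
    rw [Derivation.commutator_apply, h2, h1, h1, h2, hc, sub_self]) x
  rwa [Derivation.commutator_apply, sub_eq_zero] at this

/-- The derivation of a quotient. -/
theorem exists_quot {A B : Type u} [CommRing A] [CommRing B] (f : A →+* B)
    (hf : Function.Surjective f) (D : Derivation ℤ A A) (hD : ∀ a, f a = 0 → f (D a) = 0) :
    ∃ D' : Derivation ℤ B B, ∀ a, D' (f a) = f (D a) := by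
  let g := homOf_Der f D
  have hker : RingHom.ker f ≤ RingHom.ker g := by
    intro a ha
    rw [RingHom.mem_ker] at ha ⊢
    ext
    · rw [fst_homOf_Der, ha, fst_zero]
    · rw [snd_homOf_Der, hD a ha, snd_zero]
  let φ : B →+* DualNumber B := RingHom.liftOfSurjective f hf ⟨g, hker⟩
  have hφ : ∀ a, φ (f a) = g a := fun a =>
    RingHom.liftOfRightInverse_comp_apply f _ _ ⟨g, hker⟩ a
  have hfst : ∀ b, (φ b).fst = b := by
    intro b
    obtain ⟨a, rfl⟩ := hf b
    rw [hφ, fst_homOf_Der]
  refine ⟨derOf_Der φ hfst, fun a => ?_⟩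
  rw [derOf_apply_Der, hφ, snd_homOf_Der]

/-- The residue field of a prime element and the derivation of it. -/
theorem exists_residue {A : Type u} [CommRing A] {P : A} (hP : Prime P)
    (hchar : ∀ n : ℕ, n ≠ 0 → ¬ P ∣ (n : A)) :
    ∃ (K : Type u) (_ : Field K) (_ : CharZero K) (π : A →+* K), (∀ a, π a = 0 ↔ P ∣ a) ∧
      ∀ D : Derivation ℤ A A, P ∣ D P →
        ∃ D' : Derivation ℤ K K, ∀ a, D' (π a) = π (D a) := by
  let I : Ideal A := Ideal.span {P}
  have hI : I.IsPrime := (Ideal.span_singleton_prime hP.ne_zero).2 hP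
  let B := A ⧸ I
  let K := FractionRing B
  let π : A →+* K := (algebraMap B K).comp (Ideal.Quotient.mk I)
  have hinj : Function.Injective (algebraMap B K) := IsFractionRing.injective B K
  have hπ : ∀ a, π a = 0 ↔ P ∣ a := by
    intro a
    change algebraMap B K (Ideal.Quotient.mk I a) = 0 ↔ _
    rw [map_eq_zero_iff _ hinj, Ideal.Quotient.eq_zero_iff_mem, Ideal.mem_span_singleton]
  have hK : CharZero K := by
    refine charZero_of_inj_zero fun n hn => ?_
    by_contra h0
    apply hchar n h0
    rw [← hπ, map_natCast]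
    exact hn
  refine ⟨K, inferInstance, hK, π, hπ, fun D hD => ?_⟩
  obtain ⟨D₁, h1⟩ := exists_quot (B := B) (Ideal.Quotient.mk I) Ideal.Quotient.mk_surjective D (by
    intro a ha
    rw [Ideal.Quotient.eq_zero_iff_mem, Ideal.mem_span_singleton] at ha ⊢
    obtain ⟨b, rfl⟩ := ha
    rw [Derivation.leibniz, smul_eq_mul, smul_eq_mul]
    exact dvd_add (dvd_mul_right _ _) (hD.mul_left b))
  obtain ⟨D₂, h2⟩ := exists_fd (L := K) D₁
  exact ⟨D₂, fun a => by
    change D₂ (algebraMap B K (Ideal.Quotient.mk I a)) =
      algebraMap B K (Ideal.Quotient.mk I (D a))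
    rw [h2, h1]⟩

section coeffs

variable {σ : Type v} {A : Type u} [CommRing A]

private def cDfun_Der (D : Derivation ℤ A A) (p : MvPolynomial σ A) : MvPolynomial σ A :=
  ∑ m ∈ p.support, monomial m (D (p.coeff m))

private lemma coeff_cDfun_Der (D : Derivation ℤ A A) (p : MvPolynomial σ A) (m : σ →₀ ℕ) :
    (cDfun_Der D p).coeff m = D (p.coeff m) := by
  classical
  rw [cDfun_Der, coeff_sum]
  simp only [coeff_monomial]
  rw [Finset.sum_ite_eq' p.support m]
  split_ifs with h
  · rfl
  · rw [notMem_support_iff.1 h, map_zero]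

/-- The derivation `D` applied to the coefficients of polynomials in several variables. -/
def cD (D : Derivation ℤ A A) : Derivation ℤ (MvPolynomial σ A) (MvPolynomial σ A) :=
  Derivation.mk' (AddMonoidHom.toIntLinearMap
    { toFun := cDfun_Der D
      map_zero' := by
        ext m
        rw [coeff_cDfun_Der, coeff_zero, map_zero]
      map_add' := fun p q => by
        ext m
        rw [coeff_cDfun_Der, coeff_add, coeff_add, coeff_cDfun_Der, coeff_cDfun_Der,
          map_add] }) fun p q => by
    classical
    change cDfun_Der D (p * q) = p * cDfun_Der D q + q * cDfun_Der D p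
    ext m
    rw [coeff_cDfun_Der, coeff_add, mul_comm q, coeff_mul, coeff_mul, coeff_mul, map_sum,
      ← Finset.sum_add_distrib]
    refine Finset.sum_congr rfl fun x _ => ?_
    rw [coeff_cDfun_Der, coeff_cDfun_Der, Derivation.leibniz, smul_eq_mul, smul_eq_mul]
    ring

lemma coeff_cD (D : Derivation ℤ A A) (p : MvPolynomial σ A) (m : σ →₀ ℕ) :
    (cD D p).coeff m = D (p.coeff m) := coeff_cDfun_Der D p m

@[simp] lemma cD_C (D : Derivation ℤ A A) (a : A) : cD D (C a : MvPolynomial σ A) = C (D a) := by
  classical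
  ext m
  rw [coeff_cD, coeff_C, coeff_C]
  split_ifs <;> simp

@[simp] lemma cD_X (D : Derivation ℤ A A) (i : σ) : cD D (X i : MvPolynomial σ A) = 0 := by
  classical
  ext m
  rw [coeff_cD, coeff_X, coeff_zero]
  split_ifs <;> simp

lemma cD_mul (D : Derivation ℤ A A) (p q : MvPolynomial σ A) :
    cD D (p * q) = p * cD D q + q * cD D p := by
  rw [Derivation.leibniz, smul_eq_mul, smul_eq_mul]

lemma cD_pow (D : Derivation ℤ A A) (p : MvPolynomial σ A) (n : ℕ) :
    cD D (p ^ n) = (n : MvPolynomial σ A) * p ^ (n - 1) * cD D p := by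
  rw [Derivation.leibniz_pow, nsmul_eq_mul, smul_eq_mul, mul_assoc]

lemma cD_comm {D D' : Derivation ℤ A A} (h : ∀ x, D (D' x) = D' (D x)) (p : MvPolynomial σ A) :
    cD D (cD D' p) = cD D' (cD D p) := by
  ext m
  simp only [coeff_cD, h]

lemma cD_isHomogeneous (D : Derivation ℤ A A) {p : MvPolynomial σ A} {n : ℕ}
    (hp : p.IsHomogeneous n) : (cD D p).IsHomogeneous n := by
  intro m hm
  apply hp
  intro h0
  apply hm
  rw [coeff_cD, h0, map_zero]

/-- a polynomial whose coefficients are constants -/
lemma cD_map_zero {F : Type*} [CommRing F] (f : F →+* A) (D : Derivation ℤ A A)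
    (h : ∀ a, D (f a) = 0) (p : MvPolynomial σ F) : cD D (MvPolynomial.map f p) = 0 := by
  ext m
  rw [coeff_cD, coeff_map, h, coeff_zero]

/-- coefficientwise derivations and homomorphisms of the coefficients -/
lemma cD_map {B : Type*} [CommRing B] (f : A →+* B) (D : Derivation ℤ A A)
    (D' : Derivation ℤ B B) (h : ∀ a, D' (f a) = f (D a)) (p : MvPolynomial σ A) :
    cD D' (MvPolynomial.map f p) = MvPolynomial.map f (cD D p) := by
  ext m
  rw [coeff_cD, coeff_map, coeff_map, coeff_cD, h]

/-- coefficientwise derivations and evaluation at a point killed by the derivation -/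
lemma cD_eval₂ {B : Type*} [CommRing B] (f : A →+* B) (D : Derivation ℤ A A)
    (D' : Derivation ℤ B B) (h : ∀ a, D' (f a) = f (D a)) (t : σ → B) (ht : ∀ i, D' (t i) = 0)
    (p : MvPolynomial σ A) : D' (eval₂ f t p) = eval₂ f t (cD D p) := by
  induction p using MvPolynomial.induction_on with
  | C a => rw [eval₂_C, cD_C, eval₂_C, h]
  | add p q hp hq => rw [eval₂_add, map_add, hp, hq, map_add, eval₂_add]
  | mul_X p i hp =>
    rw [eval₂_mul, eval₂_X, Derivation.leibniz, ht, smul_zero, zero_add, hp, cD_mul, cD_X,
      mul_zero, zero_add, eval₂_mul, eval₂_X, smul_eq_mul]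

end coeffs

end Pool.Agent.Lef3
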