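import Pool.Agent.LefProd.Types
import Pool.Agent.Lef3.Der

/-!
The generic linear form, the derivations in its coefficients, and elements with coefficients which
are polynomials in the coefficients of the generic linear form.
-/

set_option autoImplicit false
set_option linter.unusedSectionVars false

noncomputable section

namespace Pool.Agent.Lef3

open MvPolynomial Pool.Agent.LefProd

universe u

variable {F : Type u} [Field F]

/-- The polynomials in the coefficients of the generic linear form. -/
abbrev Lam (F : Type u) [Field F] : Type u := MvPolynomial (Fin 3) F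

/-- The derivative in the direction `g`. -/
def pd (g : Fin 3 → F) : Derivation ℤ (Lam F) (Lam F) :=
  (mkDerivation F (fun i => (C (g i) : Lam F))).restrictScalars ℤ

lemma pd_X (g : Fin 3 → F) (i : Fin 3) : pd g (X i : Lam F) = C (g i) := by
  change mkDerivation F (fun i => (C (g i) : Lam F)) (X i) = _
  rw [mkDerivation_X]

lemma pd_C (g : Fin 3 → F) (a : F) : pd g (C a : Lam F) = 0 := by
  exact Derivation.map_algebraMap (mkDerivation F (fun i => (C (g i) : Lam F))) a

lemma pd_mul (g : Fin 3 → F) (p q : Lam F) : pd g (p * q) = p * pd g q + q * pd g p := by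
  rw [Derivation.leibniz, smul_eq_mul, smul_eq_mul]

lemma pd_comm (g g' : Fin 3 → F) (p : Lam F) : pd g (pd g' p) = pd g' (pd g p) := by
  induction p using MvPolynomial.induction_on with
  | C a => rw [pd_C, pd_C, map_zero, map_zero]
  | add p q hp hq => rw [map_add, map_add, map_add, map_add, hp, hq]
  | mul_X p i hp =>
    rw [pd_mul, pd_mul, map_add, map_add, pd_mul, pd_mul, pd_mul, pd_mul, pd_X, pd_X, pd_C, pd_C,
      hp]
    ring

/-- the derivative in the direction of a linear combination -/
lemma pd_eq_sum (g : Fin 3 → F) (p : Lam F) :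
    pd g p = ∑ i, C (g i) * pd (Pi.single i 1) p := by
  induction p using MvPolynomial.induction_on with
  | C a => simp [pd_C]
  | add p q hp hq =>
    simp only [map_add, hp, hq, mul_add, Finset.sum_add_distrib]
  | mul_X p i hp =>
    rw [pd_mul, pd_X, hp]
    simp only [pd_mul, pd_X, mul_add, Finset.sum_add_distrib, Finset.mul_sum]
    congr 1
    · rw [Finset.sum_eq_single i]
      · rw [Pi.single_eq_same, C_1]
        ring
      · intro j _ hj
        rw [Pi.single_eq_of_ne (Ne.symm hj), C_0]
        ring
      · simp
    · refine Finset.sum_congr rfl fun j _ => ?_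
      ring

/-- the vector `v` with coefficients in an extension -/
def up (L : Type u) [Field L] [Algebra F L] (v : Fin 3 → F) : Fin 3 → L :=
  fun i => algebraMap F L (v i)

lemma lin_up (L : Type u) [Field L] [Algebra F L] (v : Fin 3 → F) :
    lin (up L v) = MvPolynomial.map (algebraMap F L) (lin v) := by
  rw [lin_apply, lin_apply, map_sum]
  refine Finset.sum_congr rfl fun i _ => ?_
  rw [smul_eq_C_mul, smul_eq_C_mul, map_mul, map_C, map_X, up]

lemma pr_up (L : Type u) [Field L] [Algebra F L] (l : List (Fin 3 → F)) :
    pr (l.map (up L)) = MvPolynomial.map (algebraMap F L) (pr l) := by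
  induction l with
  | nil => simp
  | cons v l ih => rw [List.map_cons, pr_cons, pr_cons, map_mul, ih, lin_up]

/-- The generic linear form `X 0 x + X 1 y + X 2 z`. -/
def gl (F : Type u) [Field F] : MvPolynomial (Fin 3) (Lam F) := ∑ i, C (X i) * X i

/-- a polynomial with constant coefficients -/
abbrev cst (p : MvPolynomial (Fin 3) F) : MvPolynomial (Fin 3) (Lam F) :=
  MvPolynomial.map (C : F →+* Lam F) p

/-- The element of `A_j` with the coordinates `w` in the basis of `LefProd.crd`. -/
def uu (I : Ideal (MvPolynomial (Fin 3) F)) {j : ℕ} (w : ix I j → Lam F) :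
    MvPolynomial (Fin 3) (Lam F) := ∑ i, C (w i) * cst ((crd I j).b i)

lemma uu_hom (I : Ideal (MvPolynomial (Fin 3) F)) {j : ℕ} (w : ix I j → Lam F) :
    (uu I w).IsHomogeneous j := by
  refine IsHomogeneous.sum _ _ _ fun i _ => ?_
  have h1 : (cst ((crd I j).b i)).IsHomogeneous j := ((crd I j).bh i).map _
  simpa using (isHomogeneous_C (Fin 3) (w i)).mul h1

end Pool.Agent.Lef3
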