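import Pool.Agent.Lef3.Base
import Pool.Agent.LefProd.EngineT

/-!
Constancy: a kernel element whose image on the component `x = 0` is, up to a factor, independent of
the generic linear form in the direction `x`, is zero.
-/

set_option autoImplicit false
set_option linter.unusedSectionVars false

noncomputable section

namespace Pool.Agent.Lef3

open MvPolynomial Pool.Agent.LefProd

universe u

variable {F : Type u} [Field F] [CharZero F]

/-! ### helpers -/

private lemma degree_Const {γ α : Polynomial F} (hγ : γ ≠ 0) (hα : α ≠ 0)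
    (h : γ * Polynomial.derivative α = Polynomial.derivative γ * α) :
    α.natDegree = γ.natDegree := by
  rcases Nat.eq_zero_or_pos α.natDegree with h0 | hn
  · have h1 : Polynomial.derivative α = 0 := Polynomial.derivative_of_natDegree_zero h0
    rw [h1, mul_zero, eq_comm, mul_eq_zero] at h
    have h2 := h.resolve_right hα
    rw [h0, Polynomial.derivative_eq_zero.1 h2]
  rcases Nat.eq_zero_or_pos γ.natDegree with h0 | hm
  · have h1 : Polynomial.derivative γ = 0 := Polynomial.derivative_of_natDegree_zero h0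
    rw [h1, zero_mul, mul_eq_zero] at h
    have h2 := h.resolve_left hγ
    rw [h0, Polynomial.derivative_eq_zero.1 h2]
  obtain ⟨n, hn'⟩ := Nat.exists_eq_succ_of_ne_zero hn.ne'
  obtain ⟨m, hm'⟩ := Nat.exists_eq_succ_of_ne_zero hm.ne'
  have d1 : (Polynomial.derivative α).natDegree ≤ n := by
    have := Polynomial.natDegree_derivative_le α
    omega
  have d2 : (Polynomial.derivative γ).natDegree ≤ m := by
    have := Polynomial.natDegree_derivative_le γ
    omega
  have e1 := Polynomial.coeff_mul_add_eq_of_natDegree_le (le_refl γ.natDegree) d1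
  have e2 := Polynomial.coeff_mul_add_eq_of_natDegree_le d2 (le_refl α.natDegree)
  have e3 : γ.natDegree + n = m + α.natDegree := by omega
  rw [h, e3, e2, Polynomial.coeff_derivative, Polynomial.coeff_derivative] at e1
  have e4 : γ.coeff (m + 1) = γ.coeff γ.natDegree := by rw [hm']
  have e5 : α.coeff (n + 1) = α.coeff α.natDegree := by rw [hn']
  rw [e4, e5] at e1
  have l1 : γ.coeff γ.natDegree ≠ 0 := Polynomial.leadingCoeff_ne_zero.2 hγ
  have l2 : α.coeff α.natDegree ≠ 0 := Polynomial.leadingCoeff_ne_zero.2 hα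
  have e6 : (γ.coeff γ.natDegree * α.coeff α.natDegree) * ((m : F) + 1) =
      (γ.coeff γ.natDegree * α.coeff α.natDegree) * ((n : F) + 1) := by
    linear_combination e1
  have e7 := mul_left_cancel₀ (mul_ne_zero l1 l2) e6
  have e8 : m = n := by exact_mod_cast add_right_cancel e7
  omega

private lemma prop_Const {γ α : Polynomial F} (hγ : γ ≠ 0)
    (h : γ * Polynomial.derivative α = Polynomial.derivative γ * α) :
    ∃ k : F, α = Polynomial.C k * γ := by
  by_cases hα : α = 0
  · exact ⟨0, by rw [hα, map_zero, zero_mul]⟩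
  refine ⟨α.leadingCoeff / γ.leadingCoeff, ?_⟩
  by_contra hne
  have hb : α - Polynomial.C (α.leadingCoeff / γ.leadingCoeff) * γ ≠ 0 := sub_ne_zero.2 hne
  have h1 : γ * Polynomial.derivative
      (α - Polynomial.C (α.leadingCoeff / γ.leadingCoeff) * γ) =
      Polynomial.derivative γ * (α - Polynomial.C (α.leadingCoeff / γ.leadingCoeff) * γ) := by
    rw [Polynomial.derivative_sub, Polynomial.derivative_C_mul]
    linear_combination h
  have h2 := degree_Const hγ hb h1
  have h3 := degree_Const hγ hα h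
  have h4 : (α - Polynomial.C (α.leadingCoeff / γ.leadingCoeff) * γ).leadingCoeff = 0 := by
    rw [Polynomial.leadingCoeff, h2, Polynomial.coeff_sub, Polynomial.coeff_C_mul]
    rw [← h3, Polynomial.coeff_natDegree, h3, Polynomial.coeff_natDegree,
      div_mul_cancel₀ _ (Polynomial.leadingCoeff_ne_zero.2 hγ), sub_self]
  exact hb (Polynomial.leadingCoeff_eq_zero.1 h4)

/-- specialisation of the coefficients along the line `ν + t x` -/
private def sp_Const (ν x : Fin 3 → F) : Lam F →ₐ[F] Polynomial F := aeval (cv ν x)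

private lemma sp_X_Const (ν x : Fin 3 → F) (l : Fin 3) : sp_Const ν x (X l) = cv ν x l :=
  aeval_X _ _

private lemma sp_C_Const (ν x : Fin 3 → F) (a : F) : sp_Const ν x (C a) = Polynomial.C a :=
  aeval_C _ _

private lemma sp_pd_Const (ν x : Fin 3 → F) (p : Lam F) :
    Polynomial.derivative (sp_Const ν x p) = sp_Const ν x (pd x p) := by
  induction p using MvPolynomial.induction_on with
  | C a => rw [sp_C_Const, pd_C, map_zero, Polynomial.derivative_C]
  | add p q hp hq => rw [map_add, map_add, map_add, map_add, hp, hq]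
  | mul_X p i hp =>
    rw [pd_mul, pd_X, map_mul (sp_Const ν x), map_add (sp_Const ν x), map_mul (sp_Const ν x),
      map_mul (sp_Const ν x), sp_C_Const, sp_X_Const, Polynomial.derivative_mul, hp]
    have h1 : Polynomial.derivative (cv ν x i) = Polynomial.C (x i) := by
      rw [cv]
      simp
    rw [h1]
    ring

private lemma eval_sp_Const (ν x : Fin 3 → F) (s : F) (p : Lam F) :
    (sp_Const ν x p).eval s = eval (ν + s • x) p := by
  induction p using MvPolynomial.induction_on with
  | C a => rw [sp_C_Const, Polynomial.eval_C, eval_C]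
  | add p q hp hq => rw [map_add, map_add, Polynomial.eval_add, hp, hq]
  | mul_X p i hp =>
    have h1 : (cv ν x i).eval s = (ν + s • x) i := by
      rw [cv, Pi.add_apply, Pi.smul_apply, smul_eq_mul]
      simp
      ring
    rw [map_mul, map_mul, Polynomial.eval_mul, hp, sp_X_Const, eval_X, h1]

private lemma Op_eval_Const (p : Lam F) : Op fun ν => eval ν p ≠ 0 := by
  classical
  intro ν h v
  have h0 : sp_Const ν v p ≠ 0 := by
    intro h0
    apply h
    have := eval_sp_Const ν v 0 p
    rw [h0, Polynomial.eval_zero, zero_smul, add_zero] at this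
    exact this.symm
  refine Set.Finite.subset ((sp_Const ν v p).roots.toFinset.finite_toSet) ?_
  intro s hs
  rw [Set.mem_ofPred_eq, not_not] at hs
  simp only [Multiset.mem_toFinset, Finset.mem_coe]
  rw [Polynomial.mem_roots h0, Polynomial.IsRoot, eval_sp_Const]
  exact hs

private lemma ex_eval_Const {p : Lam F} (hp : p ≠ 0) : ∃ ν : Fin 3 → F, eval ν p ≠ 0 := by
  have : Infinite F := CharZero.infinite F
  by_contra hc
  push Not at hc
  apply hp
  apply MvPolynomial.funext
  intro x
  rw [hc x, map_zero]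

/-- the specialisation of polynomials -/
private def Sp_Const (ν x : Fin 3 → F) :
    MvPolynomial (Fin 3) (Lam F) →+* Polynomial (MvPolynomial (Fin 3) F) :=
  eval₂Hom ((Polynomial.mapRingHom (C : F →+* MvPolynomial (Fin 3) F)).comp
    (sp_Const ν x : Lam F →+* Polynomial F)) fun i => Polynomial.C (X i)

private lemma Sp_C_Const (ν x : Fin 3 → F) (p : Lam F) :
    Sp_Const ν x (C p) = cR (sp_Const ν x p) := by
  rw [Sp_Const, eval₂Hom_C]
  rfl

private lemma Sp_X_Const (ν x : Fin 3 → F) (i : Fin 3) :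
    Sp_Const ν x (X i) = Polynomial.C (X i) := by
  rw [Sp_Const, eval₂Hom_X']

private lemma Sp_cst_Const (ν x : Fin 3 → F) (p : MvPolynomial (Fin 3) F) :
    Sp_Const ν x (cst p) = Polynomial.C p := by
  induction p using MvPolynomial.induction_on with
  | C a =>
    rw [cst, map_C, Sp_C_Const, sp_C_Const, cR, Polynomial.map_C]
  | add p q hp hq =>
    rw [cst] at hp hq ⊢
    rw [map_add, map_add, map_add, hp, hq]
  | mul_X p i hp =>
    rw [cst] at hp ⊢
    rw [map_mul, map_mul, map_mul, hp, map_X, Sp_X_Const]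

private lemma Sp_gen_Const {A : Type*} [CommRing A] (σ : A →+* Polynomial F)
    (D : Derivation ℤ A A) (hD : ∀ a, Polynomial.derivative (σ a) = σ (D a))
    (p : MvPolynomial (Fin 3) A) :
    Polynomial.derivative (eval₂Hom ((Polynomial.mapRingHom
      (C : F →+* MvPolynomial (Fin 3) F)).comp σ) (fun i => Polynomial.C (X i)) p) =
    eval₂Hom ((Polynomial.mapRingHom (C : F →+* MvPolynomial (Fin 3) F)).comp σ)
      (fun i => Polynomial.C (X i)) (cD D p) := by
  induction p using MvPolynomial.induction_on with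
  | C a =>
    rw [cD_C, eval₂Hom_C, eval₂Hom_C, RingHom.comp_apply, RingHom.comp_apply,
      Polynomial.coe_mapRingHom, Polynomial.derivative_map, hD]
  | add p q hp hq => rw [map_add, map_add, map_add, map_add, hp, hq]
  | mul_X p i hp =>
    rw [cD_mul, cD_X, mul_zero, zero_add, RingHom.map_mul, RingHom.map_mul, eval₂Hom_X',
      Polynomial.derivative_mul, Polynomial.derivative_C, mul_zero, add_zero, hp]
    ring

private lemma Sp_der_Const (ν x : Fin 3 → F) (p : MvPolynomial (Fin 3) (Lam F)) :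
    Polynomial.derivative (Sp_Const ν x p) = Sp_Const ν x (cD (pd x) p) :=
  Sp_gen_Const (sp_Const ν x : Lam F →+* Polynomial F) (pd x) (fun a => sp_pd_Const ν x a) p

private lemma Sp_uu_Const (ν x : Fin 3 → F) (I : Ideal (MvPolynomial (Fin 3) F)) {j : ℕ}
    (w : ix I j → Lam F) :
    Sp_Const ν x (uu I w) = elp I j fun i => sp_Const ν x (w i) := by
  rw [uu, map_sum, elp]
  refine Finset.sum_congr rfl fun i _ => ?_
  rw [map_mul, Sp_C_Const, Sp_cst_Const]

private lemma Sp_ideal_Const (ν x : Fin 3 → F) (I : Ideal (MvPolynomial (Fin 3) F))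
    {p : MvPolynomial (Fin 3) (Lam F)}
    (hp : p ∈ I.map (MvPolynomial.map (C : F →+* Lam F))) : Sp_Const ν x p ∈ PI I := by
  have h1 : (Sp_Const ν x).comp (MvPolynomial.map (C : F →+* Lam F)) =
      (Polynomial.C : MvPolynomial (Fin 3) F →+* _) :=
    RingHom.ext fun q => Sp_cst_Const ν x q
  rw [PI, ← h1, ← Ideal.map_map]
  exact Ideal.mem_map_of_mem _ hp

/-- proportional coefficients -/
private lemma dep_Const {I : Ideal (MvPolynomial (Fin 3) F)} {j : ℕ} {γ : Polynomial F}
    (hγ : γ ≠ 0) {a : Polynomial (MvPolynomial (Fin 3) F)} (ha : HP a j)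
    (h : cR γ * Polynomial.derivative a - cR (Polynomial.derivative γ) * a ∈ PI I) (i i0 : ℕ) :
    ∃ x y : F, (x ≠ 0 ∨ y ≠ 0) ∧ C x * a.coeff i + C y * a.coeff i0 ∈ I := by
  have hda : HP (Polynomial.derivative a) j := ha.derivative
  have h1 : HP (cR γ * Polynomial.derivative a) j := by
    simpa using (HP.cR γ).mul hda
  have h2 : HP (cR (Polynomial.derivative γ) * a) j := by
    simpa using (HP.cR (Polynomial.derivative γ)).mul ha
  rw [← cop_eq_zero_iff (h1.sub h2)] at h
  have hcd : ∀ k, cop I j (Polynomial.derivative a) k = Polynomial.derivative (cop I j a k) := by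
    intro k
    ext d
    rw [coeff_cop, Polynomial.coeff_derivative, Polynomial.coeff_derivative, coeff_cop, co, co]
    have e1 : a.coeff (d + 1) * ((d : MvPolynomial (Fin 3) F) + 1) =
        ((d : F) + 1) • a.coeff (d + 1) := by
      rw [smul_eq_C_mul, map_add, map_natCast, map_one, mul_comm]
    rw [e1, map_smul, smul_eq_mul, mul_comm]
  have hrel : ∀ k, γ * Polynomial.derivative (cop I j a k) =
      Polynomial.derivative γ * cop I j a k := by
    intro k
    have e1 := cop_add (I := I) (j := j)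
      (cR γ * Polynomial.derivative a - cR (Polynomial.derivative γ) * a)
      (cR (Polynomial.derivative γ) * a)
    rw [sub_add_cancel, h, zero_add, cop_cR_mul, cop_cR_mul] at e1
    have e2 := congrFun e1 k
    rw [Pi.smul_apply, Pi.smul_apply, smul_eq_mul, smul_eq_mul, hcd] at e2
    exact e2
  have hk : ∀ k, ∃ κ : F, cop I j a k = Polynomial.C κ * γ := fun k => prop_Const hγ (hrel k)
  choose κ hκ using hk
  have hco : ∀ d k, co I j (a.coeff d) k = κ k * γ.coeff d := by
    intro d k
    rw [← coeff_cop, hκ, Polynomial.coeff_C_mul]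
  have hlin : ∀ x y : F, (∀ k, x * (κ k * γ.coeff i) + y * (κ k * γ.coeff i0) = 0) →
      C x * a.coeff i + C y * a.coeff i0 ∈ I := by
    intro x y hxy
    have hh : (C x * a.coeff i + C y * a.coeff i0).IsHomogeneous j := by
      have e1 := (isHomogeneous_C (Fin 3) x).mul (ha i)
      have e2 := (isHomogeneous_C (Fin 3) y).mul (ha i0)
      rw [zero_add] at e1 e2
      exact e1.add e2
    rw [← co_eq_zero_iff hh]
    funext k
    have e1 : co I j (C x * a.coeff i + C y * a.coeff i0) k =
        x * co I j (a.coeff i) k + y * co I j (a.coeff i0) k := by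
      simp only [co, map_add, ← smul_eq_C_mul, map_smul, smul_eq_mul]
    rw [e1, hco, hco]
    exact hxy k
  by_cases h0 : γ.coeff i = 0 ∧ γ.coeff i0 = 0
  · exact ⟨1, 0, Or.inl one_ne_zero, hlin 1 0 fun k => by rw [h0.1]; ring⟩
  · refine ⟨γ.coeff i0, -γ.coeff i, ?_, hlin _ _ fun k => by ring⟩
    rw [not_and_or] at h0
    rcases h0 with h | h
    · right; simpa using h
    · left; exact h

/-- Specialise: `a (t) = ∑ i (w i) (ν + t x) * b i` for a generic `ν` (all of: `w (ν + t x) ≠ 0`,
`c (ν + t x) ≠ 0` as polynomials in `t`, and the conditions `G1`, ..., `G4` of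
`LefProd.engineG0` for `ν`, which are open: `LefProd.three_slp` for `J ⊥ [g, l₂, l₃]` and
`LefProd.two_EX` for the component). `hrel` gives `c a' = c' a` modulo the ideal of the component,
so all coefficients of `a` are multiples of one vector there (condition `G5`). So `engineG0` gives
`a = 0`, a contradiction. -/
theorem const_false {x : Fin 3 → F} {g l₂ l₃ : List (Fin 3 → F)}
    (hci : CI ⊥ [x :: g, l₂, l₃]) (hg : g.length = 2) {s j : ℕ} (hs : 1 ≤ s)
    (hsj : 2 * j + s = sg [x :: g, l₂, l₃]) (w : ix (J ⊥ [x :: g, l₂, l₃]) j → Lam F)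
    (hw0 : w ≠ 0) (hker : Matrix.mulVec (GW (J ⊥ [x :: g, l₂, l₃]) j s) w = 0)
    {c : Lam F} (hc : c ≠ 0)
    (hrel : C c * cD (pd x) (uu _ w) - C (pd x c) * uu _ w ∈
      (J (Submodule.span F {x}) [l₂, l₃]).map (MvPolynomial.map (C : F →+* Lam F))) : False := by
  have hinf : Infinite F := CharZero.infinite F
  obtain ⟨i0, hi0⟩ : ∃ i0, w i0 ≠ 0 := by
    by_contra hcon
    push Not at hcon
    exact hw0 (_root_.funext hcon)
  have hg0 : g ≠ [] := by
    rintro rfl
    simp at hg
  have hsg : sg [x :: g, l₂, l₃] = 2 + sg [l₂, l₃] := by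
    rw [sg_cons, List.length_cons, hg]
  have hsg' : sg [g, l₂, l₃] = 1 + sg [l₂, l₃] := by
    rw [sg_cons, hg]
  have hW : Module.finrank F (⊥ : Submodule F (Fin 3 → F)) + 3 = 3 := by simp
  have hci' : CI ⊥ [g, l₂, l₃] := hci.tail_list hg0
  have hci'' : CI (⊥ ⊔ Submodule.span F {x}) [l₂, l₃] := hci.sup
  have hW'' : Module.finrank F ↥((⊥ : Submodule F (Fin 3 → F)) ⊔ Submodule.span F {x}) + 2 = 3 := by
    rw [finrank_sup hci.2.1.head.1, finrank_bot]
  have E1 : 1 ≤ j → ∃ ν, LI (J ⊥ [g, l₂, l₃]) ν s (j - 1) := fun hj =>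
    three_slp hW hg.le hci' (by omega)
  have E2 : ∃ ν, LI (J ⊥ [g, l₂, l₃]) ν (s - 1) j := three_slp hW hg.le hci' (by omega)
  have E3 : 1 ≤ j → ∃ ν, LI (J ⊥ [g, l₂, l₃]) ν (s + 1) (j - 1) := fun hj =>
    three_slp hW hg.le hci' (by omega)
  have E4 : g.length ≤ j → ∃ ν, LI (J (⊥ ⊔ Submodule.span F {x}) [l₂, l₃]) ν s
      (j - g.length) := fun hj => two_EX hW'' hci'' (by omega)
  have O1 := Op_imp (1 ≤ j) (Op_LI (J ⊥ [g, l₂, l₃]) s (j - 1))
  have O2 := Op_LI (J ⊥ [g, l₂, l₃]) (s - 1) j
  have O3 := Op_imp (1 ≤ j) (Op_LI (J ⊥ [g, l₂, l₃]) (s + 1) (j - 1))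
  have O4 := Op_imp (g.length ≤ j) (Op_LI (J (⊥ ⊔ Submodule.span F {x}) [l₂, l₃]) s
    (j - g.length))
  have O5 := Op_eval_Const (w i0)
  have O6 := Op_eval_Const c
  have A5 := O5.common O6 (ex_eval_Const hi0) (ex_eval_Const hc)
  have A4 := O4.common (O5.and O6) (ex_imp E4) A5
  have A3 := O3.common (O4.and (O5.and O6)) (ex_imp E3) A4
  have A2 := O2.common (O3.and (O4.and (O5.and O6))) E2 A3
  obtain ⟨ν, h1, h2, h3, h4, h5, h6⟩ :=
    O1.common (O2.and (O3.and (O4.and (O5.and O6)))) (ex_imp E1) A2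
  have hnz : ∀ p : Lam F, eval ν p ≠ 0 → sp_Const ν x p ≠ 0 := by
    intro p hp h0
    apply hp
    have := eval_sp_Const ν x 0 p
    rw [h0, Polynomial.eval_zero, zero_smul, add_zero] at this
    exact this.symm
  have ha : HP (elp (J ⊥ [x :: g, l₂, l₃]) j fun i => sp_Const ν x (w i)) j := elp_HP j _
  have H : (mus ν x) ^ s * (elp _ j fun i => sp_Const ν x (w i)) ∈
      PI (J ⊥ [x :: g, l₂, l₃]) := by
    have hh : HP ((mus ν x) ^ s *
        (elp (J ⊥ [x :: g, l₂, l₃]) j fun i => sp_Const ν x (w i))) (j + s) := by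
      have := ((HP.mus ν x).pow s).mul ha
      rwa [one_mul, add_comm] at this
    rw [← cop_eq_zero_iff hh, cop_mus_pow ν x s ha, cop_elp]
    have e1 : (GW (J ⊥ [x :: g, l₂, l₃]) j s).map (sp_Const ν x) =
        Pw (J ⊥ [x :: g, l₂, l₃]) (cv ν x) j s := by
      rw [GW, Pw_map]
      congr 1
      refine _root_.funext fun l => ?_
      exact sp_X_Const ν x l
    rw [← e1]
    refine _root_.funext fun k => ?_
    have e2 := RingHom.map_mulVec (sp_Const ν x : Lam F →+* Polynomial F)
      (GW (J ⊥ [x :: g, l₂, l₃]) j s) w k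
    rw [hker, Pi.zero_apply, map_zero] at e2
    exact e2.symm
  have hrel' := Sp_ideal_Const ν x _ hrel
  rw [map_sub, map_mul, map_mul, Sp_C_Const, Sp_C_Const, ← Sp_der_Const, Sp_uu_Const,
    ← sp_pd_Const] at hrel'
  have hJ : J (Submodule.span F {x}) [l₂, l₃] = J (⊥ ⊔ Submodule.span F {x}) [l₂, l₃] := by
    rw [bot_sup_eq]
  rw [hJ] at hrel'
  have key := engineG0 hci hs h1 h2 h3 h4 ha H fun i i' => dep_Const (hnz c h6) ha hrel' i i'
  rw [← cop_eq_zero_iff ha, cop_elp] at key
  exact hnz _ h5 (congrFun key i0)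

end Pool.Agent.Lef3
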