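import Pool.Agent.LefProd.Dual
import Pool.Agent.Lef3.Der

/-!
The four formulas for a solution of `l ^ s u = f₂ v + f₃ k` modulo a form `f₁` of degree three.
-/

set_option autoImplicit false
set_option linter.unusedSectionVars false

noncomputable section

namespace Pool.Agent.Lef3

open MvPolynomial Pool.Agent.LefProd

universe u

variable {L : Type u} [Field L]

/-- a linear form evaluated at a point -/
lemma eval_lin (v e : Fin 3 → L) : eval e (lin v) = ∑ i, v i * e i := by
  rw [lin_apply, map_sum]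
  refine Finset.sum_congr rfl fun i _ => ?_
  rw [smul_eval, eval_X]

/-- A linear map on a plane in three-space for which every vector of the plane is an eigenvector. -/
theorem exists_scalar {l : Fin 3 → L} (hl : l ≠ 0) (M : Fin 3 → Fin 3 → L)
    (h : ∀ e : Fin 3 → L, ∑ j, l j * e j = 0 → ∀ i i' : Fin 3,
      (∑ j, M i j * e j) * e i' = (∑ j, M i' j * e j) * e i) :
    ∃ (mu : L) (nu : Fin 3 → L), ∀ i j, M i j = (if i = j then mu else 0) + nu i * l j := by
  obtain ⟨a, ha⟩ : ∃ a, l a ≠ 0 := by
    by_contra hcon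
    push Not at hcon
    exact hl (funext hcon)
  -- the basis of the plane
  let e : Fin 3 → Fin 3 → L := fun b => Pi.single b (l a) - Pi.single a (l b)
  have he : ∀ b, ∑ j, l j * e b j = 0 := by
    intro b
    simp only [e, Pi.sub_apply, mul_sub, Finset.sum_sub_distrib]
    simp [Pi.single_apply, mul_comm]
  have hM : ∀ b i, ∑ j, M i j * e b j = M i b * l a - M i a * l b := by
    intro b i
    simp only [e, Pi.sub_apply, mul_sub, Finset.sum_sub_distrib]
    simp [Pi.single_apply]
  have heb : ∀ b i, e b i = (if i = b then l a else 0) - (if i = a then l b else 0) := by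
    intro b i
    simp [e, Pi.single_apply]
  -- the eigenvalue of a basis vector
  have hc : ∀ b, b ≠ a → ∀ i, M i b * l a - M i a * l b =
      (M b b * l a - M b a * l b) / l a * e b i := by
    intro b hb i
    have h1 := h (e b) (he b) i b
    rw [hM, hM] at h1
    have h2 : e b b = l a := by rw [heb, if_pos rfl, if_neg hb, sub_zero]
    rw [h2] at h1
    field_simp
    linear_combination h1
  have hcc : ∀ b b', b ≠ a → b' ≠ a → (M b b * l a - M b a * l b) / l a =
      (M b' b' * l a - M b' a * l b') / l a := by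
    intro b b' hb hb'
    by_cases hbb : b = b'
    · rw [hbb]
    have hsum : ∑ j, l j * (e b + e b') j = 0 := by
      simp only [Pi.add_apply, mul_add, Finset.sum_add_distrib, he, add_zero]
    have h1 := h (e b + e b') hsum b b'
    simp only [Pi.add_apply, mul_add, Finset.sum_add_distrib, hM] at h1
    rw [hc b hb b, hc b' hb' b, hc b hb b', hc b' hb' b'] at h1
    have e1 : e b b = l a := by rw [heb, if_pos rfl, if_neg hb, sub_zero]
    have e2 : e b' b' = l a := by rw [heb, if_pos rfl, if_neg hb', sub_zero]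
    have e3 : e b b' = 0 := by rw [heb, if_neg (Ne.symm hbb), if_neg hb', sub_zero]
    have e4 : e b' b = 0 := by rw [heb, if_neg hbb, if_neg hb, sub_zero]
    rw [e1, e2, e3, e4] at h1
    apply mul_right_cancel₀ (mul_ne_zero ha ha)
    linear_combination h1
  obtain ⟨b0, hb0⟩ : ∃ b : Fin 3, b ≠ a := exists_ne a
  set mu := (M b0 b0 * l a - M b0 a * l b0) / l a with hmu
  refine ⟨mu, fun i => (M i a - if i = a then mu else 0) / l a, fun i j => ?_⟩
  by_cases hj : j = a
  · rw [hj]
    field_simp
    ring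
  · have h1 := hc j hj i
    rw [hcc j b0 hj hb0, ← hmu, heb] at h1
    have h2 : (if i = j then l a else 0) = (if i = j then (1 : L) else 0) * l a := by
      split_ifs <;> simp
    have h3 : (if i = a then l j else 0) = (if i = a then (1 : L) else 0) * l j := by
      split_ifs <;> simp
    have h4 : (if i = j then mu else 0) = (if i = j then (1 : L) else 0) * mu := by
      split_ifs <;> simp
    have h5 : (if i = a then mu else 0) = (if i = a then (1 : L) else 0) * mu := by
      split_ifs <;> simp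
    rw [h2, h3] at h1
    beta_reduce
    rw [h4, h5]
    field_simp
    linear_combination h1

private lemma comp_Cub {f l X A m : MvPolynomial (Fin 3) L} {d t r : ℕ} (hf : f.IsHomogeneous 3)
    (hl : l.IsHomogeneous t) (hX : X.IsHomogeneous d) (hr : r + t = d)
    (h : X = f * A + l * m) : ∃ A' m' : MvPolynomial (Fin 3) L, X = f * A' + l * m' ∧
      m'.IsHomogeneous r := by
  have h1 := congrArg (homogeneousComponent d) h
  rw [homogeneousComponent_of_mem hX, if_pos rfl, map_add, hc_mul hf, hc_mul hl,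
    if_pos (show t ≤ d by omega)] at h1
  refine ⟨if 3 ≤ d then homogeneousComponent (d - 3) A else 0, homogeneousComponent (d - t) m,
    ?_, ?_⟩
  · rw [h1]
    split_ifs <;> simp
  · have : d - t = r := by omega
    rw [this]
    exact homogeneousComponent_isHomogeneous r m

private lemma cancel_pow_Cub {f l : MvPolynomial (Fin 3) L} (h : ∀ X, f ∣ l * X → f ∣ X) :
    ∀ (n : ℕ) (X : MvPolynomial (Fin 3) L), f ∣ l ^ n * X → f ∣ X := by
  intro n
  induction n with
  | zero =>
    intro X hX
    simpa using hX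
  | succ n ih =>
    intro X hX
    apply ih
    apply h
    rw [← mul_assoc, ← pow_succ']
    exact hX

/-- **The four formulas.** -/
theorem four_formulas (D : Fin 3 → Derivation ℤ L L) {l : Fin 3 → L} (hl0 : l ≠ 0)
    (hD : ∀ i j, D i (l j) = if i = j then 1 else 0)
    {f₁ f₂ f₃ u v k : MvPolynomial (Fin 3) L} {s e e' : ℕ} (hs : 1 ≤ s)
    (hf₁ : f₁.IsHomogeneous 3)
    (h1 : ∀ i, cD (D i) f₁ = 0) (h2 : ∀ i, cD (D i) f₂ = 0) (h3 : ∀ i, cD (D i) f₃ = 0)
    (R1 : ∀ X, f₁ ∣ lin l * X → f₁ ∣ X)
    (R2 : ∀ X A m, f₂ * X = f₁ * A + lin l ^ (s - 1) * m →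
      ∃ A' m', X = f₁ * A' + lin l ^ (s - 1) * m')
    (R3 : ∀ X A m, f₂ * X = f₁ * A + lin l * m → ∃ A' m', X = f₁ * A' + lin l * m')
    {g : Fin 3 → L} (R4 : ∀ X A m, lin g * X = f₁ * A + lin l * m →
      ∃ A' m', X = f₁ * A' + lin l * m')
    (hv : v.IsHomogeneous e') (hk : k.IsHomogeneous e) (hes : e + e' = s)
    (h : f₁ ∣ lin l ^ s * u - f₂ * v - f₃ * k) :
    ∃ (mu : L) (nu : Fin 3 → L) (xi : MvPolynomial (Fin 3) L),
      f₁ ∣ (s : MvPolynomial (Fin 3) L) * u * k + C mu * f₂ - lin l * xi ∧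
      (∀ i, f₁ ∣ u * cD (D i) k - k * cD (D i) u - C (nu i) * f₂ - X i * xi) ∧
      ∀ i, f₁ ∣ v * cD (D i) k - k * cD (D i) v -
        lin l ^ (s - 1) * (C mu * X i + C (nu i) * lin l) := by
  obtain ⟨t, rfl⟩ : ∃ t, s = t + 1 := ⟨s - 1, by omega⟩
  rw [Nat.add_sub_cancel] at R2 ⊢
  have hlh : (lin l : MvPolynomial (Fin 3) L).IsHomogeneous 1 := lin_isHomogeneous l
  have hlt : (lin l ^ t : MvPolynomial (Fin 3) L).IsHomogeneous t := by
    simpa using hlh.pow t
  have hDl : ∀ i, cD (D i) (lin l : MvPolynomial (Fin 3) L) = X i := by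
    intro i
    rw [lin_apply, map_sum, Finset.sum_eq_single i]
    · rw [smul_eq_C_mul, cD_mul, cD_C, cD_X, hD, if_pos rfl]
      simp
    · intro j _ hj
      rw [smul_eq_C_mul, cD_mul, cD_C, cD_X, hD, if_neg (Ne.symm hj)]
      simp
    · simp
  -- step a
  obtain ⟨q, hq⟩ := h
  have ha : ∀ i, f₂ * (v * cD (D i) k - k * cD (D i) v) =
      lin l ^ (t + 1) * (u * cD (D i) k - k * cD (D i) u) -
        ((t + 1 : ℕ) : MvPolynomial (Fin 3) L) * lin l ^ t * X i * (u * k) +
        f₁ * (k * cD (D i) q - q * cD (D i) k) := by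
    intro i
    have e1 := congrArg (cD (D i)) hq
    rw [map_sub, map_sub, cD_mul, cD_mul, cD_mul, cD_mul, h1, h2, h3, cD_pow, hDl,
      Nat.add_sub_cancel] at e1
    linear_combination (-(cD (D i) k)) * hq + k * e1
  -- step b
  have hb : ∀ i, ∃ m A : MvPolynomial (Fin 3) L, v * cD (D i) k - k * cD (D i) v =
      f₁ * A + lin l ^ t * m ∧ m.IsHomogeneous 1 := by
    intro i
    obtain ⟨A, m, hAm⟩ := R2 (v * cD (D i) k - k * cD (D i) v) (k * cD (D i) q - q * cD (D i) k)
      (lin l * (u * cD (D i) k - k * cD (D i) u) -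
        ((t + 1 : ℕ) : MvPolynomial (Fin 3) L) * X i * (u * k)) (by
        rw [ha]
        ring)
    have hW : (v * cD (D i) k - k * cD (D i) v).IsHomogeneous (1 + t) := by
      have e1 := hv.mul (cD_isHomogeneous (D i) hk)
      have e2 := hk.mul (cD_isHomogeneous (D i) hv)
      rw [show e' + e = 1 + t by omega] at e1
      rw [show e + e' = 1 + t by omega] at e2
      exact e1.sub e2
    obtain ⟨A', m', e1, e2⟩ := comp_Cub hf₁ hlt hW rfl hAm
    exact ⟨m', A', e1, e2⟩
  choose m A hmA hm using hb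
  -- step d
  have hd : ∀ i, f₁ ∣ f₂ * m i - lin l * (u * cD (D i) k - k * cD (D i) u) +
      ((t + 1 : ℕ) : MvPolynomial (Fin 3) L) * X i * (u * k) := by
    intro i
    apply cancel_pow_Cub R1 t
    refine ⟨(k * cD (D i) q - q * cD (D i) k) - f₂ * A i, ?_⟩
    linear_combination ha i - f₂ * hmA i
  -- step e
  have he : ∀ i j, ∃ p : MvPolynomial (Fin 3) L, m i * X j - m j * X i = lin l * p := by
    intro i j
    obtain ⟨a, hai⟩ := hd i
    obtain ⟨a', haj⟩ := hd j
    obtain ⟨B, p, hBp⟩ := R3 (m i * X j - m j * X i) (X j * a - X i * a')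
      ((u * cD (D i) k - k * cD (D i) u) * X j - (u * cD (D j) k - k * cD (D j) u) * X i) (by
        linear_combination X j * hai - X i * haj)
    have hW : (m i * X j - m j * X i).IsHomogeneous 2 :=
      ((hm i).mul (isHomogeneous_X L j)).sub ((hm j).mul (isHomogeneous_X L i))
    have h1 := congrArg (homogeneousComponent 2) hBp
    rw [homogeneousComponent_of_mem hW, if_pos rfl, map_add, hc_mul hf₁, hc_mul hlh,
      if_neg (by omega), if_pos (by omega), zero_add] at h1
    exact ⟨_, h1⟩
  -- the matrix of the linear forms `m i`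
  have hlin : ∀ i, ∃ M : Fin 3 → L, m i = lin M := fun i => exists_lin (hm i)
  choose M hM using hlin
  obtain ⟨mu, nu, hmn⟩ := exists_scalar hl0 M (by
    intro ev hev i i'
    obtain ⟨p, hp⟩ := he i i'
    have h1 := congrArg (eval ev) hp
    rw [map_mul, eval_lin, hev, zero_mul, map_sub, map_mul, map_mul, eval_X, eval_X, hM, hM,
      eval_lin, eval_lin, sub_eq_zero] at h1
    exact h1)
  have hm2 : ∀ i, m i = C mu * X i + C (nu i) * lin l := by
    intro i
    rw [hM i]
    have h1 : M i = (fun j => if i = j then mu else 0) + nu i • l := by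
      funext j
      rw [hmn i j]
      simp
    have h2 : (fun j => if i = j then mu else 0) = mu • Pi.single i (1 : L) := by
      funext j
      simp [Pi.single_apply, eq_comm]
    rw [h1, h2, map_add, map_smul, map_smul, lin_single, smul_eq_C_mul, smul_eq_C_mul]
  -- step g
  have hgi : ∀ i, ∃ A m : MvPolynomial (Fin 3) L,
      X i * (((t + 1 : ℕ) : MvPolynomial (Fin 3) L) * u * k + C mu * f₂) =
        f₁ * A + lin l * m := by
    intro i
    obtain ⟨a, hai⟩ := hd i
    rw [hm2] at hai
    refine ⟨a, (u * cD (D i) k - k * cD (D i) u) - C (nu i) * f₂, ?_⟩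
    linear_combination hai
  choose A2 m3 hA2 using hgi
  obtain ⟨A3, xi, hxi⟩ := R4 (((t + 1 : ℕ) : MvPolynomial (Fin 3) L) * u * k + C mu * f₂)
    (∑ i, C (g i) * A2 i) (∑ i, C (g i) * m3 i) (by
      rw [lin_apply, Finset.sum_mul, Finset.mul_sum, Finset.mul_sum, ← Finset.sum_add_distrib]
      refine Finset.sum_congr rfl fun i _ => ?_
      rw [smul_eq_C_mul]
      linear_combination C (g i) * hA2 i)
  refine ⟨mu, nu, xi, ⟨A3, ?_⟩, ?_, ?_⟩
  · linear_combination hxi
  · intro i
    apply R1
    obtain ⟨a, hai⟩ := hd i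
    rw [hm2] at hai
    refine ⟨X i * A3 - a, ?_⟩
    linear_combination X i * hxi - hai
  · intro i
    refine ⟨A i, ?_⟩
    rw [hmA i, hm2 i]
    ring

end Pool.Agent.Lef3
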