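import Pool.Agent.Lef3.Nz

/-!
The form `nu / mu` is closed; the flat case.
-/

set_option autoImplicit false
set_option linter.unusedSectionVars false

noncomputable section

namespace Pool.Agent.Lef3

open MvPolynomial Pool.Agent.LefProd

universe u

section field

variable {L : Type u} [Field L]

/-- two modified derivations commute -/
theorem comm_mod (A B W : Derivation ℤ L L) (hAB : ∀ x, A (B x) = B (A x))
    (hAW : ∀ x, A (W x) = W (A x)) (hBW : ∀ x, B (W x) = W (B x)) {α β ω : L} (hω : ω ≠ 0)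
    (h1 : A β = B α) (h2 : A ω = W α) (h3 : B ω = W β) (x : L) :
    (A - (α / ω) • W) ((B - (β / ω) • W) x) = (B - (β / ω) • W) ((A - (α / ω) • W) x) := by
  have e : ∀ (P Q : Derivation ℤ L L) (c x : L), (P - c • Q) x = P x - c * Q x :=
    fun P Q c x => rfl
  rw [e, e, e, e, map_sub, map_sub, map_sub, map_sub, Derivation.leibniz, Derivation.leibniz,
    Derivation.leibniz, Derivation.leibniz, Derivation.leibniz_div, Derivation.leibniz_div,
    Derivation.leibniz_div, Derivation.leibniz_div]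
  simp only [smul_eq_mul]
  rw [hAB, hAW, hBW, h1, h2, h3]
  field_simp
  ring

lemma pD_mod (A W : Derivation ℤ L L) (c : L) (p : Polynomial L) :
    pD (A - c • W) p = pD A p - Polynomial.C c * pD W p := by
  ext i
  rw [coeff_pD, Polynomial.coeff_sub, Polynomial.coeff_C_mul, coeff_pD, coeff_pD]
  rfl

/-- closedness from one equation and the Euler relations -/
theorem closed_of {D : Fin 3 → Derivation ℤ L L} {l : Fin 3 → L}
    (hD : ∀ i j, D i (l j) = if i = j then 1 else 0) {mu : L} {nu : Fin 3 → L} (hmu : mu ≠ 0)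
    (hl : l 0 ≠ 0) (hsum : mu + sp l nu = 0) {R : ℤ} (h1 : dl D l mu = R * mu)
    (h2 : ∀ i, dl D l (nu i) = (R - 1) * nu i) (h12 : D 1 (nu 2 / mu) = D 2 (nu 1 / mu)) :
    ∀ i j, D i (nu j / mu) = D j (nu i / mu) := by
  have e1 : ∑ i, l i * (nu i / mu) = -1 := by
    rw [sp_three] at hsum
    rw [Fin.sum_univ_three]
    field_simp
    linear_combination hsum
  have e2 : ∀ j, nu j / mu + ∑ i, l i * D j (nu i / mu) = 0 := by
    intro j
    have := congrArg (D j) e1
    rw [map_neg, Derivation.map_one_eq_zero, neg_zero, map_sum] at this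
    simp only [Derivation.leibniz, hD, smul_eq_mul, Finset.sum_add_distrib] at this
    rw [add_comm] at this
    rw [← this]
    congr 1
    simp
  have e3 : ∀ j, ∑ i, l i * D i (nu j / mu) = -(nu j / mu) := by
    intro j
    rw [← dl_apply, Derivation.leibniz_div, h1, h2]
    simp only [smul_eq_mul]
    field_simp
    ring
  have e4 : ∀ j, ∑ i, l i * (D j (nu i / mu) - D i (nu j / mu)) = 0 := by
    intro j
    simp only [mul_sub, Finset.sum_sub_distrib]
    rw [e3]
    linear_combination e2 j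
  have e5 := e4 1
  have e6 := e4 2
  rw [Fin.sum_univ_three] at e5 e6
  have e7 : D 1 (nu 0 / mu) = D 0 (nu 1 / mu) := by
    apply sub_eq_zero.1
    apply (mul_eq_zero.1 (_ : l 0 * (D 1 (nu 0 / mu) - D 0 (nu 1 / mu)) = 0)).resolve_left hl
    linear_combination e5 - l 2 * h12
  have e8 : D 2 (nu 0 / mu) = D 0 (nu 2 / mu) := by
    apply sub_eq_zero.1
    apply (mul_eq_zero.1 (_ : l 0 * (D 2 (nu 0 / mu) - D 0 (nu 2 / mu)) = 0)).resolve_left hl
    linear_combination e6 + l 1 * h12
  intro i j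
  fin_cases i <;> fin_cases j
  · rfl
  · exact e7.symm
  · exact e8.symm
  · exact e7
  · rfl
  · exact h12
  · exact e8
  · exact h12.symm
  · rfl

end field

variable {F : Type u} [Field F] [CharZero F] {L : Type u} [Field L] [CharZero L]
  [Algebra (Lam F) L] [Algebra F L] [IsScalarTower F (Lam F) L]

/-- **The flat case.** -/
theorem Sol.flat [Infinite L] (hinj : Function.Injective (algebraMap (Lam F) L))
    {D : Fin 3 → Derivation ℤ L L} (hcomm : ∀ i j x, D i (D j x) = D j (D i x))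
    {l₁ l₂ l₃ : List (Fin 3 → F)} {s e e' : ℕ}
    {u v k : MvPolynomial (Fin 3) (Lam F)} {mu : L} {nu : Fin 3 → L}
    (S : Sol D l₁ l₂ l₃ s e e' u v k mu nu) (E : Edg F) (hw : E.w ∈ l₁)
    (htr : Tr (Submodule.span F {E.w}) [l₂, l₃]) (hmu : mu ≠ 0) (hnu : sp (up L E.w) nu ≠ 0)
    (h12 : D 1 (nu 2 / mu) = D 2 (nu 1 / mu)) : False := by
  obtain ⟨R, hR1, hR2⟩ := S.eul
  have hl0 : lg F L 0 ≠ 0 := by
    intro h0
    have := S.ext.dual 0 0
    rw [h0, map_zero, if_pos rfl] at this
    exact zero_ne_one this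
  have hclosed := closed_of S.ext.dual hmu hl0 S.sum hR1 hR2 h12
  -- closedness in constant directions
  have hsp : ∀ g : Fin 3 → F, sp (up L g) nu / mu = ∑ i, up L g i * (nu i / mu) := by
    intro g
    rw [sp, Finset.sum_div]
    exact Finset.sum_congr rfl fun i _ => mul_div_assoc _ _ _
  have hDsum : ∀ (i : Fin 3) (h : Fin 3 → F) (y : Fin 3 → L),
      D i (∑ j, up L h j * y j) = ∑ j, up L h j * D i (y j) := by
    intro i h y
    rw [map_sum]
    refine Finset.sum_congr rfl fun j _ => ?_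
    rw [Derivation.leibniz, up, S.ext.const, smul_zero, add_zero, smul_eq_mul]
  have hcl : ∀ g h : Fin 3 → F, dl D (up L g) (sp (up L h) nu / mu) =
      dl D (up L h) (sp (up L g) nu / mu) := by
    intro g h
    rw [dl_apply, dl_apply, hsp, hsp]
    simp only [hDsum, Finset.mul_sum]
    rw [Finset.sum_comm]
    refine Finset.sum_congr rfl fun i _ => Finset.sum_congr rfl fun j _ => ?_
    rw [hclosed j i]
    ring
  have hcm : ∀ (g h : Fin 3 → F) (x : L), dl D (up L g) (dl D (up L h) x) =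
      dl D (up L h) (dl D (up L g) x) := by
    intro g h x
    rw [dl_apply D (up L g), dl_apply D (up L h) (dl D (up L g) x), dl_apply, dl_apply]
    simp only [hDsum, Finset.mul_sum]
    rw [Finset.sum_comm]
    refine Finset.sum_congr rfl fun i _ => Finset.sum_congr rfl fun j _ => ?_
    rw [hcomm j i]
    ring
  set A := dl D (up L E.a) with hA
  set B := dl D (up L E.b) with hB
  set W := dl D (up L E.w) with hW
  set na := sp (up L E.a) nu with hna
  set nb := sp (up L E.b) nu with hnb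
  set nw := sp (up L E.w) nu with hnw
  have hω : nw / mu ≠ 0 := div_ne_zero hnu hmu
  have hAll := S.four E hw E.a
  have hBll := S.four E hw E.b
  have hWll := S.four E hw E.w
  rw [E.ap, E.aq, ← hA, ← hna] at hAll
  rw [E.bp, E.bq, ← hB, ← hnb] at hBll
  rw [E.wp, E.wq, ← hW, ← hnw] at hWll
  simp only [map_zero, map_one, zero_mul, one_mul, add_zero, zero_add, mul_zero] at hAll hBll hWll
  have hlp : ∀ g : Fin 3 → F, dl D (up L g) (sp (lg F L) (up L E.p)) =
      algebraMap F L (sp g E.p) := by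
    intro g
    rw [← alg_sp, S.ext.dl_up, pd_sp, alg_C]
  have hlq : ∀ g : Fin 3 → F, dl D (up L g) (sp (lg F L) (up L E.q)) =
      algebraMap F L (sp g E.q) := by
    intro g
    rw [← alg_sp, S.ext.dl_up, pd_sp, alg_C]
  have hap : ∀ (P Q : Derivation ℤ L L) (c x : L), (P - c • Q) x = P x - c * Q x :=
    fun P Q c x => rfl
  have hk0 : E.vl k ≠ 0 := by
    intro h0
    have h6 := S.six E hw
    rw [h0, mul_zero, map_zero, mul_zero, eq_comm, neg_eq_zero] at h6
    have h7 := (mul_eq_zero.1 h6).resolve_left hmu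
    rw [map_eq_zero_iff _ hinj] at h7
    exact E.vl_cst_pr_ne (fun v hv => (htr v hv).1) h7
  have hCw : ∀ c : L, Polynomial.C (c / mu / (nw / mu)) * (Polynomial.C nw) =
      Polynomial.C c := by
    intro c
    rw [← Polynomial.C_mul]
    congr 1
    field_simp
  refine flat_false (A - (na / mu / (nw / mu)) • W) (B - (nb / mu / (nw / mu)) • W)
    (comm_mod A B W (hcm _ _) (hcm _ _) (hcm _ _) hω (hcl _ _) (hcl _ _) (hcl _ _))
    (la := sp (lg F L) (up L E.p)) (lb := sp (lg F L) (up L E.q)) (mu := mu) (E.lp_ne hinj)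
    ?_ ?_ ?_ ?_ hmu (f₂ := E.rs L (pr l₂)) (f₃ := E.rs L (pr l₃)) ?_ ?_ (E.coprime htr)
    (v := E.rl L v) (k := E.rl L k) (s := s) ?_ ?_ ?_ ?_ ?_ ?_ ?_
  · rw [hap, hA, hW, hlp, hlp, E.ap, E.wp]
    simp
  · rw [hap, hA, hW, hlq, hlq, E.aq, E.wq]
    simp
  · rw [hap, hB, hW, hlp, hlp, E.bp, E.wp]
    simp
  · rw [hap, hB, hW, hlq, hlq, E.bq, E.wq]
    simp
  · rw [pD_mod, hB, hW, S.ext.pD_rs, S.ext.pD_rs]
    simp
  · rw [pD_mod, hB, hW, S.ext.pD_rs, S.ext.pD_rs]
    simp
  · exact lt_of_le_of_lt (S.deg_v E) (Nat.cast_lt.2 (by have := S.hes; have := S.he; omega))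
  · exact lt_of_le_of_lt (S.deg_k E) (Nat.cast_lt.2 (by have := S.hes; have := S.he'; omega))
  · rcases E.degree (K := L) htr with hd | hd
    · left
      rw [hd]
      exact lt_of_le_of_lt (S.deg_k E) (Nat.cast_lt.2 S.heb)
    · right
      rw [hd]
      exact lt_of_le_of_lt (S.deg_v E) (Nat.cast_lt.2 S.hec)
  · exact ⟨E.rl L u, (S.one E hw).symm⟩
  · rw [pD_mod, pD_mod]
    linear_combination hAll - Polynomial.C (na / mu / (nw / mu)) * hWll -
      E.ll L ^ (s - 1) * E.ll L * hCw na
  · rw [pD_mod, pD_mod]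
    linear_combination hBll - Polynomial.C (nb / mu / (nw / mu)) * hWll -
      E.ll L ^ (s - 1) * E.ll L * hCw nb
  · rw [Ne, E.rl_eval hinj S.hk]
    exact hk0

end Pool.Agent.Lef3
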