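import Pool.Agent.Lef3.Ord

/-!
A double line: the orders agree.
-/

set_option autoImplicit false
set_option linter.unusedSectionVars false

noncomputable section

namespace Pool.Agent.Lef3

open MvPolynomial Pool.Agent.LefProd

universe u v

section edges

variable (F : Type u) [Field F]

/-- the line `y = 0` -/
def eY : Edg F where
  w := Pi.single 1 1
  p := Pi.single 0 1
  q := Pi.single 2 1
  a := Pi.single 0 1
  b := Pi.single 2 1
  c := Pi.single 1 1
  wp := by simp [sp_three]
  wq := by simp [sp_three]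
  ap := by simp [sp_three]
  aq := by simp [sp_three]
  bp := by simp [sp_three]
  bq := by simp [sp_three]
  dual := by
    intro i j
    fin_cases i <;> fin_cases j <;> simp

/-- the line `z = 0` -/
def eZ : Edg F where
  w := Pi.single 2 1
  p := Pi.single 0 1
  q := Pi.single 1 1
  a := Pi.single 0 1
  b := Pi.single 1 1
  c := Pi.single 2 1
  wp := by simp [sp_three]
  wq := by simp [sp_three]
  ap := by simp [sp_three]
  aq := by simp [sp_three]
  bp := by simp [sp_three]
  bq := by simp [sp_three]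
  dual := by
    intro i j
    fin_cases i <;> fin_cases j <;> simp

/-- the line `x = 0` -/
def eX : Edg F where
  w := Pi.single 0 1
  p := Pi.single 1 1
  q := Pi.single 2 1
  a := Pi.single 1 1
  b := Pi.single 2 1
  c := Pi.single 0 1
  wp := by simp [sp_three]
  wq := by simp [sp_three]
  ap := by simp [sp_three]
  aq := by simp [sp_three]
  bp := by simp [sp_three]
  bq := by simp [sp_three]
  dual := by
    intro i j
    fin_cases i <;> fin_cases j <;> simp

/-- the line `y + z = 0` -/
def eS : Edg F where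
  w := Pi.single 1 1 + Pi.single 2 1
  p := Pi.single 0 1
  q := Pi.single 1 1 - Pi.single 2 1
  a := Pi.single 0 1
  b := Pi.single 1 1
  c := Pi.single 2 1
  wp := by simp [sp_three]
  wq := by simp [sp_three]
  ap := by simp [sp_three]
  aq := by simp [sp_three]
  bp := by simp [sp_three]
  bq := by simp [sp_three]
  dual := by
    intro i j
    fin_cases i <;> fin_cases j <;> simp

end edges

section tangent

variable {A : Type u} [CommRing A] (x y : Fin 3 → A)

/-- the derivative at `x` in the direction `y` -/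
def tg (f : MvPolynomial (Fin 3) A) : A := ∑ i, y i * eval x (pderiv i f)

lemma tg_add (f g : MvPolynomial (Fin 3) A) : tg x y (f + g) = tg x y f + tg x y g := by
  simp only [tg, map_add, mul_add, Finset.sum_add_distrib]

lemma tg_sub (f g : MvPolynomial (Fin 3) A) : tg x y (f - g) = tg x y f - tg x y g := by
  simp only [tg, map_sub, mul_sub, Finset.sum_sub_distrib]

lemma tg_mul (f g : MvPolynomial (Fin 3) A) :
    tg x y (f * g) = eval x f * tg x y g + eval x g * tg x y f := by
  simp only [tg, Finset.mul_sum, ← Finset.sum_add_distrib]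
  refine Finset.sum_congr rfl fun i _ => ?_
  rw [pderiv_mul, map_add, map_mul, map_mul]
  ring

lemma tg_C (a : A) : tg x y (C a) = 0 := by
  simp [tg]

lemma tg_X (i : Fin 3) : tg x y (X i) = y i := by
  rw [tg, Finset.sum_eq_single i]
  · simp
  · intro j _ hj
    rw [pderiv_X_of_ne (Ne.symm hj), map_zero, mul_zero]
  · simp

lemma tg_map {B : Type v} [CommRing B] (φ : A →+* B) (f : MvPolynomial (Fin 3) A) :
    φ (tg x y f) = tg (fun i => φ (x i)) (fun i => φ (y i)) (map φ f) := by
  rw [tg, tg, map_sum]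
  refine Finset.sum_congr rfl fun i _ => ?_
  rw [map_mul, map_eval_pt, pderiv_map]

/-- the chain rule -/
lemma der_eval (D : Derivation ℤ A A) (f : MvPolynomial (Fin 3) A) :
    D (eval x f) = eval x (cD D f) + tg x (fun i => D (x i)) f := by
  induction f using MvPolynomial.induction_on with
  | C a => rw [eval_C, cD_C, eval_C, tg_C, add_zero]
  | add f g hf hg =>
    rw [map_add, map_add, hf, hg, map_add, map_add, tg_add]
    ring
  | mul_X f i hf =>
    rw [map_mul, eval_X, Derivation.leibniz, hf, cD_mul, cD_X, mul_zero, zero_add, map_mul,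
      eval_X, tg_mul, tg_X, eval_X]
    simp only [smul_eq_mul]
    ring

lemma pderiv_cD (D : Derivation ℤ A A) (i : Fin 3) (f : MvPolynomial (Fin 3) A) :
    pderiv i (cD D f) = cD D (pderiv i f) := by
  induction f using MvPolynomial.induction_on with
  | C a => rw [cD_C, pderiv_C, pderiv_C, map_zero]
  | add f g hf hg => rw [map_add, map_add, hf, hg, map_add, map_add]
  | mul_X f j hf =>
    have h1 : cD D (pderiv i (X j : MvPolynomial (Fin 3) A)) = 0 := by
      rw [pderiv_X, Pi.single_apply]
      split_ifs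
      · exact Derivation.map_one_eq_zero _
      · exact map_zero _
    rw [cD_mul, cD_X, mul_zero, zero_add, pderiv_mul, pderiv_mul, hf, map_add, cD_mul, cD_mul,
      cD_X, h1]
    ring

lemma der_tg (D : Derivation ℤ A A) (hx : ∀ i, D (x i) = 0) (f : MvPolynomial (Fin 3) A) :
    D (tg x y f) = tg x y (cD D f) + tg x (fun i => D (y i)) f := by
  have h0 : ∀ g : MvPolynomial (Fin 3) A, tg x (fun i => D (x i)) g = 0 := by
    intro g
    simp [tg, hx]
  rw [tg, tg, tg, map_sum, ← Finset.sum_add_distrib]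
  refine Finset.sum_congr rfl fun i _ => ?_
  rw [Derivation.leibniz, der_eval, h0, add_zero, pderiv_cD]
  simp only [smul_eq_mul]
  ring

end tangent

section algebra

variable {L : Type u} [Field L] [CharZero L]

private lemma half_Dbl (D : Derivation ℤ L L) {s mu n U K G : L} (hs : s ≠ 0) (hs1 : D s = 0)
    (hU : U ≠ 0) (h1 : s * (U * K) = -(mu * G)) (h2 : U * D K - K * D U = n * G)
    (h5 : D G = 0) : -2 * mu * D K = K * (s * n - D mu) := by
  have e1 := congrArg D h1
  rw [map_neg, Derivation.leibniz, Derivation.leibniz, Derivation.leibniz, hs1, h5] at e1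
  simp only [smul_eq_mul, mul_zero, add_zero, zero_add] at e1
  apply mul_left_cancel₀ (mul_ne_zero hs hU)
  linear_combination (-mu) * e1 - mu * s * h2 - (s * n - D mu) * h1

theorem dbl_alg (D1 D2 : Derivation ℤ L L) {s mu n1 n2 U0 U1 K0 K1 F0 F1 Uz Kz Fz : L}
    (hs : s ≠ 0) (hs1 : D1 s = 0) (hs2 : D2 s = 0) (hmu : mu ≠ 0) (hU0 : U0 ≠ 0) (hUz : Uz ≠ 0)
    (h1 : s * (U0 * K0) = -(mu * F0)) (h2 : U0 * D1 K0 - K0 * D1 U0 = n1 * F0)
    (h3 : s * (U0 * K1 + U1 * K0) = -(mu * F1))
    (h4 : U0 * (D1 K1 - D2 K0) + U1 * D1 K0 - K0 * (D1 U1 - D2 U0) - K1 * D1 U0 =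
      n1 * F1 - n2 * F0)
    (h5 : D1 F0 = 0) (h6 : D1 F1 = D2 F0)
    (h7 : s * (Uz * Kz) = -(mu * Fz)) (h8 : Uz * D2 Kz - Kz * D2 Uz = n2 * Fz)
    (h9 : D2 Fz = 0) :
    K0 * (D2 K0 * Kz - K0 * D2 Kz) = Kz * (D1 K1 * K0 - K1 * D1 K0) := by
  have a1 := half_Dbl D1 hs hs1 hU0 h1 h2 h5
  have a2 := half_Dbl D2 hs hs2 hUz h7 h8 h9
  have a3 : -2 * mu * (D1 K1 - D2 K0) = K1 * (s * n1 - D1 mu) - K0 * (s * n2 - D2 mu) := by
    have e1 := congrArg D1 h3
    have e2 := congrArg D2 h1
    rw [map_neg, Derivation.leibniz, map_add, Derivation.leibniz, Derivation.leibniz,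
      Derivation.leibniz, hs1] at e1
    rw [map_neg, Derivation.leibniz, Derivation.leibniz, Derivation.leibniz, hs2] at e2
    simp only [smul_eq_mul, mul_zero, add_zero] at e1 e2
    apply mul_left_cancel₀ (mul_ne_zero hs hU0)
    linear_combination (-mu) * (e1 - e2) - mu * s * h4 - (s * n1 - D1 mu) * h3 +
      (s * n2 - D2 mu) * h1 - s * U1 * a1 + mu ^ 2 * h6
  apply mul_left_cancel₀ (mul_ne_zero (two_ne_zero (α := L)) hmu)
  linear_combination (-K0 ^ 2) * a2 * (-1 : L) + Kz * K0 * a3 - Kz * K1 * a1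

end algebra

end Pool.Agent.Lef3
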