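import Pool.Agent.Lef3.Dbl

/-!
A double line: the orders agree, second part.
-/

set_option autoImplicit false
set_option linter.unusedSectionVars false

noncomputable section

namespace Pool.Agent.Lef3

open MvPolynomial Pool.Agent.LefProd

universe u v

variable {F : Type u} [Field F] [CharZero F] {L : Type u} [Field L] [CharZero L]
  [Algebra (Lam F) L] [Algebra F L] [IsScalarTower F (Lam F) L]

theorem Sol.orders_dbl (hinj : Function.Injective (algebraMap (Lam F) L))
    {D : Fin 3 → Derivation ℤ L L} {l₂ l₃ : List (Fin 3 → F)} {s e e' : ℕ}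
    {u v k : MvPolynomial (Fin 3) (Lam F)} {mu : L} {nu : Fin 3 → L}
    (S : Sol D [(eY F).w, (eZ F).w, (eY F).w] l₂ l₃ s e e' u v k mu nu)
    (hci : CI ⊥ [[(eY F).w, (eZ F).w, (eY F).w], l₂, l₃]) (hmu : mu ≠ 0) :
    ∀ P : Lam F, Prime P → pd (eY F).w P ≠ 0 → pd (eZ F).w P ≠ 0 →
      emultiplicity P ((eY F).vl k) = emultiplicity P ((eZ F).vl k) ∧
      emultiplicity P ((eY F).vl u) = emultiplicity P ((eZ F).vl u) := by
  intro P hP hd0 hd1
  have hw0 : (eY F).w ∈ [(eY F).w, (eZ F).w, (eY F).w] := by simp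
  have hw1 : (eZ F).w ∈ [(eY F).w, (eZ F).w, (eY F).w] := by simp
  have ht0 := tr_of_ci hci hw0
  have ht1 := tr_of_ci hci hw1
  obtain ⟨-, hk0, hu0⟩ := S.nu_div hinj (eY F) hw0 ht0 hmu (i := 1) rfl
  obtain ⟨-, hkz, huz⟩ := S.nu_div hinj (eZ F) hw1 ht1 hmu (i := 2) rfl
  have hs0 : (s : L) ≠ 0 := Nat.cast_ne_zero.2 (by have := S.hs; omega)
  -- the points
  set l : Fin 3 → L := lg F L with hl
  let x : Fin 3 → L := ept l (up L (eY F).p) (up L (eY F).q)
  let xa : Fin 3 → Lam F := (eY F).lpt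
  let ya : Fin 3 → Lam F := ![X 1, -X 0, 0]
  let y : Fin 3 → L := fun i => algebraMap (Lam F) L (ya i)
  have hxa : (fun i => algebraMap (Lam F) L (xa i)) = x := by
    funext i
    change algebraMap (Lam F) L ((eY F).lpt i) = _
    rw [Edg.lpt, ept_map]
    simp only [alg_C]
    rfl
  have hx : x = ![l 2, 0, -l 0] := by
    funext i
    change ept l (up L (eY F).p) (up L (eY F).q) i = _
    rw [ept, sp_three, sp_three]
    fin_cases i <;> simp [up, eY]
  have hy : y = ![l 1, -l 0, 0] := by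
    funext i
    change algebraMap (Lam F) L (ya i) = _
    fin_cases i <;> simp [ya, hl, lg]
  have hD := S.ext.dual
  have hD1x : ∀ i, D 1 (x i) = 0 := by
    intro i
    rw [hx]
    fin_cases i
    · exact (hD 1 2).trans (if_neg (by decide))
    · exact map_zero _
    · change D 1 (-l 0) = 0
      rw [map_neg, hD, if_neg (by decide), neg_zero]
  have hD2x : (fun i => D 2 (x i)) = ![1, 0, 0] := by
    funext i
    rw [hx]
    fin_cases i
    · exact (hD 2 2).trans (if_pos rfl)
    · exact map_zero _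
    · change D 2 (-l 0) = 0
      rw [map_neg, hD, if_neg (by decide), neg_zero]
  have hD1y : (fun i => D 1 (y i)) = ![1, 0, 0] := by
    funext i
    rw [hy]
    fin_cases i
    · exact (hD 1 1).trans (if_pos rfl)
    · change D 1 (-l 0) = 0
      rw [map_neg, hD, if_neg (by decide), neg_zero]
    · exact map_zero _
  -- the derivatives
  have c1 : ∀ f : MvPolynomial (Fin 3) L, D 1 (eval x f) = eval x (cD (D 1) f) := by
    intro f
    rw [der_eval]
    have : tg x (fun i => D 1 (x i)) f = 0 := by simp [tg, hD1x]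
    rw [this, add_zero]
  have c2 : ∀ f : MvPolynomial (Fin 3) L, D 1 (tg x y f) - D 2 (eval x f) =
      tg x y (cD (D 1) f) - eval x (cD (D 2) f) := by
    intro f
    rw [der_tg x y (D 1) hD1x, der_eval, hD1y, hD2x]
    ring
  -- the values
  have ek : ∀ f : MvPolynomial (Fin 3) (Lam F), algebraMap (Lam F) L ((eY F).vl f) =
      eval x (map (algebraMap (Lam F) L) f) := fun f => (eY F).alg_vl f
  have et : ∀ f : MvPolynomial (Fin 3) (Lam F), algebraMap (Lam F) L (tg xa ya f) =
      tg x y (map (algebraMap (Lam F) L) f) := by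
    intro f
    rw [tg_map, hxa]
  set kL := map (algebraMap (Lam F) L) k with hkL
  set uL := map (algebraMap (Lam F) L) u with huL
  set f₂ := map (algebraMap F L) (pr l₂) with hf₂
  set f₁ := map (algebraMap F L) (pr [(eY F).w, (eZ F).w, (eY F).w]) with hf₁
  -- the first form
  have hf1 : f₁ = X 1 * (X 2 * X 1) := by
    rw [hf₁, pr_cons, pr_cons, pr_cons, pr_nil]
    have g1 : (lin (eY F).w : MvPolynomial (Fin 3) F) = X 1 := lin_single 1
    have g2 : (lin (eZ F).w : MvPolynomial (Fin 3) F) = X 2 := lin_single 2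
    rw [g1, g2]
    simp
  have hx1 : x 1 = 0 := by rw [hx]; rfl
  have e1f : eval x f₁ = 0 := by
    rw [hf1, map_mul, eval_X, hx1, zero_mul]
  have t1f : tg x y f₁ = 0 := by
    rw [hf1, tg_mul, tg_mul, tg_X, map_mul, eval_X, hx1]
    ring
  have e0 : ∀ f, f₁ ∣ f → eval x f = 0 := by
    rintro f ⟨q, rfl⟩
    rw [map_mul, e1f, zero_mul]
  have t0 : ∀ f, f₁ ∣ f → tg x y f = 0 := by
    rintro f ⟨q, rfl⟩
    rw [tg_mul, e1f, t1f]
    ring
  obtain ⟨xi, h2, h3⟩ := S.H23
  have hlx : eval x (lin l) = 0 := by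
    rw [eval_lin']
    exact sp_ept_self _ _ _
  have hly : tg x y (lin l) = 0 := by
    rw [lin_apply, Fin.sum_univ_three, tg_add, tg_add, smul_eq_C_mul, smul_eq_C_mul,
      smul_eq_C_mul, tg_mul, tg_mul, tg_mul, tg_C, tg_C, tg_C, tg_X, tg_X, tg_X, eval_C, eval_C,
      eval_C, hy]
    simp only [Matrix.cons_val_zero, Matrix.cons_val_one, Matrix.cons_val]
    ring
  have hcD2 : ∀ i, cD (D i) f₂ = 0 := fun i => cD_map_zero _ _ (S.ext.const i) _
  -- level zero and level one of the formulas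
  have q1 := t0 _ h2
  have q2 := t0 _ (h3 1)
  have q3 := e0 _ (h3 2)
  have hy1 : y 1 = -l 0 := by rw [hy]; rfl
  have hx2 : x 2 = -l 0 := by rw [hx]; rfl
  rw [tg_sub, tg_add, tg_mul, tg_mul, tg_mul, tg_mul, tg_C, hlx, hly, map_mul, map_natCast,
    eval_C] at q1
  rw [tg_sub, tg_sub, tg_sub, tg_mul, tg_mul, tg_mul, tg_mul, tg_C, eval_C, tg_X, eval_X, hx1,
    hy1] at q2
  rw [map_sub, map_sub, map_sub, map_mul, map_mul, map_mul, map_mul, eval_C, eval_X, hx2] at q3
  have hsn : tg x y (s : MvPolynomial (Fin 3) L) = 0 := by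
    have : (s : MvPolynomial (Fin 3) L) = C (s : L) := by simp
    rw [this, tg_C]
  rw [hsn] at q1
  have g1 := S.six (eY F) hw0
  have g2 := S.seven (eY F) hw0
  have g7 := S.six (eZ F) hw1
  have g8 := S.seven (eZ F) hw1
  have w1 : sp (up L (eY F).w) nu = nu 1 := by
    rw [sp_three]
    simp [up, eY]
  have w2 : sp (up L (eZ F).w) nu = nu 2 := by
    rw [sp_three]
    simp [up, eZ]
  have p1 : ∀ a, algebraMap (Lam F) L (pd (eY F).w a) = D 1 (algebraMap (Lam F) L a) := by
    intro a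
    rw [S.ext]
    rfl
  have p2 : ∀ a, algebraMap (Lam F) L (pd (eZ F).w a) = D 2 (algebraMap (Lam F) L a) := by
    intro a
    rw [S.ext]
    rfl
  rw [w1, map_sub, map_mul, map_mul, p1, p1] at g2
  rw [w2, map_sub, map_mul, map_mul, p2, p2] at g8
  rw [map_mul] at g1 g7
  rw [ek, ek, ek, map_cst] at g1 g2
  have z9 : D 2 (algebraMap (Lam F) L ((eZ F).vl (cst (pr l₂)))) = 0 := by
    rw [← p2, (eZ F).pd_vl_cst, map_zero]
  have z5 : D 1 (eval x f₂) = 0 := by rw [c1, hcD2, map_zero]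
  have z6 : D 1 (tg x y f₂) = D 2 (eval x f₂) := by
    have := c2 f₂
    rw [hcD2, hcD2, map_zero, sub_zero] at this
    have h0 : tg x y (0 : MvPolynomial (Fin 3) L) = 0 := by simp [tg]
    rw [h0] at this
    exact sub_eq_zero.1 this
  have hs1 : ∀ i, D i (s : L) = 0 := fun i => Derivation.map_natCast _ _
  have nz : ∀ f : Lam F, f ≠ 0 → algebraMap (Lam F) L f ≠ 0 := by
    intro f hf
    rw [Ne, map_eq_zero_iff _ hinj]
    exact hf
  have hu0' : eval x uL ≠ 0 := by
    rw [huL, ← ek]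
    exact nz _ hu0
  have hk0' : eval x kL ≠ 0 := by
    rw [hkL, ← ek]
    exact nz _ hk0
  have m3 : (s : L) * (eval x uL * tg x y kL + tg x y uL * eval x kL) =
      -(mu * tg x y f₂) := by
    linear_combination q1
  have m4 : eval x uL * (D 1 (tg x y kL) - D 2 (eval x kL)) + tg x y uL * D 1 (eval x kL) -
      eval x kL * (D 1 (tg x y uL) - D 2 (eval x uL)) - tg x y kL * D 1 (eval x uL) =
      nu 1 * tg x y f₂ - nu 2 * eval x f₂ := by
    rw [c2, c2, c1, c1]
    linear_combination q2 - q3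
  have rk := dbl_alg (D 1) (D 2) hs0 (hs1 1) (hs1 2) hmu hu0' (nz _ huz) g1 g2 m3 m4 z5 z6 g7 g8 z9
  have ru := dbl_alg (D 1) (D 2) (n1 := -nu 1) (n2 := -nu 2) (U0 := eval x kL)
    (U1 := tg x y kL) (K0 := eval x uL) (K1 := tg x y uL) (F0 := eval x f₂) (F1 := tg x y f₂)
    (Uz := algebraMap (Lam F) L ((eZ F).vl k)) (Kz := algebraMap (Lam F) L ((eZ F).vl u))
    (Fz := algebraMap (Lam F) L ((eZ F).vl (cst (pr l₂)))) (s := (s : L)) (mu := mu) hs0 (hs1 1) (hs1 2) hmu hk0' (nz _ hkz)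
    (by linear_combination g1) (by linear_combination -g2) (by linear_combination m3)
    (by linear_combination -m4) z5 z6 (by linear_combination g7) (by linear_combination -g8) z9
  rw [hkL, ← ek, ← et, ← p1, ← p1, ← p2, ← p2] at rk
  rw [huL, ← ek, ← et, ← p1, ← p1, ← p2, ← p2] at ru
  constructor
  · refine orders_double (pd (eY F).w) (pd (eZ F).w) (fun n hn => isUnit_int hn)
      (y := tg xa ya k) hk0 hkz ?_ hP (not_dvd_pd _ hd0) (not_dvd_pd _ hd1)
    apply hinj
    simp only [map_mul, map_sub]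
    exact rk
  · refine orders_double (pd (eY F).w) (pd (eZ F).w) (fun n hn => isUnit_int hn)
      (y := tg xa ya u) hu0 huz ?_ hP (not_dvd_pd _ hd0) (not_dvd_pd _ hd1)
    apply hinj
    simp only [map_mul, map_sub]
    exact ru

end Pool.Agent.Lef3
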