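import Mathlib

/-!
Coefficientwise derivations of univariate polynomials.
-/

set_option autoImplicit false

noncomputable section

namespace Pool.Agent.Lef3

open Polynomial

universe u

section basic

variable {A : Type u} [CommRing A]

/-- The derivation `D` applied to the coefficients. -/
def pD (D : Derivation ℤ A A) : Derivation ℤ A[X] A[X] := @Differential.mapCoeffs A _ ⟨D⟩

lemma coeff_pD (D : Derivation ℤ A A) (p : A[X]) (i : ℕ) : (pD D p).coeff i = D (p.coeff i) :=
  @Differential.coeff_mapCoeffs A _ ⟨D⟩ p i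

@[simp] lemma pD_C (D : Derivation ℤ A A) (a : A) : pD D (C a) = C (D a) := by
  ext i
  rw [coeff_pD, coeff_C, coeff_C]
  split_ifs <;> simp

@[simp] lemma pD_X (D : Derivation ℤ A A) : pD D (X : A[X]) = 0 := by
  ext i
  rw [coeff_pD, coeff_X, coeff_zero]
  split_ifs <;> simp

lemma pD_mul (D : Derivation ℤ A A) (p q : A[X]) : pD D (p * q) = p * pD D q + q * pD D p := by
  rw [Derivation.leibniz, smul_eq_mul, smul_eq_mul]

lemma pD_pow (D : Derivation ℤ A A) (p : A[X]) (n : ℕ) :
    pD D (p ^ n) = (n : A[X]) * p ^ (n - 1) * pD D p := by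
  rw [Derivation.leibniz_pow, nsmul_eq_mul, smul_eq_mul, mul_assoc]

lemma degree_pD_le (D : Derivation ℤ A A) (p : A[X]) : (pD D p).degree ≤ p.degree := by
  rw [degree_le_iff_coeff_zero]
  intro m hm
  rw [coeff_pD, coeff_eq_zero_of_degree_lt hm, map_zero]

lemma pD_comm {D D' : Derivation ℤ A A} (h : ∀ x, D (D' x) = D' (D x)) (p : A[X]) :
    pD D (pD D' p) = pD D' (pD D p) := by
  ext i
  simp only [coeff_pD, h]

/-- Evaluation at a constant of `D`. -/
lemma pD_eval (D : Derivation ℤ A A) (p : A[X]) (t : A) :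
    D (p.eval t) = (pD D p).eval t + (derivative p).eval t * D t := by
  induction p using Polynomial.induction_on' with
  | add p q hp hq =>
    simp only [eval_add, map_add, hp, hq]
    ring
  | monomial n a =>
    have h1 : pD D (monomial n a) = monomial n (D a) := by
      ext i
      rw [coeff_pD, coeff_monomial, coeff_monomial]
      split_ifs <;> simp
    rw [h1, eval_monomial, eval_monomial, derivative_monomial, eval_monomial,
      Derivation.leibniz, Derivation.leibniz_pow, smul_eq_mul, smul_eq_mul, nsmul_eq_mul,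
      smul_eq_mul]
    ring

end basic

section field

variable {L : Type u} [Field L]

lemma degree_C_mul_le' (a : L) (p : L[X]) : (C a * p).degree ≤ p.degree := by
  by_cases ha : a = 0
  · simp [ha]
  · rw [degree_C_mul ha]

/-- `f` coprime to `g`, `deg k < deg f` or `deg v < deg g`: `f * v + g * k = 0` only for
`v = k = 0` -/
lemma zero_pair {f g v k : L[X]} (hc : IsCoprime f g)
    (hk : k.degree < f.degree ∨ v.degree < g.degree) (h : f * v + g * k = 0) : v = 0 ∧ k = 0 := by
  rcases hk with hk | hk
  · have hf : f ≠ 0 := by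
      rintro rfl
      rw [degree_zero] at hk
      exact not_lt_bot hk
    have h1 : f ∣ g * k := by
      rw [← dvd_neg, ← add_eq_zero_iff_eq_neg.1 h]
      exact dvd_mul_right _ _
    have h2 : k = 0 := eq_zero_of_dvd_of_degree_lt (hc.dvd_of_dvd_mul_left h1) hk
    rw [h2, mul_zero, add_zero] at h
    exact ⟨(mul_eq_zero.1 h).resolve_left hf, h2⟩
  · have hg : g ≠ 0 := by
      rintro rfl
      rw [degree_zero] at hk
      exact not_lt_bot hk
    have h1 : g ∣ f * v := by
      rw [add_eq_zero_iff_eq_neg.1 h, dvd_neg]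
      exact dvd_mul_right _ _
    have h2 : v = 0 := eq_zero_of_dvd_of_degree_lt (hc.symm.dvd_of_dvd_mul_left h1) hk
    rw [h2, mul_zero, zero_add] at h
    exact ⟨h2, (mul_eq_zero.1 h).resolve_left hg⟩

lemma lin_degree {a : L} (b : L) (ha : a ≠ 0) : (C a * X + C b).degree = 1 := degree_linear ha

lemma lin_ne_zero {a : L} (b : L) (ha : a ≠ 0) : (C a * X + C b : L[X]) ≠ 0 := by
  intro h0
  have := lin_degree b ha
  rw [h0, degree_zero] at this
  exact absurd this (by decide)

lemma lin_eval {a : L} (b : L) (ha : a ≠ 0) : (C a * X + C b : L[X]).eval (-b / a) = 0 := by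
  rw [eval_add, eval_mul, eval_C, eval_X, eval_C]
  field_simp
  ring

/-- a polynomial which does not vanish at the zero of a linear form is coprime to it -/
lemma lin_coprime {a b : L} (ha : a ≠ 0) {p : L[X]} (hp : p.eval (-b / a) ≠ 0) :
    IsCoprime (C a * X + C b) p := by
  have hirr : Irreducible (C a * X + C b : L[X]) := irreducible_of_degree_eq_one (lin_degree b ha)
  rw [hirr.coprime_iff_not_dvd]
  rintro ⟨q, hq⟩
  apply hp
  rw [hq, eval_mul, lin_eval b ha, zero_mul]

lemma zero_of_pow_dvd {a b : L} (ha : a ≠ 0) {p : L[X]} {s : ℕ} (h : (C a * X + C b) ^ s ∣ p)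
    (hp : p.degree < s) : p = 0 := by
  apply eq_zero_of_dvd_of_degree_lt h
  rw [degree_pow, lin_degree b ha]
  simpa using hp

end field

end Pool.Agent.Lef3
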