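import Pool.Agent.Lef3.Euler
import Pool.Agent.Lef3.Pol

/-!
Restriction to a line and evaluation at the point where the generic line meets it.
-/

set_option autoImplicit false
set_option linter.unusedSectionVars false

noncomputable section

namespace Pool.Agent.Lef3

open MvPolynomial Pool.Agent.LefProd

universe u v

section ring

variable {L : Type u} [CommRing L]

/-- The restriction to the line with the points `T e₁ + e₂`. -/
def res (e₁ e₂ : Fin 3 → L) : MvPolynomial (Fin 3) L →+* Polynomial L :=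
  eval₂Hom Polynomial.C fun i => Polynomial.C (e₁ i) * Polynomial.X + Polynomial.C (e₂ i)

lemma res_C (e₁ e₂ : Fin 3 → L) (a : L) : res e₁ e₂ (C a) = Polynomial.C a := by
  rw [res, coe_eval₂Hom, eval₂_C]

lemma res_X (e₁ e₂ : Fin 3 → L) (i : Fin 3) :
    res e₁ e₂ (X i) = Polynomial.C (e₁ i) * Polynomial.X + Polynomial.C (e₂ i) := by
  rw [res, coe_eval₂Hom, eval₂_X]

lemma res_cD (D : Derivation ℤ L L) {e₁ e₂ : Fin 3 → L} (h1 : ∀ i, D (e₁ i) = 0)
    (h2 : ∀ i, D (e₂ i) = 0) (p : MvPolynomial (Fin 3) L) :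
    pD D (res e₁ e₂ p) = res e₁ e₂ (cD D p) := by
  induction p using MvPolynomial.induction_on with
  | C a => rw [res_C, pD_C, cD_C, res_C]
  | add p q hp hq => rw [map_add, map_add, hp, hq, map_add, map_add]
  | mul_X p i hp =>
    rw [map_mul, pD_mul, hp, cD_mul, cD_X, mul_zero, zero_add, map_mul, res_X, map_add, pD_mul,
      pD_C, pD_C, pD_X, h1, h2]
    simp

lemma eval_res (e₁ e₂ : Fin 3 → L) (p : MvPolynomial (Fin 3) L) (t : L) :
    (res e₁ e₂ p).eval t = eval (fun i => t * e₁ i + e₂ i) p := by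
  induction p using MvPolynomial.induction_on with
  | C a => rw [res_C, Polynomial.eval_C, eval_C]
  | add p q hp hq => rw [map_add, Polynomial.eval_add, hp, hq, map_add]
  | mul_X p i hp =>
    rw [map_mul, Polynomial.eval_mul, hp, map_mul, eval_X, res_X, Polynomial.eval_add,
      Polynomial.eval_mul, Polynomial.eval_C, Polynomial.eval_X, Polynomial.eval_C]
    ring

lemma res_monomial (e₁ e₂ : Fin 3 → L) (m : Fin 3 →₀ ℕ) (a : L) :
    res e₁ e₂ (monomial m a) = Polynomial.C a *
      ∏ i, (Polynomial.C (e₁ i) * Polynomial.X + Polynomial.C (e₂ i)) ^ m i := by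
  rw [res, coe_eval₂Hom, eval₂_monomial, Finsupp.prod_fintype]
  intro i
  rw [pow_zero]

/-- the degree of the restriction of a form, and its leading coefficient -/
lemma res_degree {d : ℕ} {p : MvPolynomial (Fin 3) L} (hp : p.IsHomogeneous d)
    (e₁ e₂ : Fin 3 → L) : (res e₁ e₂ p).natDegree ≤ d ∧ (res e₁ e₂ p).coeff d = eval e₁ p := by
  have key : ∀ m : Fin 3 →₀ ℕ, (∏ i, (Polynomial.C (e₁ i) * Polynomial.X +
      Polynomial.C (e₂ i)) ^ m i).natDegree ≤ ∑ i, m i ∧
      (∏ i, (Polynomial.C (e₁ i) * Polynomial.X + Polynomial.C (e₂ i)) ^ m i).coeff (∑ i, m i) =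
        ∏ i, e₁ i ^ m i := by
    intro m
    have h0 : ∀ i, (Polynomial.C (e₁ i) * Polynomial.X + Polynomial.C (e₂ i)).natDegree ≤ 1 :=
      fun i => Polynomial.natDegree_linear_le
    have h1 : ∀ i, ((Polynomial.C (e₁ i) * Polynomial.X +
        Polynomial.C (e₂ i)) ^ m i).natDegree ≤ m i := by
      intro i
      refine (Polynomial.natDegree_pow_le).trans ?_
      refine (Nat.mul_le_mul_left _ (h0 i)).trans ?_
      rw [mul_one]
    have h2 : ∀ i, ((Polynomial.C (e₁ i) * Polynomial.X +
        Polynomial.C (e₂ i)) ^ m i).coeff (m i) = e₁ i ^ m i := by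
      intro i
      have := Polynomial.coeff_pow_of_natDegree_le (m := m i) (h0 i)
      rw [mul_one] at this
      rw [this]
      simp
    have h3 : ((Polynomial.C (e₁ 0) * Polynomial.X + Polynomial.C (e₂ 0)) ^ m 0 *
        (Polynomial.C (e₁ 1) * Polynomial.X + Polynomial.C (e₂ 1)) ^ m 1).natDegree ≤
        m 0 + m 1 := Polynomial.natDegree_mul_le_of_le (h1 0) (h1 1)
    rw [Fin.prod_univ_three, Fin.sum_univ_three, Fin.prod_univ_three]
    refine ⟨Polynomial.natDegree_mul_le_of_le h3 (h1 2), ?_⟩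
    rw [Polynomial.coeff_mul_add_eq_of_natDegree_le h3 (h1 2),
      Polynomial.coeff_mul_add_eq_of_natDegree_le (h1 0) (h1 1), h2, h2, h2]
  have hsum : ∀ m ∈ p.support, ∑ i, m i = d := by
    intro m hm
    have := hp (mem_support_iff.1 hm)
    rw [Finsupp.weight_apply, Finsupp.sum_fintype _ _ (by simp)] at this
    simpa using this
  have hp2 : res e₁ e₂ p = ∑ m ∈ p.support, Polynomial.C (coeff m p) *
      ∏ i, (Polynomial.C (e₁ i) * Polynomial.X + Polynomial.C (e₂ i)) ^ m i := by
    conv_lhs => rw [p.as_sum, map_sum]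
    exact Finset.sum_congr rfl fun m _ => res_monomial _ _ _ _
  constructor
  · rw [hp2]
    refine Polynomial.natDegree_sum_le_of_forall_le _ _ fun m hm => ?_
    refine (Polynomial.natDegree_C_mul_le _ _).trans ?_
    rw [← hsum m hm]
    exact (key m).1
  · rw [hp2, Polynomial.finsetSum_coeff, eval_eq]
    refine Finset.sum_congr rfl fun m hm => ?_
    rw [Polynomial.coeff_C_mul, ← hsum m hm, (key m).2]
    congr 1
    refine (Finset.prod_subset (Finset.subset_univ m.support) fun i _ hi => ?_).symm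
    rw [Finsupp.notMem_support_iff.1 hi, pow_zero]

/-- scaling -/
lemma eval_smul_hom {d : ℕ} {p : MvPolynomial (Fin 3) L} (hp : p.IsHomogeneous d) (c : L)
    (x : Fin 3 → L) : eval (fun i => c * x i) p = c ^ d * eval x p := by
  rw [eval_eq, eval_eq, Finset.mul_sum]
  refine Finset.sum_congr rfl fun m hm => ?_
  have := hp (mem_support_iff.1 hm)
  rw [Finsupp.weight_apply, Finsupp.sum] at this
  simp only [mul_pow]
  rw [Finset.prod_mul_distrib, Finset.prod_pow_eq_pow_sum]
  simp only [Pi.one_apply, smul_eq_mul, mul_one] at this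
  rw [this]
  ring

end ring

end Pool.Agent.Lef3
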