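import Pool.Agent.Lef3.Cub

/-!
Homogeneity in the coefficients of the linear form.
-/

set_option autoImplicit false
set_option linter.unusedSectionVars false

noncomputable section

namespace Pool.Agent.Lef3

open MvPolynomial Pool.Agent.LefProd

universe u

variable {L : Type u} [Field L]

/-- The derivation in the direction `g`. -/
def dl (D : Fin 3 → Derivation ℤ L L) (g : Fin 3 → L) : Derivation ℤ L L :=
  g 0 • D 0 + g 1 • D 1 + g 2 • D 2

lemma dl_apply (D : Fin 3 → Derivation ℤ L L) (g : Fin 3 → L) (x : L) :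
    dl D g x = ∑ i, g i * D i x := by
  rw [Fin.sum_univ_three]
  rfl

lemma cD_dl (D : Fin 3 → Derivation ℤ L L) (g : Fin 3 → L) (p : MvPolynomial (Fin 3) L) :
    cD (dl D g) p = ∑ i, C (g i) * cD (D i) p := by
  ext m
  rw [coeff_cD, dl_apply, coeff_sum]
  refine Finset.sum_congr rfl fun i _ => ?_
  rw [coeff_C_mul, coeff_cD]

/-- A form of degree less than three divisible by a form of degree three is zero. -/
lemma zero_of_dvd_lt {f p : MvPolynomial (Fin 3) L} {d t : ℕ} (hf : f.IsHomogeneous t)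
    (hp : p.IsHomogeneous d) (hd : d < t) (h : f ∣ p) : p = 0 := by
  obtain ⟨q, hq⟩ := h
  have h1 := congrArg (homogeneousComponent d) hq
  rw [homogeneousComponent_of_mem hp, if_pos rfl, hc_mul hf, if_neg (by omega)] at h1
  exact h1

/-- cancel a power -/
lemma cancel_pow {f l : MvPolynomial (Fin 3) L} (h : ∀ X, f ∣ l * X → f ∣ X) :
    ∀ (n : ℕ) (X : MvPolynomial (Fin 3) L), f ∣ l ^ n * X → f ∣ X := by
  intro n
  induction n with
  | zero =>
    intro X hX
    simpa using hX
  | succ n ih =>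
    intro X hX
    apply ih
    apply h
    rw [← mul_assoc, ← pow_succ']
    exact hX

section euler

variable (D : Fin 3 → Derivation ℤ L L) {l : Fin 3 → L}
  (hD : ∀ i j, D i (l j) = if i = j then 1 else 0)
  (hcomm : ∀ i j x, D i (D j x) = D j (D i x))

include hD

lemma gen_ne_zero (j : Fin 3) : l j ≠ 0 := by
  intro h0
  have := hD j j
  rw [h0, map_zero, if_pos rfl] at this
  exact zero_ne_one this

lemma cD_lin (i : Fin 3) : cD (D i) (lin l : MvPolynomial (Fin 3) L) = X i := by
  rw [lin_apply, map_sum, Finset.sum_eq_single i]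
  · rw [smul_eq_C_mul, cD_mul, cD_C, cD_X, hD, if_pos rfl]
    simp
  · intro j _ hj
    rw [smul_eq_C_mul, cD_mul, cD_C, cD_X, hD, if_neg (Ne.symm hj)]
    simp
  · simp

lemma cD_dl_lin (g : Fin 3 → L) : cD (dl D g) (lin l : MvPolynomial (Fin 3) L) = lin g := by
  rw [cD_dl, lin_apply g]
  refine Finset.sum_congr rfl fun i _ => ?_
  rw [cD_lin D hD, smul_eq_C_mul]

include hcomm

lemma euler_comm (i : Fin 3) (x : L) : dl D l (D i x) = D i (dl D l x) - D i x := by
  rw [dl_apply, dl_apply, map_sum]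
  have h1 : ∀ j, D i (l j * D j x) = l j * D j (D i x) + (if i = j then 1 else 0) * D j x := by
    intro j
    rw [Derivation.leibniz, hD, hcomm i j, smul_eq_mul, smul_eq_mul]
    ring
  simp only [h1, Finset.sum_add_distrib]
  rw [Finset.sum_eq_single i (f := fun j => (if i = j then (1 : L) else 0) * D j x)]
  · rw [if_pos rfl]
    ring
  · intro j _ hj
    rw [if_neg (Ne.symm hj), zero_mul]
  · simp

lemma euler_cD_comm (i : Fin 3) (p : MvPolynomial (Fin 3) L) :
    cD (dl D l) (cD (D i) p) = cD (D i) (cD (dl D l) p) - cD (D i) p := by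
  ext m
  simp only [coeff_cD, coeff_sub, euler_comm D hD hcomm]

/-- `v` and `k` are homogeneous modulo `f₁` if `u` is homogeneous. -/
theorem euler_vk {f₁ f₂ f₃ u v k : MvPolynomial (Fin 3) L} {s e b : ℕ}
    (hf₁ : f₁.IsHomogeneous 3) (hf₂ : f₂.IsHomogeneous b)
    (h1 : ∀ i, cD (D i) f₁ = 0) (h2 : ∀ i, cD (D i) f₂ = 0) (h3 : ∀ i, cD (D i) f₃ = 0)
    (R5 : ∀ X A B, f₃ * X = f₁ * A + f₂ * B → ∃ A' B', X = f₁ * A' + f₂ * B')
    (R6 : ∀ X, f₁ ∣ f₂ * X → f₁ ∣ X)
    (hk : k.IsHomogeneous e) (heb : e < b)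
    (h : f₁ ∣ lin l ^ s * u - f₂ * v - f₃ * k) {c : L} (hu : cD (dl D l) u = C c * u) :
    f₁ ∣ cD (dl D l) v - C (c + s) * v ∧ f₁ ∣ cD (dl D l) k - C (c + s) * k := by
  obtain ⟨q, hq⟩ := h
  have hE : ∀ p : MvPolynomial (Fin 3) L, (∀ i, cD (D i) p = 0) → cD (dl D l) p = 0 := by
    intro p hp
    rw [cD_dl]
    exact Finset.sum_eq_zero fun i _ => by rw [hp, mul_zero]
  have e1 := congrArg (cD (dl D l)) hq
  rw [map_sub, map_sub, cD_mul, cD_mul, cD_mul, cD_mul, hE f₁ h1, hE f₂ h2, hE f₃ h3, cD_pow,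
    cD_dl_lin D hD, hu] at e1
  have hpow : (s : MvPolynomial (Fin 3) L) * lin l ^ (s - 1) * lin l =
      (s : MvPolynomial (Fin 3) L) * lin l ^ s := by
    rcases s with _ | s
    · simp
    · rw [Nat.add_sub_cancel, pow_succ]
      ring
  have hC : (C (c + (s : L)) : MvPolynomial (Fin 3) L) = C c + (s : MvPolynomial (Fin 3) L) := by
    rw [C_add]
    congr 1
  set y := cD (dl D l) k - C (c + (s : L)) * k with hy
  set z := cD (dl D l) v - C (c + (s : L)) * v with hz
  have e2 : f₃ * y = f₁ * ((C c + (s : MvPolynomial (Fin 3) L)) * q - cD (dl D l) q) +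
      f₂ * (-z) := by
    rw [hy, hz, hC]
    linear_combination (C c + (s : MvPolynomial (Fin 3) L)) * hq - e1 + u * hpow
  obtain ⟨A', B', hAB⟩ := R5 _ _ _ e2
  have hyh : y.IsHomogeneous e := by
    have h5 := (isHomogeneous_C (Fin 3) (c + (s : L))).mul hk
    rw [zero_add] at h5
    exact (cD_isHomogeneous _ hk).sub h5
  have hy1 : f₁ ∣ y := by
    have h6 := congrArg (homogeneousComponent e) hAB
    rw [homogeneousComponent_of_mem hyh, if_pos rfl, map_add, hc_mul hf₁, hc_mul hf₂,
      if_neg (show ¬ b ≤ e by omega), add_zero] at h6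
    rw [h6]
    split_ifs
    · exact dvd_mul_right _ _
    · exact dvd_zero _
  refine ⟨?_, hy1⟩
  apply R6
  obtain ⟨y', hy'⟩ := hy1
  refine ⟨(C c + (s : MvPolynomial (Fin 3) L)) * q - cD (dl D l) q - f₃ * y', ?_⟩
  rw [hy'] at e2
  linear_combination e2

/-- The consequences for `mu` and `nu`. -/
theorem euler_mu_nu {f₁ v k : MvPolynomial (Fin 3) L} {s : ℕ} (hs : 1 ≤ s)
    (hf₁ : f₁.IsHomogeneous 3) (h1 : ∀ i, cD (D i) f₁ = 0)
    (R1 : ∀ X, f₁ ∣ lin l * X → f₁ ∣ X) {r : L} (hr : ∀ i, D i r = 0)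
    (hv : f₁ ∣ cD (dl D l) v - C r * v) (hk : f₁ ∣ cD (dl D l) k - C r * k)
    {mu : L} {nu : Fin 3 → L}
    (H4 : ∀ i, f₁ ∣ v * cD (D i) k - k * cD (D i) v -
      lin l ^ (s - 1) * (C mu * X i + C (nu i) * lin l)) :
    mu + ∑ i, l i * nu i = 0 ∧ dl D l mu = (2 * r - s) * mu ∧
      ∀ i, dl D l (nu i) = (2 * r - s - 1) * nu i := by
  obtain ⟨t, rfl⟩ : ∃ t, s = t + 1 := ⟨s - 1, by omega⟩
  rw [Nat.add_sub_cancel] at H4
  choose q hq using H4
  obtain ⟨a, ha⟩ := hv
  obtain ⟨b, hb⟩ := hk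
  have hlh : (lin l : MvPolynomial (Fin 3) L).IsHomogeneous 1 := lin_isHomogeneous l
  have hE1 : cD (dl D l) f₁ = 0 := by
    rw [cD_dl]
    exact Finset.sum_eq_zero fun i _ => by rw [h1, mul_zero]
  constructor
  · have e1 : f₁ ∣ lin l ^ (t + 1) * C (mu + ∑ i, l i * nu i) := by
      refine ⟨v * b - k * a - ∑ i, C (l i) * q i, ?_⟩
      have e2 : ∑ i, C (l i) * (v * cD (D i) k - k * cD (D i) v -
          lin l ^ t * (C mu * X i + C (nu i) * lin l)) = ∑ i, C (l i) * (f₁ * q i) :=
        Finset.sum_congr rfl fun i _ => by rw [hq]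
      have e3 : ∑ i, C (l i) * (v * cD (D i) k - k * cD (D i) v -
          lin l ^ t * (C mu * X i + C (nu i) * lin l)) =
          v * cD (dl D l) k - k * cD (dl D l) v -
            lin l ^ t * (C mu * lin l + C (∑ i, l i * nu i) * lin l) := by
        have h5 : (lin l : MvPolynomial (Fin 3) L) = C (l 0) * X 0 + C (l 1) * X 1 +
            C (l 2) * X 2 := by
          rw [lin_apply, Fin.sum_univ_three, smul_eq_C_mul, smul_eq_C_mul, smul_eq_C_mul]
        conv_rhs => rw [cD_dl, cD_dl]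
        rw [map_sum]
        simp only [C_mul, Fin.sum_univ_three]
        linear_combination (lin l ^ t * C mu) * h5
      have e4 : ∑ i, C (l i) * (f₁ * q i) = f₁ * ∑ i, C (l i) * q i := by
        rw [Finset.mul_sum]
        exact Finset.sum_congr rfl fun i _ => by ring
      rw [e3, e4] at e2
      rw [C_add, pow_succ]
      linear_combination -e2 + v * hb - k * ha
    have e5 := cancel_pow R1 _ _ e1
    have e6 := zero_of_dvd_lt hf₁ (isHomogeneous_C (Fin 3) (mu + ∑ i, l i * nu i)) (by omega) e5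
    exact C_injective _ _ (by rw [e6, C_0])
  · have key : ∀ i, C (dl D l mu - (2 * r - (t + 1 : ℕ)) * mu) * X i +
        C (dl D l (nu i) - (2 * r - (t + 1 : ℕ) - 1) * nu i) * lin l = 0 := by
      intro i
      have hrC : cD (D i) (C r : MvPolynomial (Fin 3) L) = 0 := by rw [cD_C, hr, C_0]
      have e1 := congrArg (cD (dl D l)) (hq i)
      have ha' := congrArg (cD (D i)) ha
      have hb' := congrArg (cD (D i)) hb
      rw [map_sub, cD_mul, cD_mul, hrC, h1] at ha' hb'
      simp only [map_sub, cD_mul, map_add, cD_pow, cD_C, cD_X, cD_dl_lin D hD,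
        euler_cD_comm D hD hcomm, hE1] at e1
      have e2 : f₁ ∣ lin l ^ t * (C (dl D l mu - (2 * r - (t + 1 : ℕ)) * mu) * X i +
          C (dl D l (nu i) - (2 * r - (t + 1 : ℕ) - 1) * nu i) * lin l) := by
        have hpow : (t : MvPolynomial (Fin 3) L) * lin l ^ (t - 1) * lin l =
            (t : MvPolynomial (Fin 3) L) * lin l ^ t := by
          rcases t with _ | t
          · simp
          · rw [Nat.add_sub_cancel, pow_succ]
            ring
        have hC2' : (C (2 : L) : MvPolynomial (Fin 3) L) = 2 := rfl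
        have hC1 : (C (dl D l mu - (2 * r - (t + 1 : ℕ)) * mu) : MvPolynomial (Fin 3) L) =
            C (dl D l mu) - (2 * C r - ((t : MvPolynomial (Fin 3) L) + 1)) * C mu := by
          simp [hC2']
        have hC2 : (C (dl D l (nu i) - (2 * r - (t + 1 : ℕ) - 1) * nu i) :
            MvPolynomial (Fin 3) L) =
            C (dl D l (nu i)) - (2 * C r - ((t : MvPolynomial (Fin 3) L) + 1) - 1) *
              C (nu i) := by
          simp [hC2']
        rw [hC1, hC2]
        refine ⟨v * cD (D i) b - b * cD (D i) v + a * cD (D i) k - k * cD (D i) a +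
          (2 * C r - 1) * q i - cD (dl D l) (q i), ?_⟩
        linear_combination -e1 + (2 * C r - 1) * hq i + v * hb' - k * ha' + cD (D i) k * ha -
          cD (D i) v * hb - (C mu * X i + C (nu i) * lin l) * hpow
      have e3 := cancel_pow R1 _ _ e2
      refine zero_of_dvd_lt hf₁ (d := 1) ?_ (by omega) e3
      have t1 := (isHomogeneous_C (Fin 3) (dl D l mu - (2 * r - (t + 1 : ℕ)) * mu)).mul
        (isHomogeneous_X L i)
      have t2 := (isHomogeneous_C (Fin 3)
        (dl D l (nu i) - (2 * r - (t + 1 : ℕ) - 1) * nu i)).mul hlh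
      rw [zero_add] at t1 t2
      exact t1.add t2
    have hev : ∀ i j, (dl D l mu - (2 * r - (t + 1 : ℕ)) * mu) * (if i = j then 1 else 0) +
        (dl D l (nu i) - (2 * r - (t + 1 : ℕ) - 1) * nu i) * l j = 0 := by
      intro i j
      have h5 := congrArg (eval (Pi.single j (1 : L))) (key i)
      have h6 : ∑ i, l i * (Pi.single j (1 : L) : Fin 3 → L) i = l j := by
        rw [Finset.sum_eq_single j]
        · rw [Pi.single_eq_same, mul_one]
        · intro m _ hm
          rw [Pi.single_eq_of_ne hm, mul_zero]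
        · simp
      rw [map_add, map_mul, map_mul, eval_C, eval_C, eval_X, eval_lin, map_zero, h6,
        Pi.single_apply] at h5
      exact h5
    have hb0 : ∀ i, dl D l (nu i) - (2 * r - (t + 1 : ℕ) - 1) * nu i = 0 := by
      intro i
      obtain ⟨j, hj⟩ := exists_ne i
      have h5 := hev i j
      rw [if_neg (Ne.symm hj), mul_zero, zero_add] at h5
      exact (mul_eq_zero.1 h5).resolve_right (gen_ne_zero D hD j)
    refine ⟨?_, fun i => sub_eq_zero.1 (hb0 i)⟩
    have h5 := hev 0 0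
    rw [hb0, if_pos rfl, zero_mul, add_zero, mul_one] at h5
    exact sub_eq_zero.1 h5

end euler

end Pool.Agent.Lef3
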