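import Pool.Agent.Lef3.Nz

/-!
A prime which depends on the directions of all lines does not divide the values twice.
-/

set_option autoImplicit false
set_option linter.unusedSectionVars false

noncomputable section

namespace Pool.Agent.Lef3

open MvPolynomial Pool.Agent.LefProd

universe u

lemma dvd_wr {A : Type u} [CommRing A] [IsDomain A] (d : Derivation ℤ A A) {P x y : A}
    (hP : Prime P) (h : P ^ 2 ∣ x * y) : P ∣ x * d y - y * d x := by
  have key : ∀ z : A, P ^ 2 ∣ z → P ∣ z ∧ P ∣ d z := by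
    rintro z ⟨t, rfl⟩
    refine ⟨⟨P * t, by ring⟩, ?_⟩
    rw [Derivation.leibniz, Derivation.leibniz_pow]
    simp only [smul_eq_mul, nsmul_eq_mul]
    refine ⟨P * d t + t * ((2 : ℕ) * d P), ?_⟩
    ring
  by_cases hx : P ∣ x
  · by_cases hy : P ∣ y
    · exact dvd_sub (hx.mul_right _) (hy.mul_right _)
    · obtain ⟨h1, h2⟩ := key x (hP.pow_dvd_of_dvd_mul_right 2 hy h)
      exact dvd_sub (h1.mul_right _) (h2.mul_left _)
  · obtain ⟨h1, h2⟩ := key y (hP.pow_dvd_of_dvd_mul_left 2 hx h)
    exact dvd_sub (h2.mul_left _) (h1.mul_right _)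

section lines

variable {K : Type u} [Field K]

lemma lin_dvd_of_mul {v w : Fin 3 → K} (h : v ∉ Submodule.span K {w})
    {p : MvPolynomial (Fin 3) K} (hp : lin w ∣ lin v * p) : lin w ∣ p := by
  have key : ∀ q : MvPolynomial (Fin 3) K, lin w ∣ q ↔ q ∈ J (Submodule.span K {w}) [] := by
    intro q
    rw [show Submodule.span K {w} = ⊥ ⊔ Submodule.span K {w} by rw [bot_sup_eq], J_sup_span]
    have h0 : J (⊥ : Submodule K (Fin 3 → K)) [] = ⊥ := by
      rw [J_nil, Ideal.span_eq_bot]
      rintro _ ⟨x, hx, rfl⟩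
      rw [SetLike.mem_coe, Submodule.mem_bot] at hx
      rw [hx, map_zero]
    rw [h0, sup_bot_eq, Ideal.mem_span_singleton]
  rw [key] at hp ⊢
  exact nzd_nil h hp

lemma three_dvd {w₀ w₁ w₂ : Fin 3 → K} (h01 : w₀ ∉ Submodule.span K {w₁})
    (h02 : w₀ ∉ Submodule.span K {w₂}) (h12 : w₁ ∉ Submodule.span K {w₂})
    {p : MvPolynomial (Fin 3) K} (h0 : lin w₀ ∣ p) (h1 : lin w₁ ∣ p) (h2 : lin w₂ ∣ p) :
    pr [w₀, w₁, w₂] ∣ p := by
  obtain ⟨p₁, rfl⟩ := h0
  obtain ⟨p₂, rfl⟩ := lin_dvd_of_mul h01 h1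
  have h3 := lin_dvd_of_mul h12 (lin_dvd_of_mul h02 h2)
  obtain ⟨p₃, rfl⟩ := h3
  refine ⟨p₃, ?_⟩
  rw [pr_cons, pr_cons, pr_cons, pr_nil]
  ring

lemma up_notMem {F : Type u} [Field F] [Algebra F K] (E : Edg F) {v : Fin 3 → F}
    (h : v ∉ Submodule.span F {E.w}) : up K v ∉ Submodule.span K {up K E.w} := by
  intro h1
  apply h
  obtain ⟨c, hc⟩ := Submodule.mem_span_singleton.1 h1
  have h2 : ∀ e : Fin 3 → F, algebraMap F K (sp v e) = c * algebraMap F K (sp E.w e) := by
    intro e
    rw [← sp_up, ← sp_up, ← hc]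
    simp only [sp_three, Pi.smul_apply, smul_eq_mul]
    ring
  rw [E.mem_iff]
  constructor
  · have := h2 E.p
    rwa [E.wp, map_zero, mul_zero, map_eq_zero] at this
  · have := h2 E.q
    rwa [E.wq, map_zero, mul_zero, map_eq_zero] at this

end lines

variable {F : Type u} [Field F] [CharZero F] {L : Type u} [Field L] [CharZero L]
  [Algebra (Lam F) L] [Algebra F L] [IsScalarTower F (Lam F) L]

/-- the restriction over the polynomials in the coefficients of the generic form -/
abbrev Edg.ra (E : Edg F) (f : MvPolynomial (Fin 3) (Lam F)) : Polynomial (Lam F) :=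
  res (fun i => C (E.p i)) (fun i => C (E.q i)) f

lemma Edg.ra_map (E : Edg F) (f : MvPolynomial (Fin 3) (Lam F)) :
    (E.ra f).map (algebraMap (Lam F) L) = E.rl L f := by
  rw [Edg.ra, map_res]
  simp only [alg_C]
  rfl

lemma Edg.ra_pD (E : Edg F) (g : Fin 3 → F) (f : MvPolynomial (Fin 3) (Lam F)) :
    pD (pd g) (E.ra f) = E.ra (cD (pd g) f) :=
  res_cD (pd g) (fun _ => pd_C _ _) (fun _ => pd_C _ _) f

lemma cD_gl (g : Fin 3 → F) : cD (pd g) (gl F) = cst (lin g) := by
  rw [gl, map_sum, ← cst_lin]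
  refine Finset.sum_congr rfl fun i _ => ?_
  have h1 : cD (pd g) (C (X i) : MvPolynomial (Fin 3) (Lam F)) = C (C (g i)) :=
    (cD_C (pd g) (X i)).trans (congrArg C (pd_X g i))
  have h2 : cD (pd g) (X i : MvPolynomial (Fin 3) (Lam F)) = 0 := cD_X (pd g) i
  refine (cD_mul (pd g) _ _).trans ?_
  rw [h1, h2, mul_zero, zero_add, mul_comm]
  rfl

/-- One line: modulo a prime which divides `mu` and `nu` the restriction of `u` vanishes. -/
theorem Sol.excl_edge (hinj : Function.Injective (algebraMap (Lam F) L))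
    {D : Fin 3 → Derivation ℤ L L} {l₁ l₂ l₃ : List (Fin 3 → F)} {s e e' : ℕ}
    {u v k : MvPolynomial (Fin 3) (Lam F)} {mu : L} {nu : Fin 3 → L}
    (S : Sol D l₁ l₂ l₃ s e e' u v k mu nu) (E : Edg F) (hw : E.w ∈ l₁)
    (htr : Tr (Submodule.span F {E.w}) [l₂, l₃]) {P : Lam F} (hP : Prime P)
    (hPw : pd E.w P ≠ 0) {G : Lam F} (hG : ¬ P ∣ G)
    (hmu : ∃ m, algebraMap (Lam F) L G * mu = algebraMap (Lam F) L (P * m))
    (hnu : ∀ g : Fin 3 → F, ∃ m, algebraMap (Lam F) L G * sp (up L g) nu =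
      algebraMap (Lam F) L (P * m))
    {K : Type u} [Field K] [CharZero K] (π : Lam F →+* K) (hπ : ∀ a, π a = 0 ↔ P ∣ a)
    (hD' : ∀ δ : Derivation ℤ (Lam F) (Lam F), P ∣ δ P →
        ∃ δ' : Derivation ℤ K K, ∀ a, δ' (π a) = π (δ a)) :
    res (fun i => π (C (E.p i))) (fun i => π (C (E.q i))) (map π u) = 0 := by
  -- the Wronskians are divisible by `P`
  have hWr : ∀ g : Fin 3 → F, (E.ra v * E.ra (cD (pd g) k) - E.ra k * E.ra (cD (pd g) v)).map π
      = 0 := by
    intro g
    obtain ⟨m, hm⟩ := hmu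
    obtain ⟨n, hn⟩ := hnu g
    have h4 := S.four E hw g
    rw [S.ext.pD_rl, S.ext.pD_rl] at h4
    have h5 : Polynomial.C G * (E.ra v * E.ra (cD (pd g) k) - E.ra k * E.ra (cD (pd g) v)) =
        Polynomial.C P * (E.ra (gl F) ^ (s - 1) * (Polynomial.C m *
          (Polynomial.C (C (sp g E.p)) * Polynomial.X + Polynomial.C (C (sp g E.q))) +
          Polynomial.C n * E.ra (gl F))) := by
      apply Polynomial.map_injective _ hinj
      simp only [Polynomial.map_mul, Polynomial.map_sub, Polynomial.map_add, Polynomial.map_pow,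
        Polynomial.map_C, Polynomial.map_X, E.ra_map, alg_C]
      rw [h4, E.rl_gl]
      have hm' : Polynomial.C (algebraMap (Lam F) L G) * Polynomial.C mu =
          Polynomial.C (algebraMap (Lam F) L P) * Polynomial.C (algebraMap (Lam F) L m) := by
        rw [← Polynomial.C_mul, ← Polynomial.C_mul, hm, map_mul (algebraMap (Lam F) L)]
      have hn' : Polynomial.C (algebraMap (Lam F) L G) * Polynomial.C (sp (up L g) nu) =
          Polynomial.C (algebraMap (Lam F) L P) * Polynomial.C (algebraMap (Lam F) L n) := by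
        rw [← Polynomial.C_mul, ← Polynomial.C_mul, hn, map_mul (algebraMap (Lam F) L)]
      linear_combination (E.ll L ^ (s - 1) * (Polynomial.C (algebraMap F L (sp g E.p)) *
        Polynomial.X + Polynomial.C (algebraMap F L (sp g E.q)))) * hm' +
        (E.ll L ^ (s - 1) * E.ll L) * hn'
    have h6 := congrArg (Polynomial.map π) h5
    rw [Polynomial.map_mul, Polynomial.map_mul, Polynomial.map_C, Polynomial.map_C,
      (hπ P).2 dvd_rfl, Polynomial.C_0, zero_mul] at h6
    refine (mul_eq_zero.1 h6).resolve_left ?_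
    rw [Polynomial.C_eq_zero, hπ]
    exact hG
  -- the derivation
  let _ : Algebra F K := (π.comp (C : F →+* Lam F)).toAlgebra
  have hFK : ∀ a : F, algebraMap F K a = π (C a) := fun a => rfl
  have hres : ∀ f : MvPolynomial (Fin 3) (Lam F), (E.ra f).map π =
      res (up K E.p) (up K E.q) (map π f) := by
    intro f
    rw [Edg.ra, map_res]
    rfl
  have hcst : ∀ f : MvPolynomial (Fin 3) F, map π (cst f) = map (algebraMap F K) f := by
    intro f
    rw [cst, map_map]
    rfl
  obtain ⟨δ', hδ'⟩ := hD' (pd E.w P • pd E.b - pd E.b P • pd E.w) (by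
    have : (pd E.w P • pd E.b - pd E.b P • pd E.w) P = 0 := by
      change pd E.w P * pd E.b P - pd E.b P * pd E.w P = 0
      ring
    rw [this]
    exact dvd_zero _)
  have hδ'' : ∀ a, δ' (π a) = π (pd E.w P) * π (pd E.b a) - π (pd E.b P) * π (pd E.w a) := by
    intro a
    rw [hδ', ← map_mul, ← map_mul, ← map_sub]
    rfl
  have hpD : ∀ f : MvPolynomial (Fin 3) (Lam F), pD δ' ((E.ra f).map π) =
      Polynomial.C (π (pd E.w P)) * (E.ra (cD (pd E.b) f)).map π -
        Polynomial.C (π (pd E.b P)) * (E.ra (cD (pd E.w) f)).map π := by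
    intro f
    ext i
    have e1 : ∀ g : Fin 3 → F, (E.ra (cD (pd g) f)).coeff i = pd g ((E.ra f).coeff i) := by
      intro g
      exact (congrArg (fun q => Polynomial.coeff q i) (E.ra_pD g f)).symm.trans
        (coeff_pD (pd g) (E.ra f) i)
    rw [coeff_pD, Polynomial.coeff_map, hδ'', Polynomial.coeff_sub, Polynomial.coeff_C_mul,
      Polynomial.coeff_C_mul, Polynomial.coeff_map, Polynomial.coeff_map, e1, e1]
  set lK : Fin 3 → K := fun i => π (X i) with hlK
  have hspK : ∀ x : Fin 3 → F, sp lK (up K x) = π (sp X fun i => C (x i)) := by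
    intro x
    rw [sp_map]
    rfl
  have ha0 : sp lK (up K E.p) ≠ 0 := by
    rw [hspK, Ne, hπ]
    refine not_dvd_of_pd E.w hP hPw (sp_X_ne E.p_ne) ?_
    rw [pd_sp, E.wp, C_0]
  have hglK : map π (gl F) = lin lK := by
    rw [gl, map_sum, lin_apply]
    refine Finset.sum_congr rfl fun i _ => ?_
    rw [map_mul, map_C, map_X, smul_eq_C_mul]
  have hgl2 : (E.ra (gl F)).map π = Polynomial.C (sp lK (up K E.p)) * Polynomial.X +
      Polynomial.C (sp lK (up K E.q)) := by
    rw [hres, hglK, res_lin]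
  have hk0 : ∀ f : MvPolynomial (Fin 3) F, (E.ra (cst f)).map π = E.rs K f := by
    intro f
    rw [hres, hcst]
  have hcD0 : ∀ (g : Fin 3 → F) (f : MvPolynomial (Fin 3) F), E.ra (cD (pd g) (cst f)) = 0 := by
    intro g f
    rw [cD_cst, Edg.ra, map_zero]
  have hdeg : ∀ (f : MvPolynomial (Fin 3) (Lam F)) (n : ℕ), f.IsHomogeneous n →
      ((E.ra f).map π).degree ≤ n := by
    intro f n hf
    rw [hres]
    exact Polynomial.degree_le_of_natDegree_le (res_degree (hf.map _) _ _).1
  have hvd := hdeg v e' S.hv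
  have hkd := hdeg k e S.hk
  have main := wronskian_zero δ' (a := sp lK (up K E.p)) (b := sp lK (up K E.q))
    (c := π (pd E.w P)) ha0 (by rw [Ne, hπ]; exact not_dvd_pd E.w hPw) (by
      rw [← hgl2, hpD]
      have e1 : ∀ g : Fin 3 → F, (E.ra (cD (pd g) (gl F))).map π =
          Polynomial.C (π (C (sp g E.p))) * Polynomial.X + Polynomial.C (π (C (sp g E.q))) := by
        intro g
        rw [cD_gl, hk0, Edg.rs, res_map_lin]
        rfl
      rw [e1, e1, E.bp, E.bq, E.wp, E.wq]
      simp only [map_zero, map_one, zero_mul, zero_add, mul_one, add_zero, mul_zero,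
        sub_zero])
    (u := (E.ra u).map π) (v := (E.ra v).map π) (k := (E.ra k).map π) (f₂ := E.rs K (pr l₂))
    (f₃ := E.rs K (pr l₃)) (by
      rw [← hk0, hpD, hcD0, hcD0]
      simp) (by
      rw [← hk0, hpD, hcD0, hcD0]
      simp) (by
      have e1 : π (E.vl (cst (pr l₂))) = (-sp lK (up K E.p)) ^ l₂.length *
          (E.rs K (pr l₂)).eval (-sp lK (up K E.q) / sp lK (up K E.p)) := by
        rw [Edg.rs, ← eval_ept ha0 ((pr_isHomogeneous l₂).map _), ← hcst, Edg.vl, map_eval_pt]
        congr 2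
        funext i
        rw [Edg.lpt, ept_map]
        rfl
      intro h0
      rw [h0, mul_zero, hπ] at e1
      exact not_dvd_of_pd E.w hP hPw (E.vl_cst_pr_ne fun v hv => (htr v hv).1)
        (E.pd_vl_cst _) e1) (E.coprime htr) S.hs (by
      obtain ⟨q, hq⟩ := S.H1
      have e1 := congrArg (fun f => (E.ra f).map π) hq
      simp only [map_sub, map_mul, map_pow, Polynomial.map_sub, Polynomial.map_mul,
        Polynomial.map_pow] at e1
      rw [hk0, hk0, hk0, E.rs_zero hw, zero_mul, hgl2] at e1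
      linear_combination e1) (by
      rw [hpD, hpD]
      have e1 := hWr E.b
      have e2 := hWr E.w
      rw [Polynomial.map_sub, Polynomial.map_mul, Polynomial.map_mul] at e1 e2
      linear_combination Polynomial.C (π (pd E.w P)) * e1 - Polynomial.C (π (pd E.b P)) * e2)
    (lt_of_le_of_lt hvd (Nat.cast_lt.2 (by have := S.hes; have := S.he; omega)))
    (lt_of_le_of_lt hkd (Nat.cast_lt.2 (by have := S.hes; have := S.he'; omega))) (by
      rcases E.degree (K := K) htr with hd | hd
      · left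
        rw [hd]
        exact lt_of_le_of_lt hkd (Nat.cast_lt.2 S.heb)
      · right
        rw [hd]
        exact lt_of_le_of_lt hvd (Nat.cast_lt.2 S.hec))
  rw [← main.1, hres]
  rfl

end Pool.Agent.Lef3
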