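import Pool.Agent.Lef3.Excl

/-!
The exclusion for three lines.
-/

set_option autoImplicit false
set_option linter.unusedSectionVars false

noncomputable section

namespace Pool.Agent.Lef3

open MvPolynomial Pool.Agent.LefProd

universe u

variable {F : Type u} [Field F] [CharZero F] {L : Type u} [Field L] [CharZero L]
  [Algebra (Lam F) L] [Algebra F L] [IsScalarTower F (Lam F) L]

lemma tr_of_ci {l₁ l₂ l₃ : List (Fin 3 → F)} (hci : CI ⊥ [l₁, l₂, l₃]) {w : Fin 3 → F}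
    (hw : w ∈ l₁) : Tr (Submodule.span F {w}) [l₂, l₃] := by
  have := (hci.2.1 w hw).2
  rwa [bot_sup_eq] at this

/-- the products of the values on two lines -/
lemma Sol.h1 (hinj : Function.Injective (algebraMap (Lam F) L))
    {D : Fin 3 → Derivation ℤ L L} {l₁ l₂ l₃ : List (Fin 3 → F)} {s e e' : ℕ}
    {u v k : MvPolynomial (Fin 3) (Lam F)} {mu : L} {nu : Fin 3 → L}
    (S : Sol D l₁ l₂ l₃ s e e' u v k mu nu) (E E' : Edg F) (hw : E.w ∈ l₁) (hw' : E'.w ∈ l₁) :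
    E.vl u * E.vl k * E'.vl (cst (pr l₂)) = E'.vl u * E'.vl k * E.vl (cst (pr l₂)) := by
  apply hinj
  have e1 := S.six E hw
  have e2 := S.six E' hw'
  have hs0 : (s : L) ≠ 0 := Nat.cast_ne_zero.2 (by have := S.hs; omega)
  apply mul_left_cancel₀ hs0
  simp only [map_mul] at e1 e2 ⊢
  linear_combination (algebraMap (Lam F) L (E'.vl (cst (pr l₂)))) * e1 -
    (algebraMap (Lam F) L (E.vl (cst (pr l₂)))) * e2

theorem Sol.excl (hinj : Function.Injective (algebraMap (Lam F) L))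
    {D : Fin 3 → Derivation ℤ L L} {l₁ l₂ l₃ : List (Fin 3 → F)} {s e e' : ℕ}
    {u v k : MvPolynomial (Fin 3) (Lam F)} {mu : L} {nu : Fin 3 → L}
    (S : Sol D l₁ l₂ l₃ s e e' u v k mu nu) (hci : CI ⊥ [l₁, l₂, l₃]) (E₀ E₁ E₂ : Edg F)
    (hl : l₁ = [E₀.w, E₁.w, E₂.w]) (hE₀ : E₀.w = Pi.single 1 1) (hE₁ : E₁.w = Pi.single 2 1)
    (h01 : E₀.w ∉ Submodule.span F {E₁.w}) (h02 : E₀.w ∉ Submodule.span F {E₂.w})
    (h12 : E₁.w ∉ Submodule.span F {E₂.w}) {j : ℕ} (hu : u.IsHomogeneous j)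
    {P : Lam F} (hP : Prime P) (hd0 : pd E₀.w P ≠ 0) (hd1 : pd E₁.w P ≠ 0) (hd2 : pd E₂.w P ≠ 0)
    (h : P ^ 2 ∣ E₀.vl u * E₀.vl k) :
    ∃ (K : Type u) (_ : Field K) (π : Lam F →+* K), (∀ a, π a = 0 ↔ P ∣ a) ∧
      map (π.comp (C : F →+* Lam F)) (pr l₁) ∣ map π u := by
  have hw0 : E₀.w ∈ l₁ := by rw [hl]; simp
  have hw1 : E₁.w ∈ l₁ := by rw [hl]; simp
  have hw2 : E₂.w ∈ l₁ := by rw [hl]; simp
  have ht0 := tr_of_ci hci hw0
  have ht1 := tr_of_ci hci hw1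
  have ht2 := tr_of_ci hci hw2
  set F0 := E₀.vl (cst (pr l₂)) with hF0
  set F1 := E₁.vl (cst (pr l₂)) with hF1
  have nF0 : ¬ P ∣ F0 := not_dvd_of_pd E₀.w hP hd0 (E₀.vl_cst_pr_ne fun v hv => (ht0 v hv).1)
    (E₀.pd_vl_cst _)
  have nF1 : ¬ P ∣ F1 := not_dvd_of_pd E₁.w hP hd1 (E₁.vl_cst_pr_ne fun v hv => (ht1 v hv).1)
    (E₁.pd_vl_cst _)
  have nX : ¬ P ∣ (X 0 : Lam F) := by
    refine not_dvd_of_pd E₀.w hP hd0 (X_ne_zero 0) ?_
    rw [pd_X, hE₀]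
    simp
  have hG : ¬ P ∣ F0 * F1 * X 0 := by
    intro hdvd
    rcases hP.dvd_or_dvd hdvd with h' | h'
    · exact (hP.dvd_or_dvd h').elim nF0 nF1
    · exact nX h'
  have hUK1 : P ^ 2 ∣ E₁.vl u * E₁.vl k := by
    have e1 := S.h1 hinj E₀ E₁ hw0 hw1
    apply hP.pow_dvd_of_dvd_mul_right 2 nF0
    rw [← hF0, ← hF1] at e1
    rw [← e1]
    exact h.mul_right _
  -- the divisibility of `mu` and `nu`
  have hmu0 : ∃ m, mu * algebraMap (Lam F) L F0 = algebraMap (Lam F) L (P * m) := by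
    obtain ⟨m, hm⟩ := h
    have e1 := S.six E₀ hw0
    refine ⟨-((s : Lam F) * P * m), ?_⟩
    rw [hm, ← hF0] at e1
    simp only [map_mul, map_neg, map_natCast, map_pow] at e1 ⊢
    linear_combination e1
  have hnu1 : ∃ m, nu 1 * algebraMap (Lam F) L F0 = algebraMap (Lam F) L (P * m) := by
    obtain ⟨m, hm⟩ := dvd_wr (pd E₀.w) hP h
    have e1 := S.seven E₀ hw0
    have e2 : sp (up L E₀.w) nu = nu 1 := by
      rw [sp_three, hE₀]
      simp [up]
    rw [e2] at e1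
    exact ⟨m, e1.symm.trans (congrArg (algebraMap (Lam F) L) hm)⟩
  have hnu2 : ∃ m, nu 2 * algebraMap (Lam F) L F1 = algebraMap (Lam F) L (P * m) := by
    obtain ⟨m, hm⟩ := dvd_wr (pd E₁.w) hP hUK1
    have e1 := S.seven E₁ hw1
    have e2 : sp (up L E₁.w) nu = nu 2 := by
      rw [sp_three, hE₁]
      simp [up]
    rw [e2] at e1
    exact ⟨m, e1.symm.trans (congrArg (algebraMap (Lam F) L) hm)⟩
  obtain ⟨m0, hm0⟩ := hmu0
  obtain ⟨n1, hn1⟩ := hnu1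
  obtain ⟨n2, hn2⟩ := hnu2
  have hsum := S.sum
  rw [sp_three] at hsum
  have hmu : ∃ m, algebraMap (Lam F) L (F0 * F1 * X 0) * mu = algebraMap (Lam F) L (P * m) := by
    refine ⟨m0 * F1 * X 0, ?_⟩
    simp only [map_mul] at hm0 ⊢
    linear_combination (algebraMap (Lam F) L F1 * algebraMap (Lam F) L (X 0)) * hm0
  have hnu : ∀ g : Fin 3 → F, ∃ m, algebraMap (Lam F) L (F0 * F1 * X 0) * sp (up L g) nu =
      algebraMap (Lam F) L (P * m) := by
    intro g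
    refine ⟨C (g 0) * (-(m0 * F1) - X 1 * n1 * F1 - X 2 * n2 * F0) + C (g 1) * (n1 * F1 * X 0) +
      C (g 2) * (n2 * F0 * X 0), ?_⟩
    rw [sp_three]
    simp only [map_mul, map_add, map_sub, map_neg, alg_C] at hm0 hn1 hn2 ⊢
    simp only [up, lg] at hsum ⊢
    linear_combination (algebraMap F L (g 0) * algebraMap (Lam F) L F0 *
      algebraMap (Lam F) L F1) * hsum - (algebraMap F L (g 0) * algebraMap (Lam F) L F1) * hm0 +
      (algebraMap F L (g 1) * algebraMap (Lam F) L F1 * algebraMap (Lam F) L (X 0) -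
        algebraMap F L (g 0) * algebraMap (Lam F) L F1 * algebraMap (Lam F) L (X 1)) * hn1 +
      (algebraMap F L (g 2) * algebraMap (Lam F) L F0 * algebraMap (Lam F) L (X 0) -
        algebraMap F L (g 0) * algebraMap (Lam F) L F0 * algebraMap (Lam F) L (X 2)) * hn2
  obtain ⟨K, hK1, hK2, π, hπ, hD'⟩ := exists_residue hP (fun n hn hdvd => by
    have h1 : IsUnit ((n : ℤ) : Lam F) := isUnit_int (by exact_mod_cast hn)
    rw [Int.cast_natCast] at h1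
    exact hP.not_isUnit (isUnit_of_dvd_unit hdvd h1))
  refine ⟨K, hK1, π, hπ, ?_⟩
  have r0 := S.excl_edge hinj E₀ hw0 ht0 hP hd0 hG hmu hnu π hπ hD'
  have r1 := S.excl_edge hinj E₁ hw1 ht1 hP hd1 hG hmu hnu π hπ hD'
  have r2 := S.excl_edge hinj E₂ hw2 ht2 hP hd2 hG hmu hnu π hπ hD'
  let _ : Algebra F K := (π.comp (C : F →+* Lam F)).toAlgebra
  have hpu : (map π u).IsHomogeneous j := hu.map _
  have : Infinite K := CharZero.infinite K
  have d0 : lin (up K E₀.w) ∣ map π u := E₀.dvd_of_res hpu r0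
  have d1 : lin (up K E₁.w) ∣ map π u := E₁.dvd_of_res hpu r1
  have d2 : lin (up K E₂.w) ∣ map π u := E₂.dvd_of_res hpu r2
  have d3 := three_dvd (up_notMem E₁ h01) (up_notMem E₂ h02) (up_notMem E₂ h12) d0 d1 d2
  have e3 : pr [up K E₀.w, up K E₁.w, up K E₂.w] =
      map (algebraMap F K) (pr [E₀.w, E₁.w, E₂.w]) := by
    rw [← pr_up]
    rfl
  rw [e3, ← hl] at d3
  exact d3

end Pool.Agent.Lef3
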