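import Pool.Agent.Lef3.Pol

/-!
The flat case: an induction on one line.
-/

set_option autoImplicit false
set_option linter.unusedSectionVars false

noncomputable section

namespace Pool.Agent.Lef3

open Polynomial

universe u

variable {L : Type u} [Field L] [CharZero L]

/-- The derivation `D` minus multiplication by `m`. -/
def tw (D : Derivation ℤ L L) (m : L) (p : L[X]) : L[X] := pD D p - C m * p

private lemma tw_sub_Flat (D : Derivation ℤ L L) (m : L) (p q : L[X]) :
    tw D m (p - q) = tw D m p - tw D m q := by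
  rw [tw, tw, tw, map_sub]
  ring

private lemma tw_add_Flat (D : Derivation ℤ L L) (m : L) (p q : L[X]) :
    tw D m (p + q) = tw D m p + tw D m q := by
  rw [tw, tw, tw, map_add]
  ring

private lemma tw_mul_Flat (D : Derivation ℤ L L) (m : L) (p q : L[X]) :
    tw D m (p * q) = pD D p * q + p * tw D m q := by
  rw [tw, tw, pD_mul]
  ring

private lemma lin_pD_Flat (D : Derivation ℤ L L) {la lb : L} (h1 : D la = 0) (h2 : D lb = 1) :
    pD D (C la * X + C lb) = 1 := by
  rw [map_add, pD_mul, pD_C, pD_C, pD_X, h1, h2]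
  simp

/-- a form which is constant and divisible by `l` is zero -/
private lemma zero_of_dvd_Flat (D : Derivation ℤ L L) (m : L) {l X : L[X]} (hl : pD D l = 1)
    (hl1 : 0 < l.degree) (hX : tw D m X = 0) (hd : l ∣ X) : X = 0 := by
  by_contra hX0
  have hfin : FiniteMultiplicity l X :=
    FiniteMultiplicity.of_not_isUnit (not_isUnit_of_degree_pos l hl1) hX0
  obtain ⟨Y, hY, hlY⟩ := hfin.exists_eq_pow_mul_and_not_dvd
  set n := multiplicity l X with hn
  have hn1 : n ≠ 0 := by
    intro h0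
    rw [h0, pow_zero, one_mul] at hY
    rw [hY] at hd
    exact hlY hd
  rw [hY, tw_mul_Flat, pD_pow, hl, mul_one] at hX
  obtain ⟨i, hi⟩ := Nat.exists_eq_succ_of_ne_zero hn1
  rw [hi, Nat.succ_sub_one, pow_succ, mul_assoc, mul_assoc] at hX
  have hl0 : l ≠ 0 := by
    rintro rfl
    simp at hl1
  have h1 : l ^ i * (((i + 1 : ℕ) : L[X]) * Y + l * tw D m Y) = 0 := by
    rw [← hX]
    push_cast
    ring
  have h2 := (mul_eq_zero.1 h1).resolve_left (pow_ne_zero _ hl0)
  have h3 : l ∣ ((i + 1 : ℕ) : L[X]) * Y := by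
    rw [add_eq_zero_iff_eq_neg.1 h2]
    exact (Dvd.intro _ rfl).neg_right
  apply hlY
  have h4 : ((i + 1 : ℕ) : L[X]) = C ((i + 1 : ℕ) : L) := by simp
  rw [h4] at h3
  exact (dvd_C_mul (Nat.cast_ne_zero.2 (Nat.succ_ne_zero i))).1 h3

/-- The induction of the flat case. -/
theorem flat_ind (Da Db : Derivation ℤ L L) {ma mb : L} (hcomm : ∀ x, Da (Db x) = Db (Da x))
    (hm : Da mb = Db ma) {l : L[X]} (hl : pD Db l = 1) (hl1 : 0 < l.degree) {f₂ f₃ : L[X]}
    (h2 : pD Db f₂ = 0) (h3 : pD Db f₃ = 0) (hc : IsCoprime f₂ f₃) :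
    ∀ (m : ℕ) (v k : L[X]), tw Da ma k = X * tw Db mb k → tw Da ma v = X * tw Db mb v →
    v.degree < m → k.degree < m → (k.degree < f₂.degree ∨ v.degree < f₃.degree) →
    l ^ m ∣ f₂ * v + f₃ * k →
    v = 0 ∧ k = 0 := by
  have hl0 : l ≠ 0 := by
    rintro rfl
    simp at hl1
  -- the lowered polynomial
  have low : ∀ (m : ℕ) (q : L[X]), tw Da ma q = X * tw Db mb q → q.degree < ((m + 1 : ℕ) : WithBot ℕ) →
      (tw Db mb q).degree < (m : WithBot ℕ) := by
    intro m q hq hd
    by_cases h0 : tw Db mb q = 0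
    · rw [h0, degree_zero]
      exact WithBot.bot_lt_coe m
    · have e1 : (tw Da ma q).degree < ((m + 1 : ℕ) : WithBot ℕ) := by
        refine lt_of_le_of_lt (degree_sub_le _ _) (max_lt ?_ ?_)
        · exact lt_of_le_of_lt (degree_pD_le _ _) hd
        · exact lt_of_le_of_lt (degree_C_mul_le' _ _) hd
      rw [hq, degree_mul, degree_X, degree_eq_natDegree h0] at e1
      rw [degree_eq_natDegree h0]
      have e2 : ((1 + (tw Db mb q).natDegree : ℕ) : WithBot ℕ) < ((m + 1 : ℕ) : WithBot ℕ) := by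
        exact_mod_cast e1
      have e3 := Nat.cast_lt.1 e2
      exact Nat.cast_lt.2 (by omega)
  have low2 : ∀ q : L[X], tw Da ma q = X * tw Db mb q → (tw Db mb q).degree ≤ q.degree := by
    intro q _
    refine (degree_sub_le _ _).trans (max_le (degree_pD_le _ _) (degree_C_mul_le' _ _))
  have comm : ∀ q : L[X], tw Da ma (tw Db mb q) = tw Db mb (tw Da ma q) := by
    intro q
    simp only [tw, map_sub, pD_mul, pD_C]
    rw [pD_comm hcomm, hm]
    ring
  intro m
  induction m with
  | zero =>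
    intro v k _ _ hv hk _ _
    rw [Nat.cast_zero, Nat.WithBot.lt_zero_iff, degree_eq_bot] at hv hk
    exact ⟨hv, hk⟩
  | succ m ih =>
    intro v k hk1 hv1 hv hk hkf hdvd
    have hlow : ∀ q : L[X], tw Da ma q = X * tw Db mb q →
        tw Da ma (tw Db mb q) = X * tw Db mb (tw Db mb q) := by
      intro q hq
      rw [comm, hq, tw_mul_Flat, pD_X]
      ring
    have hG : tw Db mb (f₂ * v + f₃ * k) = f₂ * tw Db mb v + f₃ * tw Db mb k := by
      rw [tw_add_Flat, tw_mul_Flat, tw_mul_Flat, h2, h3]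
      ring
    obtain ⟨hv', hk'⟩ := ih (tw Db mb v) (tw Db mb k) (hlow k hk1) (hlow v hv1)
      (low m v hv1 hv) (low m k hk1 hk) (hkf.imp (lt_of_le_of_lt (low2 k hk1))
        (lt_of_le_of_lt (low2 v hv1))) (by
        rw [← hG]
        obtain ⟨Y, hY⟩ := hdvd
        rw [hY, tw_mul_Flat, pD_pow, hl, Nat.add_sub_cancel, pow_succ]
        refine dvd_add ?_ ?_
        · exact ⟨((m + 1 : ℕ) : L[X]) * Y, by ring⟩
        · exact ⟨l * tw Db mb Y, by ring⟩)
    have hG0 : f₂ * v + f₃ * k = 0 := by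
      apply zero_of_dvd_Flat Db mb hl hl1
      · rw [hG, hv', hk']
        ring
      · exact (dvd_pow_self l (Nat.succ_ne_zero m)).trans hdvd
    exact zero_pair hc hkf hG0

private lemma isCoprime_of_isUnit_left_Flat {p q : L[X]} (h : IsUnit p) : IsCoprime p q := by
  obtain ⟨r, hr⟩ := h.exists_left_inv
  exact ⟨r, 0, by rw [hr]; ring⟩

/-- The flat case. -/
theorem flat_false (Da Db : Derivation ℤ L L) (hcomm : ∀ x, Da (Db x) = Db (Da x)) {la lb mu : L}
    (hla : la ≠ 0) (haa : Da la = 1) (hab : Da lb = 0) (hba : Db la = 0) (hbb : Db lb = 1)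
    (hmu : mu ≠ 0) {f₂ f₃ : L[X]} (h2 : pD Db f₂ = 0) (h3 : pD Db f₃ = 0)
    (hc : IsCoprime f₂ f₃) {v k : L[X]} {s : ℕ} (hv : v.degree < s)
    (hk : k.degree < s) (hkf : k.degree < f₂.degree ∨ v.degree < f₃.degree)
    (hdvd : (C la * X + C lb) ^ s ∣ f₂ * v + f₃ * k)
    (ha : v * pD Da k - k * pD Da v = C mu * (C la * X + C lb) ^ (s - 1) * X)
    (hb : v * pD Db k - k * pD Db v = C mu * (C la * X + C lb) ^ (s - 1))
    (hk0 : k.eval (-lb / la) ≠ 0) : False := by
  set l : L[X] := C la * X + C lb with hl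
  have hla' : pD Da l = X := by
    rw [hl, map_add, pD_mul, pD_C, pD_C, pD_X, haa, hab]
    simp
  have hlb' : pD Db l = 1 := lin_pD_Flat Db hba hbb
  have hldeg : l.degree = 1 := degree_linear hla
  have hl1 : 0 < l.degree := by
    rw [hldeg]
    exact zero_lt_one
  have hl0 : l ≠ 0 := by
    intro h0
    rw [h0, degree_zero] at hldeg
    exact absurd hldeg (by decide)
  have hkne : k ≠ 0 := by
    rintro rfl
    simp at hk0
  -- `v` and `k` are coprime
  have hcop1 : IsCoprime l k := by
    have hirr : Irreducible l := irreducible_of_degree_eq_one hldeg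
    rw [hirr.coprime_iff_not_dvd]
    rintro ⟨q, hq⟩
    apply hk0
    rw [hq, eval_mul, hl]
    have : (C la * X + C lb).eval (-lb / la) = 0 := by
      rw [eval_add, eval_mul, eval_C, eval_X, eval_C]
      field_simp
      ring
    rw [this, zero_mul]
  have hcop : IsCoprime v k := by
    have h1 : IsCoprime (C mu * l ^ (s - 1)) k := by
      refine IsCoprime.mul_left ?_ hcop1.pow_left
      exact isCoprime_of_isUnit_left_Flat (isUnit_C.2 (isUnit_iff_ne_zero.2 hmu))
    have h2 := h1.add_mul_left_left (pD Db v)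
    rw [← hb, sub_add_cancel] at h2
    exact h2.of_mul_left_left
  -- the multiplier
  have hth : v * (pD Da k - X * pD Db k) = k * (pD Da v - X * pD Db v) := by
    linear_combination ha - X * hb
  obtain ⟨lam, hlam⟩ : k ∣ pD Da k - X * pD Db k := by
    apply hcop.symm.dvd_of_dvd_mul_left
    rw [hth]
    exact dvd_mul_right _ _
  have hlam2 : pD Da v - X * pD Db v = v * lam := by
    apply mul_left_cancel₀ hkne
    rw [← hth, hlam]
    ring
  have e1 := congrArg (pD Db) ha
  have e2 := congrArg (pD Da) hb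
  have c1 : pD Db (pD Da k) = pD Da (pD Db k) := (pD_comm hcomm k).symm
  have c2 : pD Db (pD Da v) = pD Da (pD Db v) := (pD_comm hcomm v).symm
  simp only [map_sub, pD_mul, pD_pow, pD_C, pD_X, hla', hlb', c1, c2] at e1 e2
  have e3 : 2 * (pD Da k * pD Db v - pD Da v * pD Db k) =
      (X * C (Db mu) - C (Da mu)) * l ^ (s - 1) := by
    linear_combination e1 - e2
  have e4 : (2 * (lam * C mu) - (C (Da mu) - X * C (Db mu))) * l ^ (s - 1) = 0 := by
    linear_combination (-1 : L[X]) * e3 + 2 * pD Db v * hlam - 2 * pD Db k * hlam2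
      + (-2 : L[X]) * lam * hb
  have e5 : 2 * (lam * C mu) = C (Da mu) - X * C (Db mu) :=
    sub_eq_zero.1 ((mul_eq_zero.1 e4).resolve_right (pow_ne_zero _ hl0))
  have h2mu : (2 * mu : L) ≠ 0 := mul_ne_zero two_ne_zero hmu
  set ma : L := Da mu / (2 * mu) with hma
  set mb : L := Db mu / (2 * mu) with hmb
  have e6 : lam = C ma - X * C mb := by
    have h3 : C (2 * mu) * lam = C (2 * mu) * (C ma - X * C mb) := by
      have h4 : C (2 * mu) * C ma = C (Da mu) := by
        rw [← C_mul, hma, mul_div_cancel₀ _ h2mu]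
      have h5 : C (2 * mu) * C mb = C (Db mu) := by
        rw [← C_mul, hmb, mul_div_cancel₀ _ h2mu]
      have h6 : (C (2 * mu) : L[X]) = 2 * C mu := by
        rw [C_mul]
        rfl
      calc C (2 * mu) * lam = 2 * (lam * C mu) := by rw [h6]; ring
        _ = C (Da mu) - X * C (Db mu) := e5
        _ = C (2 * mu) * (C ma - X * C mb) := by rw [← h4, ← h5]; ring
    exact mul_left_cancel₀ (C_ne_zero.2 h2mu) h3
  have hm : Da mb = Db ma := by
    rw [hma, hmb, Derivation.leibniz_div, Derivation.leibniz_div]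
    simp only [smul_eq_mul, Derivation.leibniz, hcomm mu]
    have t1 : Da (2 : L) = 0 := by exact_mod_cast Derivation.map_natCast Da 2
    have t2 : Db (2 : L) = 0 := by exact_mod_cast Derivation.map_natCast Db 2
    rw [t1, t2]
    ring
  have hk1 : tw Da ma k = X * tw Db mb k := by
    rw [tw, tw]
    linear_combination hlam + k * e6
  have hv1 : tw Da ma v = X * tw Db mb v := by
    rw [tw, tw]
    linear_combination hlam2 + v * e6
  have := flat_ind Da Db hcomm hm hlb' hl1 h2 h3 hc s v k hk1 hv1 hv hk hkf hdvd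
  exact hkne this.2

end Pool.Agent.Lef3
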