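import Pool.Agent.Lef3.Pol

/-!
A solution with vanishing Wronskian is zero: comparison of orders at the zero of `l`.
-/

set_option autoImplicit false
set_option linter.unusedSectionVars false

noncomputable section

namespace Pool.Agent.Lef3

open Polynomial

universe u

variable {L : Type u} [Field L] [CharZero L]

private lemma split_Order {l p : L[X]} (hl : 0 < l.degree) (hp : p ≠ 0) :
    ∃ (n : ℕ) (q : L[X]), p = l ^ n * q ∧ ¬ l ∣ q := by
  have hfin : FiniteMultiplicity l p :=
    FiniteMultiplicity.of_not_isUnit (not_isUnit_of_degree_pos l hl) hp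
  obtain ⟨Y, hY, hlY⟩ := hfin.exists_eq_pow_mul_and_not_dvd
  exact ⟨_, Y, hY, hlY⟩

/-- `l (u D k - k D u) = s c u k` forces the order of `k` to be `s` more than the order of `u`. -/
theorem order_lem (D : Derivation ℤ L L) {a b c : L} (ha : a ≠ 0) (hc : c ≠ 0)
    (hD : pD D (C a * X + C b) = C c) {u k : L[X]} {s : ℕ}
    (h : (C a * X + C b) * (u * pD D k - k * pD D u) = (s : L[X]) * C c * (u * k))
    (hk : k.degree < s) : u = 0 ∨ k = 0 := by
  by_contra hcon
  push Not at hcon
  obtain ⟨hu0, hk0⟩ := hcon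
  set l : L[X] := C a * X + C b with hl
  have hldeg : l.degree = 1 := degree_linear ha
  have hl1 : 0 < l.degree := by
    rw [hldeg]
    exact zero_lt_one
  have hl0 : l ≠ 0 := by
    intro h0
    rw [h0, degree_zero] at hldeg
    exact absurd hldeg (by decide)
  have hirr : Irreducible l := irreducible_of_degree_eq_one hldeg
  have hpr : Prime l := hirr.prime
  obtain ⟨i, u', hu, hu'⟩ := split_Order hl1 hu0
  obtain ⟨j, k', hk2, hk'⟩ := split_Order hl1 hk0
  -- multiply by `l`
  have e1 : l * pD D u = (i : L[X]) * l ^ i * C c * u' + l ^ (i + 1) * pD D u' := by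
    rw [hu, pD_mul, pD_pow, hD]
    rcases i with _ | i
    · simp
    · rw [Nat.add_sub_cancel]
      ring
  have e2 : l * pD D k = (j : L[X]) * l ^ j * C c * k' + l ^ (j + 1) * pD D k' := by
    rw [hk2, pD_mul, pD_pow, hD]
    rcases j with _ | j
    · simp
    · rw [Nat.add_sub_cancel]
      ring
  have e3 : l ^ (i + j) * (((j : L[X]) - i - s) * C c * (u' * k') +
      l * (u' * pD D k' - k' * pD D u')) = 0 := by
    have e4 : l * (u * pD D k - k * pD D u) = u * (l * pD D k) - k * (l * pD D u) := by ring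
    rw [e4, e1, e2, hu, hk2] at h
    linear_combination h
  have e5 := (mul_eq_zero.1 e3).resolve_left (pow_ne_zero _ hl0)
  have e6 : l ∣ ((j : L[X]) - i - s) * C c * (u' * k') := by
    rw [add_eq_zero_iff_eq_neg.1 e5]
    exact (Dvd.intro _ rfl).neg_right
  have e7 : ((j : L[X]) - i - s) * C c = C (((j : L) - i - s) * c) := by simp
  rw [e7] at e6
  have e8 : ((j : L) - i - s) * c = 0 := by
    by_contra hne
    rw [dvd_C_mul hne] at e6
    exact (hpr.dvd_or_dvd e6).elim hu' hk'
  have e9 : (j : L) = ((i + s : ℕ) : L) := by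
    have := (mul_eq_zero.1 e8).resolve_right hc
    push_cast
    linear_combination this
  have e10 : j = i + s := by exact_mod_cast e9
  have e11 : l ^ s ∣ k := by
    rw [hk2, e10, pow_add]
    exact ⟨l ^ i * k', by ring⟩
  apply hk0
  apply eq_zero_of_dvd_of_degree_lt e11
  rw [degree_pow, hldeg]
  simpa using hk

/-- Vanishing Wronskian. -/
theorem wronskian_zero (D : Derivation ℤ L L) {a b c : L} (ha : a ≠ 0) (hc : c ≠ 0)
    (hD : pD D (C a * X + C b) = C c) {u v k f₂ f₃ : L[X]} (h2 : pD D f₂ = 0) (h3 : pD D f₃ = 0)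
    (hf : f₂.eval (-b / a) ≠ 0) (hcop : IsCoprime f₂ f₃) {s : ℕ} (hs : 1 ≤ s)
    (h : (C a * X + C b) ^ s * u = f₂ * v + f₃ * k) (hw : v * pD D k = k * pD D v)
    (hv : v.degree < s) (hk : k.degree < s) (hkf : k.degree < f₂.degree ∨ v.degree < f₃.degree) :
    u = 0 ∧ v = 0 ∧ k = 0 := by
  have hl0 := lin_ne_zero b ha
  set l : L[X] := C a * X + C b with hl
  have key : l * (u * pD D k - k * pD D u) = (s : L[X]) * C c * (u * k) := by
    obtain ⟨t, rfl⟩ : ∃ t, s = t + 1 := ⟨s - 1, by omega⟩
    have e1 := congrArg (pD D) h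
    rw [map_add, pD_mul, pD_pow, pD_mul, pD_mul, h2, h3, hD, Nat.add_sub_cancel] at e1
    apply mul_left_cancel₀ (pow_ne_zero t hl0)
    linear_combination (pD D k) * h - k * e1 + (f₂ : L[X]) * hw
  rcases order_lem D ha hc hD key hk with h0 | h0
  · rw [h0, mul_zero] at h
    obtain ⟨e1, e2⟩ := zero_pair hcop hkf h.symm
    exact ⟨h0, e1, e2⟩
  · rw [h0, mul_zero, add_zero] at h
    have e1 : l ^ s ∣ v := by
      apply (lin_coprime ha hf).pow_left.dvd_of_dvd_mul_left
      rw [← h]
      exact dvd_mul_right _ _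
    have e2 := zero_of_pow_dvd ha e1 hv
    rw [e2, mul_zero] at h
    exact ⟨(mul_eq_zero.1 h).resolve_left (pow_ne_zero _ hl0), e2, h0⟩

end Pool.Agent.Lef3
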