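import Pool.Agent.Lef3.Line2
import Pool.Agent.Lef3.Order
import Pool.Agent.Lef3.Flat

/-!
The formulas on the lines.
-/

set_option autoImplicit false
set_option linter.unusedSectionVars false

noncomputable section

namespace Pool.Agent.Lef3

open MvPolynomial Pool.Agent.LefProd

universe u

variable {F : Type u} [Field F] [CharZero F] {L : Type u} [Field L] [CharZero L]
  [Algebra (Lam F) L] [Algebra F L] [IsScalarTower F (Lam F) L]

/-- the generic form over `L` -/
def lg (F : Type u) [Field F] (L : Type u) [Field L] [Algebra (Lam F) L] : Fin 3 → L :=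
  fun i => algebraMap (Lam F) L (X i)

lemma alg_C (a : F) : algebraMap (Lam F) L (C a) = algebraMap F L a :=
  (IsScalarTower.algebraMap_apply F (Lam F) L a).symm

lemma map_cst (f : MvPolynomial (Fin 3) F) :
    map (algebraMap (Lam F) L) (cst f) = map (algebraMap F L) f := by
  rw [cst, map_map, IsScalarTower.algebraMap_eq F (Lam F) L]
  rfl

lemma map_gl : map (algebraMap (Lam F) L) (gl F) = lin (lg F L) := by
  rw [gl, map_sum, lin_apply]
  refine Finset.sum_congr rfl fun i _ => ?_
  rw [map_mul, map_C, map_X, smul_eq_C_mul]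
  rfl

lemma alg_sp (e : Fin 3 → F) :
    algebraMap (Lam F) L (sp X fun i => C (e i)) = sp (lg F L) (up L e) := by
  rw [sp_map]
  simp only [alg_C]
  rfl

lemma Edg.alg_vl (E : Edg F) (f : MvPolynomial (Fin 3) (Lam F)) : algebraMap (Lam F) L (E.vl f) =
    eval (ept (lg F L) (up L E.p) (up L E.q)) (map (algebraMap (Lam F) L) f) := by
  rw [Edg.vl, map_eval_pt]
  congr 2
  funext i
  rw [Edg.lpt, ept_map]
  simp only [alg_C]
  rfl

/-- the derivations of `L` which extend the partial derivatives -/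
def Ext (D : Fin 3 → Derivation ℤ L L) : Prop :=
  ∀ i a, D i (algebraMap (Lam F) L a) = algebraMap (Lam F) L (pd (Pi.single i 1) a)

section ext

variable {D : Fin 3 → Derivation ℤ L L} (hD : Ext (F := F) D)

include hD

lemma Ext.dual (i j : Fin 3) : D i (lg F L j) = if i = j then 1 else 0 := by
  rw [lg, hD, pd_X, Pi.single_apply]
  split_ifs with h1 h2 h2
  · simp
  · exact absurd h1.symm h2
  · exact absurd h2.symm h1
  · simp

lemma Ext.const (i : Fin 3) (a : F) : D i (algebraMap F L a) = 0 := by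
  rw [← alg_C, hD, pd_C, map_zero]

lemma Ext.dl_up (g : Fin 3 → F) (a : Lam F) :
    dl D (up L g) (algebraMap (Lam F) L a) = algebraMap (Lam F) L (pd g a) := by
  rw [dl_apply, pd_eq_sum, map_sum]
  refine Finset.sum_congr rfl fun i _ => ?_
  rw [hD, map_mul, alg_C, up]

lemma Ext.dl_const (g : Fin 3 → L) (a : F) : dl D g (algebraMap F L a) = 0 := by
  rw [dl_apply]
  exact Finset.sum_eq_zero fun i _ => by rw [hD.const, mul_zero]

lemma Ext.cD_map (g : Fin 3 → F) (f : MvPolynomial (Fin 3) (Lam F)) :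
    cD (dl D (up L g)) (map (algebraMap (Lam F) L) f) =
      map (algebraMap (Lam F) L) (cD (pd g) f) :=
  Pool.Agent.Lef3.cD_map (algebraMap (Lam F) L) (pd g) (dl D (up L g)) (hD.dl_up g) f

end ext

/-- A solution over the polynomials in the coefficients of the generic form, with the formulas over
the field `L`. -/
structure Sol (D : Fin 3 → Derivation ℤ L L) (l₁ l₂ l₃ : List (Fin 3 → F)) (s e e' : ℕ)
    (u v k : MvPolynomial (Fin 3) (Lam F)) (mu : L) (nu : Fin 3 → L) : Prop where
  ext : Ext (F := F) D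
  hs : 1 ≤ s
  hes : e + e' = s
  he : 1 ≤ e
  he' : 1 ≤ e'
  heb : e < l₂.length
  hec : e' < l₃.length
  hv : v.IsHomogeneous e'
  hk : k.IsHomogeneous e
  H1 : cst (pr l₁) ∣ gl F ^ s * u - cst (pr l₂) * v - cst (pr l₃) * k
  H23 : ∃ xi : MvPolynomial (Fin 3) L, map (algebraMap F L) (pr l₁) ∣
      (s : MvPolynomial (Fin 3) L) * map (algebraMap (Lam F) L) u *
        map (algebraMap (Lam F) L) k + C mu * map (algebraMap F L) (pr l₂) -
        lin (lg F L) * xi ∧
      ∀ i, map (algebraMap F L) (pr l₁) ∣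
        map (algebraMap (Lam F) L) u * cD (D i) (map (algebraMap (Lam F) L) k) -
        map (algebraMap (Lam F) L) k * cD (D i) (map (algebraMap (Lam F) L) u) -
        C (nu i) * map (algebraMap F L) (pr l₂) - X i * xi
  H4 : ∀ i, map (algebraMap F L) (pr l₁) ∣
      map (algebraMap (Lam F) L) v * cD (D i) (map (algebraMap (Lam F) L) k) -
      map (algebraMap (Lam F) L) k * cD (D i) (map (algebraMap (Lam F) L) v) -
      lin (lg F L) ^ (s - 1) * (C mu * X i + C (nu i) * lin (lg F L))
  sum : mu + sp (lg F L) nu = 0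
  eul : ∃ R : ℤ, dl D (lg F L) mu = R * mu ∧ ∀ i, dl D (lg F L) (nu i) = (R - 1) * nu i

/-- the restriction to a line over `L` -/
abbrev Edg.rl (E : Edg F) (L : Type u) [Field L] [Algebra (Lam F) L] [Algebra F L]
    (f : MvPolynomial (Fin 3) (Lam F)) : Polynomial L :=
  res (up L E.p) (up L E.q) (map (algebraMap (Lam F) L) f)

/-- the restriction of the generic form -/
abbrev Edg.ll (E : Edg F) (L : Type u) [Field L] [Algebra (Lam F) L] [Algebra F L] :
    Polynomial L :=
  Polynomial.C (sp (lg F L) (up L E.p)) * Polynomial.X + Polynomial.C (sp (lg F L) (up L E.q))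

lemma Edg.rl_cst (E : Edg F) (f : MvPolynomial (Fin 3) F) : E.rl L (cst f) = E.rs L f := by
  rw [Edg.rl, map_cst]

lemma Edg.rl_gl (E : Edg F) : E.rl L (gl F) = E.ll L := by
  rw [Edg.rl, map_gl, res_lin]

lemma lin_up_sum (g : Fin 3 → F) :
    lin (up L g) = ∑ i, C (up L g i) * (X i : MvPolynomial (Fin 3) L) := by
  rw [lin_apply]
  exact Finset.sum_congr rfl fun i _ => smul_eq_C_mul _ _

namespace Sol

variable {D : Fin 3 → Derivation ℤ L L} {l₁ l₂ l₃ : List (Fin 3 → F)} {s e e' : ℕ}
  {u v k : MvPolynomial (Fin 3) (Lam F)} {mu : L} {nu : Fin 3 → L}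
  (S : Sol D l₁ l₂ l₃ s e e' u v k mu nu) (E : Edg F) (hw : E.w ∈ l₁)

include S

lemma H3' (g : Fin 3 → F) : ∃ xi : MvPolynomial (Fin 3) L, map (algebraMap F L) (pr l₁) ∣
      (s : MvPolynomial (Fin 3) L) * map (algebraMap (Lam F) L) u *
        map (algebraMap (Lam F) L) k + C mu * map (algebraMap F L) (pr l₂) -
        lin (lg F L) * xi ∧
      map (algebraMap F L) (pr l₁) ∣
        map (algebraMap (Lam F) L) u * map (algebraMap (Lam F) L) (cD (pd g) k) -
        map (algebraMap (Lam F) L) k * map (algebraMap (Lam F) L) (cD (pd g) u) -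
        C (sp (up L g) nu) * map (algebraMap F L) (pr l₂) - lin (up L g) * xi := by
  obtain ⟨xi, h2, h3⟩ := S.H23
  refine ⟨xi, h2, ?_⟩
  have h4 := Finset.dvd_sum (s := Finset.univ) (f := fun i => C (up L g i) *
    (map (algebraMap (Lam F) L) u * cD (D i) (map (algebraMap (Lam F) L) k) -
        map (algebraMap (Lam F) L) k * cD (D i) (map (algebraMap (Lam F) L) u) -
        C (nu i) * map (algebraMap F L) (pr l₂) - X i * xi)) fun i _ => (h3 i).mul_left _
  rw [← S.ext.cD_map, ← S.ext.cD_map, cD_dl, cD_dl, lin_up_sum]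
  convert h4 using 1
  simp only [sp_three, Fin.sum_univ_three, C_add, C_mul]
  ring

lemma H4' (g : Fin 3 → F) : map (algebraMap F L) (pr l₁) ∣
      map (algebraMap (Lam F) L) v * cD (dl D (up L g)) (map (algebraMap (Lam F) L) k) -
      map (algebraMap (Lam F) L) k * cD (dl D (up L g)) (map (algebraMap (Lam F) L) v) -
      lin (lg F L) ^ (s - 1) * (C mu * lin (up L g) + C (sp (up L g) nu) * lin (lg F L)) := by
  have h4 := Finset.dvd_sum (s := Finset.univ) (f := fun i => C (up L g i) *
    (map (algebraMap (Lam F) L) v * cD (D i) (map (algebraMap (Lam F) L) k) -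
      map (algebraMap (Lam F) L) k * cD (D i) (map (algebraMap (Lam F) L) v) -
      lin (lg F L) ^ (s - 1) * (C mu * X i + C (nu i) * lin (lg F L))))
      fun i _ => (S.H4 i).mul_left _
  rw [cD_dl, cD_dl, lin_up_sum]
  convert h4 using 1
  simp only [sp_three, Fin.sum_univ_three, C_add, C_mul]
  ring

include hw

lemma eval_f1 : eval (ept (lg F L) (up L E.p) (up L E.q)) (map (algebraMap F L) (pr l₁)) = 0 := by
  rw [← map_cst, ← E.alg_vl, E.vl_cst_pr_zero hw, map_zero]

lemma eval_of_dvd {f : MvPolynomial (Fin 3) L} (h : map (algebraMap F L) (pr l₁) ∣ f) :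
    eval (ept (lg F L) (up L E.p) (up L E.q)) f = 0 := by
  obtain ⟨q, rfl⟩ := h
  rw [map_mul, S.eval_f1 E hw, zero_mul]

lemma res_of_dvd {f : MvPolynomial (Fin 3) L} (h : map (algebraMap F L) (pr l₁) ∣ f) :
    res (up L E.p) (up L E.q) f = 0 := by
  obtain ⟨q, rfl⟩ := h
  have h1 := E.rs_zero (K := L) hw
  rw [Edg.rs] at h1
  rw [map_mul, h1, zero_mul]

lemma six : (s : L) * algebraMap (Lam F) L (E.vl u * E.vl k) =
    -(mu * algebraMap (Lam F) L (E.vl (cst (pr l₂)))) := by
  obtain ⟨xi, h2, -⟩ := S.H23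
  have h3 := S.eval_of_dvd E hw h2
  simp only [map_add, map_sub, map_mul, map_natCast, eval_C] at h3
  rw [eval_lin', sp_ept_self] at h3
  rw [map_mul, E.alg_vl, E.alg_vl, E.alg_vl, map_cst]
  linear_combination h3

lemma seven : algebraMap (Lam F) L (E.vl u * pd E.w (E.vl k) - E.vl k * pd E.w (E.vl u)) =
    sp (up L E.w) nu * algebraMap (Lam F) L (E.vl (cst (pr l₂))) := by
  obtain ⟨xi, -, h2⟩ := S.H3' E.w
  have h3 := S.eval_of_dvd E hw h2
  simp only [map_sub, map_mul, eval_C] at h3
  rw [eval_lin', sp_ept, sp_up, sp_up, E.wp, E.wq, map_zero] at h3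
  rw [E.pd_vl, E.pd_vl, map_sub, map_mul, map_mul, E.alg_vl, E.alg_vl, E.alg_vl, E.alg_vl,
    E.alg_vl, map_cst]
  linear_combination h3

lemma one : E.ll L ^ s * E.rl L u = E.rs L (pr l₂) * E.rl L v + E.rs L (pr l₃) * E.rl L k := by
  have h1 := S.H1
  have h2 : map (algebraMap (Lam F) L) (cst (pr l₁)) ∣
      map (algebraMap (Lam F) L) (gl F ^ s * u - cst (pr l₂) * v - cst (pr l₃) * k) :=
    map_dvd _ h1
  rw [map_cst] at h2
  have h3 := S.res_of_dvd E hw h2
  simp only [map_sub, map_mul, map_pow] at h3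
  rw [map_gl, res_lin, map_cst, map_cst] at h3
  linear_combination h3

lemma four (g : Fin 3 → F) : E.rl L v * pD (dl D (up L g)) (E.rl L k) -
    E.rl L k * pD (dl D (up L g)) (E.rl L v) = E.ll L ^ (s - 1) *
      (Polynomial.C mu * (Polynomial.C (algebraMap F L (sp g E.p)) * Polynomial.X +
        Polynomial.C (algebraMap F L (sp g E.q))) + Polynomial.C (sp (up L g) nu) * E.ll L) := by
  have h1 := S.res_of_dvd E hw (S.H4' g)
  have hp : ∀ i, dl D (up L g) (up L E.p i) = 0 := fun i => S.ext.dl_const _ _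
  have hq : ∀ i, dl D (up L g) (up L E.q i) = 0 := fun i => S.ext.dl_const _ _
  rw [map_sub, map_sub, map_mul, map_mul, ← res_cD (dl D (up L g)) hp hq,
    ← res_cD (dl D (up L g)) hp hq, map_mul, map_pow, map_add, map_mul, map_mul, res_C, res_C,
    res_lin, res_lin, sp_up, sp_up] at h1
  linear_combination h1

omit hw in
lemma deg_k : (E.rl L k).degree ≤ e :=
  Polynomial.degree_le_of_natDegree_le (res_degree (S.hk.map _) _ _).1

omit hw in
lemma deg_v : (E.rl L v).degree ≤ e' :=
  Polynomial.degree_le_of_natDegree_le (res_degree (S.hv.map _) _ _).1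

end Sol

end Pool.Agent.Lef3
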