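import Pool.Agent.Lef3.Base
import Pool.Agent.LefProd.EngineP

/-!
If `l ^ s` is not injective in degree `j` for any `l`, then there is an element of the kernel with
polynomial coefficients.
-/

set_option autoImplicit false
set_option linter.unusedSectionVars false

noncomputable section

namespace Pool.Agent.Lef3

open MvPolynomial Pool.Agent.LefProd

universe u

variable {F : Type u} [Field F] [CharZero F]

/-- If the generic matrix is injective then some specialisation is (see the proof of
`LefProd.engineD`). -/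
theorem ex_of_inj {I : Ideal (MvPolynomial (Fin 3) F)} {s j : ℕ} (h : Inj (GW I j s)) :
    EX I s j := by
  classical
  obtain ⟨d, B, hd, hB⟩ := h.exists_scaled_left
  obtain ⟨μ, hμ⟩ : ∃ μ : Fin 3 → F, eval μ d ≠ 0 := by
    by_contra hc
    push Not at hc
    apply hd
    apply MvPolynomial.funext
    intro x
    rw [hc x, map_zero]
  have h3 := inj_map_of_scaled_left (eval μ) hB hμ
  refine ⟨μ, ?_⟩
  rw [LI_iff]
  have h5 := Pw_map (I := I) (aeval μ : MvPolynomial (Fin 3) F →ₐ[F] F) X j s
  have h7 : (fun l => (aeval μ : MvPolynomial (Fin 3) F →ₐ[F] F) (X l)) = μ := by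
    funext l
    simp
  rw [h7] at h5
  rw [← h5]
  exact h3

private lemma hc_GW_gn {I : Ideal (MvPolynomial (Fin 3) F)} (j t e : ℕ) (w : ix I j → Lam F) :
    ∀ k, homogeneousComponent (e + t) (Matrix.mulVec (GW I j t) w k) =
      Matrix.mulVec (GW I j t) (fun i => homogeneousComponent e (w i)) k := by
  induction t with
  | zero =>
    intro k
    rw [GW, Pw, Matrix.one_mulVec, Matrix.one_mulVec, add_zero]
  | succ t ih =>
    intro k
    have h1 : GW I j (t + 1) = GP I (j + t) * GW I j t := rfl
    rw [h1, ← Matrix.mulVec_mulVec, ← Matrix.mulVec_mulVec, GP_eq_pen, ← add_assoc]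
    refine (hc_pen (Xi I (j + t)) (Matrix.mulVec (GW I j t) w) k (e + t)).trans ?_
    congr 1
    funext i
    exact ih i

private lemma comp_ker_gn {I : Ideal (MvPolynomial (Fin 3) F)} {s j : ℕ} {w : ix I j → Lam F}
    (hw : Matrix.mulVec (GW I j s) w = 0) {i : ix I j} (hi : w i ≠ 0) :
    ∃ w' : ix I j → Lam F, w' ≠ 0 ∧ (∀ k, (w' k).IsHomogeneous (w i).totalDegree) ∧
      Matrix.mulVec (GW I j s) w' = 0 := by
  refine ⟨fun k => homogeneousComponent (w i).totalDegree (w k), ?_,
    fun k => homogeneousComponent_isHomogeneous _ _, ?_⟩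
  · intro h
    exact hc_totalDegree_ne_zero hi (congrFun h i)
  · funext k
    rw [← hc_GW_gn, hw]
    simp

/-- A kernel vector with homogeneous coefficients of minimal degree: no prime divides it. Take a
nonzero vector `w` in the kernel, a nonzero homogeneous component (the entries of `GW` are
homogeneous of degree `s`), and among all such the smallest degree `d`. If a prime `P` divides all
coordinates, then a homogeneous component of the quotient is in the kernel and of smaller degree. -/
theorem exists_prim_hom {I : Ideal (MvPolynomial (Fin 3) F)} {s j : ℕ} (h : ¬ Inj (GW I j s)) :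
    ∃ (d : ℕ) (w : ix I j → Lam F), w ≠ 0 ∧ (∀ i, (w i).IsHomogeneous d) ∧
      (∀ P : Lam F, Prime P → ∃ i, ¬ P ∣ w i) ∧ Matrix.mulVec (GW I j s) w = 0 := by
  classical
  have hex : ∃ d : ℕ, ∃ w : ix I j → Lam F, w ≠ 0 ∧ (∀ i, (w i).IsHomogeneous d) ∧
      Matrix.mulVec (GW I j s) w = 0 := by
    rw [Inj] at h
    push Not at h
    obtain ⟨w, hw, hw0⟩ := h
    obtain ⟨i, hi⟩ := Function.ne_iff.1 hw0
    exact ⟨_, comp_ker_gn hw hi⟩
  obtain ⟨w, hw0, hwh, hw⟩ := Nat.find_spec hex
  refine ⟨Nat.find hex, w, hw0, hwh, ?_, hw⟩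
  intro P hP
  by_contra hcon
  push Not at hcon
  choose w' hw' using hcon
  have hws : w = P • w' := funext hw'
  have hker : Matrix.mulVec (GW I j s) w' = 0 := by
    rw [hws, Matrix.mulVec_smul] at hw
    exact (smul_eq_zero.1 hw).resolve_left hP.ne_zero
  obtain ⟨i, hi⟩ := Function.ne_iff.1 hw0
  rw [Pi.zero_apply] at hi
  have hi' : w' i ≠ 0 := by
    intro h0
    rw [hw' i, h0, mul_zero] at hi
    exact hi rfl
  have hdP : P.totalDegree ≠ 0 := by
    intro h0
    apply hP.not_isUnit
    rw [totalDegree_eq_zero_iff_eq_C] at h0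
    have hc : coeff 0 P ≠ 0 := by
      intro h1
      rw [h1, C_0] at h0
      exact hP.ne_zero h0
    rw [h0]
    exact (IsUnit.mk0 _ hc).map C
  have hdeg := totalDegree_mul_of_isDomain hP.ne_zero hi'
  rw [← hw' i, (hwh i).totalDegree hi] at hdeg
  exact Nat.find_min hex (by omega) (comp_ker_gn hker hi')

end Pool.Agent.Lef3
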