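import Pool.Agent.Lef3.Base
import Pool.Agent.LefProd.EngineP

/-!
From a kernel vector of the generic matrix to a solution with homogeneous coefficients.
-/

set_option autoImplicit false
set_option linter.unusedSectionVars false

noncomputable section

namespace Pool.Agent.Lef3

open MvPolynomial Pool.Agent.LefProd

universe u

variable {F : Type u} [Field F] [CharZero F]

private lemma gl_mul_uu_Gen2 (I : Ideal (MvPolynomial (Fin 3) F)) (j : ℕ)
    (w : ix I j → Lam F) :
    gl F * uu I w - uu I (Matrix.mulVec (GP I j) w) ∈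
      I.map (MvPolynomial.map (C : F →+* Lam F)) := by
  have key : ∀ (l : Fin 3) (i : ix I j),
      (X l * cst ((crd I j).b i) -
        ∑ k, C (C (Xi I j l k i)) * cst ((crd I (j + 1)).b k) : MvPolynomial (Fin 3) (Lam F)) ∈
        I.map (MvPolynomial.map (C : F →+* Lam F)) := by
    intro l i
    have h1 : (X l * (crd I j).b i).IsHomogeneous (j + 1) := by
      have := (isHomogeneous_X F l).mul ((crd I j).bh i)
      rwa [add_comm] at this
    have h2 := Ideal.mem_map_of_mem (MvPolynomial.map (C : F →+* Lam F))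
      (sub_sum_mem (I := I) h1)
    simp only [map_sub, map_sum, map_mul, map_X, map_C] at h2
    exact h2
  have e : gl F * uu I w - uu I (Matrix.mulVec (GP I j) w) =
      ∑ l, ∑ i, (C (X l) * C (w i)) * (X l * cst ((crd I j).b i) -
        ∑ k, C (C (Xi I j l k i)) * cst ((crd I (j + 1)).b k)) := by
    have e1 : gl F * uu I w = ∑ l, ∑ i, (C (X l) * C (w i)) * (X l * cst ((crd I j).b i)) := by
      rw [gl, uu, Finset.sum_mul_sum]
      refine Finset.sum_congr rfl fun l _ => Finset.sum_congr rfl fun i _ => ?_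
      ring
    have e2 : uu I (Matrix.mulVec (GP I j) w) = ∑ l, ∑ i, (C (X l) * C (w i)) *
        ∑ k, C (C (Xi I j l k i)) * cst ((crd I (j + 1)).b k) := by
      have h3 : ∀ k, Matrix.mulVec (GP I j) w k =
          ∑ l, ∑ i, X l * C (Xi I j l k i) * w i := by
        intro k
        rw [Finset.sum_comm]
        simp only [Matrix.mulVec, dotProduct, GP, Pm, Matrix.sum_apply, Finset.sum_mul]
        rfl
      rw [uu]
      simp only [h3, map_sum, map_mul, Finset.sum_mul, Finset.mul_sum]
      rw [Finset.sum_comm]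
      refine Finset.sum_congr rfl fun l _ => ?_
      rw [Finset.sum_comm]
      refine Finset.sum_congr rfl fun i _ => Finset.sum_congr rfl fun k _ => ?_
      ring
    rw [e1, e2, ← Finset.sum_sub_distrib]
    refine Finset.sum_congr rfl fun l _ => ?_
    rw [← Finset.sum_sub_distrib]
    refine Finset.sum_congr rfl fun i _ => ?_
    rw [mul_sub]
  rw [e]
  exact Ideal.sum_mem _ fun l _ => Ideal.sum_mem _ fun i _ => Ideal.mul_mem_left _ _ (key l i)

/-- Multiplication by the generic form in the coordinates: `X l * b i - ∑ k (Xi l) k i * b k ∈ I`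
(`LefProd.sub_sum_mem`), multiplied by `C (X l)` and summed; then induction on `s`. -/
theorem gl_pow_mul_uu (I : Ideal (MvPolynomial (Fin 3) F)) (s j : ℕ) (w : ix I j → Lam F) :
    gl F ^ s * uu I w - uu I (Matrix.mulVec (GW I j s) w) ∈
      I.map (MvPolynomial.map (C : F →+* Lam F)) := by
  induction s with
  | zero =>
    have h : uu I (Matrix.mulVec (GW I j 0) w) = uu I w := by
      have h1 : Matrix.mulVec (GW I j 0) w = w := Matrix.one_mulVec w
      exact congrArg (fun v : ix I j → Lam F => uu I v) h1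
    rw [h, pow_zero, one_mul, sub_self]
    exact Ideal.zero_mem _
  | succ s ih =>
    have h1 : Matrix.mulVec (GW I j (s + 1)) w =
        Matrix.mulVec (GP I (j + s)) (Matrix.mulVec (GW I j s) w) := by
      rw [Matrix.mulVec_mulVec]
      rfl
    have h2 := gl_mul_uu_Gen2 I (j + s) (Matrix.mulVec (GW I j s) w)
    have h3 := Ideal.add_mem _ (Ideal.mul_mem_left _ (gl F) ih) h2
    have h4 : gl F ^ (s + 1) * uu I w - uu I (Matrix.mulVec (GW I j (s + 1)) w) =
        gl F * (gl F ^ s * uu I w - uu I (Matrix.mulVec (GW I j s) w)) +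
        (gl F * uu I (Matrix.mulVec (GW I j s) w) -
          uu I (Matrix.mulVec (GP I (j + s)) (Matrix.mulVec (GW I j s) w))) := by
      rw [h1, pow_succ']
      ring
    rw [h4]
    exact h3

private lemma hc_mul_Gen2 {R : Type*} [CommRing R] {P : MvPolynomial (Fin 3) R} {m : ℕ}
    (hP : P.IsHomogeneous m) (h : MvPolynomial (Fin 3) R) (e : ℕ) :
    homogeneousComponent (m + e) (P * h) = P * homogeneousComponent e h := by
  have h1 : ∀ i, homogeneousComponent (m + e) (P * homogeneousComponent i h) =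
      if i = e then P * homogeneousComponent e h else 0 := by
    intro i
    rw [homogeneousComponent_of_mem (hP.mul (homogeneousComponent_isHomogeneous i h))]
    by_cases hi : i = e
    · rw [if_pos hi, if_pos (by rw [hi]), hi]
    · rw [if_neg hi, if_neg (by omega)]
  conv_lhs => rw [← sum_homogeneousComponent h, Finset.mul_sum, map_sum]
  simp only [h1]
  rw [Finset.sum_ite_eq']
  split_ifs with h2
  · rfl
  · rw [homogeneousComponent_eq_zero, mul_zero]
    rw [Finset.mem_range] at h2
    omega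

private lemma hc_ex_Gen2 {R : Type*} [CommRing R] {P : MvPolynomial (Fin 3) R} {m : ℕ}
    (hP : P.IsHomogeneous m) (h : MvPolynomial (Fin 3) R) (N : ℕ) :
    ∃ h', homogeneousComponent N (P * h) = P * h' := by
  rcases le_or_gt m N with hm | hm
  · obtain ⟨e, rfl⟩ := Nat.exists_eq_add_of_le hm
    exact ⟨_, hc_mul_Gen2 hP h e⟩
  · refine ⟨0, ?_⟩
    rw [mul_zero]
    conv_lhs => rw [← sum_homogeneousComponent h, Finset.mul_sum, map_sum]
    refine Finset.sum_eq_zero fun i _ => ?_
    rw [homogeneousComponent_of_mem (hP.mul (homogeneousComponent_isHomogeneous i h)),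
      if_neg (by omega)]

private lemma gl_hom_Gen2 : (gl F).IsHomogeneous 1 := by
  refine IsHomogeneous.sum _ _ _ fun i _ => ?_
  simpa using (isHomogeneous_C (Fin 3) (X i : Lam F)).mul (isHomogeneous_X (Lam F) i)

/-- The solution `l ^ s u = f₁ h + f₂ v + f₃ k` with homogeneous `h`, `v`, `k`: membership in the
extended ideal of `J ⊥ [l₁, l₂, l₃]`, and homogeneous components. -/
theorem exists_sol {l₁ l₂ l₃ : List (Fin 3 → F)} {s j : ℕ}
    (w : ix (J ⊥ [l₁, l₂, l₃]) j → Lam F)
    (hw : Matrix.mulVec (GW (J ⊥ [l₁, l₂, l₃]) j s) w = 0) {e e' : ℕ}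
    (he : e + l₃.length = j + s) (he' : e' + l₂.length = j + s) :
    ∃ h v k : MvPolynomial (Fin 3) (Lam F), v.IsHomogeneous e' ∧ k.IsHomogeneous e ∧
      gl F ^ s * uu _ w = cst (pr l₁) * h + cst (pr l₂) * v + cst (pr l₃) * k := by
  have h1 := gl_pow_mul_uu (J ⊥ [l₁, l₂, l₃]) s j w
  have h0 : uu (J ⊥ [l₁, l₂, l₃]) (0 : ix (J ⊥ [l₁, l₂, l₃]) (j + s) → Lam F) = 0 := by
    simp [uu]
  rw [hw, h0, sub_zero] at h1
  have hbot : J (⊥ : Submodule F (Fin 3 → F)) [] = ⊥ := by
    rw [J_nil]
    simp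
  have hmap : Ideal.map (MvPolynomial.map (C : F →+* Lam F)) (J ⊥ [l₁, l₂, l₃]) =
      Ideal.span {cst (pr l₁)} ⊔ (Ideal.span {cst (pr l₂)} ⊔ Ideal.span {cst (pr l₃)}) := by
    rw [J_cons, J_cons, J_cons, hbot, sup_bot_eq, Ideal.map_sup, Ideal.map_sup, Ideal.map_span,
      Ideal.map_span, Ideal.map_span, Set.image_singleton, Set.image_singleton,
      Set.image_singleton]
  have h2 : gl F ^ s * uu (J ⊥ [l₁, l₂, l₃]) w ∈
      Ideal.span {cst (pr l₁)} ⊔ (Ideal.span {cst (pr l₂)} ⊔ Ideal.span {cst (pr l₃)}) :=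
    hmap ▸ h1
  obtain ⟨y1, hy1, z1, hz1, hyz⟩ := Submodule.mem_sup.1 h2
  obtain ⟨y2, hy2, y3, hy3, hz⟩ := Submodule.mem_sup.1 hz1
  obtain ⟨a, ha⟩ := Ideal.mem_span_singleton.1 hy1
  obtain ⟨b, hb⟩ := Ideal.mem_span_singleton.1 hy2
  obtain ⟨c, hc⟩ := Ideal.mem_span_singleton.1 hy3
  have hp : ∀ l : List (Fin 3 → F), (cst (pr l)).IsHomogeneous l.length :=
    fun l => (pr_isHomogeneous l).map _
  have hL : (gl F ^ s * uu (J ⊥ [l₁, l₂, l₃]) w).IsHomogeneous (j + s) := by
    have := (gl_hom_Gen2 (F := F).pow s).mul (uu_hom (J ⊥ [l₁, l₂, l₃]) w)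
    rw [one_mul, add_comm] at this
    exact this
  obtain ⟨h', hh'⟩ := hc_ex_Gen2 (hp l₁) a (j + s)
  refine ⟨h', homogeneousComponent e' b, homogeneousComponent e c,
    homogeneousComponent_isHomogeneous _ _, homogeneousComponent_isHomogeneous _ _, ?_⟩
  have h5 := homogeneousComponent_eq_self hL
  rw [← h5, ← hyz, ← hz, ha, hb, hc, map_add, map_add, hh']
  have h6 : homogeneousComponent (j + s) (cst (pr l₂) * b) =
      cst (pr l₂) * homogeneousComponent e' b := by
    rw [← he', add_comm]
    exact hc_mul_Gen2 (hp l₂) b e'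
  have h7 : homogeneousComponent (j + s) (cst (pr l₃) * c) =
      cst (pr l₃) * homogeneousComponent e c := by
    rw [← he, add_comm]
    exact hc_mul_Gen2 (hp l₃) c e
  rw [h6, h7, add_assoc]

end Pool.Agent.Lef3
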