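import Pool.Agent.Lef3.Base
import Pool.Agent.LefProd.EngineP

/-!
The basis of a graded piece of the quotient stays independent over an extension field.
-/

set_option autoImplicit false
set_option linter.unusedSectionVars false

noncomputable section

namespace Pool.Agent.Lef3

open MvPolynomial Pool.Agent.LefProd

universe u

variable {F : Type u} [Field F] [CharZero F]

section Gen3

variable {K : Type u} [Field K] [Algebra F K]

/-- apply a linear function to the coefficients -/
private def phiGen3 (φ : K →ₗ[F] F) (P : MvPolynomial (Fin 3) K) : MvPolynomial (Fin 3) F :=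
  ∑ m ∈ P.support, monomial m (φ (P.coeff m))

private lemma coeff_phiGen3 (φ : K →ₗ[F] F) (P : MvPolynomial (Fin 3) K) (m : Fin 3 →₀ ℕ) :
    (phiGen3 φ P).coeff m = φ (P.coeff m) := by
  classical
  rw [phiGen3, coeff_sum]
  simp only [coeff_monomial]
  rw [Finset.sum_ite_eq' P.support m]
  split_ifs with h
  · rfl
  · rw [notMem_support_iff.1 h, map_zero]

private lemma phiGen3_add (φ : K →ₗ[F] F) (P Q : MvPolynomial (Fin 3) K) :
    phiGen3 φ (P + Q) = phiGen3 φ P + phiGen3 φ Q := by
  ext m
  simp only [coeff_phiGen3, coeff_add, map_add]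

private lemma phiGen3_mon (φ : K →ₗ[F] F) (s : Fin 3 →₀ ℕ) (a : K) (P : MvPolynomial (Fin 3) K) :
    phiGen3 φ (monomial s a * P) =
      monomial s 1 * phiGen3 (φ ∘ₗ LinearMap.mulLeft F a) P := by
  ext m
  rw [coeff_phiGen3, coeff_monomial_mul', coeff_monomial_mul']
  split_ifs with h
  · rw [one_mul, coeff_phiGen3]
    rfl
  · rw [map_zero]

private lemma phiGen3_mem (I : Ideal (MvPolynomial (Fin 3) F)) (P : MvPolynomial (Fin 3) K)
    (hP : P ∈ I.map (MvPolynomial.map (algebraMap F K))) :
    ∀ φ : K →ₗ[F] F, phiGen3 φ P ∈ I := by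
  refine Submodule.span_induction ?_ ?_ ?_ ?_ hP
  · rintro _ ⟨q, hq, rfl⟩ φ
    have h1 : phiGen3 φ (MvPolynomial.map (algebraMap F K) q) = C (φ 1) * q := by
      ext m
      rw [coeff_phiGen3, coeff_map, coeff_C_mul, Algebra.algebraMap_eq_smul_one, map_smul,
        smul_eq_mul, mul_comm]
    rw [h1]
    exact Ideal.mul_mem_left _ _ hq
  · intro φ
    have h1 : phiGen3 φ (0 : MvPolynomial (Fin 3) K) = 0 := by
      ext m
      rw [coeff_phiGen3, coeff_zero, coeff_zero, map_zero]
    rw [h1]
    exact I.zero_mem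
  · intro P Q _ _ hP hQ φ
    rw [phiGen3_add]
    exact I.add_mem (hP φ) (hQ φ)
  · intro Q P _ hP
    rw [smul_eq_mul]
    induction Q using MvPolynomial.induction_on' with
    | monomial s a =>
      intro φ
      rw [phiGen3_mon]
      exact Ideal.mul_mem_left _ _ (hP _)
    | add p q hp hq =>
      intro φ
      rw [add_mul, phiGen3_add]
      exact I.add_mem (hp φ) (hq φ)

end Gen3

/-- If the image of `∑ c i * b i` over a field `K ⊇ F` is in the extended ideal of `I` then `c = 0`:
apply linear functions `K → F` to the coefficients (compare `LefProd.val_zero_of`). -/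
theorem coeffs_zero {K : Type u} [Field K] (f : F →+* K) (I : Ideal (MvPolynomial (Fin 3) F))
    {j : ℕ} (c : ix I j → K)
    (h : ∑ i, C (c i) * MvPolynomial.map f ((crd I j).b i) ∈ I.map (MvPolynomial.map f)) :
    c = 0 := by
  let _ : Algebra F K := f.toAlgebra
  have hf : algebraMap F K = f := rfl
  rw [← hf] at h
  funext i
  rw [Pi.zero_apply, ← Module.forall_dual_apply_eq_zero_iff F]
  intro φ
  have h1 := phiGen3_mem I _ h φ
  have h2 : phiGen3 φ (∑ i, C (c i) * MvPolynomial.map (algebraMap F K) ((crd I j).b i)) =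
      el I j (fun i => φ (c i)) := by
    ext m
    rw [coeff_phiGen3, el, coeff_sum, coeff_sum, map_sum]
    refine Finset.sum_congr rfl fun i _ => ?_
    rw [coeff_C_mul, coeff_C_mul, coeff_map, mul_comm, ← Algebra.smul_def, map_smul,
      smul_eq_mul, mul_comm]
  rw [h2, ← co_eq_zero_iff (el_hom _), co_el] at h1
  exact congrFun h1 i

end Pool.Agent.Lef3
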