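import Mathlib

/-!
Two elements of a factorial ring whose orders agree at all primes on which two derivations do not
vanish: mixed logarithmic derivatives.
-/

set_option autoImplicit false
set_option linter.unusedSectionVars false

noncomputable section

namespace Pool.Agent.Lef3

open UniqueFactorizationMonoid

universe u

section factor

variable {A : Type u} [CommRing A] [IsDomain A] [UniqueFactorizationMonoid A]

private lemma der_prod_HLem (D : Derivation ℤ A A) (s : Multiset A) (h : ∀ a ∈ s, D a = 0) :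
    D s.prod = 0 := by
  induction s using Multiset.induction_on with
  | empty => simp
  | cons a s ih =>
    rw [Multiset.prod_cons, Derivation.leibniz, ih fun b hb => h b (Multiset.mem_cons_of_mem hb),
      h a (Multiset.mem_cons_self a s)]
    simp

/-- The factorisation lemma. -/
theorem exists_factor (D₁ D₂ : Derivation ℤ A A)
    (hu : ∀ u : A, IsUnit u → D₁ u = 0 ∧ D₂ u = 0) {x y : A} (hx : x ≠ 0) (hy : y ≠ 0)
    (h : ∀ P : A, Prime P → D₁ P ≠ 0 → D₂ P ≠ 0 → emultiplicity P x = emultiplicity P y) :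
    ∃ g x₁ x₂ y₁ y₂ : A, x = g * x₁ * x₂ ∧ y = g * y₁ * y₂ ∧ D₁ x₁ = 0 ∧ D₁ y₁ = 0 ∧
      D₂ x₂ = 0 ∧ D₂ y₂ = 0 := by
  classical
  let _ : StrongNormalizationMonoid A := UniqueFactorizationMonoid.strongNormalizationMonoid
  let p : A → Prop := fun Q => D₁ Q ≠ 0 ∧ D₂ Q ≠ 0
  let q : A → Prop := fun Q => D₁ Q = 0
  -- the good parts agree
  have hgood : (normalizedFactors x).filter p = (normalizedFactors y).filter p := by
    ext Q
    rw [Multiset.count_filter, Multiset.count_filter]
    split_ifs with hQ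
    · by_cases hirr : Irreducible Q
      · have e1 := emultiplicity_eq_count_normalizedFactors hirr hx
        have e2 := emultiplicity_eq_count_normalizedFactors hirr hy
        have e3 := h Q hirr.prime hQ.1 hQ.2
        rw [e1, e2] at e3
        have e4 : Multiset.count (normalize Q) (normalizedFactors x) =
          Multiset.count (normalize Q) (normalizedFactors y) := by exact_mod_cast e3
        by_cases hn : normalize Q = Q
        · rwa [hn] at e4
        · have hnot : ∀ z : A, Multiset.count Q (normalizedFactors z) = 0 := by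
            intro z
            rw [Multiset.count_eq_zero]
            intro hmem
            exact hn (normalize_normalized_factor Q hmem)
          rw [hnot, hnot]
      · have hnot : ∀ z : A, Multiset.count Q (normalizedFactors z) = 0 := by
          intro z
          rw [Multiset.count_eq_zero]
          intro hmem
          exact hirr (irreducible_of_normalized_factor Q hmem)
        rw [hnot, hnot]
    · rfl
  have hdec : ∀ z : A, z ≠ 0 → ∃ z₁ z₂ : A, z = ((normalizedFactors z).filter p).prod * z₁ * z₂ ∧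
      D₁ z₁ = 0 ∧ D₂ z₂ = 0 := by
    intro z hz
    obtain ⟨v, hv⟩ := prod_normalizedFactors hz
    refine ⟨(((normalizedFactors z).filter fun a => ¬ p a).filter q).prod,
      (((normalizedFactors z).filter fun a => ¬ p a).filter fun a => ¬ q a).prod * v, ?_, ?_, ?_⟩
    · have e1 := Multiset.filter_add_not p (normalizedFactors z)
      have e2 := Multiset.filter_add_not q ((normalizedFactors z).filter fun a => ¬ p a)
      have e3 := congrArg Multiset.prod e1
      have e4 := congrArg Multiset.prod e2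
      rw [Multiset.prod_add] at e3 e4
      calc z = (normalizedFactors z).prod * v := hv.symm
        _ = _ := by rw [← e3, ← e4]; ring
    · apply der_prod_HLem
      intro a ha
      exact (Multiset.mem_filter.1 ha).2
    · rw [Derivation.leibniz, (hu v v.isUnit).2, smul_zero, zero_add, der_prod_HLem, smul_zero]
      intro a ha
      obtain ⟨ha1, ha2⟩ := Multiset.mem_filter.1 ha
      have ha3 := (Multiset.mem_filter.1 ha1).2
      by_contra hne
      exact ha3 ⟨ha2, hne⟩
  obtain ⟨x₁, x₂, e1, e2, e3⟩ := hdec x hx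
  obtain ⟨y₁, y₂, e4, e5, e6⟩ := hdec y hy
  refine ⟨_, x₁, x₂, y₁, y₂, e1, ?_, e2, e5, e3, e6⟩
  rw [hgood]
  exact e4

end factor

section curl

variable {L : Type u} [Field L]

private lemma ld_mul_HLem (D : Derivation ℤ L L) {x y : L} (hx : x ≠ 0) (hy : y ≠ 0) :
    D (x * y) / (x * y) = D x / x + D y / y := by
  rw [Derivation.leibniz, smul_eq_mul, smul_eq_mul]
  field_simp
  ring

private lemma ld_comm_HLem (D₁ D₂ : Derivation ℤ L L) (hc : ∀ x, D₁ (D₂ x) = D₂ (D₁ x)) (x : L) :
    D₂ (D₁ x / x) = D₁ (D₂ x / x) := by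
  rw [Derivation.leibniz_div, Derivation.leibniz_div, hc]
  simp only [smul_eq_mul]
  ring

/-- Mixed logarithmic derivatives. -/
theorem mixed_ld (D₁ D₂ : Derivation ℤ L L) (hc : ∀ x, D₁ (D₂ x) = D₂ (D₁ x))
    {g x₁ x₂ y₁ y₂ : L} (hx : g * x₁ * x₂ ≠ 0) (hy : g * y₁ * y₂ ≠ 0) (h1 : D₁ x₁ = 0)
    (h2 : D₁ y₁ = 0) (h3 : D₂ x₂ = 0) (h4 : D₂ y₂ = 0) :
    D₂ (D₁ (g * x₁ * x₂) / (g * x₁ * x₂)) = D₁ (D₂ (g * y₁ * y₂) / (g * y₁ * y₂)) := by
  have hg : g ≠ 0 := left_ne_zero_of_mul (left_ne_zero_of_mul hx)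
  have hx1 : x₁ ≠ 0 := right_ne_zero_of_mul (left_ne_zero_of_mul hx)
  have hx2 : x₂ ≠ 0 := right_ne_zero_of_mul hx
  have hy1 : y₁ ≠ 0 := right_ne_zero_of_mul (left_ne_zero_of_mul hy)
  have hy2 : y₂ ≠ 0 := right_ne_zero_of_mul hy
  rw [ld_mul_HLem _ (mul_ne_zero hg hx1) hx2, ld_mul_HLem _ hg hx1,
    ld_mul_HLem _ (mul_ne_zero hg hy1) hy2, ld_mul_HLem _ hg hy1, h1, h4]
  simp only [map_add, zero_div, add_zero]
  rw [ld_comm_HLem D₁ D₂ hc g, ld_comm_HLem D₁ D₂ hc x₂, h3,
    ← ld_comm_HLem D₁ D₂ hc y₁, h2]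
  simp

end curl

end Pool.Agent.Lef3
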