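import Pool.Agent.Lef3.Base
import Pool.Agent.LefProd.Types2

/-!
The extreme degrees.
-/

set_option autoImplicit false
set_option linter.unusedSectionVars false

noncomputable section

namespace Pool.Agent.Lef3

open MvPolynomial Pool.Agent.LefProd

universe u

variable {F : Type u} [Field F] [CharZero F]

private lemma comb_KD (c d : F) : ∃ a b : F, (a ≠ 0 ∨ b ≠ 0) ∧ a * c + b * d = 0 := by
  by_cases h0 : c = 0 ∧ d = 0
  · exact ⟨1, 0, Or.inl one_ne_zero, by rw [h0.1, h0.2]; ring⟩
  · refine ⟨d, -c, ?_, by ring⟩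
    rw [not_and_or] at h0
    rcases h0 with h | h
    · right; simpa using h
    · left; exact h

private lemma const_KD {p : MvPolynomial (Fin 3) F} (hp : p.IsHomogeneous 0) :
    ∃ c : F, p = C c :=
  ⟨_, (totalDegree_eq_zero_iff_eq_C).1 ((totalDegree_zero_iff_isHomogeneous _).2 hp)⟩

private lemma gen_KD {W : Submodule F (Fin 3 → F)} {l : List (Fin 3 → F)}
    (hW : Module.finrank F W = 1) (hl : ∀ v ∈ l, v ∉ W) (hne : l ≠ []) :
    ∃ ν, ν ∉ W ∧ ∀ v ∈ l, v ∉ W ⊔ Submodule.span F {ν} := by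
  have hinf : Infinite F := CharZero.infinite F
  have key : ∃ ν, ∀ v ∈ l, ν ∉ W ⊔ Submodule.span F {v} := by
    by_contra hcon
    push Not at hcon
    have hfin : Finite {v // v ∈ l} := by
      have h1 : Set.Finite {v | v ∈ l} := List.finite_toSet l
      exact h1
    obtain ⟨⟨v, hv⟩, h2⟩ := Subspace.exists_eq_top_of_iUnion_eq_univ
      (k := F) (p := fun v : {v // v ∈ l} => W ⊔ Submodule.span F {v.1}) (by
        rw [Set.eq_univ_iff_forall]
        intro ν
        obtain ⟨v, hv, h3⟩ := hcon ν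
        exact Set.mem_iUnion.2 ⟨⟨v, hv⟩, h3⟩)
    have h4 : Module.finrank F ↥(W ⊔ Submodule.span F {v}) = 3 := by
      have h5 : W ⊔ Submodule.span F {v} = ⊤ := h2
      rw [h5, finrank_top]
      simp
    rw [finrank_sup (hl v hv), hW] at h4
    omega
  obtain ⟨ν, hν⟩ := key
  obtain ⟨v0, hv0⟩ := List.exists_mem_of_ne_nil l hne
  refine ⟨ν, fun h => hν v0 hv0 (Submodule.mem_sup_left h), fun v hv => ?_⟩
  exact not_mem_exchange (hl v hv) (hν v hv)

private lemma pow_KD {W : Submodule F (Fin 3 → F)} {ν : Fin 3 → F}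
    {𝓛 : List (List (Fin 3 → F))} (hne : NE 𝓛) (hv : ν ∉ W)
    (htr : Tr (W ⊔ Submodule.span F {ν}) 𝓛) (s : ℕ) {p : MvPolynomial (Fin 3) F}
    (hp : lin ν ^ s * p ∈ J W 𝓛) : p ∈ J W 𝓛 := by
  induction s with
  | zero => simpa using hp
  | succ s ih =>
    apply ih
    apply nzd hne hv htr
    rw [← mul_assoc, ← pow_succ']
    exact hp

/-- On the component `x = 0` the kernel of `ν ^ s` on degree `j` has dimension at most one if
`j = 0` (trivial) or `j + s ≤ l₃.length` (that is `e ≤ 0`): `ν ^ s p = f₃ k + f₂ v` with a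
constant `k` (or `k = 0`), `ν ^ s q = f₃ k' + f₂ v'`; with `a k + b k' = 0`:
`ν ^ s (a p + b q)` is a multiple of `f₂`, so `a p + b q` is (`LefProd.nzd` for `ν` modulo `f₂`,
any `ν` not in the span of `x` and a vector of `l₂`; use `cons_hom`). -/
theorem comp_EK {x : Fin 3 → F} {g l₂ l₃ : List (Fin 3 → F)} (hci : CI ⊥ [x :: g, l₂, l₃])
    {s j : ℕ} (h : j = 0 ∨ j + s ≤ l₃.length) :
    EK (J (Submodule.span F {x}) [l₂, l₃]) s j := by
  rcases h with rfl | h
  · refine ⟨0, ?_⟩
    intro p q hp hq _ _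
    obtain ⟨c, rfl⟩ := const_KD hp
    obtain ⟨d, rfl⟩ := const_KD hq
    obtain ⟨a, b, hab, h0⟩ := comb_KD c d
    refine ⟨a, b, hab, ?_⟩
    rw [← map_mul, ← map_mul, ← map_add, h0, map_zero]
    exact zero_mem _
  · have hx : x ∉ (⊥ : Submodule F (Fin 3 → F)) := hci.2.1.head.1
    have hs := hci.sup
    rw [bot_sup_eq] at hs
    have hW : Module.finrank F ↥(Submodule.span F {x}) = 1 := by
      have h1 := finrank_sup hx
      rw [bot_sup_eq, finrank_bot] at h1
      exact h1
    have hl2 : ∀ v ∈ l₂, v ∉ Submodule.span F {x} := fun v hv => (hs.2.1 v hv).1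
    have hne2 : l₂ ≠ [] := hs.1 l₂ List.mem_cons_self
    obtain ⟨ν, hν, hν2⟩ := gen_KD hW hl2 hne2
    refine ⟨ν, ?_⟩
    have hNE : NE [l₂] := by
      intro l hl
      rw [List.mem_singleton] at hl
      rw [hl]
      exact hne2
    have hTr : Tr (Submodule.span F {x} ⊔ Submodule.span F {ν}) [l₂] :=
      fun v hv => ⟨hν2 v hv, trivial⟩
    have hJ : J (Submodule.span F {x}) [l₂, l₃] = J (Submodule.span F {x}) [l₃, l₂] :=
      J_perm (List.Perm.swap _ _ _)
    have key : ∀ p : MvPolynomial (Fin 3) F, p.IsHomogeneous j →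
        lin ν ^ s * p ∈ J (Submodule.span F {x}) [l₂, l₃] →
        ∃ c : F, lin ν ^ s * p - pr l₃ * C c ∈ J (Submodule.span F {x}) [l₂] := by
      intro p hp hpm
      rw [hJ] at hpm
      have hh : (lin ν ^ s * p).IsHomogeneous (j + s) := by
        have := ((lin_isHomogeneous ν).pow s).mul hp
        rw [one_mul, add_comm] at this
        exact this
      rcases lt_or_eq_of_le h with h1 | h1
      · refine ⟨0, ?_⟩
        rw [map_zero, mul_zero, sub_zero]
        exact cons_hom_lt hh hpm h1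
      · obtain ⟨a, ha, h2⟩ := cons_hom hh hpm h1.ge
        rw [h1, Nat.sub_self] at ha
        obtain ⟨c, rfl⟩ := const_KD ha
        exact ⟨c, h2⟩
    intro p q hp hq hpm hqm
    obtain ⟨c, hc⟩ := key p hp hpm
    obtain ⟨d, hd⟩ := key q hq hqm
    obtain ⟨a, b, hab, h0⟩ := comb_KD c d
    refine ⟨a, b, hab, ?_⟩
    have h3 : lin ν ^ s * (C a * p + C b * q) ∈ J (Submodule.span F {x}) [l₂] := by
      have h4 := add_mem (Ideal.mul_mem_left _ (C a) hc) (Ideal.mul_mem_left _ (C b) hd)
      have h5 : (C a * C c + C b * C d : MvPolynomial (Fin 3) F) = 0 := by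
        rw [← map_mul, ← map_mul, ← map_add, h0, map_zero]
      convert h4 using 1
      have h6 : C a * (lin ν ^ s * p - pr l₃ * C c) + C b * (lin ν ^ s * q - pr l₃ * C d)
          = lin ν ^ s * (C a * p + C b * q) - pr l₃ * (C a * C c + C b * C d) := by ring
      rw [h6, h5, mul_zero, sub_zero]
    have h7 := pow_KD hNE hν hTr s h3
    rw [hJ]
    exact J_mono_cons h7

/-- The extreme degrees: `LefProd.stepG` with `comp_EK`, `three_slp` (for `[g, l₂, l₃]`) and
`two_EX`. -/
theorem extreme_EX {x : Fin 3 → F} {g l₂ l₃ : List (Fin 3 → F)} (hci : CI ⊥ [x :: g, l₂, l₃])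
    (hg : g.length = 2) {s j : ℕ} (hsj : 2 * j + s = sg [x :: g, l₂, l₃])
    (h : j = 0 ∨ j + s ≤ l₃.length) : EX (J ⊥ [x :: g, l₂, l₃]) s j := by
  have hgne : g ≠ [] := by
    intro h0
    rw [h0] at hg
    simp at hg
  have hx : x ∉ (⊥ : Submodule F (Fin 3 → F)) := hci.2.1.head.1
  have h2ne : l₂ ≠ [] := hci.1 l₂ (by simp)
  have h3ne : l₃ ≠ [] := hci.1 l₃ (by simp)
  have h2l : 1 ≤ l₂.length := List.length_pos_iff.2 h2ne
  have h3l : 1 ≤ l₃.length := List.length_pos_iff.2 h3ne
  have hci' := hci.tail_list hgne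
  have hs := hci.sup
  have hW3 : Module.finrank F (⊥ : Submodule F (Fin 3 → F)) + 3 = 3 := by
    rw [finrank_bot]
  have hW2 : Module.finrank F ↥((⊥ : Submodule F (Fin 3 → F)) ⊔ Submodule.span F {x}) + 2
      = 3 := by
    rw [finrank_sup hx, finrank_bot]
  simp only [sg_cons, sg_nil, List.length_cons, hg] at hsj
  by_cases hm : s = 0
  · subst hm
    exact EX.zero _ _
  · apply stepG hci (by omega)
    · intro hj
      apply three_slp hW3 hg.le hci'
      simp only [sg_cons, sg_nil, hg]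
      omega
    · apply three_slp hW3 hg.le hci'
      simp only [sg_cons, sg_nil, hg]
      omega
    · intro hj
      apply three_slp hW3 hg.le hci'
      simp only [sg_cons, sg_nil, hg]
      omega
    · intro hj
      apply two_EX hW2 hs
      rw [hg] at hj ⊢
      simp only [sg_cons, sg_nil]
      omega
    · rw [bot_sup_eq]
      exact comp_EK hci h

end Pool.Agent.Lef3
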