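import Pool.Agent.Lef3.Edge
import Pool.Agent.Lef3.Base

/-!
Lines: the restrictions of the products of linear forms and their values at the point where the
generic line meets the line.
-/

set_option autoImplicit false
set_option linter.unusedSectionVars false

noncomputable section

namespace Pool.Agent.Lef3

open MvPolynomial Pool.Agent.LefProd

universe u v

/-- scalar product -/
def sp {A : Type u} [CommRing A] (v e : Fin 3 → A) : A := ∑ i, v i * e i

/-- the point of the line through `p` and `q` on which `l` vanishes -/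
def ept {A : Type u} [CommRing A] (l p q : Fin 3 → A) : Fin 3 → A :=
  fun i => sp l q * p i - sp l p * q i

section ring

variable {A : Type u} [CommRing A]

lemma sp_three (v e : Fin 3 → A) : sp v e = v 0 * e 0 + v 1 * e 1 + v 2 * e 2 := by
  rw [sp, Fin.sum_univ_three]

lemma sp_map {B : Type v} [CommRing B] (φ : A →+* B) (v e : Fin 3 → A) :
    φ (sp v e) = sp (fun i => φ (v i)) fun i => φ (e i) := by
  simp only [sp_three, map_add, map_mul]

lemma ept_map {B : Type v} [CommRing B] (φ : A →+* B) (l p q : Fin 3 → A) (i : Fin 3) :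
    φ (ept l p q i) = ept (fun i => φ (l i)) (fun i => φ (p i)) (fun i => φ (q i)) i := by
  simp only [ept, map_sub, map_mul, sp_map]

lemma sp_ept (l p q v : Fin 3 → A) : sp v (ept l p q) = sp l q * sp v p - sp l p * sp v q := by
  simp only [ept, sp_three]
  ring

lemma sp_ept_self (l p q : Fin 3 → A) : sp l (ept l p q) = 0 := by
  rw [sp_ept]
  ring

/-- evaluation and homomorphisms -/
lemma map_eval_pt {B : Type v} [CommRing B] (φ : A →+* B) (x : Fin 3 → A)
    (f : MvPolynomial (Fin 3) A) : φ (eval x f) = eval (fun i => φ (x i)) (map φ f) := by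
  rw [eval_map, eval, coe_eval₂Hom, eval₂_comp_left]
  rfl

lemma map_res {B : Type v} [CommRing B] (φ : A →+* B) (p q : Fin 3 → A)
    (f : MvPolynomial (Fin 3) A) : (res p q f).map φ =
      res (fun i => φ (p i)) (fun i => φ (q i)) (map φ f) := by
  induction f using MvPolynomial.induction_on with
  | C a => rw [res_C, map_C, res_C, Polynomial.map_C]
  | add f g hf hg => rw [map_add, Polynomial.map_add, hf, hg, map_add, map_add]
  | mul_X f i hf =>
    rw [map_mul, Polynomial.map_mul, hf, map_mul, map_mul, map_X, res_X, res_X, Polynomial.map_add,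
      Polynomial.map_mul, Polynomial.map_C, Polynomial.map_C, Polynomial.map_X]

end ring

section field

variable {K : Type u} [Field K]

lemma eval_lin' (v e : Fin 3 → K) : eval e (lin v) = sp v e := eval_lin v e

lemma res_lin (p q v : Fin 3 → K) :
    res p q (lin v) = Polynomial.C (sp v p) * Polynomial.X + Polynomial.C (sp v q) := by
  rw [lin_apply, map_sum, Fin.sum_univ_three, sp_three, sp_three]
  simp only [smul_eq_C_mul, map_mul, res_C, res_X, Polynomial.C_add]
  ring

/-- the value at the point, by the restriction -/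
lemma eval_ept {l p q : Fin 3 → K} (h : sp l p ≠ 0) {d : ℕ} {f : MvPolynomial (Fin 3) K}
    (hf : f.IsHomogeneous d) :
    eval (ept l p q) f = (-sp l p) ^ d * (res p q f).eval (-sp l q / sp l p) := by
  have h1 : ept l p q = fun i => (-sp l p) * ((-sp l q / sp l p) * p i + q i) := by
    funext i
    rw [ept]
    field_simp
    ring
  rw [h1, eval_smul_hom hf, eval_res]

end field

/-- A line `w = 0` with two points `p`, `q`, dual vectors `a`, `b`, and a point `c` outside. -/
structure Edg (F : Type u) [Field F] where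
  w : Fin 3 → F
  p : Fin 3 → F
  q : Fin 3 → F
  a : Fin 3 → F
  b : Fin 3 → F
  c : Fin 3 → F
  wp : sp w p = 0
  wq : sp w q = 0
  ap : sp a p = 1
  aq : sp a q = 0
  bp : sp b p = 0
  bq : sp b q = 1
  dual : ∀ i j, w j * c i + a j * p i + b j * q i = if i = j then 1 else 0

section edge

variable {F : Type u} [Field F] (E : Edg F) {K : Type u} [Field K] [Algebra F K]

/-- the expansion of a vector -/
lemma Edg.expand (v : Fin 3 → F) : v = sp v E.c • E.w + sp v E.p • E.a + sp v E.q • E.b := by
  funext j
  simp only [Pi.add_apply, Pi.smul_apply, smul_eq_mul, sp, Finset.sum_mul,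
    ← Finset.sum_add_distrib]
  have h1 : ∀ i, v i * E.c i * E.w j + v i * E.p i * E.a j + v i * E.q i * E.b j =
      v i * (if i = j then 1 else 0) := by
    intro i
    rw [← E.dual i j]
    ring
  simp only [h1]
  simp

lemma Edg.mem_iff (v : Fin 3 → F) : v ∈ Submodule.span F {E.w} ↔ sp v E.p = 0 ∧ sp v E.q = 0 := by
  constructor
  · intro h
    obtain ⟨c, rfl⟩ := Submodule.mem_span_singleton.1 h
    have h1 : ∀ e : Fin 3 → F, sp (c • E.w) e = c * sp E.w e := by
      intro e
      simp only [sp_three, Pi.smul_apply, smul_eq_mul]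
      ring
    rw [h1, h1, E.wp, E.wq, mul_zero]
    exact ⟨rfl, rfl⟩
  · rintro ⟨h1, h2⟩
    rw [Submodule.mem_span_singleton]
    refine ⟨sp v E.c, ?_⟩
    conv_rhs => rw [E.expand v, h1, h2]
    simp

lemma Edg.det_ne_zero {v v' : Fin 3 → F} (h1 : v ∉ Submodule.span F {E.w})
    (h2 : v' ∉ Submodule.span F {E.w} ⊔ Submodule.span F {v}) :
    sp v E.p * sp v' E.q - sp v E.q * sp v' E.p ≠ 0 := by
  intro h0
  apply h2
  have key : ∀ x y : F, x ≠ 0 → x • v' - y • v ∈ Submodule.span F {E.w} →
      v' ∈ Submodule.span F {E.w} ⊔ Submodule.span F {v} := by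
    intro x y hx h
    have h3 : v' = x⁻¹ • (x • v' - y • v) + (x⁻¹ * y) • v := by
      rw [smul_sub, smul_smul, smul_smul, inv_mul_cancel₀ hx, one_smul, sub_add_cancel]
    rw [h3]
    exact add_mem (Submodule.mem_sup_left (Submodule.smul_mem _ _ h))
      (Submodule.mem_sup_right (Submodule.smul_mem _ _ (Submodule.mem_span_singleton_self v)))
  have hlin : ∀ (x y : F) (e : Fin 3 → F), sp (x • v' - y • v) e = x * sp v' e - y * sp v e := by
    intro x y e
    simp only [sp_three, Pi.sub_apply, Pi.smul_apply, smul_eq_mul]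
    ring
  by_cases hp : sp v E.p = 0
  · have hq : sp v E.q ≠ 0 := by
      intro hq
      exact h1 ((E.mem_iff v).2 ⟨hp, hq⟩)
    apply key (sp v E.q) (sp v' E.q) hq
    rw [E.mem_iff, hlin, hlin]
    refine ⟨?_, by ring⟩
    linear_combination -h0
  · apply key (sp v E.p) (sp v' E.p) hp
    rw [E.mem_iff, hlin, hlin]
    refine ⟨by ring, ?_⟩
    linear_combination h0

lemma sp_up (v e : Fin 3 → F) : sp (up K v) (up K e) = algebraMap F K (sp v e) := by
  rw [sp_map]
  rfl

lemma res_map_lin (p q v : Fin 3 → F) :
    res (up K p) (up K q) (MvPolynomial.map (algebraMap F K) (lin v)) =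
      Polynomial.C (algebraMap F K (sp v p)) * Polynomial.X +
        Polynomial.C (algebraMap F K (sp v q)) := by
  rw [← lin_up, res_lin, sp_up, sp_up]

/-- the restriction of a constant form to the line -/
abbrev Edg.rs (K : Type u) [Field K] [Algebra F K] (f : MvPolynomial (Fin 3) F) :
    Polynomial K :=
  res (up K E.p) (up K E.q) (MvPolynomial.map (algebraMap F K) f)

lemma Edg.rs_cons (v : Fin 3 → F) (l : List (Fin 3 → F)) : E.rs K (pr (v :: l)) =
    (Polynomial.C (algebraMap F K (sp v E.p)) * Polynomial.X +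
        Polynomial.C (algebraMap F K (sp v E.q))) * E.rs K (pr l) := by
  rw [Edg.rs, pr_cons, map_mul, map_mul, res_map_lin]

lemma Edg.rs_nil : E.rs K (pr []) = 1 := by
  rw [Edg.rs, pr_nil, map_one, map_one]

/-- a product with a factor `w` restricts to zero -/
lemma Edg.rs_zero {l : List (Fin 3 → F)} (h : E.w ∈ l) : E.rs K (pr l) = 0 := by
  induction l with
  | nil => simp at h
  | cons v l ih =>
    rw [E.rs_cons]
    rcases List.mem_cons.1 h with h | h
    · rw [← h, E.wp, E.wq]
      simp
    · rw [ih h, mul_zero]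

private lemma cop_lin_Line {x y x' y' : K} (h : x * y' - y * x' ≠ 0) :
    IsCoprime (Polynomial.C x * Polynomial.X + Polynomial.C y)
      (Polynomial.C x' * Polynomial.X + Polynomial.C y') := by
  refine ⟨Polynomial.C (-x' / (x * y' - y * x')), Polynomial.C (x / (x * y' - y * x')), ?_⟩
  have h1 : Polynomial.C (-x' / (x * y' - y * x')) *
      (Polynomial.C x * Polynomial.X + Polynomial.C y) +
      Polynomial.C (x / (x * y' - y * x')) * (Polynomial.C x' * Polynomial.X + Polynomial.C y') =
      Polynomial.C ((-x' * x + x * x') / (x * y' - y * x')) * Polynomial.X +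
        Polynomial.C ((-x' * y + x * y') / (x * y' - y * x')) := by
    simp only [div_eq_mul_inv, Polynomial.C_mul, Polynomial.C_add]
    ring
  rw [h1]
  have h2 : (-x' * x + x * x') / (x * y' - y * x') = 0 := by
    rw [div_eq_zero_iff]
    left
    ring
  have h3 : (-x' * y + x * y') / (x * y' - y * x') = 1 := by
    rw [div_eq_one_iff_eq h]
    ring
  rw [h2, h3]
  simp

/-- the restrictions of the second and the third product are coprime -/
theorem Edg.coprime {l₂ l₃ : List (Fin 3 → F)} (h : Tr (Submodule.span F {E.w}) [l₂, l₃]) :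
    IsCoprime (E.rs K (pr l₂)) (E.rs K (pr l₃)) := by
  have key : ∀ v ∈ l₂, ∀ v' ∈ l₃, algebraMap F K (sp v E.p) * algebraMap F K (sp v' E.q) -
      algebraMap F K (sp v E.q) * algebraMap F K (sp v' E.p) ≠ 0 := by
    intro v hv v' hv'
    rw [← map_mul, ← map_mul, ← map_sub]
    rw [Ne, map_eq_zero]
    exact E.det_ne_zero (h v hv).1 ((h v hv).2 v' hv').1
  clear h
  induction l₂ with
  | nil =>
    rw [E.rs_nil]
    exact isCoprime_one_left
  | cons v l₂ ih =>
    rw [E.rs_cons]
    refine IsCoprime.mul_left ?_ (ih fun x hx => key x (List.mem_cons_of_mem _ hx))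
    have key2 := key v List.mem_cons_self
    clear key ih
    induction l₃ with
    | nil =>
      rw [E.rs_nil]
      exact isCoprime_one_right
    | cons v' l₃ ih =>
      rw [E.rs_cons]
      exact IsCoprime.mul_right (cop_lin_Line (key2 v' List.mem_cons_self))
        (ih fun x hx => key2 x (List.mem_cons_of_mem _ hx))

lemma Edg.rs_degree {l : List (Fin 3 → F)} (h : ∀ v ∈ l, sp v E.p ≠ 0) :
    (E.rs K (pr l)).degree = l.length := by
  induction l with
  | nil =>
    rw [E.rs_nil]
    simp
  | cons v l ih =>
    rw [E.rs_cons, Polynomial.degree_mul, ih fun x hx => h x (List.mem_cons_of_mem _ hx),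
      lin_degree, List.length_cons]
    · push_cast
      rw [add_comm]
    · rw [Ne, map_eq_zero]
      exact h v List.mem_cons_self

/-- one of the two restrictions has full degree -/
theorem Edg.degree {l₂ l₃ : List (Fin 3 → F)} (h : Tr (Submodule.span F {E.w}) [l₂, l₃]) :
    (E.rs K (pr l₂)).degree = l₂.length ∨ (E.rs K (pr l₃)).degree = l₃.length := by
  by_cases h2 : ∀ v ∈ l₂, sp v E.p ≠ 0
  · exact Or.inl (E.rs_degree h2)
  · right
    push Not at h2
    obtain ⟨v, hv, hv0⟩ := h2
    apply E.rs_degree
    intro v' hv' h0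
    apply E.det_ne_zero (h v hv).1 ((h v hv).2 v' hv').1
    rw [hv0, h0]
    ring

end edge

end Pool.Agent.Lef3
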