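import Mathlib

/-!
Orders at a prime of the values at the points of three lines.
-/

set_option autoImplicit false
set_option linter.unusedSectionVars false

noncomputable section

namespace Pool.Agent.Lef3

universe u

variable {A : Type u} [CommRing A] [IsDomain A] [WfDvdMonoid A]

lemma exists_split {P x : A} (hP : Prime P) (hx : x ≠ 0) :
    ∃ (m : ℕ) (y : A), x = P ^ m * y ∧ ¬ P ∣ y := by
  have hfin : FiniteMultiplicity P x := FiniteMultiplicity.of_not_isUnit hP.not_isUnit hx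
  obtain ⟨y, hy, hPy⟩ := hfin.exists_eq_pow_mul_and_not_dvd
  exact ⟨_, y, hy, hPy⟩

lemma emult_split {P y : A} (hP : Prime P) (m : ℕ) (hy : ¬ P ∣ y) :
    emultiplicity P (P ^ m * y) = m := by
  rw [emultiplicity_eq_coe]
  refine ⟨dvd_mul_right _ _, ?_⟩
  rw [pow_succ, mul_dvd_mul_iff_left (pow_ne_zero _ hP.ne_zero)]
  exact hy

lemma pow_eq_pow {P x y : A} (hP : Prime P) {m n : ℕ} (hx : ¬ P ∣ x) (hy : ¬ P ∣ y)
    (h : P ^ m * x = P ^ n * y) : m = n := by
  have h1 := emult_split hP m hx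
  rw [h, emult_split hP n hy] at h1
  exact_mod_cast h1.symm

/-- the derivative of a power times a cofactor -/
lemma der_split (d : Derivation ℤ A A) (P y : A) (m : ℕ) :
    P * d (P ^ m * y) = P ^ m * ((m : A) * d P * y + P * d y) := by
  rw [Derivation.leibniz, Derivation.leibniz_pow, smul_eq_mul, smul_eq_mul, nsmul_eq_mul,
    smul_eq_mul]
  rcases m with _ | m
  · simp
  · rw [Nat.add_sub_cancel]
    ring

/-- a constant of the derivation is not divisible by a prime which is not a constant -/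
lemma not_dvd_const {d : Derivation ℤ A A} (hZ : ∀ n : ℤ, n ≠ 0 → IsUnit (n : A)) {P F : A}
    (hP : Prime P) (hdP : ¬ P ∣ d P) (hF : F ≠ 0) (hdF : d F = 0) : ¬ P ∣ F := by
  intro hdvd
  obtain ⟨m, G, hG, hPG⟩ := exists_split hP hF
  have hm : m ≠ 0 := by
    rintro rfl
    rw [pow_zero, one_mul] at hG
    rw [hG] at hdvd
    exact hPG hdvd
  have h1 := der_split d P G m
  rw [← hG, hdF, mul_zero, eq_comm, mul_eq_zero] at h1
  have h2 := h1.resolve_left (pow_ne_zero _ hP.ne_zero)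
  have h3 : P ∣ (m : A) * d P * G := by
    rw [add_eq_zero_iff_eq_neg.1 h2]
    exact (dvd_mul_right _ _).neg_right
  rcases hP.dvd_or_dvd h3 with h4 | h4
  · rcases hP.dvd_or_dvd h4 with h5 | h5
    · have h6 : IsUnit ((m : ℤ) : A) := hZ m (by exact_mod_cast hm)
      rw [Int.cast_natCast] at h6
      exact hP.not_isUnit (isUnit_of_dvd_unit h5 h6)
    · exact hdP h5
  · exact hPG h4

/-- The relation between the orders. -/
theorem order_relation {d : Fin 3 → Derivation ℤ A A} {U K F a : Fin 3 → A} {c P : A}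
    (hP : Prime P)
    (h1 : ∀ i j, U i * K i * F j = U j * K j * F i)
    (h3 : a 0 * (U 0 * d 0 (K 0) - K 0 * d 0 (U 0)) * (F 1 * F 2) +
      a 1 * (U 1 * d 1 (K 1) - K 1 * d 1 (U 1)) * (F 0 * F 2) +
      a 2 * (U 2 * d 2 (K 2) - K 2 * d 2 (U 2)) * (F 0 * F 1) = c * (U 0 * K 0) * (F 1 * F 2))
    {m n : Fin 3 → ℕ} {K' U' : Fin 3 → A} (hK : ∀ i, K i = P ^ m i * K' i)
    (hU : ∀ i, U i = P ^ n i * U' i) (hK' : ∀ i, ¬ P ∣ K' i) (hU' : ∀ i, ¬ P ∣ U' i)
    {t : ℕ} {F' : A} (hF2 : F 2 = P ^ t * F') (hF' : ¬ P ∣ F') (hF0 : ¬ P ∣ F 0)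
    (hF1 : ¬ P ∣ F 1) :
    m 0 + n 0 = m 1 + n 1 ∧ m 2 + n 2 = m 0 + n 0 + t ∧
      P ∣ ∑ i, a i * (((m i : ℤ) - n i : ℤ) : A) * d i P := by
  have e1 : P ^ (m 0 + n 0) * (U' 0 * K' 0 * F 1) = P ^ (m 1 + n 1) * (U' 1 * K' 1 * F 0) := by
    have := h1 0 1
    rw [hK, hK, hU, hU] at this
    rw [pow_add, pow_add]
    linear_combination this
  have n1 : ¬ P ∣ U' 0 * K' 0 * F 1 := fun h => by
    rcases hP.dvd_or_dvd h with h | h
    · exact (hP.dvd_or_dvd h).elim (hU' 0) (hK' 0)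
    · exact hF1 h
  have n2 : ¬ P ∣ U' 1 * K' 1 * F 0 := fun h => by
    rcases hP.dvd_or_dvd h with h | h
    · exact (hP.dvd_or_dvd h).elim (hU' 1) (hK' 1)
    · exact hF0 h
  have e2 := pow_eq_pow hP n1 n2 e1
  have e3 : U' 0 * K' 0 * F 1 = U' 1 * K' 1 * F 0 := by
    rw [e2] at e1
    exact mul_left_cancel₀ (pow_ne_zero _ hP.ne_zero) e1
  have e4 : P ^ (m 2 + n 2) * (U' 2 * K' 2 * F 0) = P ^ (m 0 + n 0 + t) * (U' 0 * K' 0 * F') := by
    have := h1 2 0
    rw [hK, hK, hU, hU, hF2] at this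
    rw [pow_add, pow_add, pow_add]
    linear_combination this
  have n3 : ¬ P ∣ U' 2 * K' 2 * F 0 := fun h => by
    rcases hP.dvd_or_dvd h with h | h
    · exact (hP.dvd_or_dvd h).elim (hU' 2) (hK' 2)
    · exact hF0 h
  have n4 : ¬ P ∣ U' 0 * K' 0 * F' := fun h => by
    rcases hP.dvd_or_dvd h with h | h
    · exact (hP.dvd_or_dvd h).elim (hU' 0) (hK' 0)
    · exact hF' h
  have e5 := pow_eq_pow hP n3 n4 e4
  have e6 : U' 2 * K' 2 * F 0 = U' 0 * K' 0 * F' := by
    rw [e5] at e4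
    exact mul_left_cancel₀ (pow_ne_zero _ hP.ne_zero) e4
  refine ⟨e2, e5, ?_⟩
  -- the logarithmic derivatives
  have hw : ∀ i, P * (U i * d i (K i) - K i * d i (U i)) = P ^ (m i + n i) *
      ((((m i : ℤ) - n i : ℤ) : A) * d i P * (U' i * K' i) +
        P * (U' i * d i (K' i) - K' i * d i (U' i))) := by
    intro i
    have s1 := der_split (d i) P (K' i) (m i)
    have s2 := der_split (d i) P (U' i) (n i)
    rw [← hK] at s1
    rw [← hU] at s2
    rw [pow_add]
    push_cast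
    linear_combination U i * s1 - K i * s2 + (P ^ m i * ((m i : A) * d i P * K' i +
      P * d i (K' i))) * hU i - (P ^ n i * ((n i : A) * d i P * U' i + P * d i (U' i))) * hK i
  have e7 : P ^ (m 0 + n 0 + t) * ((U' 0 * K' 0 * F 1 * F') *
      ∑ i, a i * (((m i : ℤ) - n i : ℤ) : A) * d i P) =
      P ^ (m 0 + n 0 + t) * (P * (c * (U' 0 * K' 0) * (F 1 * F') -
        a 0 * (U' 0 * d 0 (K' 0) - K' 0 * d 0 (U' 0)) * (F 1 * F') -
        a 1 * (U' 1 * d 1 (K' 1) - K' 1 * d 1 (U' 1)) * (F 0 * F') -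
        a 2 * (U' 2 * d 2 (K' 2) - K' 2 * d 2 (U' 2)) * (F 0 * F 1))) := by
    have g0 := hw 0
    have g1 := hw 1
    have g2 := hw 2
    rw [← e2, pow_add] at g1
    rw [e5, pow_add, pow_add] at g2
    rw [pow_add] at g0
    have hUK : U 0 * K 0 = P ^ (m 0) * P ^ (n 0) * (U' 0 * K' 0) := by
      rw [hU 0, hK 0]
      ring
    rw [pow_add, pow_add, Fin.sum_univ_three]
    rw [hF2, hUK] at h3
    linear_combination P * h3 - a 0 * F 1 * P ^ t * F' * g0 - a 1 * F 0 * P ^ t * F' * g1 -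
      a 2 * F 0 * F 1 * g2 +
      P ^ m 0 * P ^ n 0 * P ^ t * a 1 * (((m 1 : ℤ) - n 1 : ℤ) : A) * d 1 P * F' * e3 -
      P ^ m 0 * P ^ n 0 * P ^ t * a 2 * (((m 2 : ℤ) - n 2 : ℤ) : A) * d 2 P * F 1 * e6
  have e8 := mul_left_cancel₀ (pow_ne_zero _ hP.ne_zero) e7
  have e9 : P ∣ (U' 0 * K' 0 * F 1 * F') * ∑ i, a i * (((m i : ℤ) - n i : ℤ) : A) * d i P := by
    rw [e8]
    exact dvd_mul_right _ _
  refine (hP.dvd_or_dvd e9).resolve_left fun h => ?_
  rcases hP.dvd_or_dvd h with h | h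
  · exact n1 h
  · exact hF' h

/-- **The orders agree.** -/
theorem orders_agree {d : Fin 3 → Derivation ℤ A A} (hZ : ∀ n : ℤ, n ≠ 0 → IsUnit (n : A))
    (hdeg : ∀ P : A, Prime P → ∀ i, d i P ≠ 0 → ¬ P ∣ d i P)
    {U K F a : Fin 3 → A} {c : A} (hK0 : ∀ i, K i ≠ 0) (hU0 : ∀ i, U i ≠ 0)
    (hF0 : ∀ i, F i ≠ 0) (h1 : ∀ i j, U i * K i * F j = U j * K j * F i)
    (h2 : ∀ i, d i (F i) = 0)
    (h3 : a 0 * (U 0 * d 0 (K 0) - K 0 * d 0 (U 0)) * (F 1 * F 2) +
      a 1 * (U 1 * d 1 (K 1) - K 1 * d 1 (U 1)) * (F 0 * F 2) +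
      a 2 * (U 2 * d 2 (K 2) - K 2 * d 2 (U 2)) * (F 0 * F 1) = c * (U 0 * K 0) * (F 1 * F 2))
    (hE : ∀ P : A, Prime P → (P ∣ K 0 ∨ P ∣ U 0) → P ∣ ∑ i, a i * d i P)
    (excl : ∀ P : A, Prime P → (∀ i, d i P ≠ 0) → ¬ P ^ 2 ∣ U 0 * K 0)
    (ha0 : ∀ P : A, Prime P → P ∣ a 0 → d 1 P = 0)
    (ha1 : ∀ P : A, Prime P → P ∣ a 1 → d 0 P = 0) (P : A) (hP : Prime P) (hd0 : d 0 P ≠ 0)
    (hd1 : d 1 P ≠ 0) : emultiplicity P (K 0) = emultiplicity P (K 1) ∧
      emultiplicity P (U 0) = emultiplicity P (U 1) := by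
  choose m K' hK hK' using fun i => exists_split hP (hK0 i)
  choose n U' hU hU' using fun i => exists_split hP (hU0 i)
  obtain ⟨t, F', hF2, hF'⟩ := exists_split hP (hF0 2)
  have nF0 : ¬ P ∣ F 0 := not_dvd_const hZ hP (hdeg P hP 0 hd0) (hF0 0) (h2 0)
  have nF1 : ¬ P ∣ F 1 := not_dvd_const hZ hP (hdeg P hP 1 hd1) (hF0 1) (h2 1)
  obtain ⟨e1, e2, e3⟩ := order_relation hP h1 h3 hK hU hK' hU' hF2 hF' nF0 nF1
  suffices hm : m 0 = m 1 by
    have hn : n 0 = n 1 := by omega
    rw [hK 0, hK 1, hU 0, hU 1, emult_split hP _ (hK' 0), emult_split hP _ (hK' 1),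
      emult_split hP _ (hU' 0), emult_split hP _ (hU' 1), hm, hn]
    exact ⟨rfl, rfl⟩
  by_contra hne
  have hpos : 0 < m 0 + n 0 := by omega
  have hdvd : P ∣ K 0 ∨ P ∣ U 0 := by
    rcases Nat.eq_zero_or_pos (m 0) with h | h
    · right
      rw [hU 0]
      exact (dvd_pow_self P (by omega)).mul_right _
    · left
      rw [hK 0]
      exact (dvd_pow_self P (by omega)).mul_right _
  have e4 := hE P hP hdvd
  rw [Fin.sum_univ_three] at e3 e4
  -- the final contradictions
  have fin0 : ∀ z : ℤ, z ≠ 0 → ¬ P ∣ (z : A) * (a 0 * d 0 P) := by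
    intro z hz h
    rcases hP.dvd_or_dvd h with h | h
    · exact hP.not_isUnit (isUnit_of_dvd_unit h (hZ z hz))
    · rcases hP.dvd_or_dvd h with h | h
      · exact hd1 (ha0 P hP h)
      · exact hdeg P hP 0 hd0 h
  have fin1 : ∀ z : ℤ, z ≠ 0 → ¬ P ∣ (z : A) * (a 1 * d 1 P) := by
    intro z hz h
    rcases hP.dvd_or_dvd h with h | h
    · exact hP.not_isUnit (isUnit_of_dvd_unit h (hZ z hz))
    · rcases hP.dvd_or_dvd h with h | h
      · exact hd0 (ha1 P hP h)
      · exact hdeg P hP 1 hd1 h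
  by_cases hd2 : d 2 P = 0
  · rw [hd2, mul_zero, add_zero] at e3 e4
    apply fin0 (((m 0 : ℤ) - n 0) - ((m 1 : ℤ) - n 1)) (by omega)
    have := dvd_sub e3 (e4.mul_left (((m 1 : ℤ) - n 1 : ℤ) : A))
    convert this using 1
    push_cast
    ring
  · have nF2 : ¬ P ∣ F 2 := not_dvd_const hZ hP (hdeg P hP 2 hd2) (hF0 2) (h2 2)
    have ht : t = 0 := by
      by_contra ht
      apply nF2
      rw [hF2]
      exact (dvd_pow_self P ht).mul_right _
    have hall : ∀ i, d i P ≠ 0 := by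
      intro i
      fin_cases i
      · exact hd0
      · exact hd1
      · exact hd2
    have hM : m 0 + n 0 ≤ 1 := by
      by_contra hM
      apply excl P hP hall
      rw [hK 0, hU 0]
      have : P ^ 2 ∣ P ^ n 0 * P ^ m 0 := by
        rw [← pow_add]
        exact pow_dvd_pow P (by omega)
      obtain ⟨q, hq⟩ := this
      exact ⟨q * (U' 0 * K' 0), by linear_combination (U' 0 * K' 0) * hq⟩
    rcases Nat.eq_or_lt_of_le (show m 2 ≤ 1 by omega) with h2' | h2'
    · -- `m 2 = 1`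
      rcases Nat.eq_zero_or_pos (m 0) with h0 | h0
      · -- `m 0 = 0`, `m 1 = 1`
        apply fin0 (-2) (by norm_num)
        have := dvd_sub e3 e4
        have g0 : ((m 0 : ℤ) - n 0 : ℤ) = -1 := by omega
        have g1 : ((m 1 : ℤ) - n 1 : ℤ) = 1 := by omega
        have g2 : ((m 2 : ℤ) - n 2 : ℤ) = 1 := by omega
        rw [g0, g1, g2] at this
        convert this using 1
        push_cast
        ring
      · apply fin1 (-2) (by norm_num)
        have := dvd_sub e3 e4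
        have g0 : ((m 0 : ℤ) - n 0 : ℤ) = 1 := by omega
        have g1 : ((m 1 : ℤ) - n 1 : ℤ) = -1 := by omega
        have g2 : ((m 2 : ℤ) - n 2 : ℤ) = 1 := by omega
        rw [g0, g1, g2] at this
        convert this using 1
        push_cast
        ring
    · rcases Nat.eq_zero_or_pos (m 0) with h0 | h0
      · apply fin1 2 (by norm_num)
        have := dvd_add e3 e4
        have g0 : ((m 0 : ℤ) - n 0 : ℤ) = -1 := by omega
        have g1 : ((m 1 : ℤ) - n 1 : ℤ) = 1 := by omega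
        have g2 : ((m 2 : ℤ) - n 2 : ℤ) = -1 := by omega
        rw [g0, g1, g2] at this
        convert this using 1
        push_cast
        ring
      · apply fin0 2 (by norm_num)
        have := dvd_add e3 e4
        have g0 : ((m 0 : ℤ) - n 0 : ℤ) = 1 := by omega
        have g1 : ((m 1 : ℤ) - n 1 : ℤ) = -1 := by omega
        have g2 : ((m 2 : ℤ) - n 2 : ℤ) = -1 := by omega
        rw [g0, g1, g2] at this
        convert this using 1
        push_cast
        ring

/-- The orders at the points of a double line: `u₁ / u₀` is the value of the logarithmic derivative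
in the normal direction. -/
theorem orders_double (d₀ d₁ : Derivation ℤ A A) (hZ : ∀ n : ℤ, n ≠ 0 → IsUnit (n : A))
    {x y z : A} (hx0 : x ≠ 0) (hz0 : z ≠ 0)
    (h : x * (d₁ x * z - x * d₁ z) = z * (d₀ y * x - y * d₀ x)) {P : A} (hP : Prime P)
    (h0 : ¬ P ∣ d₀ P) (h1 : ¬ P ∣ d₁ P) : emultiplicity P x = emultiplicity P z := by
  obtain ⟨a, x', hx, hx'⟩ := exists_split hP hx0
  obtain ⟨b, z', hz, hz'⟩ := exists_split hP hz0
  rw [hx, hz, emult_split hP _ hx', emult_split hP _ hz']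
  have hPn : ∀ k : ℕ, P ^ k ≠ 0 := fun k => pow_ne_zero _ hP.ne_zero
  -- multiply by `P`
  have s1 := der_split d₁ P x' a
  have s2 := der_split d₁ P z' b
  have s3 := der_split d₀ P x' a
  rw [← hx] at s1 s3
  rw [← hz] at s2
  set L : A := ((a : A) - b) * d₁ P * (x' * z') + P * (z' * d₁ x' - x' * d₁ z') with hL
  have eL : P * (x * (d₁ x * z - x * d₁ z)) = P ^ a * (P ^ a * P ^ b) * (x' * L) := by
    rw [hL]
    linear_combination x * z * s1 - x * x * s2 +
      (P ^ a * ((a : A) * d₁ P * x' + P * d₁ x') * z -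
        (x + P ^ a * x') * (P ^ b * ((b : A) * d₁ P * z' + P * d₁ z'))) * hx +
      (P ^ a * x' * (P ^ a * ((a : A) * d₁ P * x' + P * d₁ x'))) * hz
  -- it suffices that `P` divides `L`
  suffices hPL : P ∣ L by
    have h5 : P ∣ ((a : A) - b) * d₁ P * (x' * z') := by
      have := dvd_sub hPL (dvd_mul_right P (z' * d₁ x' - x' * d₁ z'))
      rw [hL] at this
      convert this using 1
      ring
    by_contra hne
    have hab : (a : ℤ) - b ≠ 0 := by
      intro h6
      apply hne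
      have : a = b := by omega
      rw [this]
    rcases hP.dvd_or_dvd h5 with h6 | h6
    · rcases hP.dvd_or_dvd h6 with h7 | h7
      · have h8 := hZ _ hab
        push_cast at h8
        exact hP.not_isUnit (isUnit_of_dvd_unit h7 h8)
      · exact h1 h7
    · exact (hP.dvd_or_dvd h6).elim hx' hz'
  by_cases hy0 : y = 0
  · rw [h, hy0, map_zero, zero_mul, zero_mul, sub_zero, mul_zero, mul_zero] at eL
    have h5 := (mul_eq_zero.1 eL.symm).resolve_left (mul_ne_zero (hPn a)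
      (mul_ne_zero (hPn a) (hPn b)))
    have hx'0 : x' ≠ 0 := by
      rintro rfl
      exact hx' (dvd_zero P)
    rw [(mul_eq_zero.1 h5).resolve_left hx'0]
    exact dvd_zero P
  · obtain ⟨c, y', hy, hy'⟩ := exists_split hP hy0
    have s4 := der_split d₀ P y' c
    rw [← hy] at s4
    set R : A := ((c : A) - a) * d₀ P * (x' * y') + P * (x' * d₀ y' - y' * d₀ x') with hR
    have eR : P * (z * (d₀ y * x - y * d₀ x)) = P ^ a * (P ^ b * P ^ c) * (z' * R) := by
      rw [hR]
      linear_combination z * x * s4 - z * y * s3 +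
        (P ^ c * ((c : A) * d₀ P * y' + P * d₀ y') * z) * hx -
        (P ^ a * ((a : A) * d₀ P * x' + P * d₀ x') * z) * hy +
        (P ^ c * ((c : A) * d₀ P * y' + P * d₀ y') * (P ^ a * x') -
          P ^ a * ((a : A) * d₀ P * x' + P * d₀ x') * (P ^ c * y')) * hz
    have e1 : P ^ a * (x' * L) = P ^ c * (z' * R) := by
      rw [h, eR] at eL
      apply mul_left_cancel₀ (mul_ne_zero (hPn a) (hPn b))
      linear_combination -eL
    have hnR : ∀ k : ℤ, (c : ℤ) - a = k → k ≠ 0 → ¬ P ∣ z' * R := by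
      intro k hk hk0 hdvd
      have h5 := (hP.dvd_or_dvd hdvd).resolve_left hz'
      have h6 : P ∣ ((c : A) - a) * d₀ P * (x' * y') := by
        have := dvd_sub h5 (dvd_mul_right P (x' * d₀ y' - y' * d₀ x'))
        rw [hR] at this
        convert this using 1
        ring
      rcases hP.dvd_or_dvd h6 with h6 | h6
      · rcases hP.dvd_or_dvd h6 with h7 | h7
        · have h8 := hZ _ hk0
          rw [← hk] at h8
          push_cast at h8
          exact hP.not_isUnit (isUnit_of_dvd_unit h7 h8)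
        · exact h0 h7
      · exact (hP.dvd_or_dvd h6).elim hx' hy'
    rcases lt_trichotomy c a with hca | hca | hca
    · -- `c < a`
      exfalso
      apply hnR _ rfl (by omega)
      obtain ⟨r, rfl⟩ : ∃ r, a = c + 1 + r := ⟨a - c - 1, by omega⟩
      have e2 : P ^ c * (z' * R) = P ^ c * (P * (P ^ r * (x' * L))) := by
        rw [← e1, pow_add, pow_add, pow_one]
        ring
      rw [mul_left_cancel₀ (hPn c) e2]
      exact dvd_mul_right _ _
    · -- `c = a`
      rw [hca] at e1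
      have e2 := mul_left_cancel₀ (hPn a) e1
      have h5 : P ∣ R := by
        rw [hR, hca, sub_self, zero_mul, zero_mul, zero_add]
        exact dvd_mul_right _ _
      have h6 : P ∣ x' * L := by
        rw [e2]
        exact h5.mul_left z'
      exact (hP.dvd_or_dvd h6).resolve_left hx'
    · obtain ⟨r, rfl⟩ : ∃ r, c = a + 1 + r := ⟨c - a - 1, by omega⟩
      have e2 : P ^ a * (x' * L) = P ^ a * (P * (P ^ r * (z' * R))) := by
        rw [e1, pow_add, pow_add, pow_one]
        ring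
      have h6 : P ∣ x' * L := by
        rw [mul_left_cancel₀ (hPn a) e2]
        exact dvd_mul_right _ _
      exact (hP.dvd_or_dvd h6).resolve_left hx'

end Pool.Agent.Lef3
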