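import Pool.Agent.Lef3.Line
import Pool.Agent.Lef3.Mult
import Pool.Agent.LefProd.EngineD

/-!
Forms which vanish on a line; the values at the points of the lines as polynomials in the
coefficients of the generic linear form.
-/

set_option autoImplicit false
set_option linter.unusedSectionVars false

noncomputable section

namespace Pool.Agent.Lef3

open MvPolynomial Pool.Agent.LefProd

universe u v

section dvd

variable {F : Type u} [Field F] (E : Edg F)

/-- the projection of the space to the line, over an algebra -/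
def Edg.th (A : Type v) [CommRing A] [Algebra F A] :
    MvPolynomial (Fin 3) A →+* MvPolynomial (Fin 3) A :=
  eval₂Hom C fun i => X i - C (algebraMap F A (E.c i)) *
    ∑ j, C (algebraMap F A (E.w j)) * X j

lemma Edg.dvd_sub_th {A : Type v} [CommRing A] [Algebra F A] (f : MvPolynomial (Fin 3) A) :
    (∑ j, C (algebraMap F A (E.w j)) * X j : MvPolynomial (Fin 3) A) ∣ f - E.th A f := by
  induction f using MvPolynomial.induction_on with
  | C a =>
    rw [Edg.th, coe_eval₂Hom, eval₂_C, sub_self]
    exact dvd_zero _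
  | add f g hf hg =>
    rw [map_add]
    have := dvd_add hf hg
    convert this using 1
    ring
  | mul_X f i hf =>
    have h1 : E.th A (X i) = X i - C (algebraMap F A (E.c i)) *
        ∑ j, C (algebraMap F A (E.w j)) * X j := by
      rw [Edg.th, coe_eval₂Hom, eval₂_X]
    rw [map_mul, h1]
    have := dvd_add (hf.mul_right (X i)) (Dvd.intro_left (E.th A f *
      C (algebraMap F A (E.c i))) rfl : (∑ j, C (algebraMap F A (E.w j)) * X j :
        MvPolynomial (Fin 3) A) ∣ _)
    convert this using 1
    ring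

private lemma eval_comp_Line2 {K : Type u} [CommRing K] (g : Fin 3 → MvPolynomial (Fin 3) K)
    (x : Fin 3 → K) (f : MvPolynomial (Fin 3) K) :
    eval x (eval₂Hom C g f) = eval (fun i => eval x (g i)) f := by
  induction f using MvPolynomial.induction_on with
  | C a => simp
  | add f g hf hg => rw [map_add, map_add, hf, hg, map_add]
  | mul_X f i hf => rw [map_mul, map_mul, hf, map_mul, eval₂Hom_X', eval_X]

/-- A form over a field which vanishes on the line is killed by the projection. -/
lemma Edg.th_zero {K : Type u} [Field K] [Algebra F K] [Infinite K] {d : ℕ}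
    {f : MvPolynomial (Fin 3) K} (hf : f.IsHomogeneous d) (h : res (up K E.p) (up K E.q) f = 0) :
    E.th K f = 0 := by
  apply MvPolynomial.funext
  intro x
  rw [map_zero]
  have h1 : eval x (E.th K f) = eval (fun i => sp (up K E.a) x * up K E.p i +
      sp (up K E.b) x * up K E.q i) f := by
    rw [Edg.th, eval_comp_Line2]
    have e1 : ∀ i, x i - up K E.c i * ∑ j, up K E.w j * x j = sp (up K E.a) x * up K E.p i +
      sp (up K E.b) x * up K E.q i := by
      intro i
      have e2 : ∀ j, up K E.w j * up K E.c i + up K E.a j * up K E.p i +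
          up K E.b j * up K E.q i = if i = j then 1 else 0 := by
        intro j
        have := congrArg (algebraMap F K) (E.dual i j)
        simp only [map_add, map_mul] at this
        simp only [up]
        rw [this]
        split_ifs <;> simp
      have e3 : x i = ∑ j, (up K E.w j * up K E.c i + up K E.a j * up K E.p i +
          up K E.b j * up K E.q i) * x j := by
        simp only [e2]
        simp
      rw [e3, sp_three, sp_three, Fin.sum_univ_three, Fin.sum_univ_three]
      ring
    have e4 : (fun i => eval x (X i - C (algebraMap F K (E.c i)) *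
        ∑ j, C (algebraMap F K (E.w j)) * X j)) = fun i => sp (up K E.a) x * up K E.p i +
          sp (up K E.b) x * up K E.q i := by
      funext i
      rw [← e1 i]
      simp [up]
    rw [e4]
  rw [h1]
  by_cases hb : sp (up K E.b) x = 0
  · rw [hb]
    have e1 : (fun i => sp (up K E.a) x * up K E.p i + 0 * up K E.q i) =
        fun i => sp (up K E.a) x * up K E.p i := by
      funext i
      ring
    rw [e1, eval_smul_hom hf, ← (res_degree hf (up K E.p) (up K E.q)).2, h]
    simp
  · have e1 : (fun i => sp (up K E.a) x * up K E.p i + sp (up K E.b) x * up K E.q i) =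
        fun i => sp (up K E.b) x * (sp (up K E.a) x / sp (up K E.b) x * up K E.p i +
          up K E.q i) := by
      funext i
      field_simp
    rw [e1, eval_smul_hom hf, ← eval_res, h]
    simp

lemma sum_eq_lin_up (K : Type u) [Field K] [Algebra F K] (w : Fin 3 → F) :
    (∑ j, C (algebraMap F K (w j)) * X j : MvPolynomial (Fin 3) K) = lin (up K w) := by
  rw [lin_apply]
  refine Finset.sum_congr rfl fun j _ => ?_
  rw [smul_eq_C_mul, up]

/-- A form over a field which vanishes on the line is divisible by the equation of the line. -/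
theorem Edg.dvd_of_res {K : Type u} [Field K] [Algebra F K] [Infinite K] {d : ℕ}
    {f : MvPolynomial (Fin 3) K} (hf : f.IsHomogeneous d) (h : res (up K E.p) (up K E.q) f = 0) :
    lin (up K E.w) ∣ f := by
  have h1 := E.dvd_sub_th (A := K) f
  rw [E.th_zero hf h, sub_zero, sum_eq_lin_up] at h1
  exact h1

lemma Edg.th_map {A B : Type v} [CommRing A] [CommRing B] [Algebra F A] [Algebra F B]
    (φ : A →ₐ[F] B) (f : MvPolynomial (Fin 3) A) :
    map (φ : A →+* B) (E.th A f) = E.th B (map (φ : A →+* B) f) := by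
  induction f using MvPolynomial.induction_on with
  | C a =>
    rw [Edg.th, Edg.th, coe_eval₂Hom, coe_eval₂Hom, eval₂_C, map_C, eval₂_C]
  | add f g hf hg => rw [map_add, map_add, hf, hg, map_add, map_add]
  | mul_X f i hf =>
    rw [map_mul, map_mul, hf, map_mul, map_mul]
    congr 1
    rw [Edg.th, Edg.th, eval₂Hom_X', map_X, eval₂Hom_X', map_sub, map_mul, map_sum, map_X, map_C]
    congr 2
    · simp
    · refine Finset.sum_congr rfl fun j _ => ?_
      rw [map_mul, map_C, map_X]
      simp

end dvd

section lam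

variable {F : Type u} [Field F] (E : Edg F)

lemma cst_lin (w : Fin 3 → F) :
    (∑ j, C (algebraMap F (Lam F) (w j)) * X j : MvPolynomial (Fin 3) (Lam F)) = cst (lin w) := by
  rw [lin_apply, cst, map_sum]
  refine Finset.sum_congr rfl fun j _ => ?_
  rw [smul_eq_C_mul, map_mul, map_C, map_X]
  rfl

/-- the same over the polynomials in the coefficients of the generic form -/
theorem Edg.cst_dvd_of_res {L : Type u} [Field L] [Algebra F L] [Algebra (Lam F) L]
    [IsScalarTower F (Lam F) L] [Infinite L]
    (hinj : Function.Injective (algebraMap (Lam F) L)) {d : ℕ}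
    {f : MvPolynomial (Fin 3) (Lam F)} (hf : f.IsHomogeneous d)
    (h : res (up L E.p) (up L E.q) (map (algebraMap (Lam F) L) f) = 0) :
    cst (lin E.w) ∣ f := by
  have h1 := E.dvd_sub_th (A := Lam F) f
  have h2 := E.th_map (IsScalarTower.toAlgHom F (Lam F) L) f
  have h3 : ((IsScalarTower.toAlgHom F (Lam F) L : Lam F →ₐ[F] L) : Lam F →+* L) =
      algebraMap (Lam F) L := rfl
  rw [h3, E.th_zero (hf.map _) h] at h2
  have h4 : E.th (Lam F) f = 0 := by
    apply map_injective _ hinj
    rw [h2, map_zero]
  rw [h4, sub_zero, cst_lin] at h1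
  exact h1

/-- the point of the line on which the generic form vanishes -/
def Edg.lpt : Fin 3 → Lam F := ept X (fun i => C (E.p i)) fun i => C (E.q i)

/-- the value at this point -/
def Edg.vl (f : MvPolynomial (Fin 3) (Lam F)) : Lam F := eval E.lpt f

lemma pd_sp (g e : Fin 3 → F) : pd g (sp X (fun i => C (e i)) : Lam F) = C (sp g e) := by
  simp only [sp_three, map_add, pd_mul, pd_X, pd_C, C_mul]
  ring

lemma Edg.pd_lpt (i : Fin 3) : pd E.w (E.lpt i) = 0 := by
  rw [Edg.lpt, ept, map_sub, pd_mul, pd_mul, pd_sp, pd_sp, pd_C, pd_C, E.wp, E.wq, C_0]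
  ring

lemma Edg.pd_vl (f : MvPolynomial (Fin 3) (Lam F)) :
    pd E.w (E.vl f) = E.vl (cD (pd E.w) f) := by
  exact cD_eval₂ (RingHom.id (Lam F)) (pd E.w) (pd E.w) (fun a => rfl) E.lpt E.pd_lpt f

lemma cD_cst (g : Fin 3 → F) (f : MvPolynomial (Fin 3) F) : cD (pd g) (cst f) = 0 :=
  cD_map_zero (C : F →+* Lam F) (pd g) (pd_C g) f

lemma Edg.pd_vl_cst (f : MvPolynomial (Fin 3) F) : pd E.w (E.vl (cst f)) = 0 := by
  rw [E.pd_vl, cD_cst, Edg.vl, map_zero]

lemma Edg.vl_cst_lin (v : Fin 3 → F) : E.vl (cst (lin v)) =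
    sp X (fun i => C (E.q i)) * C (sp v E.p) - sp X (fun i => C (E.p i)) * C (sp v E.q) := by
  rw [← cst_lin, Edg.vl, map_sum, Fin.sum_univ_three]
  have h1 : ∀ e : Fin 3 → F, (C (sp v e) : Lam F) = sp (fun i => C (v i)) fun i => C (e i) := by
    intro e
    rw [sp_map]
  rw [h1, h1, ← sp_ept, sp_three]
  simp only [map_mul, eval_C, eval_X]
  rfl

lemma Edg.vl_cst_lin_ne {v : Fin 3 → F} (h : v ∉ Submodule.span F {E.w}) :
    E.vl (cst (lin v)) ≠ 0 := by
  intro h0
  apply h
  rw [E.mem_iff]
  rw [E.vl_cst_lin] at h0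
  have h1 := congrArg (pd E.a) h0
  have h2 := congrArg (pd E.b) h0
  rw [map_sub, pd_mul, pd_mul, pd_sp, pd_sp, pd_C, pd_C, E.ap, E.aq] at h1
  rw [map_sub, pd_mul, pd_mul, pd_sp, pd_sp, pd_C, pd_C, E.bp, E.bq] at h2
  have e1 : (C (sp v E.q) : Lam F) = C 0 := by
    rw [map_zero (pd E.a), C_0, C_1] at h1
    rw [C_0]
    linear_combination -h1
  have e2 : (C (sp v E.p) : Lam F) = C 0 := by
    rw [map_zero (pd E.b), C_0, C_1] at h2
    rw [C_0]
    linear_combination h2
  exact ⟨C_injective _ _ e2, C_injective _ _ e1⟩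

lemma Edg.vl_mul (f g : MvPolynomial (Fin 3) (Lam F)) : E.vl (f * g) = E.vl f * E.vl g := by
  rw [Edg.vl, Edg.vl, Edg.vl, map_mul]

lemma Edg.vl_cst_pr_ne {l : List (Fin 3 → F)} (h : ∀ v ∈ l, v ∉ Submodule.span F {E.w}) :
    E.vl (cst (pr l)) ≠ 0 := by
  induction l with
  | nil =>
    rw [pr_nil, cst, map_one, Edg.vl, map_one]
    exact one_ne_zero
  | cons v l ih =>
    have h1 : cst (pr (v :: l)) = cst (lin v) * cst (pr l) := by
      rw [cst, cst, cst, pr_cons, map_mul]
    rw [h1, E.vl_mul]
    exact mul_ne_zero (E.vl_cst_lin_ne (h v List.mem_cons_self))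
      (ih fun x hx => h x (List.mem_cons_of_mem _ hx))

/-- a product with the factor `w` has the value zero -/
lemma Edg.vl_cst_pr_zero {l : List (Fin 3 → F)} (h : E.w ∈ l) : E.vl (cst (pr l)) = 0 := by
  induction l with
  | nil => simp at h
  | cons v l ih =>
    have h1 : cst (pr (v :: l)) = cst (lin v) * cst (pr l) := by
      rw [cst, cst, cst, pr_cons, map_mul]
    rw [h1, E.vl_mul]
    rcases List.mem_cons.1 h with h | h
    · rw [← h, E.vl_cst_lin, E.wp, E.wq, C_0]
      ring
    · rw [ih h, mul_zero]

/-! ### Divisibility -/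

lemma isUnit_int [CharZero F] {n : ℤ} (hn : n ≠ 0) : IsUnit (n : Lam F) := by
  have h1 : (n : Lam F) = C (n : F) := by simp
  rw [h1]
  exact (isUnit_iff_ne_zero.2 (by exact_mod_cast hn)).map C

lemma hc_pd (g : Fin 3 → F) (f : Lam F) (i : ℕ) :
    homogeneousComponent i (pd g f) = pd g (homogeneousComponent (i + 1) f) := by
  have h1 : ∀ f : Lam F, pd g f = ∑ j, C (g j) * pderiv j f := by
    intro f
    induction f using MvPolynomial.induction_on with
    | C a => simp [pd_C]
    | add p q hp hq => rw [map_add, hp, hq]; simp [mul_add, Finset.sum_add_distrib]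
    | mul_X p i hp =>
      rw [pd_mul, pd_X, hp]
      simp only [Fin.sum_univ_three, pderiv_mul, pderiv_X]
      fin_cases i <;> simp <;> ring
  rw [h1, h1, map_sum]
  refine Finset.sum_congr rfl fun j _ => ?_
  rw [homogeneousComponent_C_mul, hc_pderiv]

lemma totalDegree_pd_lt (g : Fin 3 → F) {f : Lam F} (h : pd g f ≠ 0) :
    (pd g f).totalDegree < f.totalDegree := by
  by_contra hcon
  push Not at hcon
  have h1 := hc_totalDegree_ne_zero h
  rw [hc_pd, homogeneousComponent_eq_zero _ _ (by omega), map_zero] at h1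
  exact h1 rfl

lemma not_dvd_pd (g : Fin 3 → F) {P : Lam F} (h : pd g P ≠ 0) : ¬ P ∣ pd g P := by
  rintro ⟨Q, hQ⟩
  have hP : P ≠ 0 := by
    rintro rfl
    rw [map_zero] at h
    exact h rfl
  have hQ0 : Q ≠ 0 := by
    rintro rfl
    rw [mul_zero] at hQ
    exact h hQ
  have h1 := totalDegree_pd_lt g h
  rw [hQ, totalDegree_mul_of_isDomain hP hQ0] at h1
  omega

/-- a polynomial which does not depend on the direction `g` is not divisible by a prime which does -/
lemma not_dvd_of_pd [CharZero F] (g : Fin 3 → F) {P f : Lam F} (hP : Prime P) (h : pd g P ≠ 0)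
    (hf : f ≠ 0) (hf0 : pd g f = 0) : ¬ P ∣ f :=
  not_dvd_const (fun _ hn => isUnit_int hn) hP (not_dvd_pd g h) hf hf0

end lam

end Pool.Agent.Lef3
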