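import Pool.Agent.Lef3.Base
import Pool.Agent.LefProd.Types2

/-!
Normal forms of the product of three linear forms.
-/

set_option autoImplicit false
set_option linter.unusedSectionVars false

noncomputable section

namespace Pool.Agent.Lef3

open MvPolynomial Pool.Agent.LefProd

universe u

variable {F : Type u} [Field F] [CharZero F]

/-- the coordinate vectors -/
abbrev ev (F : Type u) [Field F] (i : Fin 3) : Fin 3 → F := Pi.single i 1

private lemma norm_theta_pr (π : (Fin 3 → F) →ₗ[F] (Fin 3 → F)) (l : List (Fin 3 → F)) :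
    theta π (pr l) = pr (l.map π) := by
  induction l with
  | nil => rw [pr_nil, map_one, List.map_nil, pr_nil]
  | cons v l ih => rw [pr_cons, map_mul, ih, theta_lin, List.map_cons, pr_cons]

private lemma norm_theta_J (π : (Fin 3 → F) →ₗ[F] (Fin 3 → F)) (𝓛 : List (List (Fin 3 → F)))
    {p : MvPolynomial (Fin 3) F} (hp : p ∈ J ⊥ 𝓛) :
    theta π p ∈ J ⊥ (𝓛.map (List.map π)) := by
  have h : J ⊥ 𝓛 ≤ (J ⊥ (𝓛.map (List.map π))).comap (theta π) := by
    rw [J_le_iff]
    constructor
    · intro v hv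
      rw [Submodule.mem_bot] at hv
      rw [hv, map_zero]
      exact Ideal.zero_mem _
    · intro l hl
      rw [Ideal.mem_comap, norm_theta_pr]
      exact pr_mem_J (List.mem_map.2 ⟨l, hl, rfl⟩)
  exact h hp

private lemma norm_theta_hom (π : (Fin 3 → F) →ₗ[F] (Fin 3 → F)) {p : MvPolynomial (Fin 3) F}
    {j : ℕ} (hp : p.IsHomogeneous j) : (theta π p).IsHomogeneous j := by
  have h := hp.aeval (fun i => lin (π (Pi.single i 1)))
    (fun i => lin_isHomogeneous (π (Pi.single i 1)))
  rwa [one_mul] at h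

private lemma norm_theta_inv (T : (Fin 3 → F) ≃ₗ[F] (Fin 3 → F)) (p : MvPolynomial (Fin 3) F) :
    theta (T.symm : (Fin 3 → F) →ₗ[F] (Fin 3 → F))
      (theta (T : (Fin 3 → F) →ₗ[F] (Fin 3 → F)) p) = p := by
  have h : (theta (T.symm : (Fin 3 → F) →ₗ[F] (Fin 3 → F))).comp
      (theta (T : (Fin 3 → F) →ₗ[F] (Fin 3 → F))) = AlgHom.id F (MvPolynomial (Fin 3) F) := by
    apply MvPolynomial.algHom_ext
    intro i
    rw [AlgHom.comp_apply, ← lin_single, theta_lin, theta_lin, AlgHom.id_apply]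
    simp only [LinearEquiv.coe_coe, LinearEquiv.symm_apply_apply]
  exact DFunLike.congr_fun h p

/-- `EX` is invariant under linear coordinate changes: the algebra automorphism which maps `lin v` to
`lin (T v)` maps `J ⊥ 𝓛` to `J ⊥ (𝓛.map (List.map T))`. -/
theorem ex_of_equiv (T : (Fin 3 → F) ≃ₗ[F] (Fin 3 → F)) {𝓛 : List (List (Fin 3 → F))} {s j : ℕ}
    (h : EX (J ⊥ (𝓛.map (List.map T))) s j) : EX (J ⊥ 𝓛) s j := by
  obtain ⟨ν, hν⟩ := h
  refine ⟨T.symm ν, ?_⟩
  intro p hp hm
  have h1 := norm_theta_J (T : (Fin 3 → F) →ₗ[F] (Fin 3 → F)) 𝓛 hm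
  rw [map_mul, map_pow, theta_lin, LinearEquiv.coe_coe, LinearEquiv.apply_symm_apply] at h1
  have h2 := hν _ (norm_theta_hom (T : (Fin 3 → F) →ₗ[F] (Fin 3 → F)) hp) h1
  have h3 := norm_theta_J (T.symm : (Fin 3 → F) →ₗ[F] (Fin 3 → F)) _ h2
  rw [norm_theta_inv] at h3
  have h4 : (𝓛.map (List.map T)).map
      (List.map (T.symm : (Fin 3 → F) →ₗ[F] (Fin 3 → F))) = 𝓛 := by
    rw [List.map_map]
    conv_rhs => rw [← List.map_id 𝓛]
    refine List.map_congr_left fun l _ => ?_
    rw [Function.comp_apply, List.map_map, id]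
    conv_rhs => rw [← List.map_id l]
    refine List.map_congr_left fun v _ => ?_
    rw [Function.comp_apply, LinearEquiv.coe_coe, LinearEquiv.symm_apply_apply, id]
  rwa [h4] at h3

private lemma norm_Tr_map (T : (Fin 3 → F) ≃ₗ[F] (Fin 3 → F)) :
    ∀ (𝓛 : List (List (Fin 3 → F))) (W : Submodule F (Fin 3 → F)), Tr W 𝓛 →
      Tr (W.map (T : (Fin 3 → F) →ₗ[F] (Fin 3 → F))) (𝓛.map (List.map T))
  | [], _, _ => trivial
  | l :: 𝓛, W, h => by
    intro v' hv'
    obtain ⟨v, hv, rfl⟩ := List.mem_map.1 hv'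
    obtain ⟨h1, h2⟩ := h v hv
    constructor
    · rintro ⟨w, hw, hwv⟩
      rw [LinearEquiv.coe_coe] at hwv
      rw [T.injective hwv] at hw
      exact h1 hw
    · have h3 := norm_Tr_map T 𝓛 (W ⊔ Submodule.span F {v}) h2
      rwa [Submodule.map_sup, Submodule.map_span, Set.image_singleton] at h3

private lemma norm_CI_map (T : (Fin 3 → F) ≃ₗ[F] (Fin 3 → F)) {𝓛 : List (List (Fin 3 → F))}
    (h : CI ⊥ 𝓛) : CI ⊥ (𝓛.map (List.map T)) := by
  obtain ⟨h1, h2, h3⟩ := h
  refine ⟨?_, ?_, ?_⟩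
  · intro l' hl'
    obtain ⟨l, hl, rfl⟩ := List.mem_map.1 hl'
    intro h0
    exact h1 l hl (List.map_eq_nil_iff.1 h0)
  · have h4 := norm_Tr_map T 𝓛 ⊥ h2
    rwa [Submodule.map_bot] at h4
  · rwa [List.length_map]

private lemma norm_J_smul {l m l₂ l₃ : List (Fin 3 → F)} {k : F} (hk : k ≠ 0)
    (hpr : pr l = C k * pr m) : J ⊥ [l, l₂, l₃] = J ⊥ [m, l₂, l₃] := by
  rw [J_cons, J_cons ⊥ m]
  congr 1
  rw [hpr]
  exact Ideal.span_singleton_mul_left_unit ((isUnit_iff_ne_zero.2 hk).map C) _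

private lemma norm_key {l₁ l₂ l₃ : List (Fin 3 → F)} (hci : CI ⊥ [l₁, l₂, l₃])
    {s j : ℕ}
    (H : ∀ l₁' l₂' l₃' : List (Fin 3 → F), l₂'.length = l₂.length → l₃'.length = l₃.length →
      CI ⊥ [l₁', l₂', l₃'] →
      (l₁' = [ev F 1, ev F 2, ev F 0] ∨ l₁' = [ev F 1, ev F 2, ev F 1 + ev F 2] ∨
        l₁' = [ev F 1, ev F 2, ev F 1] ∨ l₁' = [ev F 1, ev F 1, ev F 1]) →
      EX (J ⊥ [l₁', l₂', l₃']) s j)
    (T : (Fin 3 → F) ≃ₗ[F] (Fin 3 → F)) {m : List (Fin 3 → F)} (hm : m ≠ []) {k : F}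
    (hk : k ≠ 0) (hpr : pr l₁ = C k * pr m)
    (hsp : ∀ v' ∈ m, ∃ v ∈ l₁, Submodule.span F {v'} = Submodule.span F {v})
    (hT : m.map T = [ev F 1, ev F 2, ev F 0] ∨ m.map T = [ev F 1, ev F 2, ev F 1 + ev F 2] ∨
        m.map T = [ev F 1, ev F 2, ev F 1] ∨ m.map T = [ev F 1, ev F 1, ev F 1]) :
    EX (J ⊥ [l₁, l₂, l₃]) s j := by
  have hci' : CI ⊥ [m, l₂, l₃] := by
    refine ⟨?_, ?_, hci.2.2⟩
    · intro l hl
      rcases List.mem_cons.1 hl with rfl | hl
      · exact hm
      · exact hci.1 l (List.mem_cons_of_mem _ hl)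
    · intro v' hv'
      obtain ⟨v, hv, hvv⟩ := hsp v' hv'
      obtain ⟨h1, h2⟩ := hci.2.1 v hv
      refine ⟨?_, ?_⟩
      · intro h0
        apply h1
        rw [Submodule.mem_bot] at h0 ⊢
        rw [h0, Submodule.span_zero_singleton] at hvv
        exact Submodule.span_singleton_eq_bot.1 hvv.symm
      · rw [hvv]
        exact h2
  rw [norm_J_smul hk hpr]
  apply ex_of_equiv T
  exact H (m.map T) (l₂.map T) (l₃.map T) (List.length_map _) (List.length_map _)
    (norm_CI_map T hci') hT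

private lemma norm_T {a b c : Fin 3 → F} (ha : a ≠ 0) (hb : b ∉ Submodule.span F {a})
    (hc : c ∉ Submodule.span F {a} ⊔ Submodule.span F {b}) :
    ∃ T : (Fin 3 → F) ≃ₗ[F] (Fin 3 → F), T a = ev F 1 ∧ T b = ev F 2 ∧ T c = ev F 0 := by
  have h1 : LinearIndependent F ![a, b] := by
    rw [LinearIndependent.pair_iff]
    intro s t hst
    have ht : t = 0 := by
      by_contra ht
      apply hb
      rw [Submodule.mem_span_singleton]
      refine ⟨-(t⁻¹ * s), ?_⟩
      have h2 : t • b = -(s • a) := by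
        rw [add_comm] at hst
        exact eq_neg_of_add_eq_zero_left hst
      have h3 : b = t⁻¹ • (t • b) := by rw [smul_smul, inv_mul_cancel₀ ht, one_smul]
      rw [h3, h2, smul_neg, smul_smul, neg_smul]
    rw [ht, zero_smul, add_zero] at hst
    exact ⟨(smul_eq_zero.1 hst).resolve_right ha, ht⟩
  have h2 : LinearIndependent F ![c, a, b] := by
    have h3 : (![c, a, b] : Fin 3 → (Fin 3 → F)) = Fin.cons c ![a, b] := rfl
    rw [h3, linearIndependent_finCons]
    refine ⟨h1, ?_⟩
    intro h4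
    apply hc
    have h5 : Set.range ![a, b] = {a} ∪ {b} := by
      rw [Matrix.range_cons, Matrix.range_cons, Matrix.range_empty, Set.union_empty]
    rwa [h5, Submodule.span_union] at h4
  have hb' : ∀ i, basisOfLinearIndependentOfCardEqFinrank h2 (by simp) i = ![c, a, b] i := by
    intro i
    rw [coe_basisOfLinearIndependentOfCardEqFinrank]
  obtain ⟨B, hB⟩ : ∃ B : Module.Basis (Fin 3) F (Fin 3 → F), ∀ i, B i = ![c, a, b] i :=
    ⟨_, hb'⟩
  have hT : ∀ i, B.equivFun (![c, a, b] i) = ev F i := by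
    intro i
    rw [← hB i]
    funext j
    rw [Module.Basis.equivFun_self]
    by_cases hij : i = j
    · subst hij
      simp
    · rw [if_neg hij, ev, Pi.single_apply, if_neg (Ne.symm hij)]
  exact ⟨B.equivFun, hT 1, hT 2, hT 0⟩

private lemma norm_T2 {a b : Fin 3 → F} (ha : a ≠ 0) (hb : b ∉ Submodule.span F {a}) :
    ∃ T : (Fin 3 → F) ≃ₗ[F] (Fin 3 → F), T a = ev F 1 ∧ T b = ev F 2 := by
  have h1 : Module.finrank F (Submodule.span F {a}) = 1 := finrank_span_singleton ha
  have h2 : Module.finrank F ↥(Submodule.span F {a} ⊔ Submodule.span F {b}) = 2 := by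
    rw [finrank_sup hb, h1]
  obtain ⟨c, hc⟩ := exists_notMem (F := F) (n := 3)
    (W := Submodule.span F {a} ⊔ Submodule.span F {b}) (by omega)
  obtain ⟨T, hT1, hT2, -⟩ := norm_T ha hb hc
  exact ⟨T, hT1, hT2⟩

private lemma norm_T1 {a : Fin 3 → F} (ha : a ≠ 0) :
    ∃ T : (Fin 3 → F) ≃ₗ[F] (Fin 3 → F), T a = ev F 1 := by
  have h1 : Module.finrank F (Submodule.span F {a}) = 1 := finrank_span_singleton ha
  obtain ⟨b, hb⟩ := exists_notMem (F := F) (n := 3)
    (W := Submodule.span F {a}) (by omega)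
  obtain ⟨T, hT1, -⟩ := norm_T2 ha hb
  exact ⟨T, hT1⟩

private lemma norm_lin_smul (k : F) (v : Fin 3 → F) : lin (k • v) = C k * lin v := by
  rw [map_smul, smul_eq_C_mul]

private lemma norm_span_smul {k : F} (hk : k ≠ 0) (v : Fin 3 → F) :
    Submodule.span F {k • v} = Submodule.span F {v} :=
  Submodule.span_singleton_smul_eq (isUnit_iff_ne_zero.2 hk) v

/-- the four normal forms -/
theorem norm_EX {l₁ l₂ l₃ : List (Fin 3 → F)} (hlen : l₁.length = 3) (hci : CI ⊥ [l₁, l₂, l₃])
    {s j : ℕ}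
    (H : ∀ l₁' l₂' l₃' : List (Fin 3 → F), l₂'.length = l₂.length → l₃'.length = l₃.length →
      CI ⊥ [l₁', l₂', l₃'] →
      (l₁' = [ev F 1, ev F 2, ev F 0] ∨ l₁' = [ev F 1, ev F 2, ev F 1 + ev F 2] ∨
        l₁' = [ev F 1, ev F 2, ev F 1] ∨ l₁' = [ev F 1, ev F 1, ev F 1]) →
      EX (J ⊥ [l₁', l₂', l₃']) s j) :
    EX (J ⊥ [l₁, l₂, l₃]) s j := by
  obtain ⟨a, b, c, rfl⟩ : ∃ a b c, l₁ = [a, b, c] := List.length_eq_three.1 hlen
  have hne : ∀ v ∈ [a, b, c], v ≠ 0 := by
    intro v hv h0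
    apply (hci.2.1 v hv).1
    rw [h0]
    exact Submodule.zero_mem _
  have ha : a ≠ 0 := hne a (by simp)
  have hb : b ≠ 0 := hne b (by simp)
  have hc : c ≠ 0 := hne c (by simp)
  by_cases hab : b ∈ Submodule.span F {a}
  · obtain ⟨β, hβ⟩ := Submodule.mem_span_singleton.1 hab
    have hβ0 : β ≠ 0 := by
      rintro rfl
      apply hb
      rw [← hβ, zero_smul]
    by_cases hac : c ∈ Submodule.span F {a}
    · obtain ⟨γ, hγ⟩ := Submodule.mem_span_singleton.1 hac
      have hγ0 : γ ≠ 0 := by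
        rintro rfl
        apply hc
        rw [← hγ, zero_smul]
      obtain ⟨T, hT⟩ := norm_T1 ha
      refine norm_key hci H T (m := [a, a, a]) (by simp) (k := β * γ) (mul_ne_zero hβ0 hγ0)
        ?_ ?_ (Or.inr (Or.inr (Or.inr ?_)))
      · rw [← hβ, ← hγ]
        simp only [pr_cons, pr_nil, norm_lin_smul, C_mul]
        ring
      · intro v' hv'
        refine ⟨a, by simp, ?_⟩
        have h1 : v' = a := by simpa using hv'
        rw [h1]
      · simp [hT]
    · obtain ⟨T, hT1, hT2⟩ := norm_T2 ha hac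
      refine norm_key hci H T (m := [a, c, a]) (by simp) (k := β) hβ0
        ?_ ?_ (Or.inr (Or.inr (Or.inl ?_)))
      · rw [← hβ]
        simp only [pr_cons, pr_nil, norm_lin_smul]
        ring
      · intro v' hv'
        refine ⟨v', ?_, rfl⟩
        have h1 : v' = a ∨ v' = c := by
          simp only [List.mem_cons, List.not_mem_nil, or_false] at hv'
          tauto
        rcases h1 with h1 | h1 <;> simp [h1]
      · simp [hT1, hT2]
  · by_cases hcs : c ∈ Submodule.span F {a} ⊔ Submodule.span F {b}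
    · obtain ⟨x, hx, y, hy, hxy⟩ := Submodule.mem_sup.1 hcs
      obtain ⟨α, rfl⟩ := Submodule.mem_span_singleton.1 hx
      obtain ⟨β, rfl⟩ := Submodule.mem_span_singleton.1 hy
      by_cases hα : α = 0
      · have hcb : β • b = c := by rw [← hxy, hα, zero_smul, zero_add]
        have hβ : β ≠ 0 := by
          rintro rfl
          apply hc
          rw [← hcb, zero_smul]
        have hba : a ∉ Submodule.span F {b} := by
          intro h
          obtain ⟨t, ht⟩ := Submodule.mem_span_singleton.1 h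
          have ht0 : t ≠ 0 := by
            rintro rfl
            apply ha
            rw [← ht, zero_smul]
          apply hab
          rw [Submodule.mem_span_singleton]
          exact ⟨t⁻¹, by rw [← ht, smul_smul, inv_mul_cancel₀ ht0, one_smul]⟩
        obtain ⟨T, hT1, hT2⟩ := norm_T2 hb hba
        refine norm_key hci H T (m := [b, a, b]) (by simp) (k := β) hβ
          ?_ ?_ (Or.inr (Or.inr (Or.inl ?_)))
        · rw [← hcb]
          simp only [pr_cons, pr_nil, norm_lin_smul]
          ring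
        · intro v' hv'
          refine ⟨v', ?_, rfl⟩
          have h1 : v' = b ∨ v' = a := by
            simp only [List.mem_cons, List.not_mem_nil, or_false] at hv'
            tauto
          rcases h1 with h1 | h1 <;> simp [h1]
        · simp [hT1, hT2]
      · by_cases hβ : β = 0
        · have hca : α • a = c := by rw [← hxy, hβ, zero_smul, add_zero]
          obtain ⟨T, hT1, hT2⟩ := norm_T2 ha hab
          refine norm_key hci H T (m := [a, b, a]) (by simp) (k := α) hα
            ?_ ?_ (Or.inr (Or.inr (Or.inl ?_)))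
          · rw [← hca]
            simp only [pr_cons, pr_nil, norm_lin_smul]
            ring
          · intro v' hv'
            refine ⟨v', ?_, rfl⟩
            have h1 : v' = a ∨ v' = b := by
              simp only [List.mem_cons, List.not_mem_nil, or_false] at hv'
              tauto
            rcases h1 with h1 | h1 <;> simp [h1]
          · simp [hT1, hT2]
        · have ha' : α • a ≠ 0 := smul_ne_zero hα ha
          have hb' : β • b ∉ Submodule.span F {α • a} := by
            rw [norm_span_smul hα, Submodule.smul_mem_iff _ hβ]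
            exact hab
          obtain ⟨T, hT1, hT2⟩ := norm_T2 ha' hb'
          refine norm_key hci H T (m := [α • a, β • b, c]) (by simp) (k := (α * β)⁻¹)
            (inv_ne_zero (mul_ne_zero hα hβ)) ?_ ?_ (Or.inr (Or.inl ?_))
          · have h1 : (C (α * β)⁻¹ * (C α * C β) : MvPolynomial (Fin 3) F) = 1 := by
              rw [← C_mul, ← C_mul, inv_mul_cancel₀ (mul_ne_zero hα hβ), C_1]
            calc pr [a, b, c] = 1 * pr [a, b, c] := (one_mul _).symm
              _ = C (α * β)⁻¹ * (C α * C β) * pr [a, b, c] := by rw [h1]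
              _ = C (α * β)⁻¹ * pr [α • a, β • b, c] := by
                simp only [pr_cons, pr_nil, norm_lin_smul]
                ring
          · intro v' hv'
            rcases List.mem_cons.1 hv' with rfl | hv'
            · exact ⟨a, by simp, norm_span_smul hα a⟩
            rcases List.mem_cons.1 hv' with rfl | hv'
            · exact ⟨b, by simp, norm_span_smul hβ b⟩
            · exact ⟨v', by rw [List.mem_singleton.1 hv']; simp, rfl⟩
          · rw [← hxy]
            simp only [List.map_cons, List.map_nil, map_add, hT1, hT2]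
    · obtain ⟨T, hT1, hT2, hT3⟩ := norm_T ha hab hcs
      refine norm_key hci H T (m := [a, b, c]) (by simp) (k := 1) one_ne_zero
        (by rw [C_1, one_mul]) (fun v hv => ⟨v, hv, rfl⟩) (Or.inl ?_)
      simp only [List.map_cons, List.map_nil, hT1, hT2, hT3]

end Pool.Agent.Lef3
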