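import Pool.Agent.Lef3.Base

/-!
Regular sequences over an extension `L` of `F` with a linear form `l` whose coefficients are
generic, in the sense that there are derivations of `L` over `F` dual to them.
-/

set_option autoImplicit false
set_option linter.unusedSectionVars false

noncomputable section

namespace Pool.Agent.Lef3

open MvPolynomial Pool.Agent.LefProd

universe u

variable {F : Type u} [Field F] [CharZero F] {L : Type u} [Field L] [Algebra F L]

private lemma up_notMem_Reg {W : Submodule F (Fin 3 → F)} {v : Fin 3 → F} (hv : v ∉ W) :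
    up L v ∉ Submodule.span L (up L '' (W : Set (Fin 3 → F))) := by
  obtain ⟨φ, h1, h2⟩ := Submodule.exists_dual_map_eq_bot_of_notMem hv inferInstance
  have hφ : ∀ w ∈ W, φ w = 0 := by
    intro w hw
    have h3 : φ w ∈ W.map φ := Submodule.mem_map_of_mem hw
    rw [h2] at h3
    exact (Submodule.mem_bot F).1 h3
  let ψ : (Fin 3 → L) →ₗ[L] L :=
    Fintype.linearCombination L (fun i => algebraMap F L (φ (Pi.single i 1)))
  have hψ : ∀ w : Fin 3 → F, ψ (up L w) = algebraMap F L (φ w) := by
    intro w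
    have e1 : ψ (up L w) = ∑ i, up L w i • algebraMap F L (φ (Pi.single i 1)) := rfl
    rw [e1]
    conv_rhs => rw [pi_eq_sum_univ' w, map_sum, map_sum]
    refine Finset.sum_congr rfl fun i _ => ?_
    rw [map_smul, smul_eq_mul, smul_eq_mul, map_mul]
    rfl
  have hker : Submodule.span L (up L '' (W : Set (Fin 3 → F))) ≤ LinearMap.ker ψ := by
    rw [Submodule.span_le]
    rintro _ ⟨w, hw, rfl⟩
    rw [SetLike.mem_coe, LinearMap.mem_ker, hψ, hφ w hw, map_zero]
  intro h
  have h4 := hker h
  rw [LinearMap.mem_ker, hψ, map_eq_zero] at h4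
  exact h1 h4

/-- Independence over `F` persists over `L`: choose a linear function over `F` which is zero on `W`
and not on `v`, and extend it to `L`. -/
theorem tr_up {W : Submodule F (Fin 3 → F)} {𝓛 : List (List (Fin 3 → F))} (h : Tr W 𝓛) :
    Tr (Submodule.span L (up L '' (W : Set (Fin 3 → F)))) (𝓛.map (List.map (up L))) := by
  induction 𝓛 generalizing W with
  | nil => trivial
  | cons l 𝓛 ih =>
    intro v' hv'
    obtain ⟨v, hv, rfl⟩ := List.mem_map.1 hv'
    obtain ⟨h1, h2⟩ := h v hv
    refine ⟨up_notMem_Reg h1, ?_⟩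
    refine Tr.mono ?_ (ih h2)
    rw [sup_le_iff]
    constructor
    · exact Submodule.span_mono (Set.image_mono (fun w hw => Submodule.mem_sup_left hw))
    · rw [Submodule.span_singleton_le_iff_mem]
      exact Submodule.subset_span ⟨v, Submodule.mem_sup_right
        (Submodule.mem_span_singleton_self v), rfl⟩

/-- The generic form `l` is independent of two vectors over `F`: if `v`, `w` are in `F ^ 3` and `l`
is in their span over `L` then the cross product of `v` and `w` is orthogonal to `l`; the derivations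
`D i` give `v × w = 0`, so `v` and `w` are dependent over `F`, `l` is a multiple of a vector over
`F`, and the derivations give a contradiction. -/
theorem gen_notMem {D : Fin 3 → Derivation ℤ L L} {l : Fin 3 → L}
    (hD : ∀ i j, D i (l j) = if i = j then 1 else 0)
    (hc : ∀ i a, D i (algebraMap F L a) = 0) (v w : Fin 3 → F) :
    l ∉ Submodule.span L {up L v, up L w} := by
  intro h
  obtain ⟨a, b, hab⟩ := Submodule.mem_span_pair.1 h
  have hl : ∀ i, l i = a * algebraMap F L (v i) + b * algebraMap F L (w i) := by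
    intro i
    rw [← hab]
    rfl
  have h0 := hl 0
  have h1 := hl 1
  have h2 := hl 2
  have hmul : ∀ (i : Fin 3) (x y : L), D i (x * y) = x * D i y + y * D i x := by
    intro i x y
    rw [Derivation.leibniz, smul_eq_mul, smul_eq_mul]
  -- the determinant
  have hdet : algebraMap F L (v 1 * w 2 - v 2 * w 1) * l 0 +
      algebraMap F L (v 2 * w 0 - v 0 * w 2) * l 1 +
      algebraMap F L (v 0 * w 1 - v 1 * w 0) * l 2 = 0 := by
    rw [h0, h1, h2]
    simp only [map_sub, map_mul]
    ring
  have hcr : ∀ i, D i (algebraMap F L (v 1 * w 2 - v 2 * w 1) * l 0 +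
      algebraMap F L (v 2 * w 0 - v 0 * w 2) * l 1 +
      algebraMap F L (v 0 * w 1 - v 1 * w 0) * l 2) = 0 := by
    intro i
    rw [hdet, map_zero]
  have e0 : algebraMap F L (v 1 * w 2 - v 2 * w 1) = 0 := by
    have := hcr 0
    rw [map_add, map_add, hmul, hmul, hmul, hc, hc, hc, hD, hD, hD] at this
    simpa using this
  have e1 : algebraMap F L (v 2 * w 0 - v 0 * w 2) = 0 := by
    have := hcr 1
    rw [map_add, map_add, hmul, hmul, hmul, hc, hc, hc, hD, hD, hD] at this
    simpa using this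
  have e2 : algebraMap F L (v 0 * w 1 - v 1 * w 0) = 0 := by
    have := hcr 2
    rw [map_add, map_add, hmul, hmul, hmul, hc, hc, hc, hD, hD, hD] at this
    simpa using this
  rw [map_sub, map_mul, map_mul, sub_eq_zero] at e0 e1 e2
  -- the vectors vanish
  have key : ∀ u : Fin 3 → F, (l 0 * algebraMap F L (u 1) = l 1 * algebraMap F L (u 0)) →
      (l 0 * algebraMap F L (u 2) = l 2 * algebraMap F L (u 0)) →
      algebraMap F L (u 0) = 0 ∧ algebraMap F L (u 1) = 0 ∧ algebraMap F L (u 2) = 0 := by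
    intro u hu1 hu2
    have a1 := congrArg (D 0) hu1
    have a2 := congrArg (D 1) hu1
    have a3 := congrArg (D 0) hu2
    rw [hmul, hmul, hc, hc, hD, hD] at a1 a2 a3
    refine ⟨?_, ?_, ?_⟩
    · simpa using a2.symm
    · simpa using a1
    · simpa using a3
  obtain ⟨v0, v1, v2⟩ := key v (by rw [h0, h1]; linear_combination -b * e2)
    (by rw [h0, h2]; linear_combination b * e1)
  obtain ⟨w0, w1, w2⟩ := key w (by rw [h0, h1]; linear_combination a * e2)
    (by rw [h0, h2]; linear_combination -a * e1)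
  rw [v0, w0, mul_zero, mul_zero, add_zero] at h0
  have h3 := hD 0 0
  rw [h0, map_zero, if_pos rfl] at h3
  exact zero_ne_one h3

/-- All the regular sequences which are used. `R1`: `l` modulo `f₁`; `R2`: `f₂` modulo `f₁`, `l ^ t`
(`pr_nzd` with the lists `l₁` and `List.replicate t [l]`, `t = 0` is trivial); `R4`: a constant
linear form `g` modulo `f₁`, `l` (any `g` not proportional to the vectors of `l₁`); `R5`: `f₃` modulo
`f₁`, `f₂`; `R6`: `f₂` modulo `f₁`. All by `LefProd.nzd` and `LefProd.pr_nzd` over `L`, with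
`LefProd.mem_J_cons_iff` and `J_perm`. -/
theorem reg {D : Fin 3 → Derivation ℤ L L} {l : Fin 3 → L}
    (hD : ∀ i j, D i (l j) = if i = j then 1 else 0)
    (hc : ∀ i a, D i (algebraMap F L a) = 0) {l₁ l₂ l₃ : List (Fin 3 → F)}
    (hci : CI ⊥ [l₁, l₂, l₃]) {f₁ f₂ f₃ : MvPolynomial (Fin 3) L}
    (h1 : f₁ = MvPolynomial.map (algebraMap F L) (pr l₁))
    (h2 : f₂ = MvPolynomial.map (algebraMap F L) (pr l₂))
    (h3 : f₃ = MvPolynomial.map (algebraMap F L) (pr l₃)) :
    (∀ X, f₁ ∣ lin l * X → f₁ ∣ X) ∧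
    (∀ (t : ℕ) X A m, f₂ * X = f₁ * A + lin l ^ t * m →
      ∃ A' m', X = f₁ * A' + lin l ^ t * m') ∧
    (∃ g : Fin 3 → L, ∀ X A m, lin g * X = f₁ * A + lin l * m →
      ∃ A' m', X = f₁ * A' + lin l * m') ∧
    (∀ X A B, f₃ * X = f₁ * A + f₂ * B → ∃ A' B', X = f₁ * A' + f₂ * B') ∧
    (∀ X, f₁ ∣ f₂ * X → f₁ ∣ X) := by
  obtain ⟨hne, htr, -⟩ := hci
  have hn1 : l₁ ≠ [] := hne l₁ (by simp)
  have hn2 : l₂ ≠ [] := hne l₂ (by simp)
  have hn3 : l₃ ≠ [] := hne l₃ (by simp)
  have hm1 : l₁.map (up L) ≠ [] := by simpa using hn1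
  have hm2 : l₂.map (up L) ≠ [] := by simpa using hn2
  have hm3 : l₃.map (up L) ≠ [] := by simpa using hn3
  rw [← pr_up] at h1 h2 h3
  have hT : Tr (⊥ : Submodule L (Fin 3 → L)) [l₁.map (up L), l₂.map (up L), l₃.map (up L)] := by
    have := tr_up (L := L) htr
    exact Tr.mono bot_le this
  have hNE : NE [l₁.map (up L), l₂.map (up L), l₃.map (up L)] := by
    intro m hm
    simp only [List.mem_cons, List.not_mem_nil, or_false] at hm
    rcases hm with rfl | rfl | rfl
    · exact hm1
    · exact hm2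
    · exact hm3
  have hT213 : Tr (⊥ : Submodule L (Fin 3 → L))
      [l₂.map (up L), l₁.map (up L), l₃.map (up L)] := Tr.perm (List.Perm.swap _ _ _) hNE hT
  have hT312 : Tr (⊥ : Submodule L (Fin 3 → L))
      [l₃.map (up L), l₁.map (up L), l₂.map (up L)] := by
    refine Tr.perm ?_ hNE hT
    exact (List.Perm.cons _ (List.Perm.swap _ _ _)).trans (List.Perm.swap _ _ _)
  have hNE312 : NE [l₁.map (up L), l₂.map (up L)] := by
    intro m hm
    simp only [List.mem_cons, List.not_mem_nil, or_false] at hm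
    rcases hm with rfl | rfl
    · exact hm1
    · exact hm2
  have hT21 : Tr (⊥ : Submodule L (Fin 3 → L)) [l₂.map (up L), l₁.map (up L)] := by
    refine Tr.cons_tail hm3 (Tr.perm ?_ hNE hT)
    exact ((List.Perm.swap _ _ _).trans (List.Perm.cons _ (List.Perm.swap _ _ _))).trans
      (List.Perm.swap _ _ _)
  have hl0 : l ∉ (⊥ : Submodule L (Fin 3 → L)) := by
    intro h
    rw [Submodule.mem_bot] at h
    refine gen_notMem hD hc 0 0 ?_
    rw [h]
    exact zero_mem _
  have hcomb : ∀ u ∈ l₂.map (up L), ∀ w ∈ l₁.map (up L),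
      l ∉ (⊥ : Submodule L (Fin 3 → L)) ⊔ Submodule.span L {u} ⊔ Submodule.span L {w} := by
    intro u hu w hw
    obtain ⟨u, -, rfl⟩ := List.mem_map.1 hu
    obtain ⟨w, -, rfl⟩ := List.mem_map.1 hw
    rw [bot_sup_eq, ← Submodule.span_union]
    exact gen_notMem hD hc u w
  have hTl : ∀ m : List (Fin 3 → L), (∀ x ∈ m, x = l) →
      Tr (⊥ : Submodule L (Fin 3 → L)) [l₂.map (up L), l₁.map (up L), m] := by
    intro m hm u hu
    refine ⟨(hT21 u hu).1, fun w hw => ⟨((hT21 u hu).2 w hw).1, fun x hx => ?_⟩⟩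
    rw [hm x hx]
    exact ⟨hcomb u hu w hw, trivial⟩
  have hJ0 : ∀ p : MvPolynomial (Fin 3) L, p ∈ J (⊥ : Submodule L (Fin 3 → L)) [] ↔ p = 0 := by
    intro p
    rw [J_nil]
    have : (lin '' ((⊥ : Submodule L (Fin 3 → L)) : Set (Fin 3 → L))) =
        ({0} : Set (MvPolynomial (Fin 3) L)) := by
      rw [Submodule.bot_coe, Set.image_singleton, map_zero]
    rw [this, Ideal.mem_span_singleton, zero_dvd_iff]
  have hJ1 : ∀ (m : List (Fin 3 → L)) (p : MvPolynomial (Fin 3) L),
      p ∈ J (⊥ : Submodule L (Fin 3 → L)) [m] ↔ pr m ∣ p := by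
    intro m p
    rw [mem_J_cons_iff]
    constructor
    · rintro ⟨a, ha⟩
      rw [hJ0, sub_eq_zero] at ha
      exact ⟨a, ha⟩
    · rintro ⟨a, rfl⟩
      exact ⟨a, by rw [hJ0, sub_self]⟩
  have hJ2 : ∀ (m m' : List (Fin 3 → L)) (p : MvPolynomial (Fin 3) L),
      p ∈ J (⊥ : Submodule L (Fin 3 → L)) [m, m'] ↔ ∃ a b, p = pr m * a + pr m' * b := by
    intro m m' p
    rw [mem_J_cons_iff]
    constructor
    · rintro ⟨a, ha⟩
      rw [hJ1] at ha
      obtain ⟨b, hb⟩ := ha
      exact ⟨a, b, by rw [← hb]; ring⟩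
    · rintro ⟨a, b, rfl⟩
      exact ⟨a, by rw [hJ1]; exact ⟨b, by ring⟩⟩
  have hpr : ∀ t : ℕ, pr (List.replicate t l) = lin l ^ t := by
    intro t
    rw [pr, List.map_replicate, List.prod_replicate]
  refine ⟨?_, ?_, ?_, ?_, ?_⟩
  · intro X hX
    rw [h1] at hX ⊢
    rw [← hJ1] at hX ⊢
    refine nzd ?_ hl0 ?_ hX
    · intro m hm
      rw [List.mem_singleton] at hm
      rw [hm]
      exact hm1
    · intro w hw
      refine ⟨?_, trivial⟩
      obtain ⟨u, hu⟩ := List.exists_mem_of_ne_nil _ hm2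
      have h4 : w ∉ (⊥ : Submodule L (Fin 3 → L)) := by
        have := (hT21 u hu).2 w hw
        exact fun h => this.1 (Submodule.mem_sup_left h)
      refine not_mem_exchange h4 ?_
      intro h5
      refine hcomb u hu w hw ?_
      rw [sup_right_comm]
      exact Submodule.mem_sup_left h5
  · intro t X A m hX
    rcases Nat.eq_zero_or_pos t with rfl | ht
    · exact ⟨0, X, by ring⟩
    · have hNE' : NE [l₁.map (up L), List.replicate t l] := by
        intro m' hm'
        simp only [List.mem_cons, List.not_mem_nil, or_false] at hm'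
        rcases hm' with rfl | rfl
        · exact hm1
        · intro h
          have := congrArg List.length h
          rw [List.length_replicate, List.length_nil] at this
          omega
      have h4 := pr_nzd (p := X) hNE' (hTl (List.replicate t l)
        (fun x hx => List.eq_of_mem_replicate hx)) (by
        rw [hJ2, hpr, ← h1, ← h2]
        exact ⟨A, m, hX⟩)
      rw [hJ2, hpr, ← h1] at h4
      exact h4
  · obtain ⟨u, hu⟩ := List.exists_mem_of_ne_nil _ hm2
    refine ⟨u, fun X A m hX => ?_⟩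
    have hNE' : NE [l₁.map (up L), [l]] := by
      intro m' hm'
      simp only [List.mem_cons, List.not_mem_nil, or_false] at hm'
      rcases hm' with rfl | rfl
      · exact hm1
      · simp
    have h4 := hTl [l] (fun x hx => List.mem_singleton.1 hx) u hu
    have h5 := nzd (p := X) hNE' h4.1 h4.2 (by
      rw [hJ2, ← h1]
      exact ⟨A, m, by rw [hX]; simp⟩)
    rw [hJ2, ← h1] at h5
    obtain ⟨A', m', h6⟩ := h5
    exact ⟨A', m', by rw [h6]; simp⟩
  · intro X A B hX
    have h4 := pr_nzd (p := X) hNE312 hT312 (by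
      rw [hJ2, ← h1, ← h2, ← h3]
      exact ⟨A, B, hX⟩)
    rw [hJ2, ← h1, ← h2] at h4
    exact h4
  · intro X hX
    have hNE' : NE [l₁.map (up L)] := by
      intro m' hm'
      rw [List.mem_singleton] at hm'
      rw [hm']
      exact hm1
    have h4 := pr_nzd (p := X) hNE' hT21 (by
      rw [hJ1, ← h1, ← h2]
      exact hX)
    rw [hJ1, ← h1] at h4
    exact h4

end Pool.Agent.Lef3
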