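import Pool.Agent.Lef3.Base
import Pool.Agent.LefProd.Types2

/-!
The case of a third power.
-/

set_option autoImplicit false
set_option linter.unusedSectionVars false

noncomputable section

namespace Pool.Agent.Lef3

open MvPolynomial Pool.Agent.LefProd

universe u

variable {F : Type u} [Field F] [CharZero F]

private lemma expand_Triple {R : Type*} [CommRing R] (a b : R) (m : ℕ) :
    ∃ q : R, 2 * (a + b) ^ (m + 2) = 2 * a ^ (m + 2) + 2 * ((m : R) + 2) * b * a ^ (m + 1) +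
      ((m : R) + 2) * ((m : R) + 1) * b ^ 2 * a ^ m + b ^ 3 * q := by
  induction m with
  | zero =>
    refine ⟨0, ?_⟩
    push_cast
    ring
  | succ m ih =>
    obtain ⟨q, hq⟩ := ih
    refine ⟨((m : R) + 2) * ((m : R) + 1) * a ^ m + q * (a + b), ?_⟩
    have h : 2 * (a + b) ^ (m + 1 + 2) = (2 * (a + b) ^ (m + 2)) * (a + b) := by ring
    rw [h, hq]
    push_cast
    ring

private lemma cancel_Triple {I : Ideal (MvPolynomial (Fin 3) F)} {p : MvPolynomial (Fin 3) F}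
    {k : ℕ} (hk : k ≠ 0) (h : (k : MvPolynomial (Fin 3) F) * p ∈ I) : p ∈ I := by
  have hk' : (k : F) ≠ 0 := Nat.cast_ne_zero.2 hk
  have h1 := Ideal.mul_mem_left I (C ((k : F)⁻¹)) h
  rw [← mul_assoc, ← map_natCast (C : F →+* MvPolynomial (Fin 3) F) k, ← C_mul,
    inv_mul_cancel₀ hk', C_1, one_mul] at h1
  exact h1

private lemma nat_hom_Triple (k : ℕ) {p : MvPolynomial (Fin 3) F} {j : ℕ}
    (hp : p.IsHomogeneous j) : ((k : MvPolynomial (Fin 3) F) * p).IsHomogeneous j := by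
  have h := (isHomogeneous_C (Fin 3) (k : F)).mul hp
  rwa [zero_add, map_natCast] at h

section core

variable {I I₀ I₁ : Ideal (MvPolynomial (Fin 3) F)} {X : MvPolynomial (Fin 3) F}
  {ν : Fin 3 → F} {m j : ℕ}

/-- `N = lin ν`, `X = lin x` -/
private lemma step1_Triple {N : MvPolynomial (Fin 3) F} (hν : N.IsHomogeneous 1)
    (h0 : I₀ ≤ I) (hI1 : I ≤ I₁) (hX : X ∈ I₁)
    (hc2 : ∀ p, X ^ 2 * p ∈ I → p ∈ I₁) (hc1 : ∀ p, X * p ∈ I → p ∈ I₁)
    (hd : ∀ p : MvPolynomial (Fin 3) F, p.IsHomogeneous j → p ∈ I₁ →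
      ∃ r : MvPolynomial (Fin 3) F, r.IsHomogeneous (j - 1) ∧ p - X * r ∈ I₀)
    (hj : 1 ≤ j)
    (hA : ∀ p : MvPolynomial (Fin 3) F, p.IsHomogeneous j → N ^ m * p ∈ I₁ → p ∈ I₁)
    {A0 A1 A2 : MvPolynomial (Fin 3) F} (hA0 : A0.IsHomogeneous j) (hA1 : A1.IsHomogeneous j)
    (e2 : ((m : MvPolynomial (Fin 3) F) + 2) * ((m : MvPolynomial (Fin 3) F) + 1) *
      X ^ 2 * N ^ m * A0 ∈ I)
    (e1 : 2 * ((m : MvPolynomial (Fin 3) F) + 2) * X * N ^ (m + 1) * A0 +
      ((m : MvPolynomial (Fin 3) F) + 2) * ((m : MvPolynomial (Fin 3) F) + 1) *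
      X ^ 2 * N ^ m * A1 ∈ I)
    (e0 : 2 * N ^ (m + 2) * A0 + 2 * ((m : MvPolynomial (Fin 3) F) + 2) * X * N ^ (m + 1) * A1 +
      ((m : MvPolynomial (Fin 3) F) + 2) * ((m : MvPolynomial (Fin 3) F) + 1) *
      X ^ 2 * N ^ m * A2 ∈ I) :
    ∃ u w : MvPolynomial (Fin 3) F, u.IsHomogeneous (j - 1) ∧ w.IsHomogeneous (j - 1) ∧
      A0 - X * u ∈ I₀ ∧ 2 * N * u + ((m : MvPolynomial (Fin 3) F) + 1) * A1 - X * w ∈ I₀ ∧
      N ^ (m + 2) * u ∈ I₁ := by
  have hm2 : (((m + 2) * (m + 1) : ℕ) : MvPolynomial (Fin 3) F) =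
      ((m : MvPolynomial (Fin 3) F) + 2) * ((m : MvPolynomial (Fin 3) F) + 1) := by push_cast; ring
  have h1 : A0 ∈ I₁ := by
    apply hA A0 hA0
    apply cancel_Triple (k := (m + 2) * (m + 1)) (by positivity)
    apply hc2
    rw [hm2]
    convert e2 using 1
    ring
  obtain ⟨u, hu, hu0⟩ := hd A0 hA0 h1
  have h2 : 2 * N * u + ((m : MvPolynomial (Fin 3) F) + 1) * A1 ∈ I₁ := by
    apply hA
    · refine IsHomogeneous.add ?_ ?_
      · have h := nat_hom_Triple 2 (hν.mul hu)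
        rw [← mul_assoc, show 1 + (j - 1) = j by omega] at h
        exact_mod_cast h
      · have h := nat_hom_Triple (m + 1) hA1
        push_cast at h
        exact h
    · apply cancel_Triple (k := m + 2) (by omega)
      apply hc2
      have h3 := Ideal.mul_mem_left I
        (2 * ((m : MvPolynomial (Fin 3) F) + 2) * X * N ^ (m + 1)) (h0 hu0)
      have h4 := sub_mem e1 h3
      push_cast
      convert h4 using 1
      ring
  have hhom : (2 * N * u + ((m : MvPolynomial (Fin 3) F) + 1) * A1).IsHomogeneous j := by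
    refine IsHomogeneous.add ?_ ?_
    · have h := nat_hom_Triple 2 (hν.mul hu)
      rw [← mul_assoc, show 1 + (j - 1) = j by omega] at h
      exact_mod_cast h
    · have h := nat_hom_Triple (m + 1) hA1
      push_cast at h
      exact h
  obtain ⟨w, hw, hw0⟩ := hd _ hhom h2
  refine ⟨u, w, hu, hw, hu0, hw0, ?_⟩
  apply cancel_Triple (k := 2 * m + 6) (by omega)
  have h3 : X * (-((2 * (m : MvPolynomial (Fin 3) F) + 6) * (N ^ (m + 2) * u)) +
      X * (2 * ((m : MvPolynomial (Fin 3) F) + 2) * N ^ (m + 1) * w +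
        ((m : MvPolynomial (Fin 3) F) + 1) * (((m : MvPolynomial (Fin 3) F) + 2) *
          ((m : MvPolynomial (Fin 3) F) + 1) * N ^ m * A2))) ∈ I := by
    have h4 := Ideal.mul_mem_left I ((m : MvPolynomial (Fin 3) F) + 1) e0
    have h5 := Ideal.mul_mem_left I (((m : MvPolynomial (Fin 3) F) + 1) * 2 * N ^ (m + 2)) (h0 hu0)
    have h6 := Ideal.mul_mem_left I
      (2 * ((m : MvPolynomial (Fin 3) F) + 2) * X * N ^ (m + 1)) (h0 hw0)
    have h7 := sub_mem (sub_mem h4 h5) h6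
    convert h7 using 1
    ring
  have h8 := hc1 _ h3
  have h9 := Ideal.mul_mem_right (2 * ((m : MvPolynomial (Fin 3) F) + 2) * N ^ (m + 1) * w +
        ((m : MvPolynomial (Fin 3) F) + 1) * (((m : MvPolynomial (Fin 3) F) + 2) *
          ((m : MvPolynomial (Fin 3) F) + 1) * N ^ m * A2)) I₁ hX
  have h10 := neg_mem (sub_mem h8 h9)
  push_cast
  convert h10 using 1
  ring

private lemma step2_Triple {N : MvPolynomial (Fin 3) F} (hν : N.IsHomogeneous 1)
    (h0 : I₀ ≤ I) (hI1 : I ≤ I₁) (hX : X ∈ I₁)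
    (hc2 : ∀ p, X ^ 2 * p ∈ I → p ∈ I₁) (hc1 : ∀ p, X * p ∈ I → p ∈ I₁)
    (hd : ∀ p : MvPolynomial (Fin 3) F, p.IsHomogeneous j → p ∈ I₁ →
      ∃ r : MvPolynomial (Fin 3) F, r.IsHomogeneous (j - 1) ∧ p - X * r ∈ I₀)
    (hj : 2 ≤ j)
    (hA : ∀ p : MvPolynomial (Fin 3) F, p.IsHomogeneous j → N ^ m * p ∈ I₁ → p ∈ I₁)
    (hB : ∀ p : MvPolynomial (Fin 3) F, p.IsHomogeneous (j - 1) →
      N ^ (m + 2) * p ∈ I₁ → p ∈ I₁)
    {A1 A2 A3 A4 u' u w : MvPolynomial (Fin 3) F}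
    (hA2 : A2.IsHomogeneous j)
    (hu' : u' - X * u ∈ I₀) (hu : u.IsHomogeneous (j - 2)) (hw : w.IsHomogeneous (j - 1))
    (hw0 : 2 * N * u' + ((m : MvPolynomial (Fin 3) F) + 1) * A1 - X * w ∈ I₀)
    {A0 : MvPolynomial (Fin 3) F} (hA0 : A0 - X * u' ∈ I₀)
    (e0 : 2 * N ^ (m + 2) * A0 + 2 * ((m : MvPolynomial (Fin 3) F) + 2) * X * N ^ (m + 1) * A1 +
      ((m : MvPolynomial (Fin 3) F) + 2) * ((m : MvPolynomial (Fin 3) F) + 1) *
      X ^ 2 * N ^ m * A2 ∈ I)
    (f1 : 2 * N ^ (m + 2) * A1 + 2 * ((m : MvPolynomial (Fin 3) F) + 2) * X * N ^ (m + 1) * A2 +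
      ((m : MvPolynomial (Fin 3) F) + 2) * ((m : MvPolynomial (Fin 3) F) + 1) *
      X ^ 2 * N ^ m * A3 ∈ I)
    (f2 : 2 * N ^ (m + 2) * A2 + 2 * ((m : MvPolynomial (Fin 3) F) + 2) * X * N ^ (m + 1) * A3 +
      ((m : MvPolynomial (Fin 3) F) + 2) * ((m : MvPolynomial (Fin 3) F) + 1) *
      X ^ 2 * N ^ m * A4 ∈ I) :
    N ^ (m + 4) * u ∈ I₁ := by
  -- `(m + 1) A1 = X w₁` modulo `I₀`
  obtain ⟨w₁, hw₁⟩ : ∃ w₁, w₁ = w - 2 * N * u := ⟨_, rfl⟩
  have hw1 : w₁.IsHomogeneous (j - 1) := by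
    rw [hw₁]
    refine IsHomogeneous.sub hw ?_
    have h := nat_hom_Triple 2 (hν.mul hu)
    rw [← mul_assoc, show 1 + (j - 2) = j - 1 by omega] at h
    exact_mod_cast h
  have g1 : ((m : MvPolynomial (Fin 3) F) + 1) * A1 - X * w₁ ∈ I₀ := by
    have h := sub_mem hw0 (Ideal.mul_mem_left I₀ (2 * N) hu')
    convert h using 1
    rw [hw₁]
    ring
  have gA0 : A0 - X ^ 2 * u ∈ I₀ := by
    have h := add_mem hA0 (Ideal.mul_mem_left I₀ X hu')
    convert h using 1
    ring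
  obtain ⟨B, hB'⟩ : ∃ B, B = 2 * ((m : MvPolynomial (Fin 3) F) + 1) * N ^ 2 * u +
      2 * ((m : MvPolynomial (Fin 3) F) + 2) * N * w₁ +
      ((m : MvPolynomial (Fin 3) F) + 2) * ((m : MvPolynomial (Fin 3) F) + 1) ^ 2 * A2 := ⟨_, rfl⟩
  have hBh : B.IsHomogeneous j := by
    rw [hB']
    refine IsHomogeneous.add (IsHomogeneous.add ?_ ?_) ?_
    · have h := nat_hom_Triple (2 * (m + 1)) ((hν.pow 2).mul hu)
      rw [← mul_assoc, show 1 * 2 + (j - 2) = j by omega] at h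
      push_cast at h
      exact h
    · have h := nat_hom_Triple (2 * (m + 2)) (hν.mul hw1)
      rw [← mul_assoc, show 1 + (j - 1) = j by omega] at h
      push_cast at h
      exact h
    · have h := nat_hom_Triple ((m + 2) * (m + 1) ^ 2) hA2
      push_cast at h
      exact h
  have g2 : B ∈ I₁ := by
    apply hA B hBh
    apply hc2
    have h4 := Ideal.mul_mem_left I ((m : MvPolynomial (Fin 3) F) + 1) e0
    have h5 := Ideal.mul_mem_left I (((m : MvPolynomial (Fin 3) F) + 1) * 2 * N ^ (m + 2)) (h0 gA0)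
    have h6 := Ideal.mul_mem_left I
      (2 * ((m : MvPolynomial (Fin 3) F) + 2) * X * N ^ (m + 1)) (h0 g1)
    have h7 := sub_mem (sub_mem h4 h5) h6
    convert h7 using 1
    rw [hB']
    ring
  obtain ⟨z, hz, hz0⟩ := hd B hBh g2
  have g3 : ((m : MvPolynomial (Fin 3) F) + 3) * w₁ +
      2 * ((m : MvPolynomial (Fin 3) F) + 1) * N * u ∈ I₁ := by
    apply hB
    · refine IsHomogeneous.add ?_ ?_
      · have h := nat_hom_Triple (m + 3) hw1
        push_cast at h
        exact h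
      · have h := nat_hom_Triple (2 * (m + 1)) (hν.mul hu)
        rw [← mul_assoc, show 1 + (j - 2) = j - 1 by omega] at h
        push_cast at h
        exact h
    · apply cancel_Triple (k := 2) (by omega)
      have h3 : X * (-(2 * (N ^ (m + 2) * (((m : MvPolynomial (Fin 3) F) + 3) * w₁ +
          2 * ((m : MvPolynomial (Fin 3) F) + 1) * N * u))) +
          X * (2 * N ^ (m + 1) * z + ((m : MvPolynomial (Fin 3) F) + 1) ^ 2 *
            (((m : MvPolynomial (Fin 3) F) + 2) *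
            ((m : MvPolynomial (Fin 3) F) + 1) * N ^ m * A3))) ∈ I := by
        have h4 := Ideal.mul_mem_left I (((m : MvPolynomial (Fin 3) F) + 1) ^ 2) f1
        have h5 := Ideal.mul_mem_left I
          (2 * ((m : MvPolynomial (Fin 3) F) + 1) * N ^ (m + 2)) (h0 g1)
        have h6 := Ideal.mul_mem_left I (2 * X * N ^ (m + 1)) (h0 hz0)
        have h7 := sub_mem (sub_mem h4 h5) h6
        convert h7 using 1
        rw [hB']
        ring
      have h8 := hc1 _ h3
      have h9 := Ideal.mul_mem_right (2 * N ^ (m + 1) * z +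
        ((m : MvPolynomial (Fin 3) F) + 1) ^ 2 *
            (((m : MvPolynomial (Fin 3) F) + 2) *
            ((m : MvPolynomial (Fin 3) F) + 1) * N ^ m * A3)) I₁ hX
      have h10 := neg_mem (sub_mem h8 h9)
      push_cast
      convert h10 using 1
      ring
  apply cancel_Triple (k := 4 * (m + 1) ^ 2) (by positivity)
  -- use `f2`
  have h1 := Ideal.mul_mem_left I₁ (((m : MvPolynomial (Fin 3) F) + 3) *
    (((m : MvPolynomial (Fin 3) F) + 2) * ((m : MvPolynomial (Fin 3) F) + 1) ^ 2)) (hI1 f2)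
  have h2 := Ideal.mul_mem_left I₁ (((m : MvPolynomial (Fin 3) F) + 3) *
    (((m : MvPolynomial (Fin 3) F) + 2) * ((m : MvPolynomial (Fin 3) F) + 1) ^ 2) *
    (2 * ((m : MvPolynomial (Fin 3) F) + 2) * N ^ (m + 1) * A3 +
      ((m : MvPolynomial (Fin 3) F) + 2) * ((m : MvPolynomial (Fin 3) F) + 1) *
      X * N ^ m * A4)) hX
  have h3 := Ideal.mul_mem_left I₁ (((m : MvPolynomial (Fin 3) F) + 3) * (2 * N ^ (m + 2))) g2
  have h4 := Ideal.mul_mem_left I₁
    (4 * ((m : MvPolynomial (Fin 3) F) + 2) * N ^ (m + 3)) g3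
  have h5 := sub_mem (sub_mem h1 h2) h3
  have h6 := add_mem h5 h4
  push_cast
  convert h6 using 1
  rw [hB']
  ring

end core

/-- Let `C = R / (x, f₂, f₃)` and choose `ν` such that `ν ^ m` is injective on `C_i` for
`2 i + m ≤ b + c - 2` (`LefProd.two_EX`, finitely many open conditions). If `(ν + t x) ^ s` is not
injective for any `t` then there is `a = ∑ a_i t ^ i` of degree `N` in `t`, `a_N ∉ I`, with
`(ν + t x) ^ s a = 0`. In `A`, `x ^ 3 = 0`, and `x ^ 2 p = 0` iff `p ∈ x A`, etc. (`colon_lin`,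
`colon_pr`). Compare the coefficients of `t ^ (N + 2)`, ..., `t ^ (N - 2)` (put
`u₂ = a_N`, `a_(N-1)`, `a_(N-2)`): one gets `a_N = x ^ 2 u₀`, `a_(N-1) = x u₁`, `a_(N-2) = u₂` modulo
..., and in `C`:
`s (s - 1) / 2 ν ^ (s - 2) u₂ + s ν ^ (s - 1) u₁ + ν ^ s u₀ = 0`, `s ν ^ (s - 1) u₂ + ν ^ s u₁ = 0`,
`ν ^ s u₂ = 0`, so `u₁ = - 2 / (s + 1) ν u₀`, `u₂ = 2 / (s (s + 1)) ν ^ 2 u₀`, `ν ^ (s + 2) u₀ = 0`,
`u₀ = 0` (`s ≥ 2`; the case `s = 0` is `EX.zero` and `s = 1` is `LefProd.three_EX`). Any other proof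
is fine, for instance: the matrix of `(ν + t x) ^ s` on `A_j → A_(j + s)` in bases adapted to
`x ^ 2 A ⊂ x A ⊂ A`. -/
theorem triple_EX {x : Fin 3 → F} {l₂ l₃ : List (Fin 3 → F)} (hci : CI ⊥ [[x, x, x], l₂, l₃])
    {s j : ℕ} (hsj : 2 * j + s = sg [[x, x, x], l₂, l₃]) :
    EX (J ⊥ [[x, x, x], l₂, l₃]) s j := by
  have : Infinite F := CharZero.infinite F
  have hW0 : Module.finrank F (⊥ : Submodule F (Fin 3 → F)) + 3 = 3 := by simp
  rcases Nat.lt_or_ge s 2 with hs | hs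
  · interval_cases s
    · exact EX.zero _ _
    · exact three_EX hW0 hci (by omega)
  obtain ⟨m, rfl⟩ : ∃ m, s = m + 2 := ⟨s - 2, by omega⟩
  have hsg : sg [[x, x, x], l₂, l₃] = 2 + sg [l₂, l₃] := by
    rw [sg_cons]
    simp
  have hci1 : CI (⊥ ⊔ Submodule.span F {x}) [l₂, l₃] := hci.sup
  have hW1 : Module.finrank F ↥((⊥ : Submodule F (Fin 3 → F)) ⊔ Submodule.span F {x}) + 2 = 3 := by
    rw [finrank_sup hci.2.1.head.1]
    simp
  set I := J ⊥ [[x, x, x], l₂, l₃] with hI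
  set I₁ := J (⊥ ⊔ Submodule.span F {x}) [l₂, l₃] with hI₁
  have EA : EX I₁ m j := two_EX hW1 hci1 (by omega)
  have EB : 1 ≤ j → EX I₁ (m + 2) (j - 1) := fun h => two_EX hW1 hci1 (by omega)
  have EC : 2 ≤ j → EX I₁ (m + 4) (j - 2) := fun h => two_EX hW1 hci1 (by omega)
  obtain ⟨ν, hA, hB, hC⟩ := (Op_LI I₁ m j).common
    ((Op_imp (1 ≤ j) (Op_LI I₁ (m + 2) (j - 1))).and
      (Op_imp (2 ≤ j) (Op_LI I₁ (m + 4) (j - 2)))) EA
    ((Op_imp (1 ≤ j) (Op_LI I₁ (m + 2) (j - 1))).common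
      (Op_imp (2 ≤ j) (Op_LI I₁ (m + 4) (j - 2))) (ex_imp EB) (ex_imp EC))
  -- the ideals
  have h0 : J ⊥ [l₂, l₃] ≤ I := J_mono_cons
  have hI1 : I ≤ I₁ := J_cons_le_sup
  have hX : lin x ∈ I₁ :=
    lin_mem_J (Submodule.mem_sup_right (Submodule.mem_span_singleton_self x))
  have hc2 : ∀ p, lin x ^ 2 * p ∈ I ↔ p ∈ I₁ := by
    intro p
    have h := colon_pr (g := [x, x]) hci.1.tail hci.2.1 (p := p)
    rw [pr_cons, pr_cons, pr_nil, mul_one, ← pow_two] at h
    exact h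
  have hc1 : ∀ p, lin x * p ∈ I → p ∈ I₁ := by
    intro p hp
    exact J_cons_le_sup ((colon_lin hci.1.tail hci.2.1).1 hp)
  have hcube : lin x ^ 3 ∈ I := by
    have h : pr [x, x, x] ∈ I := pr_mem_J (by simp)
    rw [pr_cons, pr_cons, pr_cons, pr_nil] at h
    convert h using 1
    ring
  have hd : ∀ (i : ℕ), 1 ≤ i → ∀ p : MvPolynomial (Fin 3) F, p.IsHomogeneous i → p ∈ I₁ →
      ∃ r : MvPolynomial (Fin 3) F, r.IsHomogeneous (i - 1) ∧ p - lin x * r ∈ J ⊥ [l₂, l₃] :=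
    fun i hi p hp hpI => sup_hom hp hpI hi
  -- the core
  have core : ∀ A0 A1 A2 A3 A4 : MvPolynomial (Fin 3) F, A0.IsHomogeneous j →
      A1.IsHomogeneous j → A2.IsHomogeneous j →
      ((m : MvPolynomial (Fin 3) F) + 2) * ((m : MvPolynomial (Fin 3) F) + 1) *
        lin x ^ 2 * lin ν ^ m * A0 ∈ I →
      2 * ((m : MvPolynomial (Fin 3) F) + 2) * lin x * lin ν ^ (m + 1) * A0 +
        ((m : MvPolynomial (Fin 3) F) + 2) * ((m : MvPolynomial (Fin 3) F) + 1) *
        lin x ^ 2 * lin ν ^ m * A1 ∈ I →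
      2 * lin ν ^ (m + 2) * A0 + 2 * ((m : MvPolynomial (Fin 3) F) + 2) * lin x *
        lin ν ^ (m + 1) * A1 +
        ((m : MvPolynomial (Fin 3) F) + 2) * ((m : MvPolynomial (Fin 3) F) + 1) *
        lin x ^ 2 * lin ν ^ m * A2 ∈ I →
      2 * lin ν ^ (m + 2) * A1 + 2 * ((m : MvPolynomial (Fin 3) F) + 2) * lin x *
        lin ν ^ (m + 1) * A2 +
        ((m : MvPolynomial (Fin 3) F) + 2) * ((m : MvPolynomial (Fin 3) F) + 1) *
        lin x ^ 2 * lin ν ^ m * A3 ∈ I →
      2 * lin ν ^ (m + 2) * A2 + 2 * ((m : MvPolynomial (Fin 3) F) + 2) * lin x *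
        lin ν ^ (m + 1) * A3 +
        ((m : MvPolynomial (Fin 3) F) + 2) * ((m : MvPolynomial (Fin 3) F) + 1) *
        lin x ^ 2 * lin ν ^ m * A4 ∈ I → A0 ∈ I := by
    intro A0 A1 A2 A3 A4 hA0 hA1 hA2 e2 e1 e0 f1 f2
    rcases Nat.eq_zero_or_pos j with hj | hj
    · -- degree zero
      have h1 : A0 ∈ I₁ := by
        apply hA A0 hA0
        apply cancel_Triple (k := (m + 2) * (m + 1)) (by positivity)
        rw [← hc2]
        push_cast
        convert e2 using 1
        ring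
      apply h0
      subst hj
      exact sup_hom_zero hA0 h1
    · obtain ⟨u', w, hu', hw, hu0, hw0, hker⟩ := step1_Triple (lin_isHomogeneous ν) h0 hI1 hX
        (fun p => (hc2 p).1) hc1 (hd j hj) hj hA hA0 hA1 e2 e1 e0
      have hu1 : u' ∈ I₁ := hB hj u' hu' hker
      rcases Nat.lt_or_ge j 2 with hj2 | hj2
      · have hj1 : j - 1 = 0 := by omega
        rw [hj1] at hu'
        have h1 := sup_hom_zero hu' hu1
        have h2 := add_mem (h0 hu0) (Ideal.mul_mem_left I (lin x) (h0 h1))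
        convert h2 using 1
        ring
      · obtain ⟨u, hu, huu⟩ := hd (j - 1) (by omega) u' hu' hu1
        rw [show j - 1 - 1 = j - 2 by omega] at hu
        have h1 := step2_Triple (lin_isHomogeneous ν) h0 hI1 hX (fun p => (hc2 p).1) hc1
          (hd j hj) hj2 hA (hB hj) hA2 huu hu hw hw0 hu0 e0 f1 f2
        have h2 := (hc2 u).2 (hC hj2 u hu h1)
        have h3 := add_mem (add_mem (h0 hu0) (Ideal.mul_mem_left I (lin x) (h0 huu))) h2
        convert h3 using 1
        ring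
  -- the polynomial version
  have hpli : PLI I ν x (m + 2) j := by
    intro a ha hmem
    obtain ⟨b, hb⟩ : ∃ b : Polynomial (MvPolynomial (Fin 3) F), b = Polynomial.X ^ 4 * a :=
      ⟨_, rfl⟩
    have hbh : HP b j := by
      rw [hb]
      simpa using (HP.X.pow 4).mul ha
    have hcoeff : ∀ i, b.coeff (i + 4) = a.coeff i := by
      intro i
      rw [hb, Polynomial.coeff_X_pow_mul]
    have hbm : (mus ν x) ^ (m + 2) * b ∈ PI I := by
      rw [hb, mul_left_comm]
      exact Ideal.mul_mem_left _ _ hmem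
    obtain ⟨q, hq⟩ := expand_Triple (Polynomial.C (lin ν))
      (Polynomial.X * Polynomial.C (lin x)) m
    have hrel : ∀ k, 2 * lin ν ^ (m + 2) * b.coeff (k + 2) +
        2 * ((m : MvPolynomial (Fin 3) F) + 2) * lin x * lin ν ^ (m + 1) * b.coeff (k + 1) +
        ((m : MvPolynomial (Fin 3) F) + 2) * ((m : MvPolynomial (Fin 3) F) + 1) *
        lin x ^ 2 * lin ν ^ m * b.coeff k ∈ I := by
      intro k
      have h1 := Ideal.mul_mem_left _ 2 hbm
      rw [← mul_assoc, mus, hq] at h1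
      have h2 : (Polynomial.X * Polynomial.C (lin x)) ^ 3 * q * b ∈ PI I := by
        have h3 : (Polynomial.C (lin x ^ 3) : Polynomial (MvPolynomial (Fin 3) F)) ∈ PI I :=
          Ideal.mem_map_of_mem _ hcube
        have h4 := Ideal.mul_mem_left (PI I) (Polynomial.X ^ 3 * q * b) h3
        rw [Polynomial.C_pow] at h4
        convert h4 using 1
        ring
      have h3 := sub_mem h1 h2
      have h4 := mem_PI.1 h3 (k + 2)
      have h5 : (2 * Polynomial.C (lin ν) ^ (m + 2) +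
          2 * ((m : Polynomial (MvPolynomial (Fin 3) F)) + 2) *
            (Polynomial.X * Polynomial.C (lin x)) * Polynomial.C (lin ν) ^ (m + 1) +
          ((m : Polynomial (MvPolynomial (Fin 3) F)) + 2) *
            ((m : Polynomial (MvPolynomial (Fin 3) F)) + 1) *
            (Polynomial.X * Polynomial.C (lin x)) ^ 2 * Polynomial.C (lin ν) ^ m +
          (Polynomial.X * Polynomial.C (lin x)) ^ 3 * q) * b -
          (Polynomial.X * Polynomial.C (lin x)) ^ 3 * q * b =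
          Polynomial.C (2 * lin ν ^ (m + 2)) * b +
          Polynomial.X * (Polynomial.C (2 * ((m : MvPolynomial (Fin 3) F) + 2) * lin x *
            lin ν ^ (m + 1)) * b) +
          Polynomial.X ^ 2 * (Polynomial.C (((m : MvPolynomial (Fin 3) F) + 2) *
            ((m : MvPolynomial (Fin 3) F) + 1) * lin x ^ 2 * lin ν ^ m) * b) := by
        simp only [Polynomial.C_mul, Polynomial.C_add, Polynomial.C_pow, map_natCast,
          map_ofNat, Polynomial.C_1]
        ring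
      rw [h5, Polynomial.coeff_add, Polynomial.coeff_add, Polynomial.coeff_C_mul,
        Polynomial.coeff_X_mul, Polynomial.coeff_C_mul, Polynomial.coeff_X_pow_mul,
        Polynomial.coeff_C_mul] at h4
      exact h4
    -- downward induction
    have key : ∀ d i : ℕ, a.natDegree < i + d → a.coeff i ∈ I := by
      intro d
      induction d with
      | zero =>
        intro i hi
        rw [Polynomial.coeff_eq_zero_of_natDegree_lt (by omega)]
        exact I.zero_mem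
      | succ d ih =>
        intro i hi
        have hz1 : b.coeff (i + 5) ∈ I := by
          rw [show i + 5 = (i + 1) + 4 by ring, hcoeff]
          exact ih (i + 1) (by omega)
        have hz2 : b.coeff (i + 6) ∈ I := by
          rw [show i + 6 = (i + 2) + 4 by ring, hcoeff]
          exact ih (i + 2) (by omega)
        rw [← hcoeff i]
        refine core (b.coeff (i + 4)) (b.coeff (i + 3)) (b.coeff (i + 2)) (b.coeff (i + 1))
          (b.coeff i) (hbh _) (hbh _) (hbh _) ?_ ?_ (hrel (i + 2)) (hrel (i + 1)) (hrel i)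
        · have h1 := hrel (i + 4)
          have h2 := Ideal.mul_mem_left I (2 * lin ν ^ (m + 2)) hz2
          have h3 := Ideal.mul_mem_left I
            (2 * ((m : MvPolynomial (Fin 3) F) + 2) * lin x * lin ν ^ (m + 1)) hz1
          have h4 := sub_mem h1 (add_mem h2 h3)
          convert h4 using 1
          ring
        · have h1 := hrel (i + 3)
          have h2 := Ideal.mul_mem_left I (2 * lin ν ^ (m + 2)) hz1
          have h4 := sub_mem h1 h2
          convert h4 using 1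
          ring
    rw [mem_PI]
    intro i
    exact key (a.natDegree + 1) i (by omega)
  obtain ⟨t, ht⟩ := hpli.finite_bad.infinite_compl.nonempty
  rw [Set.mem_compl_iff, Set.mem_ofPred_eq, not_not] at ht
  exact ⟨_, ht⟩

end Pool.Agent.Lef3
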