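import Pool.Agent.Lef3.Dbl2
import Pool.Agent.Lef3.Reg
import Pool.Agent.Lef3.Gen
import Pool.Agent.Lef3.Gen2
import Pool.Agent.Lef3.Gen3
import Pool.Agent.Lef3.Const
import Pool.Agent.Lef3.KD
import Pool.Agent.Lef3.Norm
import Pool.Agent.Lef3.Triple

/-!
Three variables, a product of three linear forms: the injectivity of the powers.
-/

set_option autoImplicit false
set_option linter.unusedSectionVars false

noncomputable section

namespace Pool.Agent.Lef3

open MvPolynomial Pool.Agent.LefProd

universe u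

variable {F : Type u} [Field F] [CharZero F]

lemma pd_single (i : Fin 3) (f : Lam F) : pd (Pi.single i 1) f = pderiv i f := by
  induction f using MvPolynomial.induction_on with
  | C a => rw [pd_C, pderiv_C]
  | add p q hp hq => rw [map_add, map_add, hp, hq]
  | mul_X p j hp =>
    rw [pd_mul, pd_X, hp, pderiv_mul, pderiv_X, Pi.single_apply, Pi.single_apply]
    by_cases h : j = i
    · rw [if_pos h, if_pos h, C_1]
      ring
    · rw [if_neg h, if_neg h, C_0]
      ring

lemma eu_of_hom {f : Lam F} {d : ℕ} (hf : f.IsHomogeneous d) : eu f = (d : Lam F) * f := by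
  have h1 := hf.sum_X_mul_pderiv
  rw [eu_apply, ← nsmul_eq_mul, ← h1]
  exact Finset.sum_congr rfl fun i _ => by rw [pd_single]

/-- the solution of a kernel element -/
theorem exists_Sol {L : Type u} [Field L] [CharZero L] [Algebra (Lam F) L] [Algebra F L]
    [IsScalarTower F (Lam F) L] {D : Fin 3 → Derivation ℤ L L} (hext : Ext (F := F) D)
    (hcomm : ∀ i j x, D i (D j x) = D j (D i x)) {l₁ l₂ l₃ : List (Fin 3 → F)}
    (hci : CI ⊥ [l₁, l₂, l₃]) (hlen : l₁.length = 3) {s j : ℕ} (hs : 1 ≤ s) (hj : 1 ≤ j)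
    (hj2 : j < l₂.length) (hj3 : j < l₃.length) (hsj : 2 * j + s = l₂.length + l₃.length)
    {d : ℕ} {w : ix (J ⊥ [l₁, l₂, l₃]) j → Lam F} (hwd : ∀ i, (w i).IsHomogeneous d)
    (hker : Matrix.mulVec (GW (J ⊥ [l₁, l₂, l₃]) j s) w = 0) :
    ∃ (e e' : ℕ) (v k : MvPolynomial (Fin 3) (Lam F)) (mu : L) (nu : Fin 3 → L),
      Sol D l₁ l₂ l₃ s e e' (uu _ w) v k mu nu := by
  obtain ⟨h, v, k, hv, hk, heq⟩ := exists_sol w hker (e := l₂.length - j)
    (e' := l₃.length - j) (by omega) (by omega)
  set u := uu (J ⊥ [l₁, l₂, l₃]) w with hu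
  obtain ⟨R1, R2, ⟨g, R4⟩, R5, R6⟩ := reg (L := L) hext.dual hext.const hci rfl rfl rfl
  have hf1 : (map (algebraMap F L) (pr l₁)).IsHomogeneous 3 := by
    have := (pr_isHomogeneous l₁).map (algebraMap F L)
    rwa [hlen] at this
  have hf2 : (map (algebraMap F L) (pr l₂)).IsHomogeneous l₂.length := (pr_isHomogeneous l₂).map _
  have c0 : ∀ (l : List (Fin 3 → F)) (i : Fin 3), cD (D i) (map (algebraMap F L) (pr l)) = 0 :=
    fun l i => cD_map_zero _ _ (hext.const i) _
  have hdvd : cst (pr l₁) ∣ gl F ^ s * u - cst (pr l₂) * v - cst (pr l₃) * k :=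
    ⟨h, by rw [heq]; ring⟩
  have hdvdL : map (algebraMap F L) (pr l₁) ∣ lin (lg F L) ^ s * map (algebraMap (Lam F) L) u -
      map (algebraMap F L) (pr l₂) * map (algebraMap (Lam F) L) v -
      map (algebraMap F L) (pr l₃) * map (algebraMap (Lam F) L) k := by
    have := map_dvd (map (algebraMap (Lam F) L)) hdvd
    rwa [map_sub, map_sub, map_mul, map_mul, map_mul, map_pow, map_gl, map_cst, map_cst,
      map_cst] at this
  have hl0 : lg F L ≠ 0 := by
    intro h0
    have := hext.dual 0 0
    rw [h0, Pi.zero_apply, map_zero, if_pos rfl] at this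
    exact zero_ne_one this
  obtain ⟨mu, nu, xi, F2, F3, F4⟩ := four_formulas D hl0 hext.dual hs hf1 (c0 l₁) (c0 l₂) (c0 l₃)
    R1 (R2 (s - 1)) (by
      intro X A m hX
      have := R2 1 X A m (by rw [pow_one]; exact hX)
      rwa [pow_one] at this) R4 (hv.map (algebraMap (Lam F) L)) (hk.map (algebraMap (Lam F) L))
    (by omega) hdvdL
  have hE : cD (dl D (lg F L)) (map (algebraMap (Lam F) L) u) =
      C (d : L) * map (algebraMap (Lam F) L) u := by
    have e1 : ∀ a : Lam F, dl D (lg F L) (algebraMap (Lam F) L a) =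
        algebraMap (Lam F) L (eu a) := by
      intro a
      rw [eu_apply, map_sum, dl_apply]
      refine Finset.sum_congr rfl fun i _ => ?_
      rw [map_mul, hext]
      rfl
    rw [hu, uu, map_sum, map_sum, Finset.mul_sum]
    refine Finset.sum_congr rfl fun i _ => ?_
    rw [map_mul, map_C, map_cst, cD_mul, cD_C, e1, eu_of_hom (hwd i),
      cD_map_zero _ _ (hext.dl_const _)]
    simp only [map_mul, map_natCast, mul_zero, zero_add]
    ring
  obtain ⟨V, Kk⟩ := euler_vk D hext.dual hcomm hf1 hf2 (c0 l₁) (c0 l₂) (c0 l₃) R5 R6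
    (hk.map (algebraMap (Lam F) L)) (show l₂.length - j < l₂.length by omega) hdvdL hE
  obtain ⟨M1, M2, M3⟩ := euler_mu_nu D hext.dual hcomm hs hf1 (c0 l₁) R1
    (r := (d : L) + s) (fun i => by
      rw [map_add, Derivation.map_natCast, Derivation.map_natCast, add_zero]) V Kk F4
  refine ⟨l₂.length - j, l₃.length - j, v, k, mu, nu, ?_⟩
  exact {
    ext := hext
    hs := hs
    hes := by omega
    he := by omega
    he' := by omega
    heb := by omega
    hec := by omega
    hv := hv
    hk := hk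
    H1 := hdvd
    H23 := ⟨xi, F2, F3⟩
    H4 := F4
    sum := M1
    eul := ⟨2 * d + s, by
      rw [M2]
      push_cast
      ring, fun i => by
      rw [M3]
      push_cast
      ring⟩ }

end Pool.Agent.Lef3
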