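import Pool.Agent.Lef3.Main

/-!
Three variables, a product of three linear forms: the injectivity of the powers.
-/

set_option autoImplicit false
set_option linter.unusedSectionVars false

noncomputable section

namespace Pool.Agent.Lef3

open MvPolynomial Pool.Agent.LefProd

universe u

variable {F : Type u} [Field F] [CharZero F]

/-- the middle range, all cases except the triple line -/
theorem middle {g l₂ l₃ : List (Fin 3 → F)}
    (hg : g = [(eZ F).w, (eX F).w] ∨ g = [(eZ F).w, (eS F).w] ∨ g = [(eZ F).w, (eY F).w])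
    (hci : CI ⊥ [(eY F).w :: g, l₂, l₃]) {s j : ℕ} (hs : 1 ≤ s) (hj : 1 ≤ j)
    (hj2 : j < l₂.length) (hj3 : j < l₃.length) (hsj : 2 * j + s = l₂.length + l₃.length) :
    EX (J ⊥ [(eY F).w :: g, l₂, l₃]) s j := by
  have hg2 : g.length = 2 := by
    rcases hg with rfl | rfl | rfl <;> rfl
  have hlen : ((eY F).w :: g).length = 3 := by rw [List.length_cons, hg2]
  have hZ : (eZ F).w ∈ (eY F).w :: g := by
    rcases hg with rfl | rfl | rfl <;> simp
  have hY : (eY F).w ∈ (eY F).w :: g := List.mem_cons_self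
  have hsg : sg [(eY F).w :: g, l₂, l₃] = l₂.length + l₃.length := by
    rw [sg_cons, sg_cons, sg_cons, hlen]
    simp only [sg_nil]
    omega
  by_contra hcon
  have hnot : ¬ Inj (GW (J ⊥ [(eY F).w :: g, l₂, l₃]) j s) := fun h => hcon (ex_of_inj h)
  obtain ⟨d, w, hw0, hwd, hprim, hker⟩ := exists_prim_hom hnot
  -- the field of fractions
  let L := FractionRing (Lam F)
  have hinj : Function.Injective (algebraMap (Lam F) L) := IsFractionRing.injective (Lam F) L
  have hCL : CharZero L := charZero_of_injective_algebraMap (algebraMap F L).injective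
  have hInf : Infinite L := CharZero.infinite L
  choose D hext using fun i : Fin 3 => exists_fd (L := L) (pd (Pi.single i (1 : F)))
  have hcomm : ∀ i j x, D i (D j x) = D j (D i x) := by
    intro i j x
    exact comm_of_comm (A := Lam F) (pd_comm _ _) (hext i) (hext j) x
  obtain ⟨e, e', v, k, mu, nu, S⟩ := exists_Sol (L := L) hext hcomm hci hlen hs hj hj2 hj3 hsj
    hwd hker
  set u := uu (J ⊥ [(eY F).w :: g, l₂, l₃]) w with hu
  have huh : u.IsHomogeneous j := uu_hom _ _
  have htY := tr_of_ci hci hY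
  have htZ := tr_of_ci hci hZ
  -- `nu 1` is not zero
  have hnu : sp (up L (eY F).w) nu ≠ 0 := by
    intro h0
    obtain ⟨c, hc0, hc⟩ := S.const_rel hinj (eY F) hY htY huh h0
    refine const_false hci hg2 hs (by omega) w hw0 hker hc0 ?_
    obtain ⟨q, hq⟩ := hc
    have h1 : cst (lin (eY F).w) ∈ (J (Submodule.span F {(eY F).w}) [l₂, l₃]).map
        (MvPolynomial.map (C : F →+* Lam F)) :=
      Ideal.mem_map_of_mem _ (lin_mem_J (Submodule.mem_span_singleton_self _))
    have h2 := Ideal.mul_mem_right q _ h1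
    rw [← hq] at h2
    exact h2
  have hmu : mu ≠ 0 := by
    intro h0
    apply hnu
    have h6 := S.six (eY F) hY
    have h7 := S.seven (eY F) hY
    have hs0 : (s : L) ≠ 0 := Nat.cast_ne_zero.2 (by omega)
    rw [h0, zero_mul, neg_zero, map_mul] at h6
    have h8 := (mul_eq_zero.1 h6).resolve_left hs0
    have hF : algebraMap (Lam F) L ((eY F).vl (cst (pr l₂))) ≠ 0 := by
      rw [Ne, map_eq_zero_iff _ hinj]
      exact (eY F).vl_cst_pr_ne fun v hv => (htY v hv).1
    apply (mul_eq_zero.1 (_ : sp (up L (eY F).w) nu *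
      algebraMap (Lam F) L ((eY F).vl (cst (pr l₂))) = 0)).resolve_right hF
    rw [← h7]
    rcases mul_eq_zero.1 h8 with h | h
    · rw [map_eq_zero_iff _ hinj] at h
      rw [h]
      simp
    · rw [map_eq_zero_iff _ hinj] at h
      rw [h]
      simp
  -- primitivity
  have hprim' : ∀ P : Lam F, Prime P → ∀ (K : Type u) (_ : Field K) (π : Lam F →+* K),
      (∀ a, π a = 0 ↔ P ∣ a) →
      ¬ map (π.comp (C : F →+* Lam F)) (pr ((eY F).w :: g)) ∣ map π u := by
    intro P hP K hK π hπ hdvd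
    obtain ⟨i, hi⟩ := hprim P hP
    apply hi
    rw [← hπ]
    have h1 := coeffs_zero (π.comp (C : F →+* Lam F)) (J ⊥ [(eY F).w :: g, l₂, l₃])
      (fun i => π (w i)) (by
        have e1 : ∑ i, C (π (w i)) * map (π.comp (C : F →+* Lam F))
            ((crd (J ⊥ [(eY F).w :: g, l₂, l₃]) j).b i) = map π u := by
          rw [hu, uu, map_sum]
          refine Finset.sum_congr rfl fun i _ => ?_
          rw [map_mul, map_C, cst, map_map]
        rw [e1]
        obtain ⟨q, hq⟩ := hdvd
        rw [hq]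
        exact Ideal.mul_mem_right _ _ (Ideal.mem_map_of_mem _ (pr_mem_J (by simp))))
    exact congrFun h1 i
  -- the orders
  have nYZ : (eY F).w ∉ Submodule.span F {(eZ F).w} := by
    rw [(eZ F).mem_iff]
    simp [eY, eZ, sp_three]
  have nYX : (eY F).w ∉ Submodule.span F {(eX F).w} := by
    rw [(eX F).mem_iff]
    simp [eY, eX, sp_three]
  have nZX : (eZ F).w ∉ Submodule.span F {(eX F).w} := by
    rw [(eX F).mem_iff]
    simp [eZ, eX, sp_three]
  have nYS : (eY F).w ∉ Submodule.span F {(eS F).w} := by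
    rw [(eS F).mem_iff]
    simp [eY, eS, sp_three]
  have nZS : (eZ F).w ∉ Submodule.span F {(eS F).w} := by
    rw [(eS F).mem_iff]
    simp [eZ, eS, sp_three]
  have hord : ∀ P : Lam F, Prime P → pd (eY F).w P ≠ 0 → pd (eZ F).w P ≠ 0 →
      emultiplicity P ((eY F).vl k) = emultiplicity P ((eZ F).vl k) ∧
      emultiplicity P ((eY F).vl u) = emultiplicity P ((eZ F).vl u) := by
    rcases hg with rfl | rfl | rfl
    · refine S.orders hinj hci (eY F) (eZ F) (eX F) rfl rfl rfl nYZ nYX nZX huh hmu hprim'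
        (a := ![X 1, X 2, X 0]) (β := 1) ?_ ?_ ?_
      · intro i
        fin_cases i <;> simp [eY, eZ, eX]
      · intro P hP hdvd
        by_contra h
        refine not_dvd_of_pd _ hP h (X_ne_zero (1 : Fin 3)) ?_ hdvd
        rw [pd_X]
        simp [eZ]
      · intro P hP hdvd
        by_contra h
        refine not_dvd_of_pd _ hP h (X_ne_zero (2 : Fin 3)) ?_ hdvd
        rw [pd_X]
        simp [eY]
    · refine S.orders hinj hci (eY F) (eZ F) (eS F) rfl rfl rfl nYZ nYS nZS huh hmu hprim'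
        (a := ![1, 1, -1]) (β := 0) ?_ ?_ ?_
      · intro i
        fin_cases i <;> simp [eY, eZ, eS]
      · intro P hP hdvd
        exact absurd (isUnit_of_dvd_one hdvd) hP.not_isUnit
      · intro P hP hdvd
        exact absurd (isUnit_of_dvd_one hdvd) hP.not_isUnit
    · exact S.orders_dbl hinj hci hmu
  have h12 := S.mixed hinj hcomm (eY F) (eZ F) hY hZ htY htZ hmu rfl rfl hord
  exact S.flat hinj hcomm (eY F) hY htY hmu hnu h12

/-- all degrees, the second list not longer than the third -/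
theorem cubic_aux {l₁ l₂ l₃ : List (Fin 3 → F)} (hlen : l₁.length = 3)
    (hci : CI ⊥ [l₁, l₂, l₃]) (hle : l₂.length ≤ l₃.length) {s j : ℕ}
    (hsj : 2 * j + s = sg [l₁, l₂, l₃]) : EX (J ⊥ [l₁, l₂, l₃]) s j := by
  refine norm_EX hlen hci fun l₁' l₂' l₃' h2 h3 hci' hnf => ?_
  have hlen' : l₁'.length = 3 := by
    rcases hnf with rfl | rfl | rfl | rfl <;> rfl
  have hsg : sg [l₁', l₂', l₃'] = sg [l₁, l₂, l₃] := by
    rw [sg_cons, sg_cons, sg_cons, sg_cons, sg_cons, sg_cons, hlen, hlen', h2, h3]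
  have hn2 : l₂' ≠ [] := hci'.1 _ (by simp)
  have hn3 : l₃' ≠ [] := hci'.1 _ (by simp)
  have hp2 := List.length_pos_iff.2 hn2
  have hp3 := List.length_pos_iff.2 hn3
  have hsg2 : sg [l₁', l₂', l₃'] = l₂'.length + l₃'.length := by
    rw [sg_cons, sg_cons, sg_cons, hlen']
    simp only [sg_nil]
    omega
  by_cases hs : s = 0
  · rw [hs]
    exact EX.zero _ _
  obtain ⟨x, g, rfl⟩ : ∃ x g, l₁' = x :: g := by
    cases l₁' with
    | nil => simp at hlen'
    | cons x g => exact ⟨x, g, rfl⟩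
  have hg : g.length = 2 := by
    rw [List.length_cons] at hlen'
    omega
  by_cases hext : j = 0 ∨ j + s ≤ l₃'.length
  · exact extreme_EX hci' hg (by omega) hext
  push Not at hext
  have key : ∀ g' : List (Fin 3 → F), (g' = [(eZ F).w, (eX F).w] ∨ g' = [(eZ F).w, (eS F).w] ∨
      g' = [(eZ F).w, (eY F).w]) → CI ⊥ [(eY F).w :: g', l₂', l₃'] →
      EX (J ⊥ [(eY F).w :: g', l₂', l₃']) s j := by
    intro g' hg' hci''
    exact middle hg' hci'' (by omega) (by omega) (by omega) (by omega) (by omega)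
  rcases hnf with h | h | h | h
  · obtain ⟨rfl, rfl⟩ := List.cons_eq_cons.1 h
    exact key _ (Or.inl rfl) hci'
  · obtain ⟨rfl, rfl⟩ := List.cons_eq_cons.1 h
    exact key _ (Or.inr (Or.inl rfl)) hci'
  · obtain ⟨rfl, rfl⟩ := List.cons_eq_cons.1 h
    exact key _ (Or.inr (Or.inr rfl)) hci'
  · obtain ⟨rfl, rfl⟩ := List.cons_eq_cons.1 h
    exact triple_EX hci' (by omega)

/-- **Three variables, one cubic: all powers are injective in the expected range.** -/
theorem cubic_EX {l₁ l₂ l₃ : List (Fin 3 → F)} (hlen : l₁.length ≤ 3)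
    (hci : CI ⊥ [l₁, l₂, l₃]) {m j : ℕ} (h : 2 * j + m ≤ sg [l₁, l₂, l₃]) :
    EX (J ⊥ [l₁, l₂, l₃]) m j := by
  by_cases h2 : l₁.length ≤ 2
  · exact three_slp (by simp) h2 hci h
  have h3 : l₁.length = 3 := by omega
  have hm : m ≤ sg [l₁, l₂, l₃] - 2 * j := by omega
  refine EX.of_le hm ?_
  by_cases hle : l₂.length ≤ l₃.length
  · exact cubic_aux h3 hci hle (by omega)
  · have hperm : [l₁, l₂, l₃].Perm [l₁, l₃, l₂] := List.Perm.cons _ (List.Perm.swap _ _ _)
    rw [J_perm hperm]
    have hsg : sg [l₁, l₃, l₂] = sg [l₁, l₂, l₃] := by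
      rw [sg_cons, sg_cons, sg_cons, sg_cons, sg_cons, sg_cons]
      omega
    exact cubic_aux h3 (hci.perm hperm) (by omega) (by omega)

end Pool.Agent.Lef3
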