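import Pool.Agent.Lef3.Curl
import Pool.Agent.Lef3.HLem

/-!
The closedness of `nu / mu` from the agreement of the orders at the points of two lines.
-/

set_option autoImplicit false
set_option linter.unusedSectionVars false

noncomputable section

namespace Pool.Agent.Lef3

open MvPolynomial Pool.Agent.LefProd

universe u

variable {F : Type u} [Field F] [CharZero F] {L : Type u} [Field L] [CharZero L]
  [Algebra (Lam F) L] [Algebra F L] [IsScalarTower F (Lam F) L]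

lemma pd_unit (g : Fin 3 → F) {a : Lam F} (ha : IsUnit a) : pd g a = 0 := by
  obtain ⟨r, -, hr⟩ := isUnit_iff_eq_C_of_isReduced.1 ha
  rw [hr, pd_C]

/-- one logarithmic derivative -/
lemma Sol.nu_div (hinj : Function.Injective (algebraMap (Lam F) L))
    {D : Fin 3 → Derivation ℤ L L} {l₁ l₂ l₃ : List (Fin 3 → F)} {s e e' : ℕ}
    {u v k : MvPolynomial (Fin 3) (Lam F)} {mu : L} {nu : Fin 3 → L}
    (S : Sol D l₁ l₂ l₃ s e e' u v k mu nu) (E : Edg F) (hw : E.w ∈ l₁)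
    (htr : Tr (Submodule.span F {E.w}) [l₂, l₃]) (hmu : mu ≠ 0) {i : Fin 3}
    (hE : E.w = Pi.single i 1) :
    nu i / mu = -(s : L)⁻¹ * (D i (algebraMap (Lam F) L (E.vl k)) /
      algebraMap (Lam F) L (E.vl k) - D i (algebraMap (Lam F) L (E.vl u)) /
      algebraMap (Lam F) L (E.vl u)) ∧ E.vl k ≠ 0 ∧ E.vl u ≠ 0 := by
  have h6 := S.six E hw
  have h7 := S.seven E hw
  have hs0 : (s : L) ≠ 0 := Nat.cast_ne_zero.2 (by have := S.hs; omega)
  have hF : algebraMap (Lam F) L (E.vl (cst (pr l₂))) ≠ 0 := by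
    rw [Ne, map_eq_zero_iff _ hinj]
    exact E.vl_cst_pr_ne fun v hv => (htr v hv).1
  have hk : algebraMap (Lam F) L (E.vl k) ≠ 0 := by
    intro h0
    rw [map_mul, h0, mul_zero, mul_zero, eq_comm, neg_eq_zero] at h6
    exact mul_ne_zero hmu hF h6
  have hu : algebraMap (Lam F) L (E.vl u) ≠ 0 := by
    intro h0
    rw [map_mul, h0, zero_mul, mul_zero, eq_comm, neg_eq_zero] at h6
    exact mul_ne_zero hmu hF h6
  refine ⟨?_, fun h => hk (by rw [h, map_zero]), fun h => hu (by rw [h, map_zero])⟩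
  have e2 : sp (up L E.w) nu = nu i := by
    rw [sp, hE, Finset.sum_eq_single i]
    · simp [up]
    · intro j _ hj
      simp [up, Pi.single_eq_of_ne hj]
    · simp
  have e3 : ∀ a, algebraMap (Lam F) L (pd E.w a) = D i (algebraMap (Lam F) L a) := by
    intro a
    rw [S.ext, hE]
  rw [e2, map_sub, map_mul, map_mul, e3, e3] at h7
  rw [map_mul] at h6
  have h8 : nu i * (s * (algebraMap (Lam F) L (E.vl u) * algebraMap (Lam F) L (E.vl k))) =
      -(mu * (algebraMap (Lam F) L (E.vl u) * D i (algebraMap (Lam F) L (E.vl k)) -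
        algebraMap (Lam F) L (E.vl k) * D i (algebraMap (Lam F) L (E.vl u)))) := by
    linear_combination nu i * h6 + mu * h7
  field_simp
  linear_combination h8

/-- **Closedness.** -/
theorem Sol.mixed (hinj : Function.Injective (algebraMap (Lam F) L))
    {D : Fin 3 → Derivation ℤ L L} (hcomm : ∀ i j x, D i (D j x) = D j (D i x))
    {l₁ l₂ l₃ : List (Fin 3 → F)} {s e e' : ℕ}
    {u v k : MvPolynomial (Fin 3) (Lam F)} {mu : L} {nu : Fin 3 → L}
    (S : Sol D l₁ l₂ l₃ s e e' u v k mu nu) (E₀ E₁ : Edg F) (hw₀ : E₀.w ∈ l₁) (hw₁ : E₁.w ∈ l₁)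
    (ht₀ : Tr (Submodule.span F {E₀.w}) [l₂, l₃]) (ht₁ : Tr (Submodule.span F {E₁.w}) [l₂, l₃])
    (hmu : mu ≠ 0) (hE₀ : E₀.w = Pi.single 1 1) (hE₁ : E₁.w = Pi.single 2 1)
    (hord : ∀ P : Lam F, Prime P → pd E₀.w P ≠ 0 → pd E₁.w P ≠ 0 →
      emultiplicity P (E₀.vl k) = emultiplicity P (E₁.vl k) ∧
      emultiplicity P (E₀.vl u) = emultiplicity P (E₁.vl u)) :
    D 1 (nu 2 / mu) = D 2 (nu 1 / mu) := by
  obtain ⟨h1, hk0, hu0⟩ := S.nu_div hinj E₀ hw₀ ht₀ hmu hE₀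
  obtain ⟨h2, hk1, hu1⟩ := S.nu_div hinj E₁ hw₁ ht₁ hmu hE₁
  have key : ∀ x y : Lam F, x ≠ 0 → y ≠ 0 → (∀ P : Lam F, Prime P → pd E₀.w P ≠ 0 →
      pd E₁.w P ≠ 0 → emultiplicity P x = emultiplicity P y) →
      D 2 (D 1 (algebraMap (Lam F) L x) / algebraMap (Lam F) L x) =
        D 1 (D 2 (algebraMap (Lam F) L y) / algebraMap (Lam F) L y) := by
    intro x y hx hy hxy
    obtain ⟨g, x₁, x₂, y₁, y₂, ex, ey, d1, d2, d3, d4⟩ := exists_factor (pd E₀.w) (pd E₁.w)
      (fun a ha => ⟨pd_unit _ ha, pd_unit _ ha⟩) hx hy hxy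
    have hx' : algebraMap (Lam F) L g * algebraMap (Lam F) L x₁ * algebraMap (Lam F) L x₂ ≠ 0 := by
      rw [← map_mul, ← map_mul, ← ex, Ne, map_eq_zero_iff _ hinj]
      exact hx
    have hy' : algebraMap (Lam F) L g * algebraMap (Lam F) L y₁ * algebraMap (Lam F) L y₂ ≠ 0 := by
      rw [← map_mul, ← map_mul, ← ey, Ne, map_eq_zero_iff _ hinj]
      exact hy
    have c1 : ∀ a : Lam F, pd E₀.w a = 0 → D 1 (algebraMap (Lam F) L a) = 0 := by
      intro a ha
      rw [S.ext, ← hE₀, ha, map_zero]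
    have c2 : ∀ a : Lam F, pd E₁.w a = 0 → D 2 (algebraMap (Lam F) L a) = 0 := by
      intro a ha
      rw [S.ext, ← hE₁, ha, map_zero]
    have := mixed_ld (D 1) (D 2) (hcomm 1 2) hx' hy' (c1 _ d1) (c1 _ d2) (c2 _ d3) (c2 _ d4)
    rw [← map_mul, ← map_mul, ← map_mul, ← map_mul, ← ex, ← ey] at this
    exact this
  have hc : ∀ (i : Fin 3) (x : L), D i (-(s : L)⁻¹ * x) = -(s : L)⁻¹ * D i x := by
    intro i x
    have hs : D i (-(s : L)⁻¹) = 0 := by
      rw [map_neg, Derivation.leibniz_inv, Derivation.map_natCast]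
      simp
    rw [Derivation.leibniz, hs, smul_zero, add_zero, smul_eq_mul]
  rw [h1, h2, hc, hc, map_sub, map_sub, key _ _ hk0 hk1 fun P hP a b => (hord P hP a b).1,
    key _ _ hu0 hu1 fun P hP a b => (hord P hP a b).2]

end Pool.Agent.Lef3
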