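import Pool.Agent.Lef3.Order

/-!
A solution on a line which vanishes at the point of the generic form is zero.
-/

set_option autoImplicit false
set_option linter.unusedSectionVars false

noncomputable section

namespace Pool.Agent.Lef3

universe u

section poly

open Polynomial

variable {L : Type u} [Field L] [CharZero L]

private lemma deg_of_mul_Uniq {a b : L} (ha : a ≠ 0) {p : L[X]} {n : ℕ}
    (h : ((C a * X + C b) * p).degree ≤ (n : WithBot ℕ)) : p.degree < (n : WithBot ℕ) := by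
  by_cases hp : p = 0
  · rw [hp, degree_zero]
    exact WithBot.bot_lt_coe n
  · rw [degree_mul, lin_degree b ha, degree_eq_natDegree hp] at h
    rw [degree_eq_natDegree hp]
    have h1 : ((1 + p.natDegree : ℕ) : WithBot ℕ) ≤ (n : WithBot ℕ) := by exact_mod_cast h
    have h2 := Nat.cast_le.1 h1
    exact Nat.cast_lt.2 (by omega)

/-- A solution which vanishes at the zero of `l` is zero. -/
theorem uniq (D : Derivation ℤ L L) {a b : L} (ha : a ≠ 0)
    (hD : pD D (C a * X + C b) = 1) {u v k f₂ f₃ : L[X]} (h2 : pD D f₂ = 0) (h3 : pD D f₃ = 0)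
    (hf : f₂.eval (-b / a) ≠ 0) (hcop : IsCoprime f₂ f₃) {s e e' : ℕ} (hs : 1 ≤ s)
    (hes : e + e' = s)
    (h : (C a * X + C b) ^ s * u = f₂ * v + f₃ * k)
    (hv : v.degree ≤ e') (hk : k.degree ≤ e) (hkf : k.degree < f₂.degree ∨ v.degree < f₃.degree)
    (hu0 : u.eval (-b / a) = 0) (hk0 : k.eval (-b / a) = 0) : u = 0 := by
  have hl0 := lin_ne_zero b ha
  have hirr : Irreducible (C a * X + C b : L[X]) := irreducible_of_degree_eq_one (lin_degree b ha)
  have hroot : ∀ p : L[X], p.eval (-b / a) = 0 → (C a * X + C b) ∣ p := by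
    intro p hp
    have h1 : (C a * X + C b : L[X]) = C a * (X - C (-b / a)) := by
      rw [mul_sub, ← C_mul]
      have : a * (-b / a) = -b := by field_simp
      rw [this, C_neg]
      ring
    rw [h1]
    have h2 : X - C (-b / a) ∣ p := dvd_iff_isRoot.2 hp
    obtain ⟨r, hr⟩ := h2
    refine ⟨C a⁻¹ * r, ?_⟩
    rw [hr]
    have h3 : (C a * C a⁻¹ : L[X]) = 1 := by
      rw [← C_mul, mul_inv_cancel₀ ha, C_1]
    linear_combination (-(X - C (-b / a)) * r) * h3
  have hv0 : v.eval (-b / a) = 0 := by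
    have h1 := congrArg (eval (-b / a)) h
    rw [eval_add, eval_mul, eval_mul, eval_mul, hk0, hu0] at h1
    simp only [mul_zero, add_zero] at h1
    exact (mul_eq_zero.1 h1.symm).resolve_left hf
  obtain ⟨u₁, hu₁⟩ := hroot u hu0
  obtain ⟨v₁, hv₁⟩ := hroot v hv0
  obtain ⟨k₁, hk₁⟩ := hroot k hk0
  have hv' : v₁.degree < (e' : WithBot ℕ) := deg_of_mul_Uniq ha (hv₁ ▸ hv)
  have hk' : k₁.degree < (e : WithBot ℕ) := deg_of_mul_Uniq ha (hk₁ ▸ hk)
  have hdv : v₁.degree ≤ v.degree := by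
    rw [hv₁, degree_mul, lin_degree b ha]
    exact le_add_of_nonneg_left (by norm_num)
  have hdk : k₁.degree ≤ k.degree := by
    rw [hk₁, degree_mul, lin_degree b ha]
    exact le_add_of_nonneg_left (by norm_num)
  set l : L[X] := C a * X + C b with hl
  have h' : l ^ s * u₁ = f₂ * v₁ + f₃ * k₁ := by
    apply mul_left_cancel₀ hl0
    rw [hu₁, hv₁, hk₁] at h
    linear_combination h
  have hee : (e : WithBot ℕ) ≤ s := Nat.cast_le.2 (by omega)
  have hee' : (e' : WithBot ℕ) ≤ s := Nat.cast_le.2 (by omega)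
  have hW : v₁ * pD D k₁ = k₁ * pD D v₁ := by
    rw [← sub_eq_zero]
    obtain ⟨t, rfl⟩ : ∃ t, s = t + 1 := ⟨s - 1, by omega⟩
    have e1 := congrArg (pD D) h'
    rw [map_add, pD_mul, pD_pow, pD_mul, pD_mul, h2, h3, hD, Nat.add_sub_cancel] at e1
    have e2 : l ^ t ∣ f₂ * (v₁ * pD D k₁ - k₁ * pD D v₁) := by
      refine ⟨l * (u₁ * pD D k₁ - k₁ * pD D u₁) - ((t + 1 : ℕ) : L[X]) * u₁ * k₁, ?_⟩
      linear_combination (-(pD D k₁)) * h' + k₁ * e1
    have e3 : l ^ t ∣ v₁ * pD D k₁ - k₁ * pD D v₁ :=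
      (lin_coprime ha hf).pow_left.dvd_of_dvd_mul_left e2
    apply zero_of_pow_dvd ha e3
    by_cases hv10 : v₁ = 0
    · rw [hv10, map_zero, zero_mul, mul_zero, sub_zero, degree_zero]
      exact WithBot.bot_lt_coe t
    by_cases hk10 : k₁ = 0
    · rw [hk10, map_zero, zero_mul, mul_zero, sub_zero, degree_zero]
      exact WithBot.bot_lt_coe t
    have d1 : (v₁ * pD D k₁ - k₁ * pD D v₁).degree ≤ v₁.degree + k₁.degree := by
      refine (degree_sub_le _ _).trans (max_le ?_ ?_)
      · rw [degree_mul]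
        exact add_le_add le_rfl (degree_pD_le D k₁)
      · rw [degree_mul, add_comm v₁.degree]
        exact add_le_add le_rfl (degree_pD_le D v₁)
    refine lt_of_le_of_lt d1 ?_
    rw [degree_eq_natDegree hv10] at hv' ⊢
    rw [degree_eq_natDegree hk10] at hk' ⊢
    have n1 := Nat.cast_lt.1 hv'
    have n2 := Nat.cast_lt.1 hk'
    rw [← Nat.cast_add]
    exact Nat.cast_lt.2 (by omega)
  have hD' : pD D (C a * X + C b) = C 1 := by
    rw [C_1]
    exact hD
  have := wronskian_zero D ha one_ne_zero hD' h2 h3 hf hcop hs h' hW (lt_of_lt_of_le hv' hee')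
    (lt_of_lt_of_le hk' hee) (hkf.imp (lt_of_le_of_lt hdk) (lt_of_le_of_lt hdv))
  rw [hu₁, this.1, mul_zero]

end poly

end Pool.Agent.Lef3
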