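import Pool.Agent.Lef3.Form
import Pool.Agent.Lef3.Uniq

/-!
If `nu` vanishes in the direction of a line then the image of `u` on this line is, up to a factor,
independent of the generic form in this direction.
-/

set_option autoImplicit false
set_option linter.unusedSectionVars false

noncomputable section

namespace Pool.Agent.Lef3

open MvPolynomial Pool.Agent.LefProd

universe u

variable {F : Type u} [Field F] [CharZero F] {L : Type u} [Field L] [CharZero L]
  [Algebra (Lam F) L] [Algebra F L] [IsScalarTower F (Lam F) L]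

/-- the generic form does not vanish at a point over `F` -/
lemma sp_X_ne {e : Fin 3 → F} (h : e ≠ 0) : (sp X fun i => C (e i) : Lam F) ≠ 0 := by
  obtain ⟨i, hi⟩ : ∃ i, e i ≠ 0 := by
    by_contra hcon
    push Not at hcon
    exact h (funext hcon)
  intro h0
  have h1 := congrArg (pd (Pi.single i 1)) h0
  rw [pd_sp, map_zero (pd (Pi.single i 1))] at h1
  have h2 : sp (Pi.single i (1 : F)) e = e i := by
    rw [sp, Finset.sum_eq_single i]
    · simp
    · intro j _ hj
      simp [Pi.single_eq_of_ne hj]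
    · simp
  rw [h2] at h1
  exact hi (C_injective _ _ (h1.trans C_0.symm))

lemma Edg.p_ne (E : Edg F) : E.p ≠ 0 := by
  intro h
  have := E.ap
  rw [h, sp_three] at this
  simp at this

section inj

variable (hinj : Function.Injective (algebraMap (Lam F) L))

include hinj

lemma Edg.lp_ne (E : Edg F) : sp (lg F L) (up L E.p) ≠ 0 := by
  rw [← alg_sp, Ne, map_eq_zero_iff _ hinj]
  exact sp_X_ne E.p_ne

/-- the value of the restriction at the zero of the generic form -/
lemma Edg.rl_eval (E : Edg F) {d : ℕ} {f : MvPolynomial (Fin 3) (Lam F)} (hf : f.IsHomogeneous d) :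
    (E.rl L f).eval (-sp (lg F L) (up L E.q) / sp (lg F L) (up L E.p)) = 0 ↔ E.vl f = 0 := by
  have h1 := E.alg_vl (L := L) f
  rw [eval_ept (E.lp_ne hinj) (hf.map _)] at h1
  constructor
  · intro h
    rw [Edg.rl] at h
    rw [h, mul_zero] at h1
    exact (map_eq_zero_iff _ hinj).1 h1
  · intro h
    rw [h, map_zero] at h1
    exact (mul_eq_zero.1 h1.symm).resolve_left (pow_ne_zero _ (neg_ne_zero.2 (E.lp_ne hinj)))

lemma Edg.rs_eval_ne (E : Edg F) {l : List (Fin 3 → F)}
    (h : ∀ v ∈ l, v ∉ Submodule.span F {E.w}) : (E.rs L (pr l)).eval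
      (-sp (lg F L) (up L E.q) / sp (lg F L) (up L E.p)) ≠ 0 := by
  rw [← E.rl_cst, Ne, E.rl_eval hinj ((pr_isHomogeneous l).map _)]
  exact E.vl_cst_pr_ne h

end inj

section ext

variable {D : Fin 3 → Derivation ℤ L L} (hD : Ext (F := F) D) (E : Edg F)

include hD

lemma Ext.pD_rs (g : Fin 3 → F) (f : MvPolynomial (Fin 3) F) :
    pD (dl D (up L g)) (E.rs L f) = 0 := by
  have hp : ∀ i, dl D (up L g) (up L E.p i) = 0 := fun i => hD.dl_const _ _
  have hq : ∀ i, dl D (up L g) (up L E.q i) = 0 := fun i => hD.dl_const _ _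
  rw [Edg.rs, res_cD _ hp hq, cD_map_zero _ _ (hD.dl_const _), map_zero]

lemma Ext.pD_rl (g : Fin 3 → F) (f : MvPolynomial (Fin 3) (Lam F)) :
    pD (dl D (up L g)) (E.rl L f) = E.rl L (cD (pd g) f) := by
  have hp : ∀ i, dl D (up L g) (up L E.p i) = 0 := fun i => hD.dl_const _ _
  have hq : ∀ i, dl D (up L g) (up L E.q i) = 0 := fun i => hD.dl_const _ _
  rw [Edg.rl, res_cD _ hp hq, hD.cD_map]

lemma Ext.pD_ll (g : Fin 3 → F) : pD (dl D (up L g)) (E.ll L) =
    Polynomial.C (algebraMap F L (sp g E.p)) * Polynomial.X +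
      Polynomial.C (algebraMap F L (sp g E.q)) := by
  rw [Edg.ll, map_add, pD_mul, pD_C, pD_C, pD_X, ← alg_sp, ← alg_sp, hD.dl_up, hD.dl_up, pd_sp,
    pd_sp, alg_C, alg_C]
  ring

end ext

/-- **The constancy relation.** -/
theorem Sol.const_rel [Infinite L] (hinj : Function.Injective (algebraMap (Lam F) L))
    {D : Fin 3 → Derivation ℤ L L} {l₁ l₂ l₃ : List (Fin 3 → F)} {s e e' : ℕ}
    {u v k : MvPolynomial (Fin 3) (Lam F)} {mu : L} {nu : Fin 3 → L}
    (S : Sol D l₁ l₂ l₃ s e e' u v k mu nu) (E : Edg F) (hw : E.w ∈ l₁)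
    (htr : Tr (Submodule.span F {E.w}) [l₂, l₃]) {j : ℕ} (hu : u.IsHomogeneous j)
    (h0 : sp (up L E.w) nu = 0) :
    ∃ c : Lam F, c ≠ 0 ∧ cst (lin E.w) ∣ C c * cD (pd E.w) u - C (pd E.w c) * u := by
  have h7 := S.seven E hw
  rw [h0, zero_mul, map_eq_zero_iff _ hinj] at h7
  -- it suffices to find `c` such that both values vanish
  suffices hc : ∃ c : Lam F, c ≠ 0 ∧ c * pd E.w (E.vl u) - pd E.w c * E.vl u = 0 ∧
      c * pd E.w (E.vl k) - pd E.w c * E.vl k = 0 by
    obtain ⟨c, hc0, hcu, hck⟩ := hc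
    refine ⟨c, hc0, ?_⟩
    have hom : ∀ {f : MvPolynomial (Fin 3) (Lam F)} {d : ℕ}, f.IsHomogeneous d →
        (C c * cD (pd E.w) f - C (pd E.w c) * f).IsHomogeneous d := by
      intro f d hf
      have e1 := (isHomogeneous_C (Fin 3) c).mul (cD_isHomogeneous (pd E.w) hf)
      have e2 := (isHomogeneous_C (Fin 3) (pd E.w c)).mul hf
      rw [zero_add] at e1 e2
      exact e1.sub e2
    apply E.cst_dvd_of_res (L := L) hinj (hom hu)
    have hvl : ∀ f : MvPolynomial (Fin 3) (Lam F), E.vl (C c * cD (pd E.w) f -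
        C (pd E.w c) * f) = c * pd E.w (E.vl f) - pd E.w c * E.vl f := by
      intro f
      rw [E.pd_vl, Edg.vl, Edg.vl, Edg.vl, map_sub, map_mul, map_mul, eval_C, eval_C]
    have hrl : ∀ f : MvPolynomial (Fin 3) (Lam F), E.rl L (C c * cD (pd E.w) f -
        C (pd E.w c) * f) = Polynomial.C (algebraMap (Lam F) L c) *
          pD (dl D (up L E.w)) (E.rl L f) -
          Polynomial.C (algebraMap (Lam F) L (pd E.w c)) * E.rl L f := by
      intro f
      rw [S.ext.pD_rl, Edg.rl, Edg.rl, Edg.rl, map_sub, map_sub, map_mul, map_mul, map_mul,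
        map_mul, map_C, map_C, res_C, res_C]
    have hDb : pD (dl D (up L E.b)) (E.ll L) = 1 := by
      rw [S.ext.pD_ll, E.bp, E.bq]
      simp
    have hDw : pD (dl D (up L E.w)) (E.ll L) = 0 := by
      rw [S.ext.pD_ll, E.wp, E.wq]
      simp
    have hlt : ∀ {p q : Polynomial L} {n : ℕ}, p.degree ≤ n → q.degree ≤ n → ∀ a b : L,
        (Polynomial.C a * pD (dl D (up L E.w)) p - Polynomial.C b * q).degree ≤ n := by
      intro p q n hp hq a b
      refine (Polynomial.degree_sub_le _ _).trans (max_le ?_ ?_)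
      · exact (degree_C_mul_le' _ _).trans ((degree_pD_le _ _).trans hp)
      · exact (degree_C_mul_le' _ _).trans hq
    refine uniq (dl D (up L E.b)) (E.lp_ne hinj) hDb (u := E.rl L (C c * cD (pd E.w) u -
        C (pd E.w c) * u)) (v := E.rl L (C c * cD (pd E.w) v - C (pd E.w c) * v))
        (k := E.rl L (C c * cD (pd E.w) k - C (pd E.w c) * k))
        (f₂ := E.rs L (pr l₂)) (f₃ := E.rs L (pr l₃)) (S.ext.pD_rs E _ _) (S.ext.pD_rs E _ _)
        (E.rs_eval_ne hinj fun v hv => (htr v hv).1) (E.coprime htr) S.hs S.hes ?_ ?_ ?_ ?_ ?_ ?_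
    · have h1 := S.one E hw
      have h2 := congrArg (pD (dl D (up L E.w))) h1
      rw [map_add, pD_mul, pD_pow, hDw, pD_mul, pD_mul, S.ext.pD_rs, S.ext.pD_rs] at h2
      rw [hrl, hrl, hrl]
      linear_combination Polynomial.C (algebraMap (Lam F) L c) * h2 -
        Polynomial.C (algebraMap (Lam F) L (pd E.w c)) * h1
    · rw [hrl]
      exact hlt (S.deg_v E) (S.deg_v E) _ _
    · rw [hrl]
      exact hlt (S.deg_k E) (S.deg_k E) _ _
    · rw [hrl, hrl]
      rcases E.degree (K := L) htr with hd | hd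
      · left
        rw [hd]
        exact lt_of_le_of_lt (hlt (S.deg_k E) (S.deg_k E) _ _) (Nat.cast_lt.2 S.heb)
      · right
        rw [hd]
        exact lt_of_le_of_lt (hlt (S.deg_v E) (S.deg_v E) _ _) (Nat.cast_lt.2 S.hec)
    · rw [E.rl_eval hinj (hom hu), hvl, hcu]
    · rw [E.rl_eval hinj (hom S.hk), hvl, hck]
  by_cases hk : E.vl k = 0
  · by_cases hu0 : E.vl u = 0
    · refine ⟨1, one_ne_zero, ?_, ?_⟩
      · rw [hu0, map_zero]
        ring
      · rw [hk, map_zero]
        ring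
    · refine ⟨E.vl u, hu0, by ring, ?_⟩
      linear_combination h7
  · refine ⟨E.vl k, hk, ?_, by ring⟩
    linear_combination -h7

end Pool.Agent.Lef3
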