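import Pool.Agent.Lef3.Mixed
import Pool.Agent.Lef3.Excl2

/-!
The orders on two of three different lines agree.
-/

set_option autoImplicit false
set_option linter.unusedSectionVars false

noncomputable section

namespace Pool.Agent.Lef3

open MvPolynomial Pool.Agent.LefProd

universe u

section euler

variable {F : Type u} [Field F]

/-- The Euler derivation. -/
def eu : Derivation ℤ (Lam F) (Lam F) :=
  (X 0 : Lam F) • pd (Pi.single 0 1) + (X 1 : Lam F) • pd (Pi.single 1 1) +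
    (X 2 : Lam F) • pd (Pi.single 2 1)

lemma eu_apply (a : Lam F) : eu a = ∑ i, X i * pd (Pi.single i 1) a := by
  rw [Fin.sum_univ_three]
  rfl

lemma eu_mul (a b : Lam F) : eu (a * b) = a * eu b + b * eu a := by
  rw [Derivation.leibniz, smul_eq_mul, smul_eq_mul]

lemma eu_C (a : F) : eu (C a : Lam F) = 0 := by
  rw [eu_apply]
  exact Finset.sum_eq_zero fun i _ => by rw [pd_C, mul_zero]

lemma eu_sp (e : Fin 3 → F) : eu (sp X (fun i => C (e i)) : Lam F) = sp X (fun i => C (e i)) := by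
  rw [eu_apply]
  conv_rhs => rw [sp]
  refine Finset.sum_congr rfl fun i _ => ?_
  rw [pd_sp]
  congr 2
  rw [sp, Finset.sum_eq_single i]
  · simp
  · intro j _ hj
    simp [Pi.single_eq_of_ne hj]
  · simp

lemma Edg.eu_vl (E : Edg F) (l : List (Fin 3 → F)) :
    eu (E.vl (cst (pr l))) = (l.length : Lam F) * E.vl (cst (pr l)) := by
  induction l with
  | nil =>
    rw [pr_nil, cst, map_one, Edg.vl, map_one, Derivation.map_one_eq_zero]
    simp
  | cons v l ih =>
    have h1 : cst (pr (v :: l)) = cst (lin v) * cst (pr l) := by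
      rw [cst, cst, cst, pr_cons, map_mul]
    have h2 : eu (E.vl (cst (lin v))) = E.vl (cst (lin v)) := by
      rw [E.vl_cst_lin, map_sub, eu_mul, eu_mul, eu_sp, eu_sp, eu_C, eu_C]
      ring
    rw [h1, E.vl_mul, eu_mul, ih, h2, List.length_cons]
    push_cast
    ring

/-- a prime divisor of an eigenvector of a derivation -/
lemma dvd_der {A : Type u} [CommRing A] [IsDomain A] [WfDvdMonoid A] (d : Derivation ℤ A A)
    (hZ : ∀ n : ℤ, n ≠ 0 → IsUnit (n : A)) {P x : A} (hP : Prime P) (hx : x ≠ 0) {N : A}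
    (h : d x = N * x) (hd : P ∣ x) : P ∣ d P := by
  obtain ⟨m, y, hxy, hy⟩ := exists_split hP hx
  have hm : m ≠ 0 := by
    rintro rfl
    rw [pow_zero, one_mul] at hxy
    rw [hxy] at hd
    exact hy hd
  have h1 := der_split d P y m
  rw [← hxy, h] at h1
  have h2 : P ^ m * (P * (N * y)) = P ^ m * ((m : A) * d P * y + P * d y) := by
    rw [← h1, hxy]
    ring
  have h3 := mul_left_cancel₀ (pow_ne_zero _ hP.ne_zero) h2
  have h4 : P ∣ (m : A) * d P * y := by
    have h5 : (m : A) * d P * y = P * (N * y - d y) := by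
      linear_combination -h3
    rw [h5]
    exact dvd_mul_right _ _
  rcases hP.dvd_or_dvd h4 with h5 | h5
  · rcases hP.dvd_or_dvd h5 with h6 | h6
    · have h7 := hZ m (by exact_mod_cast hm)
      rw [Int.cast_natCast] at h7
      exact absurd (isUnit_of_dvd_unit h6 h7) hP.not_isUnit
    · exact h6
  · exact absurd h5 hy

/-- a prime divisor of an eigenvector of the Euler derivation -/
lemma dvd_eu [CharZero F] {P x : Lam F} (hP : Prime P) (hx : x ≠ 0) {N : Lam F}
    (h : eu x = N * x) (hd : P ∣ x) : P ∣ eu P :=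
  dvd_der eu (fun _ hn => isUnit_int hn) hP hx h hd

end euler

variable {F : Type u} [Field F] [CharZero F] {L : Type u} [Field L] [CharZero L]
  [Algebra (Lam F) L] [Algebra F L] [IsScalarTower F (Lam F) L]

/-- the product of the values is an eigenvector of the Euler derivation -/
lemma Sol.eu_prod (hinj : Function.Injective (algebraMap (Lam F) L))
    {D : Fin 3 → Derivation ℤ L L} {l₁ l₂ l₃ : List (Fin 3 → F)} {s e e' : ℕ}
    {u v k : MvPolynomial (Fin 3) (Lam F)} {mu : L} {nu : Fin 3 → L}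
    (S : Sol D l₁ l₂ l₃ s e e' u v k mu nu) (E : Edg F) (hw : E.w ∈ l₁) :
    ∃ N : Lam F, eu (E.vl u * E.vl k) = N * (E.vl u * E.vl k) := by
  obtain ⟨R, hR, -⟩ := S.eul
  refine ⟨(R : Lam F) + (l₂.length : Lam F), ?_⟩
  apply hinj
  have h6 := S.six E hw
  have hs0 : (s : L) ≠ 0 := Nat.cast_ne_zero.2 (by have := S.hs; omega)
  have e1 : ∀ a : Lam F, algebraMap (Lam F) L (eu a) = dl D (lg F L) (algebraMap (Lam F) L a) := by
    intro a
    rw [eu_apply, map_sum, dl_apply]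
    refine Finset.sum_congr rfl fun i _ => ?_
    rw [map_mul, S.ext]
    rfl
  have e2 := congrArg (dl D (lg F L)) h6
  rw [map_neg, Derivation.leibniz, Derivation.leibniz, ← e1, ← e1, E.eu_vl, hR,
    Derivation.map_natCast] at e2
  simp only [smul_eq_mul, map_mul, map_natCast] at e2
  apply mul_left_cancel₀ hs0
  simp only [map_mul, map_add, map_natCast, map_intCast] at h6 ⊢
  rw [mul_zero, add_zero] at e2
  linear_combination e2 - ((R : L) + l₂.length) * h6

theorem Sol.orders (hinj : Function.Injective (algebraMap (Lam F) L))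
    {D : Fin 3 → Derivation ℤ L L} {l₁ l₂ l₃ : List (Fin 3 → F)} {s e e' : ℕ}
    {u v k : MvPolynomial (Fin 3) (Lam F)} {mu : L} {nu : Fin 3 → L}
    (S : Sol D l₁ l₂ l₃ s e e' u v k mu nu) (hci : CI ⊥ [l₁, l₂, l₃]) (E₀ E₁ E₂ : Edg F)
    (hl : l₁ = [E₀.w, E₁.w, E₂.w]) (hE₀ : E₀.w = Pi.single 1 1) (hE₁ : E₁.w = Pi.single 2 1)
    (h01 : E₀.w ∉ Submodule.span F {E₁.w}) (h02 : E₀.w ∉ Submodule.span F {E₂.w})
    (h12 : E₁.w ∉ Submodule.span F {E₂.w}) {j : ℕ} (hu : u.IsHomogeneous j) (hmu : mu ≠ 0)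
    (hprim : ∀ P : Lam F, Prime P → ∀ (K : Type u) (_ : Field K) (π : Lam F →+* K),
      (∀ a, π a = 0 ↔ P ∣ a) → ¬ map (π.comp (C : F →+* Lam F)) (pr l₁) ∣ map π u)
    {a : Fin 3 → Lam F} {β : F}
    (ha : ∀ i, a 0 * C (E₀.w i) + a 1 * C (E₁.w i) + a 2 * C (E₂.w i) = C β * X i)
    (ha0 : ∀ P : Lam F, Prime P → P ∣ a 0 → pd E₁.w P = 0)
    (ha1 : ∀ P : Lam F, Prime P → P ∣ a 1 → pd E₀.w P = 0) :
    ∀ P : Lam F, Prime P → pd E₀.w P ≠ 0 → pd E₁.w P ≠ 0 →
      emultiplicity P (E₀.vl k) = emultiplicity P (E₁.vl k) ∧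
      emultiplicity P (E₀.vl u) = emultiplicity P (E₁.vl u) := by
  intro P hP hd0 hd1
  have hw0 : E₀.w ∈ l₁ := by rw [hl]; simp
  have hw1 : E₁.w ∈ l₁ := by rw [hl]; simp
  have hw2 : E₂.w ∈ l₁ := by rw [hl]; simp
  have ht0 := tr_of_ci hci hw0
  have ht1 := tr_of_ci hci hw1
  have ht2 := tr_of_ci hci hw2
  let Ee : Fin 3 → Edg F := ![E₀, E₁, E₂]
  have hwE : ∀ i, (Ee i).w ∈ l₁ := by
    intro i
    fin_cases i
    · exact hw0
    · exact hw1
    · exact hw2
  have htE : ∀ i, Tr (Submodule.span F {(Ee i).w}) [l₂, l₃] := fun i => tr_of_ci hci (hwE i)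
  have hs0 : (s : L) ≠ 0 := Nat.cast_ne_zero.2 (by have := S.hs; omega)
  have hprod : ∀ i, (Ee i).vl u * (Ee i).vl k ≠ 0 := by
    intro i h0
    have h6 := S.six (Ee i) (hwE i)
    rw [h0, map_zero, mul_zero, eq_comm, neg_eq_zero] at h6
    have h7 := (mul_eq_zero.1 h6).resolve_left hmu
    rw [map_eq_zero_iff _ hinj] at h7
    exact (Ee i).vl_cst_pr_ne (fun v hv => (htE i v hv).1) h7
  have hpd : ∀ (g : Fin 3 → F) (Q : Lam F), Prime Q → pd g Q ≠ 0 → ¬ Q ∣ pd g Q :=
    fun g Q _ h => not_dvd_pd g h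
  refine orders_agree (d := fun i => pd (Ee i).w) (fun n hn => isUnit_int hn)
    (fun Q hQ i => hpd _ Q hQ) (U := fun i => (Ee i).vl u) (K := fun i => (Ee i).vl k)
    (F := fun i => (Ee i).vl (cst (pr l₂))) (a := a) (c := C β * (s : Lam F)) ?_ ?_ ?_ ?_ ?_ ?_ ?_
    ?_ ha0 ha1 P hP hd0 hd1
  · exact fun i => right_ne_zero_of_mul (hprod i)
  · exact fun i => left_ne_zero_of_mul (hprod i)
  · exact fun i => (Ee i).vl_cst_pr_ne fun v hv => (htE i v hv).1
  · exact fun i i' => S.h1 hinj (Ee i) (Ee i') (hwE i) (hwE i')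
  · exact fun i => (Ee i).pd_vl_cst _
  · -- the relation
    apply hinj
    have e0 := S.seven E₀ hw0
    have e1 := S.seven E₁ hw1
    have e2 := S.seven E₂ hw2
    have e6 := S.six E₀ hw0
    have hsum := S.sum
    have hβ : algebraMap (Lam F) L (a 0) * sp (up L E₀.w) nu +
        algebraMap (Lam F) L (a 1) * sp (up L E₁.w) nu +
        algebraMap (Lam F) L (a 2) * sp (up L E₂.w) nu = algebraMap F L β * sp (lg F L) nu := by
      have h0 := congrArg (algebraMap (Lam F) L) (ha 0)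
      have h1 := congrArg (algebraMap (Lam F) L) (ha 1)
      have h2 := congrArg (algebraMap (Lam F) L) (ha 2)
      simp only [map_add, map_mul, alg_C] at h0 h1 h2
      simp only [sp_three, up, lg]
      linear_combination nu 0 * h0 + nu 1 * h1 + nu 2 * h2
    change algebraMap (Lam F) L (a 0 * (E₀.vl u * pd E₀.w (E₀.vl k) -
      E₀.vl k * pd E₀.w (E₀.vl u)) * (E₁.vl (cst (pr l₂)) * E₂.vl (cst (pr l₂))) +
      a 1 * (E₁.vl u * pd E₁.w (E₁.vl k) - E₁.vl k * pd E₁.w (E₁.vl u)) *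
        (E₀.vl (cst (pr l₂)) * E₂.vl (cst (pr l₂))) +
      a 2 * (E₂.vl u * pd E₂.w (E₂.vl k) - E₂.vl k * pd E₂.w (E₂.vl u)) *
        (E₀.vl (cst (pr l₂)) * E₁.vl (cst (pr l₂)))) =
      algebraMap (Lam F) L (C β * (s : Lam F) * (E₀.vl u * E₀.vl k) *
        (E₁.vl (cst (pr l₂)) * E₂.vl (cst (pr l₂))))
    simp only [map_add, map_mul]
    rw [e0, e1, e2]
    simp only [map_mul, alg_C, map_natCast] at e6 ⊢
    linear_combination (algebraMap (Lam F) L (E₀.vl (cst (pr l₂))) *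
      algebraMap (Lam F) L (E₁.vl (cst (pr l₂))) *
      algebraMap (Lam F) L (E₂.vl (cst (pr l₂)))) * (hβ + algebraMap F L β * hsum) -
      algebraMap F L β * algebraMap (Lam F) L (E₁.vl (cst (pr l₂))) *
      algebraMap (Lam F) L (E₂.vl (cst (pr l₂))) * e6
  · -- the Euler relation
    intro Q hQ hdvd
    obtain ⟨N, hN⟩ := S.eu_prod hinj E₀ hw0
    have h1 : Q ∣ E₀.vl u * E₀.vl k := by
      rcases hdvd with h | h
      · exact Dvd.dvd.mul_left h _
      · exact Dvd.dvd.mul_right h _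
    have h2 := dvd_eu hQ (hprod 0) hN h1
    have h3 : ∑ i, a i * pd (Ee i).w Q = C β * eu Q := by
      have g : ∀ w : Fin 3 → F, pd w Q = ∑ i, C (w i) * pd (Pi.single i 1) Q :=
        fun w => pd_eq_sum w Q
      rw [Fin.sum_univ_three, eu_apply]
      change a 0 * pd E₀.w Q + a 1 * pd E₁.w Q + a 2 * pd E₂.w Q = _
      rw [g E₀.w, g E₁.w, g E₂.w, Fin.sum_univ_three, Fin.sum_univ_three, Fin.sum_univ_three,
        Fin.sum_univ_three]
      linear_combination pd (Pi.single 0 1) Q * ha 0 + pd (Pi.single 1 1) Q * ha 1 +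
        pd (Pi.single 2 1) Q * ha 2
    change Q ∣ ∑ i, a i * pd (Ee i).w Q
    rw [h3]
    exact h2.mul_left _
  · intro Q hQ hall hdvd
    obtain ⟨K, hK, π, hπ, h⟩ := S.excl hinj hci E₀ E₁ E₂ hl hE₀ hE₁ h01 h02 h12 hu hQ (hall 0)
      (hall 1) (hall 2) hdvd
    exact hprim Q hQ K hK π hπ h

end Pool.Agent.Lef3
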