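import Pool.Agent.Lef3.Main2
import Pool.Agent.LefProd.Final2

/-!
Linear generators: reduction to three variables; the final form of the theorem.
-/

set_option autoImplicit false
set_option linter.unusedSectionVars false

noncomputable section

namespace Pool.Agent.Lef3

open MvPolynomial Pool.Agent.LefProd

universe u

variable {F : Type u} [Field F] {n : ℕ}

/-- the algebra map of a linear map -/
def am (φ : (Fin n → F) →ₗ[F] (Fin 3 → F)) :
    MvPolynomial (Fin n) F →ₐ[F] MvPolynomial (Fin 3) F :=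
  aeval fun i => lin (φ (Pi.single i 1))

/-- the algebra map of a linear map -/
def bm (ψ : (Fin 3 → F) →ₗ[F] (Fin n → F)) :
    MvPolynomial (Fin 3) F →ₐ[F] MvPolynomial (Fin n) F :=
  aeval fun i => lin (ψ (Pi.single i 1))

lemma am_lin (φ : (Fin n → F) →ₗ[F] (Fin 3 → F)) (v : Fin n → F) : am φ (lin v) = lin (φ v) := by
  conv_lhs => rw [lin_apply, map_sum]
  conv_rhs => rw [pi_eq_sum_univ' v, map_sum, map_sum]
  refine Finset.sum_congr rfl fun i _ => ?_
  rw [map_smul, map_smul, map_smul, am, aeval_X]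

lemma bm_lin (ψ : (Fin 3 → F) →ₗ[F] (Fin n → F)) (v : Fin 3 → F) : bm ψ (lin v) = lin (ψ v) := by
  conv_lhs => rw [lin_apply, map_sum]
  conv_rhs => rw [pi_eq_sum_univ' v, map_sum, map_sum]
  refine Finset.sum_congr rfl fun i _ => ?_
  rw [map_smul, map_smul, map_smul, bm, aeval_X]

lemma am_pr (φ : (Fin n → F) →ₗ[F] (Fin 3 → F)) (l : List (Fin n → F)) :
    am φ (pr l) = pr (l.map φ) := by
  induction l with
  | nil => simp
  | cons v l ih => rw [pr_cons, map_mul, am_lin, ih, List.map_cons, pr_cons]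

lemma bm_pr (ψ : (Fin 3 → F) →ₗ[F] (Fin n → F)) (l : List (Fin 3 → F)) :
    bm ψ (pr l) = pr (l.map ψ) := by
  induction l with
  | nil => simp
  | cons v l ih => rw [pr_cons, map_mul, bm_lin, ih, List.map_cons, pr_cons]

lemma am_hom (φ : (Fin n → F) →ₗ[F] (Fin 3 → F)) {p : MvPolynomial (Fin n) F} {j : ℕ}
    (hp : p.IsHomogeneous j) : (am φ p).IsHomogeneous j := by
  have := hp.aeval (fun i => lin (φ (Pi.single i 1))) (n := 1) fun i => lin_isHomogeneous _
  rwa [one_mul] at this

lemma bm_am (φ : (Fin n → F) →ₗ[F] (Fin 3 → F)) (ψ : (Fin 3 → F) →ₗ[F] (Fin n → F))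
    (p : MvPolynomial (Fin n) F) : bm ψ (am φ p) = theta (ψ ∘ₗ φ) p := by
  induction p using MvPolynomial.induction_on with
  | C a => simp [am, bm, theta]
  | add p q hp hq => rw [map_add, map_add, hp, hq, map_add]
  | mul_X p i hp =>
    rw [map_mul, map_mul, hp, map_mul]
    congr 1
    rw [← lin_single, am_lin, bm_lin, theta_lin]
    rfl

section red

variable {W : Submodule F (Fin n → F)} {φ : (Fin n → F) →ₗ[F] (Fin 3 → F)}

lemma tr_map (hker : LinearMap.ker φ = W) : ∀ {𝓛 : List (List (Fin n → F))}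
    {V : Submodule F (Fin n → F)}, W ≤ V → Tr V 𝓛 → Tr (V.map φ) (𝓛.map (List.map φ)) := by
  intro 𝓛
  induction 𝓛 with
  | nil => intro V _ _; exact trivial
  | cons l 𝓛 ih =>
    intro V hV h x hx
    obtain ⟨v, hv, rfl⟩ := List.mem_map.1 hx
    obtain ⟨h1, h2⟩ := h v hv
    constructor
    · rintro ⟨y, hy, hyv⟩
      apply h1
      have h3 : v - y ∈ W := by
        rw [← hker, LinearMap.mem_ker, map_sub, hyv, sub_self]
      have := add_mem (hV h3) hy
      rwa [sub_add_cancel] at this
    · have h3 := ih (V := V ⊔ Submodule.span F {v}) (hV.trans le_sup_left) h2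
      rwa [Submodule.map_sup, Submodule.map_span, Set.image_singleton] at h3

lemma ci_map (hker : LinearMap.ker φ = W) {𝓛 : List (List (Fin n → F))} (h : CI W 𝓛)
    (h3 : 𝓛.length = 3) : CI ⊥ (𝓛.map (List.map φ)) := by
  refine ⟨?_, ?_, ?_⟩
  · intro l hl
    obtain ⟨l', hl', rfl⟩ := List.mem_map.1 hl
    have := h.1 l' hl'
    simpa using this
  · have h1 := tr_map hker le_rfl h.2.1
    have h2 : W.map φ = ⊥ := by
      rw [eq_bot_iff]
      rintro _ ⟨w, hw, rfl⟩
      exact (Submodule.mem_bot F).2 (LinearMap.mem_ker.1 (hker ▸ hw))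
    rwa [h2] at h1
  · rw [List.length_map, h3, finrank_bot]

lemma sg_map (𝓛 : List (List (Fin n → F))) : sg (𝓛.map (List.map φ)) = sg 𝓛 := by
  induction 𝓛 with
  | nil => rfl
  | cons l 𝓛 ih => rw [List.map_cons, sg_cons, sg_cons, ih, List.length_map]

/-- reduction of the number of variables -/
theorem ex_red (hker : LinearMap.ker φ = W) {ψ : (Fin 3 → F) →ₗ[F] (Fin n → F)}
    (hψ : ∀ x, φ (ψ x) = x) {𝓛 : List (List (Fin n → F))} {m j : ℕ}
    (h : EX (J ⊥ (𝓛.map (List.map φ))) m j) : EX (J W 𝓛) m j := by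
  obtain ⟨ν, hν⟩ := h
  refine ⟨ψ ν, fun p hp hmem => ?_⟩
  have hφ : J W 𝓛 ≤ (J ⊥ (𝓛.map (List.map φ))).comap (am φ) := by
    rw [J_le_iff]
    constructor
    · intro w hw
      rw [Ideal.mem_comap, am_lin, show φ w = 0 from LinearMap.mem_ker.1 (hker ▸ hw), map_zero]
      exact Ideal.zero_mem _
    · intro l hl
      rw [Ideal.mem_comap, am_pr]
      exact pr_mem_J (List.mem_map_of_mem hl)
  have hπ : ∀ v, v - (ψ ∘ₗ φ) v ∈ W := by
    intro v
    rw [← hker, LinearMap.mem_ker, map_sub, LinearMap.comp_apply, hψ, sub_self]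
  have hle : J W [] ≤ J W 𝓛 := by
    rw [J_nil, J]
    exact le_sup_left
  have hψle : J ⊥ (𝓛.map (List.map φ)) ≤ (J W 𝓛).comap (bm ψ) := by
    rw [J_le_iff]
    constructor
    · intro w hw
      rw [Submodule.mem_bot] at hw
      rw [hw, map_zero]
      exact Ideal.zero_mem _
    · intro l hl
      obtain ⟨l', hl', rfl⟩ := List.mem_map.1 hl
      rw [Ideal.mem_comap, ← am_pr, bm_am]
      have h1 := sub_mem (pr_mem_J (W := W) hl') (hle (sub_theta_mem W hπ (pr l')))
      rwa [sub_sub_cancel] at h1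
  have h1 := hφ hmem
  rw [Ideal.mem_comap, map_mul, map_pow, am_lin, hψ] at h1
  have h2 := hψle (hν _ (am_hom φ hp) h1)
  rw [Ideal.mem_comap, bm_am] at h2
  have h3 := add_mem (hle (sub_theta_mem W hπ p)) h2
  rwa [sub_add_cancel] at h3

end red

/-- three essential variables, one cubic: all powers are injective in the expected range -/
theorem three_cubic [CharZero F] {W : Submodule F (Fin n → F)} {l₁ l₂ l₃ : List (Fin n → F)}
    (hW : Module.finrank F W + 3 = n) (hlen : l₁.length ≤ 3) (hci : CI W [l₁, l₂, l₃]) {m j : ℕ}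
    (h : 2 * j + m ≤ sg [l₁, l₂, l₃]) : EX (J W [l₁, l₂, l₃]) m j := by
  -- the linear map
  have hq : Module.finrank F ((Fin n → F) ⧸ W) = 3 := by
    have := W.finrank_quotient_add_finrank
    rw [Module.finrank_fin_fun] at this
    omega
  let e : ((Fin n → F) ⧸ W) ≃ₗ[F] (Fin 3 → F) := LinearEquiv.ofFinrankEq _ _ (by
    rw [hq, Module.finrank_fin_fun])
  let φ : (Fin n → F) →ₗ[F] (Fin 3 → F) := (e : ((Fin n → F) ⧸ W) →ₗ[F] (Fin 3 → F)) ∘ₗ W.mkQ
  have hker : LinearMap.ker φ = W := by
    rw [LinearEquiv.ker_comp, Submodule.ker_mkQ]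
  have hsurj : Function.Surjective φ := e.surjective.comp W.mkQ_surjective
  obtain ⟨ψ, hψ⟩ := φ.exists_rightInverse_of_surjective (LinearMap.range_eq_top.2 hsurj)
  apply ex_red hker (fun x => LinearMap.congr_fun hψ x)
  have h1 : ([l₁, l₂, l₃].map (List.map φ)) = [l₁.map φ, l₂.map φ, l₃.map φ] := rfl
  have h2 := ci_map hker hci rfl
  rw [h1] at h2 ⊢
  refine cubic_EX (by rw [List.length_map]; exact hlen) h2 ?_
  rw [← h1, sg_map]
  exact h

/-- the general form, by the number of lists -/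
theorem excess_EX [CharZero F] : ∀ (N : ℕ) (𝓠 𝓡 : List (List (Fin n → F)))
    (W : Submodule F (Fin n → F)), 𝓠.length ≤ N → 𝓡.length = 2 → sg 𝓠 ≤ 2 →
    CI W (𝓠 ++ 𝓡) → ∀ m j, 2 * j + m ≤ sg (𝓠 ++ 𝓡) → EX (J W (𝓠 ++ 𝓡)) m j := by
  classical
  intro N
  induction N with
  | zero =>
    intro 𝓠 𝓡 W hN hR _ hci m j h
    obtain rfl : 𝓠 = [] := List.length_eq_zero_iff.1 (by omega)
    rw [List.nil_append] at hci h ⊢
    exact two_EX (by have := hci.2.2; omega) hci h
  | succ N ih =>
    intro 𝓠 𝓡 W hN hR hQ hci m j h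
    by_cases hone : ∃ l ∈ 𝓠, l.length = 1
    · obtain ⟨l, hl, hl1⟩ := hone
      obtain ⟨v, rfl⟩ := List.length_eq_one_iff.1 hl1
      have hperm := List.perm_cons_erase hl
      have hperm2 : (𝓠 ++ 𝓡).Perm ([v] :: (𝓠.erase [v] ++ 𝓡)) := hperm.append_right 𝓡
      have hsg := sg_perm hperm
      have hsg2 := sg_perm hperm2
      have hlen := hperm.length_eq
      rw [sg_cons, List.length_singleton] at hsg hsg2
      rw [List.length_cons] at hlen
      rw [J_perm hperm2, J_singleton_cons]
      exact ih _ _ _ (by omega) hR (by omega) (hci.perm hperm2).sup m j (by omega)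
    · push Not at hone
      match 𝓠, hN, hQ, hci, h, hone with
      | [], _, _, hci, h, _ =>
        rw [List.nil_append] at hci h ⊢
        exact two_EX (by have := hci.2.2; omega) hci h
      | [l], _, hQ, hci, h, _ =>
        obtain ⟨r₁, r₂, rfl⟩ := List.length_eq_two.1 hR
        rw [sg_cons, sg_nil] at hQ
        exact three_cubic (hci.2.2) (by omega) hci h
      | [l, l'], _, hQ, hci, h, hone =>
        obtain ⟨r₁, r₂, rfl⟩ := List.length_eq_two.1 hR
        rw [sg_cons, sg_cons, sg_nil] at hQ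
        have h1 := hone l (by simp)
        have h2 := hone l' (by simp)
        have h3 : l ≠ [] := hci.1 l (by simp)
        have h4 : l' ≠ [] := hci.1 l' (by simp)
        have h5 := List.length_pos_iff.2 h3
        have h6 := List.length_pos_iff.2 h4
        exact four_slp (hci.2.2) (by omega) (by omega) hci h
      | l :: l' :: l'' :: 𝓠', _, hQ, hci, _, hone =>
        exfalso
        rw [sg_cons, sg_cons, sg_cons] at hQ
        have h1 := hone l (by simp)
        have h2 := hone l' (by simp)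
        have h2' := hone l'' (by simp)
        have h3 : l ≠ [] := hci.1 l (by simp)
        have h4 : l' ≠ [] := hci.1 l' (by simp)
        have h4' : l'' ≠ [] := hci.1 l'' (by simp)
        have h5 := List.length_pos_iff.2 h3
        have h6 := List.length_pos_iff.2 h4
        have h6' := List.length_pos_iff.2 h4'
        omega

end Pool.Agent.Lef3
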