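import Pool.Agent.Lef3.Red

/-!
The final form: some `n - 2` of the degrees have sum at most `n`.
-/

set_option autoImplicit false
set_option linter.unusedSectionVars false

noncomputable section

namespace Pool.Agent.Lef3

open MvPolynomial Pool.Agent.LefProd

universe u

variable {F : Type u} [Field F] {n : ℕ}

theorem slp_sum [CharZero F] (f : Fin n → MvPolynomial (Fin n) F) (a : Fin n → ℕ)
    (ha : ∀ i, 1 ≤ a i)
    (hf : ∀ i, ∃ ℓ : Fin (a i) → MvPolynomial (Fin n) F, (∀ j, (ℓ j).IsHomogeneous 1) ∧
      f i = ∏ j, ℓ j)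
    (hfin : Module.Finite F (MvPolynomial (Fin n) F ⧸ Ideal.span (Set.range f)))
    (S : Finset (Fin n)) (hS : S.card + 2 = n) (h : ∑ i ∈ S, a i ≤ n) :
    ∃ μ : Fin n → F, ∀ m j, MaxRank (Ideal.span (Set.range f)) (lin μ) m j := by
  classical
  obtain ⟨L, h1, h2, h3⟩ := reduce f a ha hf hfin
  have hperm0 : (List.finRange n).Perm (S.toList ++ Sᶜ.toList) := by
    rw [List.perm_ext_iff_of_nodup (List.nodup_finRange n)]
    · intro i
      simp [em]
    · rw [List.nodup_append]
      refine ⟨S.nodup_toList, Sᶜ.nodup_toList, ?_⟩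
      intro x hx y hy hxy
      rw [Finset.mem_toList] at hx hy
      rw [hxy] at hx
      exact (Finset.mem_compl.1 hy) hx
  have hperm : (List.ofFn L).Perm (S.toList.map L ++ Sᶜ.toList.map L) := by
    rw [List.ofFn_eq_map, ← List.map_append]
    exact hperm0.map L
  have hR : (Sᶜ.toList.map L).length = 2 := by
    rw [List.length_map, Finset.length_toList, Finset.card_compl, Fintype.card_fin]
    omega
  have hQ : sg (S.toList.map L) ≤ 2 := by
    have e1 : sg (S.toList.map L) = ∑ i ∈ S, (a i - 1) := by
      rw [sg, List.map_map, ← Finset.sum_map_toList]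
      congr 1
      refine List.map_congr_left fun i _ => ?_
      rw [Function.comp_apply, h1]
    have e2 : ∑ i ∈ S, (a i - 1) + S.card = ∑ i ∈ S, a i := by
      rw [Finset.card_eq_sum_ones, ← Finset.sum_add_distrib]
      exact Finset.sum_congr rfl fun i _ => Nat.sub_add_cancel (ha i)
    omega
  have hci := h2.perm hperm
  rw [h3, J_perm hperm]
  exact slp_of hci fun m j hj => excess_EX _ _ _ ⊥ le_rfl hR hQ hci m j hj

end Pool.Agent.Lef3
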